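import Pool.Agent.Y280.Typ

/-!
# Complete metrizability of sets of contractions
-/

set_option autoImplicit false
open Finset Filter Topology TopologicalSpace

namespace Pool.Agent.Y280

variable {E : Type*} [NormedAddCommGroup E] [NormedSpace ℂ E]

section

variable {W : Type*} [TopologicalSpace W]

/-- Pointwise convergence on a dense sequence, along any filter, for contractions. -/
lemma tendsto_dense {ι : Type*} {l : Filter ι} (T : ι → E →L[ℂ] E) (T0 : E →L[ℂ] E)
    (hT : ∀ i, ‖T i‖ ≤ 1) (hT0 : ‖T0‖ ≤ 1) (d : ℕ → E) (hd : DenseRange d)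
    (h : ∀ k, Tendsto (fun i => T i (d k)) l (𝓝 (T0 (d k)))) (x : E) :
    Tendsto (fun i => T i x) l (𝓝 (T0 x)) := by
  rw [Metric.tendsto_nhds]
  intro ε hε
  obtain ⟨k, hk⟩ := hd.exists_dist_lt x (show (0 : ℝ) < ε / 3 by positivity)
  rw [dist_eq_norm] at hk
  filter_upwards [(Metric.tendsto_nhds.1 (h k)) (ε / 3) (by positivity)] with i hi
  rw [dist_eq_norm] at hi ⊢
  have e : T i x - T0 x = T i (x - d k) + (T i (d k) - T0 (d k)) - T0 (x - d k) := by
    rw [map_sub, map_sub]; abel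
  rw [e]
  have a1 := norm_sub_le (T i (x - d k) + (T i (d k) - T0 (d k))) (T0 (x - d k))
  have a2 := norm_add_le (T i (x - d k)) (T i (d k) - T0 (d k))
  have a3 : ‖T i (x - d k)‖ ≤ ‖x - d k‖ :=
    ((T i).le_opNorm _).trans (mul_le_of_le_one_left (norm_nonneg _) (hT i))
  have a4 : ‖T0 (x - d k)‖ ≤ ‖x - d k‖ :=
    (T0.le_opNorm _).trans (mul_le_of_le_one_left (norm_nonneg _) hT0)
  linarith

lemma tendsto_dense_comp {ι : Type*} {l : Filter ι} (T : ι → E →L[ℂ] E) (T0 : E →L[ℂ] E)
    (hT : ∀ i, ‖T i‖ ≤ 1) (hT0 : ‖T0‖ ≤ 1) (d : ℕ → StrongDual ℂ E) (hd : DenseRange d)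
    (h : ∀ k, Tendsto (fun i => (d k).comp (T i)) l (𝓝 ((d k).comp T0))) (y : StrongDual ℂ E) :
    Tendsto (fun i => y.comp (T i)) l (𝓝 (y.comp T0)) := by
  rw [Metric.tendsto_nhds]
  intro ε hε
  obtain ⟨k, hk⟩ := hd.exists_dist_lt y (show (0 : ℝ) < ε / 3 by positivity)
  rw [dist_eq_norm] at hk
  filter_upwards [(Metric.tendsto_nhds.1 (h k)) (ε / 3) (by positivity)] with i hi
  rw [dist_eq_norm] at hi ⊢
  have e : y.comp (T i) - y.comp T0 = (y - d k).comp (T i) + ((d k).comp (T i) - (d k).comp T0) -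
      (y - d k).comp T0 := by
    rw [ContinuousLinearMap.sub_comp, ContinuousLinearMap.sub_comp]; abel
  rw [e]
  have a1 := norm_sub_le ((y - d k).comp (T i) + ((d k).comp (T i) - (d k).comp T0))
    ((y - d k).comp T0)
  have a2 := norm_add_le ((y - d k).comp (T i)) ((d k).comp (T i) - (d k).comp T0)
  have a3 : ‖(y - d k).comp (T i)‖ ≤ ‖y - d k‖ :=
    ((y - d k).opNorm_comp_le (T i)).trans (mul_le_of_le_one_right (norm_nonneg _) (hT i))
  have a4 : ‖(y - d k).comp T0‖ ≤ ‖y - d k‖ :=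
    ((y - d k).opNorm_comp_le T0).trans (mul_le_of_le_one_right (norm_nonneg _) hT0)
  linarith

/-- Existence of limits of contractions which converge on a dense sequence. -/
lemma exists_limit [CompleteSpace E] (T : ℕ → E →L[ℂ] E) (hT : ∀ i, ‖T i‖ ≤ 1) (d : ℕ → E)
    (hd : DenseRange d) (v : ℕ → E) (h : ∀ k, Tendsto (fun i => T i (d k)) atTop (𝓝 (v k))) :
    ∃ T0 : E →L[ℂ] E, ‖T0‖ ≤ 1 ∧ ∀ x, Tendsto (fun i => T i x) atTop (𝓝 (T0 x)) := by
  have hC : ∀ x, CauchySeq fun i => T i x := by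
    intro x
    rw [Metric.cauchySeq_iff]
    intro ε hε
    obtain ⟨k, hk⟩ := hd.exists_dist_lt x (show (0 : ℝ) < ε / 3 by positivity)
    rw [dist_eq_norm] at hk
    obtain ⟨N, hN⟩ := (Metric.cauchySeq_iff.1 (h k).cauchySeq) (ε / 3) (by positivity)
    refine ⟨N, fun m hm n hn => ?_⟩
    have h1 := hN m hm n hn
    rw [dist_eq_norm] at h1 ⊢
    have e : T m x - T n x = T m (x - d k) + (T m (d k) - T n (d k)) - T n (x - d k) := by
      rw [map_sub, map_sub]; abel
    rw [e]
    have a1 := norm_sub_le (T m (x - d k) + (T m (d k) - T n (d k))) (T n (x - d k))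
    have a2 := norm_add_le (T m (x - d k)) (T m (d k) - T n (d k))
    have a3 : ‖T m (x - d k)‖ ≤ ‖x - d k‖ :=
      ((T m).le_opNorm _).trans (mul_le_of_le_one_left (norm_nonneg _) (hT m))
    have a4 : ‖T n (x - d k)‖ ≤ ‖x - d k‖ :=
      ((T n).le_opNorm _).trans (mul_le_of_le_one_left (norm_nonneg _) (hT n))
    linarith
  choose F hF using fun x => cauchySeq_tendsto_of_complete (hC x)
  have hF' : Tendsto (fun i x => T i x) atTop (𝓝 F) := tendsto_pi_nhds.2 hF
  refine ⟨continuousLinearMapOfTendsto T hF', ?_, fun x => ?_⟩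
  · refine ContinuousLinearMap.opNorm_le_bound _ zero_le_one fun x => ?_
    have h1 : Tendsto (fun i => ‖T i x‖) atTop (𝓝 ‖F x‖) := (hF x).norm
    have h2 : ‖F x‖ ≤ 1 * ‖x‖ := le_of_tendsto h1 (Eventually.of_forall fun i =>
      ((T i).le_opNorm _).trans (mul_le_mul_of_nonneg_right (hT i) (norm_nonneg _)))
    exact h2
  · exact hF x

theorem cm_abs [CompleteSpace E] [SeparableSpace E] (Φ : W → E →L[ℂ] E)
    (hind : IsInducing (fun (w : W) (x : E) => Φ w x)) (hinj : Function.Injective Φ)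
    (hn : ∀ w, ‖Φ w‖ ≤ 1)
    (hcl : ∀ (w : ℕ → W) (T0 : E →L[ℂ] E), (∀ x, Tendsto (fun m => Φ (w m) x) atTop (𝓝 (T0 x))) →
      ∃ w0, Φ w0 = T0) : IsCompletelyMetrizableSpace W := by
  have hE : Nonempty E := ⟨0⟩
  set d : ℕ → E := denseSeq E with hd
  have hdd : DenseRange d := denseRange_denseSeq E
  set Ψ : W → ℕ → E := fun w k => Φ w (d k) with hΨ
  have hcx : ∀ x, Continuous fun w => Φ w x := fun x =>
    (continuous_apply x).comp hind.continuous
  have hΨc : Continuous Ψ := continuous_pi fun k => hcx (d k)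
  have hΨi : IsInducing Ψ := by
    rw [isInducing_iff_nhds]
    intro w0
    apply le_antisymm
    · exact (hΨc.tendsto w0).le_comap
    · rw [hind.nhds_eq_comap w0]
      rw [← tendsto_iff_comap]
      rw [tendsto_pi_nhds]
      intro x
      apply tendsto_dense (fun w => Φ w) (Φ w0) hn (hn w0) d hdd
      intro k
      have h1 : Tendsto Ψ (comap Ψ (𝓝 (Ψ w0))) (𝓝 (Ψ w0)) := tendsto_comap
      exact (tendsto_pi_nhds.1 h1) k
  have hΨinj : Function.Injective Ψ := by
    intro w w' h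
    apply hinj
    have : (fun x => Φ w x) = fun x => Φ w' x := by
      apply hdd.equalizer (Φ w).continuous (Φ w').continuous
      exact h
    ext x
    exact congrFun this x
  have hcr : IsClosed (Set.range Ψ) := by
    rw [← isSeqClosed_iff_isClosed]
    intro s v hs hv
    choose w hw using hs
    have h1 : ∀ k, Tendsto (fun m => Φ (w m) (d k)) atTop (𝓝 (v k)) := by
      intro k
      have := (tendsto_pi_nhds.1 hv) k
      refine this.congr fun m => ?_
      rw [← hw m]
    obtain ⟨T0, _, hT0⟩ := exists_limit (fun m => Φ (w m)) (fun m => hn _) d hdd v h1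
    obtain ⟨w0, hw0⟩ := hcl w T0 hT0
    refine ⟨w0, ?_⟩
    funext k
    rw [hΨ]
    beta_reduce
    rw [hw0]
    exact tendsto_nhds_unique (hT0 (d k)) (h1 k)
  exact (IsClosedEmbedding.mk ⟨hΨi, hΨinj⟩ hcr).IsCompletelyMetrizableSpace

theorem cm_abs_star [CompleteSpace E] [SeparableSpace E] [SeparableSpace (StrongDual ℂ E)]
    (Φ : W → E →L[ℂ] E)
    (hind : IsInducing (fun (w : W) => ((fun x : E => Φ w x),
      (fun y : StrongDual ℂ E => y.comp (Φ w))))) (hinj : Function.Injective Φ)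
    (hn : ∀ w, ‖Φ w‖ ≤ 1)
    (hcl : ∀ (w : ℕ → W) (T0 : E →L[ℂ] E), (∀ x, Tendsto (fun m => Φ (w m) x) atTop (𝓝 (T0 x))) →
      ∃ w0, Φ w0 = T0) : IsCompletelyMetrizableSpace W := by
  have hE : Nonempty E := ⟨0⟩
  have hE' : Nonempty (StrongDual ℂ E) := ⟨0⟩
  set d : ℕ → E := denseSeq E with hd
  have hdd : DenseRange d := denseRange_denseSeq E
  set d' : ℕ → StrongDual ℂ E := denseSeq (StrongDual ℂ E) with hd'
  have hdd' : DenseRange d' := denseRange_denseSeq _
  set Ψ : W → (ℕ → E) × (ℕ → StrongDual ℂ E) :=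
    fun w => (fun k => Φ w (d k), fun k => (d' k).comp (Φ w)) with hΨ
  have hcx : ∀ x, Continuous fun w => Φ w x := fun x =>
    (continuous_apply x).comp (continuous_fst.comp hind.continuous)
  have hcy : ∀ y : StrongDual ℂ E, Continuous fun w => y.comp (Φ w) := fun y =>
    (continuous_apply y).comp (continuous_snd.comp hind.continuous)
  have hΨc : Continuous Ψ :=
    (continuous_pi fun k => hcx (d k)).prodMk (continuous_pi fun k => hcy (d' k))
  have hΨi : IsInducing Ψ := by
    rw [isInducing_iff_nhds]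
    intro w0
    apply le_antisymm
    · exact (hΨc.tendsto w0).le_comap
    · rw [hind.nhds_eq_comap w0]
      rw [← tendsto_iff_comap]
      have h1 : Tendsto Ψ (comap Ψ (𝓝 (Ψ w0))) (𝓝 (Ψ w0)) := tendsto_comap
      rw [Prod.tendsto_iff] at h1
      rw [Prod.tendsto_iff]
      constructor
      · rw [tendsto_pi_nhds]
        intro x
        apply tendsto_dense (fun w => Φ w) (Φ w0) hn (hn w0) d hdd
        intro k
        exact (tendsto_pi_nhds.1 h1.1) k
      · rw [tendsto_pi_nhds]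
        intro y
        apply tendsto_dense_comp (fun w => Φ w) (Φ w0) hn (hn w0) d' hdd'
        intro k
        exact (tendsto_pi_nhds.1 h1.2) k
  have hΨinj : Function.Injective Ψ := by
    intro w w' h
    apply hinj
    have : (fun x => Φ w x) = fun x => Φ w' x := by
      apply hdd.equalizer (Φ w).continuous (Φ w').continuous
      exact congrArg Prod.fst h
    ext x
    exact congrFun this x
  have hcr : IsClosed (Set.range Ψ) := by
    rw [← isSeqClosed_iff_isClosed]
    intro s v hs hv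
    choose w hw using hs
    have hv1 : Tendsto (fun m => (Ψ (w m)).1) atTop (𝓝 v.1) := by
      have := (Prod.tendsto_iff _ _).1 hv
      refine this.1.congr fun m => ?_
      rw [hw m]
    have hv2 : Tendsto (fun m => (Ψ (w m)).2) atTop (𝓝 v.2) := by
      have := (Prod.tendsto_iff _ _).1 hv
      refine this.2.congr fun m => ?_
      rw [hw m]
    have h1 : ∀ k, Tendsto (fun m => Φ (w m) (d k)) atTop (𝓝 (v.1 k)) := fun k =>
      (tendsto_pi_nhds.1 hv1) k
    have h2 : ∀ k, Tendsto (fun m => (d' k).comp (Φ (w m))) atTop (𝓝 (v.2 k)) := fun k =>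
      (tendsto_pi_nhds.1 hv2) k
    obtain ⟨T0, _, hT0⟩ := exists_limit (fun m => Φ (w m)) (fun m => hn _) d hdd v.1 h1
    obtain ⟨w0, hw0⟩ := hcl w T0 hT0
    refine ⟨w0, ?_⟩
    rw [hΨ]
    beta_reduce
    rw [hw0]
    refine Prod.ext ?_ ?_
    · funext k
      exact tendsto_nhds_unique (hT0 (d k)) (h1 k)
    · funext k
      -- the norm limit and the pointwise limit agree
      ext x
      have a1 : Tendsto (fun m => ((d' k).comp (Φ (w m))) x) atTop (𝓝 (v.2 k x)) :=
        ((ContinuousLinearMap.apply ℂ ℂ x).continuous.tendsto _).comp (h2 k)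
      have a2 : Tendsto (fun m => ((d' k).comp (Φ (w m))) x) atTop (𝓝 (((d' k).comp T0) x)) :=
        ((d' k).continuous.tendsto _).comp (hT0 x)
      exact tendsto_nhds_unique a2 a1
  exact (IsClosedEmbedding.mk ⟨hΨi, hΨinj⟩ hcr).IsCompletelyMetrizableSpace

end

end Pool.Agent.Y280
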