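import Pool.Agent.Y280.Step

/-!
# The abstract criterion
-/

set_option autoImplicit false
open Finset Filter Topology

namespace Pool.Agent.Y280

variable {X : Type*} [NormedAddCommGroup X] [NormedSpace ℂ X]

lemma exists_rho {p q : ℝ} (hpq : p.HolderConjugate q) (C1 : ℝ) {δ : ℝ} (hδ : 0 < δ) :
    ∃ ρ : ℝ, 0 < ρ ∧ ρ ≤ δ ∧ C1 * (3 * ρ) ^ (1 / p) ≤ δ ∧ C1 * (3 * ρ) ^ (1 / q) ≤ δ := by
  have key : ∀ r : ℝ, 0 < r → ∀ᶠ ρ in 𝓝[>] (0 : ℝ), C1 * (3 * ρ) ^ (1 / r) ≤ δ := by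
    intro r hr
    have h1 : Continuous fun ρ : ℝ => C1 * (3 * ρ) ^ (1 / r) :=
      continuous_const.mul ((continuous_const.mul continuous_id).rpow_const
        fun _ => Or.inr (by positivity))
    have h2 : Tendsto (fun ρ : ℝ => C1 * (3 * ρ) ^ (1 / r)) (𝓝[>] 0) (𝓝 0) := by
      have := h1.tendsto 0
      simp only [mul_zero] at this
      rw [Real.zero_rpow (by positivity), mul_zero] at this
      exact this.mono_left nhdsWithin_le_nhds
    exact (h2.eventually (gt_mem_nhds hδ)).mono fun _ h => h.le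
  have h3 : ∀ᶠ ρ in 𝓝[>] (0 : ℝ), 0 < ρ := self_mem_nhdsWithin
  have h4 : ∀ᶠ ρ in 𝓝[>] (0 : ℝ), ρ ≤ δ :=
    ((eventually_lt_nhds hδ).filter_mono nhdsWithin_le_nhds).mono fun _ h => h.le
  obtain ⟨ρ, h5, h6, h7, h8⟩ := (h3.and (h4.and ((key p hpq.pos).and
    (key q hpq.symm.pos)))).exists
  exact ⟨ρ, h5, h6, h7, h8⟩

lemma Nd.mono {p : ℝ} {T : X →L[ℂ] X} {x : X} {y : StrongDual ℂ X} {ρ ρ' : ℝ}
    (h : Nd p T x y ρ) (hr : ρ ≤ ρ') : Nd p T x y ρ' := fun D c C hC hc hN =>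
  (h D c C hC hc hN).trans (mul_le_mul_of_nonneg_right hr hC)

lemma Nd.coeff {p : ℝ} (hp : 1 ≤ p) {T : X →L[ℂ] X} {x : X} {y : StrongDual ℂ X} {ρ : ℝ}
    (h : Nd p T x y ρ) (n : ℕ) : ‖y ((T ^ n) x)‖ ≤ ρ := by
  have h1 := h (n + 1) (fun k => if k = n then 1 else 0) 1 zero_le_one
    (fun k hk => by beta_reduce; rw [if_neg (by omega)]) (NB_delta hp n)
  rw [sum_eq_single n] at h1
  · simpa using h1
  · intro b _ hb
    rw [if_neg hb, zero_mul]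
  · intro h'
    exact absurd (self_mem_range_succ n) h'

/-- **Criterion.** Density of the noncyclic vectors. -/
theorem criterion [CompleteSpace X] {p q : ℝ} (hpq : p.HolderConjugate q) {C0 C1 : ℝ}
    (hC0 : 0 ≤ C0) (hC1 : 0 ≤ C1) {T : X →L[ℂ] X} (hTR : TR p T C0) (hBL : BL p q T C1)
    (hst : ∀ x, Tendsto (fun n => (T ^ n) x) atTop (𝓝 0)) {x₀ : X} (hx₀ : x₀ ≠ 0)
    {ε : ℝ} (hε : 0 < ε) :
    ∃ (x : X) (y : StrongDual ℂ X), ‖x - x₀‖ < ε ∧ y ≠ 0 ∧ ∀ n, y ((T ^ n) x) = 0 := by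
  have hp : 1 ≤ p := hpq.lt.le
  have hx₀' : 0 < ‖x₀‖ := norm_pos_iff.2 hx₀
  set δ : ℕ → ℝ := fun k => ε / 2 / 2 / 2 ^ k with hδ
  have hδ0 : ∀ k, 0 < δ k := fun k => by rw [hδ]; positivity
  choose ρ hρ0 hρδ hρp hρq using fun k => exists_rho hpq C1 (hδ0 k)
  obtain ⟨y1, hy1, hy1'⟩ := exists_dual_vector ℂ x₀ hx₀'.ne'
  set s : ℝ := ρ 0 / (C0 * ‖x₀‖ + 1) with hs
  have hs0 : 0 < s := by have := hρ0 0; positivity
  set y₀ : StrongDual ℂ X := (s : ℂ) • y1 with hy₀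
  have hy₀n : ‖y₀‖ = s := by
    rw [hy₀, norm_smul, hy1, mul_one, Complex.norm_real, Real.norm_of_nonneg hs0.le]
  have hN0 : Nd p T x₀ y₀ (ρ 0) := by
    refine (hTR.nd x₀ y₀).mono ?_
    rw [hy₀n, hs, mul_div_assoc', div_le_iff₀ (by positivity)]
    nlinarith [hρ0 0]
  set τ : ℝ := s * ‖x₀‖ / 2 with hτ
  have hτ0 : 0 < τ := by positivity
  -- one step
  have hstep : ∀ k (v : {v : X × StrongDual ℂ X // Nd p T v.1 v.2 (ρ k)}),
      ∃ v' : {v : X × StrongDual ℂ X // Nd p T v.1 v.2 (ρ (k + 1))},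
        ‖v'.1.1 - v.1.1‖ ≤ δ k ∧ ‖v'.1.2 - v.1.2‖ ≤ δ k ∧
        ‖v'.1.2 x₀ - v.1.2 x₀‖ ≤ τ / 2 / 2 ^ k := by
    rintro k ⟨⟨x, y⟩, hN⟩
    obtain ⟨x', y', h1, h2, h3, h4⟩ := step hpq hC0 hC1 hTR hBL (hρ0 k) hN (hst x)
      (ε := min (ρ (k + 1)) (τ / 2 / 2 ^ k)) (lt_min (hρ0 _) (by positivity)) {x₀}
    refine ⟨⟨⟨x', y'⟩, h3.mono (min_le_left _ _)⟩, h1.trans (hρp k), h2.trans (hρq k), ?_⟩
    exact (h4 x₀ (by simp)).trans (min_le_right _ _)
  choose F hF1 hF2 hF3 using hstep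
  let S : (k : ℕ) → {v : X × StrongDual ℂ X // Nd p T v.1 v.2 (ρ k)} := fun k =>
    Nat.rec (motive := fun k => {v : X × StrongDual ℂ X // Nd p T v.1 v.2 (ρ k)})
      ⟨(x₀, y₀), hN0⟩ (fun k v => F k v) k
  have hS0 : (S 0).1 = (x₀, y₀) := rfl
  have hSs : ∀ k, S (k + 1) = F k (S k) := fun k => rfl
  have hx : ∀ k, dist (S k).1.1 (S (k + 1)).1.1 ≤ ε / 2 / 2 / 2 ^ k := by
    intro k
    rw [dist_comm, dist_eq_norm, hSs]
    exact hF1 k (S k)
  have hy : ∀ k, dist (S k).1.2 (S (k + 1)).1.2 ≤ ε / 2 / 2 / 2 ^ k := by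
    intro k
    rw [dist_comm, dist_eq_norm, hSs]
    exact hF2 k (S k)
  have hz : ∀ k, dist ((S k).1.2 x₀) ((S (k + 1)).1.2 x₀) ≤ τ / 2 / 2 ^ k := by
    intro k
    rw [dist_comm, dist_eq_norm, hSs]
    exact hF3 k (S k)
  obtain ⟨x, hxl⟩ := cauchySeq_tendsto_of_complete (cauchySeq_of_le_geometric_two hx)
  obtain ⟨y, hyl⟩ := cauchySeq_tendsto_of_complete (cauchySeq_of_le_geometric_two hy)
  have hyx₀ : Tendsto (fun k => (S k).1.2 x₀) atTop (𝓝 (y x₀)) :=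
    ((ContinuousLinearMap.apply ℂ ℂ x₀).continuous.tendsto y).comp hyl
  have h1 := dist_le_of_le_geometric_two_of_tendsto₀ hx hxl
  have h2 := dist_le_of_le_geometric_two_of_tendsto₀ hz hyx₀
  rw [hS0] at h1 h2
  simp only at h1 h2
  refine ⟨x, y, ?_, ?_, ?_⟩
  · rw [← dist_eq_norm, dist_comm]
    linarith
  · intro hy0
    rw [hy0, hy₀] at h2
    simp only [ContinuousLinearMap.zero_apply, ContinuousLinearMap.smul_apply, hy1',
      dist_zero_right, smul_eq_mul, norm_mul, Complex.norm_real] at h2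
    rw [Real.norm_of_nonneg hs0.le] at h2
    simp only [RCLike.norm_ofReal, Complex.norm_real, abs_norm, norm_norm] at h2
    have : 0 < s * ‖x₀‖ := by positivity
    linarith
  · intro n
    have h3 : Tendsto (fun k => (S k).1.2 ((T ^ n) (S k).1.1)) atTop (𝓝 (y ((T ^ n) x))) := by
      have hc : Continuous fun v : StrongDual ℂ X × X => v.1 ((T ^ n) v.2) :=
        isBoundedBilinearMap_apply.continuous.comp
          (continuous_fst.prodMk ((T ^ n).continuous.comp continuous_snd))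
      exact (hc.tendsto (y, x)).comp (hyl.prodMk_nhds hxl)
    have h4 : Tendsto (fun k => (S k).1.2 ((T ^ n) (S k).1.1)) atTop (𝓝 0) := by
      apply squeeze_zero_norm (a := δ)
      · intro k
        exact (Nd.coeff hp (S k).2 n).trans (hρδ k)
      · have := (tendsto_pow_atTop_nhds_zero_of_lt_one (r := (1 / 2 : ℝ)) (by norm_num)
          (by norm_num)).const_mul (ε / 2 / 2)
        rw [mul_zero] at this
        refine this.congr fun k => ?_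
        rw [hδ]
        simp only [one_div, inv_pow]
        rfl
    exact tendsto_nhds_unique h3 h4

end Pool.Agent.Y280
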