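import Mathlib

/-!
# Definitions used in the statements about `ℓ_p`
-/

set_option autoImplicit false

namespace Pool.Agent.Y280

/-- The coordinates `c x = (c x i)_i` identify the complex normed space `E` isometrically with
`ℓ_p`: the norm is `‖x‖ ^ p = ∑ i, ‖c x i‖ ^ p`, and every `p`-summable sequence occurs. -/
structure IsEllp (p : ℝ) {E : Type} [NormedAddCommGroup E] [NormedSpace ℂ E]
    (c : E →ₗ[ℂ] (ℕ → ℂ)) : Prop where
  summable : ∀ x, Summable fun i => ‖c x i‖ ^ p
  norm_rpow : ∀ x, ‖x‖ ^ p = ∑' i, ‖c x i‖ ^ p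
  surjective : ∀ a : ℕ → ℂ, (Summable fun i => ‖a i‖ ^ p) → ∃ x, c x = a

variable {E : Type} [NormedAddCommGroup E] [NormedSpace ℂ E]

/-- The strong operator topology on a set of operators: the topology of pointwise convergence. -/
@[reducible] def SOT (C : Set (E →L[ℂ] E)) : TopologicalSpace C :=
  TopologicalSpace.induced (fun (T : C) (x : E) => (T : E →L[ℂ] E) x) Pi.topologicalSpace

/-- The strong* operator topology: pointwise convergence of the operators and of their adjoints. -/
@[reducible] noncomputable def SOTStar (C : Set (E →L[ℂ] E)) : TopologicalSpace C :=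
  TopologicalSpace.induced (fun T : C => ((fun x : E => (T : E →L[ℂ] E) x),
    (fun y : StrongDual ℂ E => y.comp (T : E →L[ℂ] E)))) instTopologicalSpaceProd

/-- Arbitrarily close to every vector there is a vector which lies in a nontrivial closed
invariant subspace of `T`. -/
def DenselyInvariant (T : E →L[ℂ] E) : Prop :=
  ∀ (x₀ : E) (ε : ℝ), 0 < ε → ∃ M : Submodule ℂ E, IsClosed (M : Set E) ∧ M ≠ ⊥ ∧ M ≠ ⊤ ∧
    (∀ v ∈ M, T v ∈ M) ∧ ∃ x ∈ M, ‖x - x₀‖ < ε

end Pool.Agent.Y280
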