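import Mathlib

/-!
# Norm convergence on the dual side, from disjointness
-/

set_option autoImplicit false
open Finset Filter Topology

namespace Pool.Agent.Y280

variable {E : Type*} [NormedAddCommGroup E] [NormedSpace ℂ E]

lemma exists_phase (z : ℂ) : ∃ θ : ℂ, ‖θ‖ ≤ 1 ∧ θ * z = ‖z‖ := by
  by_cases hz : z = 0
  · exact ⟨0, by simp, by simp [hz]⟩
  · refine ⟨(starRingEnd ℂ) z / ‖z‖, ?_, ?_⟩
    · simp [hz]
    · have hz' : (‖z‖ : ℂ) ≠ 0 := by simpa using hz
      rw [div_mul_eq_mul_div, mul_comm, Complex.mul_conj, Complex.normSq_eq_norm_sq]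
      push_cast
      field_simp

/-- If `Q k → 0` strongly and the differences of the `Q k` are disjoint in the sense of `ℓ_p`,
`p > 1`, then `y ∘ Q k → 0` in norm for every functional `y`. -/
lemma comp_tendsto_of_disjoint {p : ℝ} (hp : 1 < p) (Q : ℕ → E →L[ℂ] E)
    (hQ : ∀ x, Tendsto (fun k => Q k x) atTop (𝓝 0))
    (hdis : ∀ K : ℕ → ℕ, StrictMono K → ∀ (f : ℕ → E) (J : ℕ),
      ‖∑ j ∈ range J, (Q (K j) - Q (K (j + 1))) (f j)‖ ^ p ≤ ∑ j ∈ range J, ‖f j‖ ^ p)
    (y : StrongDual ℂ E) : Tendsto (fun k => y.comp (Q k)) atTop (𝓝 0) := by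
  by_contra hcon
  rw [Metric.tendsto_atTop] at hcon
  push Not at hcon
  obtain ⟨δ, hδ, hfr⟩ := hcon
  simp only [dist_zero_right] at hfr
  -- choice of almost norming vectors
  have h1 : ∀ N : ℕ, ∃ k, N ≤ k ∧ ∃ f : E, ‖f‖ ≤ 1 ∧ δ / 2 ≤ ‖y (Q k f)‖ := by
    intro N
    obtain ⟨k, hk, hk'⟩ := hfr N
    refine ⟨k, hk, ?_⟩
    by_contra hne
    push Not at hne
    have h2 : ‖y.comp (Q k)‖ ≤ δ / 2 := by
      refine ContinuousLinearMap.opNorm_le_of_unit_norm (by positivity) fun x hx => ?_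
      exact (hne x hx.le).le
    linarith
  choose k hk f hf hyf using h1
  have h2 : ∀ N : ℕ, ∃ M : ℕ, ∀ k', M ≤ k' → ‖y (Q k' (f N))‖ ≤ δ / 4 := by
    intro N
    have h3 : Tendsto (fun k' => ‖y (Q k' (f N))‖) atTop (𝓝 0) := by
      have := ((y.continuous.tendsto 0).comp (hQ (f N))).norm
      simpa using this
    exact eventually_atTop.1 ((h3.eventually (gt_mem_nhds (show (0 : ℝ) < δ / 4 by positivity))).mono
      fun _ h => h.le)
  choose M hM using h2
  set N : ℕ → ℕ := fun j => Nat.rec 0 (fun _ n => max (M n) (k n + 1)) j with hN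
  have hNs : ∀ j, N (j + 1) = max (M (N j)) (k (N j) + 1) := fun j => rfl
  set K : ℕ → ℕ := fun j => k (N j) with hK
  have hKm : StrictMono K := by
    apply strictMono_nat_of_lt_succ
    intro j
    have h3 : k (N j) + 1 ≤ N (j + 1) := by rw [hNs]; exact le_max_right _ _
    have h4 := hk (N (j + 1))
    rw [hK]
    beta_reduce
    omega
  have hKM : ∀ j, M (N j) ≤ K (j + 1) := by
    intro j
    have h3 : M (N j) ≤ N (j + 1) := by rw [hNs]; exact le_max_left _ _
    exact h3.trans (hk _)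
  have h3 : ∀ j, δ / 4 ≤ ‖y ((Q (K j) - Q (K (j + 1))) (f (N j)))‖ := by
    intro j
    rw [_root_.sub_apply, map_sub]
    have a1 := hyf (N j)
    have a2 := hM (N j) (K (j + 1)) (hKM j)
    have a3 := norm_sub_norm_le (y (Q (K j) (f (N j)))) (y (Q (K (j + 1)) (f (N j))))
    have a4 : ‖y (Q (K j) (f (N j)))‖ = ‖y (Q (k (N j)) (f (N j)))‖ := rfl
    linarith
  choose θ hθ hθ' using fun j => exists_phase (y ((Q (K j) - Q (K (j + 1))) (f (N j))))
  have h4 : ∀ J : ℕ, J * (δ / 4) ≤ ‖y‖ * (J : ℝ) ^ (1 / p) := by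
    intro J
    set S := ∑ j ∈ range J, (Q (K j) - Q (K (j + 1))) (θ j • f (N j)) with hS
    have a1 : y S = ((∑ j ∈ range J, ‖y ((Q (K j) - Q (K (j + 1))) (f (N j)))‖ : ℝ) : ℂ) := by
      rw [hS, map_sum, Complex.ofReal_sum]
      refine sum_congr rfl fun j _ => ?_
      rw [map_smul, map_smul, smul_eq_mul, hθ']
    have a2 : (J : ℝ) * (δ / 4) ≤ ‖y S‖ := by
      rw [a1, Complex.norm_real]
      refine le_trans ?_ (le_abs_self _)
      have : (J : ℝ) * (δ / 4) = ∑ j ∈ range J, δ / 4 := by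
        rw [sum_const, card_range, nsmul_eq_mul]
      rw [this]
      exact sum_le_sum fun j _ => h3 j
    have a3 : ‖S‖ ^ p ≤ J := by
      refine (hdis K hKm (fun j => θ j • f (N j)) J).trans ?_
      have : ∀ j ∈ range J, ‖θ j • f (N j)‖ ^ p ≤ 1 := by
        intro j _
        apply Real.rpow_le_one (norm_nonneg _) _ (by linarith)
        rw [norm_smul]
        exact mul_le_one₀ (hθ j) (norm_nonneg _) (hf _)
      refine (sum_le_sum this).trans (le_of_eq ?_)
      simp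
    have a4 : ‖S‖ ≤ (J : ℝ) ^ (1 / p) := by
      have := Real.rpow_le_rpow (by positivity) a3 (show 0 ≤ 1 / p by positivity)
      rwa [← Real.rpow_mul (norm_nonneg _), mul_one_div_cancel (by linarith), Real.rpow_one] at this
    exact a2.trans ((y.le_opNorm S).trans (mul_le_mul_of_nonneg_left a4 (norm_nonneg _)))
  -- contradiction for large `J`
  have h5 : Tendsto (fun J : ℕ => (J : ℝ) ^ (1 - 1 / p)) atTop atTop := by
    have : 0 < 1 - 1 / p := by
      rw [sub_pos, div_lt_one (by linarith)]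
      exact hp
    exact (tendsto_rpow_atTop this).comp tendsto_natCast_atTop_atTop
  obtain ⟨J, hJ1, hJ2⟩ := ((h5.eventually_gt_atTop (‖y‖ / (δ / 4))).and
    (eventually_gt_atTop 0)).exists
  have hJ' : (0 : ℝ) < J := by exact_mod_cast hJ2
  rw [div_lt_iff₀ (by positivity)] at hJ1
  have h6 := h4 J
  have h7 : (J : ℝ) = (J : ℝ) ^ (1 - 1 / p) * (J : ℝ) ^ (1 / p) := by
    rw [← Real.rpow_add hJ']; simp
  have h8 : 0 < (J : ℝ) ^ (1 / p) := by positivity
  have h9 : ‖y‖ * (J : ℝ) ^ (1 / p) < (J : ℝ) ^ (1 - 1 / p) * (δ / 4) * (J : ℝ) ^ (1 / p) :=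
    mul_lt_mul_of_pos_right hJ1 h8
  have h10 : (J : ℝ) ^ (1 - 1 / p) * (δ / 4) * (J : ℝ) ^ (1 / p) = J * (δ / 4) := by
    conv_rhs => rw [h7]
    ring
  linarith

end Pool.Agent.Y280
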