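import Pool.Agent.Y280.Path

/-!
# Perron pairs and transference for finite regular matrices
-/

set_option autoImplicit false
open Finset Filter Topology

namespace Pool.Agent.Y280

variable {I : Type} [Fintype I]

lemma bern {p a b : ℝ} (hp : 1 ≤ p) (ha : 0 < a) (hb : 0 ≤ b) :
    a ^ p + p * a ^ (p - 1) * b ≤ (a + b) ^ p := by
  have h1 := one_add_mul_self_le_rpow_one_add (s := b / a) (by
    have : 0 ≤ b / a := by positivity
    linarith) hp
  have h2 : (a + b) ^ p = a ^ p * (1 + b / a) ^ p := by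
    rw [← Real.mul_rpow ha.le (by positivity)]
    congr 1
    field_simp
  rw [h2, Real.rpow_sub_one ha.ne']
  have h3 := mul_le_mul_of_nonneg_left h1 (Real.rpow_nonneg ha.le p)
  refine le_trans (le_of_eq ?_) h3
  field_simp

/-- Existence of Perron pairs for strictly positive matrices. -/
lemma perron [Nonempty I] {p : ℝ} (hp : 1 < p) (B : I → I → ℝ) (hB : ∀ i j, 0 < B i j) :
    ∃ (l : ℝ) (u : I → ℝ), 0 < l ∧ (∀ i, 0 < u i) ∧ ∑ i, u i ^ p = 1 ∧
      (∑ i, (∑ j, B i j * u j) ^ p = l) ∧
      (∀ x : I → ℝ, (∀ i, 0 ≤ x i) → ∑ i, (∑ j, B i j * x j) ^ p ≤ l * ∑ i, x i ^ p) ∧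
      (∀ j, ∑ i, B i j * (∑ k, B i k * u k) ^ (p - 1) = l * u j ^ (p - 1)) := by
  classical
  have hp0 : (0 : ℝ) < p := by linarith
  set K : Set (I → ℝ) := {x | (∀ i, 0 ≤ x i) ∧ ∑ i, x i ^ p = 1} with hK
  have hcp : Continuous fun x : I → ℝ => ∑ i, x i ^ p :=
    continuous_finsetSum _ fun i _ => (continuous_apply i).rpow_const fun _ => Or.inr hp0.le
  have hKc : IsClosed K := by
    rw [hK, Set.ofPred_and]
    refine IsClosed.inter ?_ ?_
    · rw [Set.ofPred_forall]
      exact isClosed_iInter fun i => isClosed_le continuous_const (continuous_apply i)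
    · exact isClosed_eq hcp continuous_const
  have hKb : K ⊆ Set.pi Set.univ (fun _ => Set.Icc (0 : ℝ) 1) := by
    intro x hx i _
    refine ⟨hx.1 i, ?_⟩
    have h1 : x i ^ p ≤ 1 := by
      rw [← hx.2]
      exact single_le_sum (f := fun i => x i ^ p) (fun j _ => Real.rpow_nonneg (hx.1 j) _)
        (mem_univ i)
    by_contra h
    push Not at h
    have := Real.one_lt_rpow h hp0
    linarith
  have hKcomp : IsCompact K := (isCompact_univ_pi fun _ => isCompact_Icc).of_isClosed_subset hKc hKb
  have hKne : K.Nonempty := by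
    obtain ⟨i0⟩ := ‹Nonempty I›
    refine ⟨Pi.single i0 1, ?_, ?_⟩
    · intro i
      by_cases h : i = i0
      · subst h; simp
      · simp [Pi.single_apply, h]
    · rw [sum_eq_single i0]
      · simp
      · intro b _ hb
        simp [Pi.single_apply, hb, hp0.ne']
      · intro h; exact absurd (mem_univ _) h
  have hcf : Continuous fun x : I → ℝ => ∑ i, (∑ j, B i j * x j) ^ p :=
    continuous_finsetSum _ fun i _ => Continuous.rpow_const
      (continuous_finsetSum _ fun j _ => continuous_const.mul (continuous_apply j))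
      fun _ => Or.inr hp0.le
  obtain ⟨u, huK, hmax⟩ := hKcomp.exists_isMaxOn hKne hcf.continuousOn
  set l : ℝ := ∑ i, (∑ j, B i j * u j) ^ p with hl
  have hu0 := huK.1
  have hu1 := huK.2
  have hex : ∃ j, 0 < u j := by
    by_contra h
    push Not at h
    have : ∀ j, u j = 0 := fun j => le_antisymm (h j) (hu0 j)
    rw [sum_congr rfl fun j _ => by rw [this j, Real.zero_rpow hp0.ne']] at hu1
    simp at hu1
  have hBu : ∀ i, 0 < ∑ j, B i j * u j := by
    intro i
    obtain ⟨j, hj⟩ := hex
    exact sum_pos' (fun k _ => mul_nonneg (hB i k).le (hu0 k)) ⟨j, mem_univ _, mul_pos (hB i j) hj⟩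
  have hl0 : 0 < l := by
    obtain ⟨i0⟩ := ‹Nonempty I›
    exact sum_pos (fun i _ => Real.rpow_pos_of_pos (hBu i) _) ⟨i0, mem_univ _⟩
  have hF : ∀ x : I → ℝ, (∀ i, 0 ≤ x i) → ∑ i, (∑ j, B i j * x j) ^ p ≤ l * ∑ i, x i ^ p := by
    intro x hx
    set s := ∑ i, x i ^ p with hs
    have hs0 : 0 ≤ s := sum_nonneg fun i _ => Real.rpow_nonneg (hx i) _
    rcases hs0.eq_or_lt with h | h
    · have hx0 : ∀ i, x i = 0 := by
        intro i
        have := (sum_eq_zero_iff_of_nonneg (fun i _ => Real.rpow_nonneg (hx i) p)).1 h.symm i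
          (mem_univ i)
        exact (Real.rpow_eq_zero (hx i) hp0.ne').1 this
      simp [hx0, ← h, hp0.ne']
    · have hsp : (s ^ (1 / p)) ^ p = s := by
        rw [← Real.rpow_mul hs0, one_div_mul_cancel hp0.ne', Real.rpow_one]
      have hsp0 : 0 < s ^ (1 / p) := by positivity
      have hmem : (fun i => x i / s ^ (1 / p)) ∈ K := by
        refine ⟨fun i => div_nonneg (hx i) hsp0.le, ?_⟩
        rw [sum_congr rfl fun i _ => Real.div_rpow (hx i) hsp0.le p, ← sum_div, hsp, div_self h.ne']
      have := hmax hmem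
      simp only [Set.mem_ofPred_eq] at this
      have e : ∑ i, (∑ j, B i j * (x j / s ^ (1 / p))) ^ p = (∑ i, (∑ j, B i j * x j) ^ p) / s := by
        rw [sum_div]
        refine sum_congr rfl fun i _ => ?_
        have : ∑ j, B i j * (x j / s ^ (1 / p)) = (∑ j, B i j * x j) / s ^ (1 / p) := by
          rw [sum_div]; exact sum_congr rfl fun j _ => by ring
        rw [this, Real.div_rpow (sum_nonneg fun j _ => mul_nonneg (hB i j).le (hx j)) hsp0.le, hsp]
      rw [e, div_le_iff₀ h] at this
      exact this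
  have hpert : ∀ j (t : ℝ), (∑ i, (∑ k, B i k * (u k + if k = j then t else 0)) ^ p) =
      ∑ i, ((∑ k, B i k * u k) + B i j * t) ^ p := by
    intro j t
    refine sum_congr rfl fun i _ => ?_
    congr 1
    simp only [mul_add, sum_add_distrib, mul_ite, mul_zero]
    rw [sum_ite_eq' univ j]
    simp
  have hpert2 : ∀ j (t : ℝ), ∑ k, (u k + if k = j then t else 0) ^ p =
      1 - u j ^ p + (u j + t) ^ p := by
    intro j t
    rw [← hu1, ← add_sum_erase univ (fun k => (u k + if k = j then t else 0) ^ p) (mem_univ j),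
      ← add_sum_erase univ (fun k => u k ^ p) (mem_univ j)]
    have : ∑ k ∈ univ.erase j, (u k + if k = j then t else 0) ^ p =
        ∑ k ∈ univ.erase j, u k ^ p := by
      refine sum_congr rfl fun k hk => ?_
      rw [if_neg (ne_of_mem_erase hk), add_zero]
    rw [this]
    simp only [if_true]
    ring
  -- `u` is strictly positive
  have hupos : ∀ j, 0 < u j := by
    intro j
    by_contra hcon
    have huj : u j = 0 := le_antisymm (not_lt.1 hcon) (hu0 j)
    set c : ℝ := ∑ i, B i j * (∑ k, B i k * u k) ^ (p - 1) with hc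
    have hc0 : 0 < c := by
      obtain ⟨i0⟩ := ‹Nonempty I›
      exact sum_pos (fun i _ => mul_pos (hB i j) (Real.rpow_pos_of_pos (hBu i) _))
        ⟨i0, mem_univ _⟩
    have key : ∀ t : ℝ, 0 < t → p * c ≤ l * t ^ (p - 1) := by
      intro t ht
      have h1 := hF (fun k => u k + if k = j then t else 0) (fun k => by
        have := hu0 k
        split_ifs <;> positivity)
      rw [hpert, hpert2, huj, Real.zero_rpow hp0.ne', sub_zero, zero_add] at h1
      have h2 : ∑ i, ((∑ k, B i k * u k) ^ p + p * (∑ k, B i k * u k) ^ (p - 1) * (B i j * t)) ≤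
          ∑ i, ((∑ k, B i k * u k) + B i j * t) ^ p :=
        sum_le_sum fun i _ => bern hp.le (hBu i) (mul_nonneg (hB i j).le ht.le)
      rw [sum_add_distrib, ← hl] at h2
      have h3 : ∑ i, p * (∑ k, B i k * u k) ^ (p - 1) * (B i j * t) = p * c * t := by
        rw [hc, mul_sum, sum_mul]
        exact sum_congr rfl fun i _ => by ring
      rw [h3] at h2
      have h4 : t ^ p = t ^ (p - 1) * t := by
        rw [Real.rpow_sub_one ht.ne']; field_simp
      have h5 : p * c * t ≤ l * t ^ (p - 1) * t := by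
        rw [mul_assoc l, ← h4]; linarith
      exact le_of_mul_le_mul_right h5 ht
    have hlim : Tendsto (fun t : ℝ => l * t ^ (p - 1)) (𝓝[>] 0) (𝓝 0) := by
      have h1 : Continuous fun t : ℝ => l * t ^ (p - 1) :=
        continuous_const.mul (continuous_id.rpow_const fun _ => Or.inr (by linarith))
      have := h1.tendsto 0
      rw [Real.zero_rpow (by linarith), mul_zero] at this
      exact this.mono_left nhdsWithin_le_nhds
    have h2 : p * c ≤ 0 := ge_of_tendsto hlim (by
      filter_upwards [self_mem_nhdsWithin] with t ht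
      exact key t ht)
    have : 0 < p * c := by positivity
    linarith
  refine ⟨l, u, hl0, hupos, hu1, rfl, hF, ?_⟩
  intro j
  set φ : ℝ → ℝ := fun t => l * (1 - u j ^ p + (u j + t) ^ p) -
    ∑ i, ((∑ k, B i k * u k) + B i j * t) ^ p with hφ
  have hder : HasDerivAt φ (l * (p * u j ^ (p - 1)) -
      ∑ i, B i j * p * (∑ k, B i k * u k) ^ (p - 1)) 0 := by
    rw [hφ]
    apply HasDerivAt.sub
    · apply HasDerivAt.const_mul
      have h1 : HasDerivAt (fun t : ℝ => u j + t) 1 0 := (hasDerivAt_id 0).const_add (u j)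
      have h2 := h1.rpow_const (p := p) (Or.inr hp.le)
      simpa using h2.const_add (1 - u j ^ p)
    · apply HasDerivAt.fun_sum
      intro i _
      have h1 : HasDerivAt (fun t : ℝ => (∑ k, B i k * u k) + B i j * t) (B i j) 0 := by
        simpa using ((hasDerivAt_id (0 : ℝ)).const_mul (B i j)).const_add (∑ k, B i k * u k)
      have h2 := h1.rpow_const (p := p) (Or.inr hp.le)
      simpa using h2
  have hmin : IsLocalMin φ 0 := by
    have hev : ∀ᶠ t in 𝓝 (0 : ℝ), -u j < t :=
      lt_mem_nhds (by have := hupos j; linarith)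
    filter_upwards [hev] with t ht
    have h1 := hF (fun k => u k + if k = j then t else 0) (fun k => by
      have := hu0 k
      split_ifs with h
      · subst h; linarith
      · linarith)
    rw [hpert, hpert2] at h1
    rw [hφ]
    simp only [add_zero, mul_zero]
    rw [← hl]
    have : l * (1 - u j ^ p + u j ^ p) - l = 0 := by ring
    rw [this]
    linarith
  have h0 := hmin.hasDerivAt_eq_zero hder
  have h1 : ∑ i, B i j * p * (∑ k, B i k * u k) ^ (p - 1) =
      p * ∑ i, B i j * (∑ k, B i k * u k) ^ (p - 1) := by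
    rw [mul_sum]; exact sum_congr rfl fun i _ => by ring
  rw [h1] at h0
  have h2 : p * (∑ i, B i j * (∑ k, B i k * u k) ^ (p - 1)) = p * (l * u j ^ (p - 1)) := by
    linarith
  exact mul_left_cancel₀ hp0.ne' h2

/-- Contractions `A` of `ℓ_p^I` with `‖ |A| ‖ ≤ 1`. -/
def RegM (p : ℝ) (A : I → I → ℂ) : Prop :=
  ∀ x : I → ℝ, (∀ i, 0 ≤ x i) → ∑ i, (∑ j, ‖A i j‖ * x j) ^ p ≤ ∑ i, x i ^ p

/-- **Transference** for regular contractions of `ℓ_p^I`. -/
lemma transfer_fin {p : ℝ} (hp : 1 < p) (A : I → I → ℂ) (hA : RegM p A)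
    {D : ℕ} {c : ℕ → ℂ} {C : ℝ} (hC : 0 ≤ C) (hc : ∀ n, D ≤ n → c n = 0) (hN : NB p c C)
    (x : I → ℂ) :
    ∑ i, ‖∑ n ∈ range D, c n * itv A x n i‖ ^ p ≤ C ^ p * ∑ i, ‖x i‖ ^ p := by
  classical
  have hp0 : (0 : ℝ) < p := by linarith
  set B0 : Option I → Option I → ℝ := fun i j => match i, j with
    | some i, some j => ‖A i j‖
    | none, none => 1
    | _, _ => 0 with hB0
  have hB0nn : ∀ i j, 0 ≤ B0 i j := by
    rintro (_ | i) (_ | j) <;> simp [hB0]
  set φ : Option I → Option I → ℂ := fun i j => match i, j with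
    | some i, some j => if A i j = 0 then 1 else A i j / ‖A i j‖
    | _, _ => 1 with hφ
  have hφn : ∀ i j, ‖φ i j‖ = 1 := by
    rintro (_ | i) (_ | j) <;> simp only [hφ] <;> try simp
    split_ifs with h
    · simp
    · simp [h]
  set δ : ℕ → ℝ := fun k => 1 / ((k : ℝ) + 1) with hδ
  have hδ0 : ∀ k, 0 < δ k := fun k => by rw [hδ]; positivity
  have hδl : Tendsto δ atTop (𝓝 0) := tendsto_one_div_add_atTop_nhds_zero_nat
  choose l u hl0 hu0 hu1 hlu hF hE using fun k => perron hp (fun i j => B0 i j + δ k)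
    (fun i j => add_pos_of_nonneg_of_pos (hB0nn i j) (hδ0 k))
  set r : ℕ → ℝ := fun k => (l k) ^ (1 / p) with hr
  have hr0 : ∀ k, 0 < r k := fun k => Real.rpow_pos_of_pos (hl0 k) _
  have hrp : ∀ k, (r k) ^ p = l k := fun k => by
    rw [hr]
    beta_reduce
    rw [← Real.rpow_mul (hl0 k).le, one_div_mul_cancel hp0.ne', Real.rpow_one]
  have hB0c : ∀ y : Option I → ℝ, (∀ i, 0 ≤ y i) →
      ∑ i, (∑ j, B0 i j * y j) ^ p ≤ ∑ i, y i ^ p := by
    intro y hy
    rw [Fintype.sum_option (fun i => (∑ j, B0 i j * y j) ^ p),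
      Fintype.sum_option (fun i => y i ^ p)]
    have e1 : ∑ j, B0 none j * y j = y none := by
      rw [Fintype.sum_option]; simp [hB0]
    have e2 : ∀ i, ∑ j, B0 (some i) j * y j = ∑ j, ‖A i j‖ * y (some j) := by
      intro i
      rw [Fintype.sum_option]; simp [hB0]
    rw [e1, sum_congr rfl fun i _ => by rw [e2 i]]
    have := hA (fun j => y (some j)) fun j => hy _
    linarith
  set Kc : ℝ := (∑ _i : Option I, ((Fintype.card (Option I) : ℝ)) ^ p) ^ (1 / p) with hKc
  have hr1 : ∀ k, 1 ≤ r k := by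
    intro k
    have h1 := hF k (Pi.single none 1) (fun i => by
      by_cases h : i = none
      · subst h; simp
      · simp [h])
    have h2 : ∑ i, (Pi.single none 1 : Option I → ℝ) i ^ p = 1 := by
      rw [sum_eq_single none]
      · simp
      · intro b _ hb; simp [hb, hp0.ne']
      · intro h; exact absurd (mem_univ _) h
    have h3 : ∀ i, ∑ j, (B0 i j + δ k) * (Pi.single none 1 : Option I → ℝ) j =
        B0 i none + δ k := by
      intro i
      rw [sum_eq_single none]
      · simp
      · intro b _ hb; simp [hb]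
      · intro h; exact absurd (mem_univ _) h
    rw [h2, mul_one, sum_congr rfl fun i _ => by rw [h3 i]] at h1
    have h4 : (1 : ℝ) ≤ (B0 none none + δ k) ^ p := by
      apply Real.one_le_rpow _ hp0.le
      have := hδ0 k
      simp only [hB0]
      linarith
    have h5 : (B0 none none + δ k) ^ p ≤ ∑ i, (B0 i none + δ k) ^ p :=
      single_le_sum (f := fun i => (B0 i none + δ k) ^ p)
        (fun i _ => Real.rpow_nonneg (add_nonneg (hB0nn _ _) (hδ0 k).le) _) (mem_univ none)
    rw [hr]
    exact Real.one_le_rpow (by linarith) (by positivity)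
  have hr2 : ∀ k, r k ≤ 1 + δ k * Kc := by
    intro k
    have h1 := Real.Lp_add_le univ (fun i => ∑ j, B0 i j * u k j) (fun i : Option I => δ k * ∑ j, u k j)
      hp.le
    have h2 : ∀ i, |∑ j, B0 i j * u k j + δ k * ∑ j, u k j| = ∑ j, (B0 i j + δ k) * u k j := by
      intro i
      rw [mul_sum, ← sum_add_distrib, abs_of_nonneg]
      · exact sum_congr rfl fun j _ => by ring
      · exact sum_nonneg fun j _ => add_nonneg (mul_nonneg (hB0nn i j) (hu0 k j).le)
          (mul_nonneg (hδ0 k).le (hu0 k j).le)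
    have h3 : ∀ i, |∑ j, B0 i j * u k j| = ∑ j, B0 i j * u k j := fun i =>
      abs_of_nonneg (sum_nonneg fun j _ => mul_nonneg (hB0nn i j) (hu0 k j).le)
    rw [sum_congr rfl fun i _ => by rw [h2 i], hlu k, sum_congr rfl fun i _ => by rw [h3 i]] at h1
    have h4 : (∑ i, (∑ j, B0 i j * u k j) ^ p) ^ (1 / p) ≤ 1 := by
      have := hB0c (u k) fun i => (hu0 k i).le
      rw [hu1] at this
      exact Real.rpow_le_one (sum_nonneg fun i _ => Real.rpow_nonneg
        (sum_nonneg fun j _ => mul_nonneg (hB0nn i j) (hu0 k j).le) _) this (by positivity)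
    have h5 : (∑ _i : Option I, |δ k * ∑ j, u k j| ^ p) ^ (1 / p) ≤ δ k * Kc := by
      have e1 : |δ k * ∑ j, u k j| = δ k * ∑ j, u k j :=
        abs_of_nonneg (mul_nonneg (hδ0 k).le (sum_nonneg fun j _ => (hu0 k j).le))
      have hule : ∀ j, u k j ≤ 1 := by
        intro j
        have h1 : u k j ^ p ≤ 1 := by
          rw [← hu1 k]
          exact single_le_sum (f := fun i => u k i ^ p) (fun j _ => Real.rpow_nonneg (hu0 k j).le _)
            (mem_univ j)
        by_contra h
        push Not at h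
        have := Real.one_lt_rpow h hp0
        linarith
      have e2 : ∑ j, u k j ≤ (Fintype.card (Option I) : ℝ) := by
        refine (sum_le_sum fun j _ => hule j).trans (le_of_eq ?_)
        simp
      have e3 : (∑ _i : Option I, |δ k * ∑ j, u k j| ^ p) ≤
          (δ k) ^ p * ∑ _i : Option I, ((Fintype.card (Option I) : ℝ)) ^ p := by
        rw [mul_sum (s := univ) (f := fun _ : Option I => ((Fintype.card (Option I) : ℝ)) ^ p)]
        refine sum_le_sum fun i _ => ?_
        rw [e1, Real.mul_rpow (hδ0 k).le (sum_nonneg fun j _ => (hu0 k j).le)]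
        exact mul_le_mul_of_nonneg_left (Real.rpow_le_rpow (sum_nonneg fun j _ => (hu0 k j).le) e2
          hp0.le) (Real.rpow_nonneg (hδ0 k).le _)
      refine (Real.rpow_le_rpow (sum_nonneg fun _ _ => by positivity) e3
        (by positivity)).trans (le_of_eq ?_)
      rw [Real.mul_rpow (Real.rpow_nonneg (hδ0 k).le _) (sum_nonneg fun _ _ => by positivity),
        ← Real.rpow_mul (hδ0 k).le, mul_one_div_cancel hp0.ne', Real.rpow_one, hKc]
    rw [hr]
    beta_reduce
    linarith
  have hrl : Tendsto r atTop (𝓝 1) := by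
    apply tendsto_of_tendsto_of_tendsto_of_le_of_le tendsto_const_nhds _ hr1 hr2
    have := (hδl.mul_const Kc).const_add 1
    simpa using this
  -- the perturbed matrices
  set Ak : ℕ → Option I → Option I → ℂ := fun k i j =>
    φ i j * (((B0 i j + δ k) / r k : ℝ) : ℂ) with hAk
  have hAkn : ∀ k i j, ‖Ak k i j‖ = (B0 i j + δ k) / r k := by
    intro k i j
    have h1 : 0 ≤ (B0 i j + δ k) / r k :=
      div_nonneg (add_nonneg (hB0nn i j) (hδ0 k).le) (hr0 k).le
    rw [hAk]
    beta_reduce
    rw [norm_mul, hφn, one_mul, Complex.norm_real, Real.norm_of_nonneg h1]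
  have hAk0 : ∀ k i j, Ak k i j ≠ 0 := by
    intro k i j h
    have h1 := hAkn k i j
    rw [h, norm_zero] at h1
    have : 0 < (B0 i j + δ k) / r k :=
      div_pos (add_pos_of_nonneg_of_pos (hB0nn i j) (hδ0 k)) (hr0 k)
    linarith
  set x' : Option I → ℂ := fun i => i.elim 0 x with hx'
  have hk : ∀ k, ∑ i, ‖∑ n ∈ range D, c n * itv (Ak k) x' n i‖ ^ p ≤
      C ^ p * ∑ i, ‖x' i‖ ^ p := by
    intro k
    refine transfer_perron hp.le (Ak k) (hAk0 k) (u k) (fun i => ∑ j, ‖Ak k i j‖ * u k j) (hu0 k)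
      ?_ (fun i => rfl) ?_ hC hc hN x'
    · intro i
      refine sum_pos (fun j _ => mul_pos ?_ (hu0 k j)) ⟨none, mem_univ _⟩
      exact norm_pos_iff.2 (hAk0 k i j)
    · intro j
      have e1 : ∀ i, ∑ m, ‖Ak k i m‖ * u k m = (∑ m, (B0 i m + δ k) * u k m) / r k := by
        intro i
        rw [sum_div]
        exact sum_congr rfl fun m _ => by rw [hAkn]; ring
      have e2 : ∀ i, ‖Ak k i j‖ * (∑ m, ‖Ak k i m‖ * u k m) ^ (p - 1) =
          (B0 i j + δ k) * (∑ m, (B0 i m + δ k) * u k m) ^ (p - 1) / l k := by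
        intro i
        have h1 : 0 ≤ ∑ m, (B0 i m + δ k) * u k m :=
          sum_nonneg fun m _ => mul_nonneg (add_nonneg (hB0nn i m) (hδ0 k).le) (hu0 k m).le
        rw [e1, hAkn, Real.div_rpow h1 (hr0 k).le, ← hrp k, Real.rpow_sub_one (hr0 k).ne' p]
        have := (hr0 k).ne'
        have h2 : r k ^ p ≠ 0 := (Real.rpow_pos_of_pos (hr0 k) _).ne'
        field_simp
      rw [sum_congr rfl fun i _ => e2 i, ← sum_div, hE k j, mul_div_cancel_left₀ _ (hl0 k).ne']
  -- limit
  set A0 : Option I → Option I → ℂ := fun i j => φ i j * (B0 i j : ℂ) with hA0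
  have hAl : ∀ i j, Tendsto (fun k => Ak k i j) atTop (𝓝 (A0 i j)) := by
    intro i j
    rw [hAk, hA0]
    beta_reduce
    apply Tendsto.const_mul
    have h1 : Tendsto (fun k => (B0 i j + δ k) / r k) atTop (𝓝 ((B0 i j + 0) / 1)) :=
      (hδl.const_add _).div hrl one_ne_zero
    rw [add_zero, div_one] at h1
    exact (Complex.continuous_ofReal.tendsto _).comp h1
  have hil : ∀ n i, Tendsto (fun k => itv (Ak k) x' n i) atTop (𝓝 (itv A0 x' n i)) := by
    intro n
    induction n with
    | zero => intro i; exact tendsto_const_nhds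
    | succ n ih =>
      intro i
      simp only [itv]
      exact tendsto_finsetSum _ fun j _ => (hAl i j).mul (ih j)
  have hlim : ∑ i, ‖∑ n ∈ range D, c n * itv A0 x' n i‖ ^ p ≤ C ^ p * ∑ i, ‖x' i‖ ^ p := by
    refine le_of_tendsto (f := fun k => ∑ i, ‖∑ n ∈ range D, c n * itv (Ak k) x' n i‖ ^ p)
      (x := atTop) ?_ (Eventually.of_forall hk)
    refine tendsto_finsetSum _ fun i _ => ?_
    refine Tendsto.rpow_const ?_ (Or.inr hp0.le)
    exact (tendsto_finsetSum _ fun n _ => (hil n i).const_mul _).norm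
  have hsome : ∀ n i, itv A0 x' n (some i) = itv A x n i := by
    intro n
    induction n with
    | zero => intro i; rfl
    | succ n ih =>
      intro i
      simp only [itv]
      rw [Fintype.sum_option]
      have e1 : A0 (some i) none = 0 := by simp [hA0, hB0]
      rw [e1, zero_mul, zero_add]
      refine sum_congr rfl fun j _ => ?_
      rw [ih]
      congr 1
      simp only [hA0, hB0, hφ]
      split_ifs with h
      · simp [h]
      · have : (‖A i j‖ : ℂ) ≠ 0 := by simpa using h
        field_simp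
  have hx'n : ∑ i, ‖x' i‖ ^ p = ∑ i, ‖x i‖ ^ p := by
    rw [Fintype.sum_option]
    simp [hx', hp0.ne']
  rw [hx'n, Fintype.sum_option] at hlim
  have hnn : 0 ≤ ‖∑ n ∈ range D, c n * itv A0 x' n none‖ ^ p := by positivity
  simp only [hsome] at hlim
  linarith

end Pool.Agent.Y280
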