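import Pool.Agent.Y280.Typ
import Pool.Agent.Y280.Dis
import Pool.Agent.Y280.Perron

/-!
# The space `ℓ_p`: the frame, and transference for regular contractions
-/

set_option autoImplicit false
open Finset Filter Topology
open scoped ENNReal

namespace Pool.Agent.Y280

section

variable (P : ℝ≥0∞) [hP : Fact (1 ≤ P)]

/-- `ℓ_P`. -/
noncomputable abbrev EP := lp (fun _ : ℕ => ℂ) P

/-- Basis vectors. -/
noncomputable def eP (i : ℕ) : EP P := lp.single P i (1 : ℂ)

/-- Coordinates. -/
noncomputable def gP (i : ℕ) : StrongDual ℂ (EP P) := lp.evalCLM ℂ (fun _ : ℕ => ℂ) P i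

lemma gP_apply (i : ℕ) (x : EP P) : gP P i x = x i := rfl

lemma eP_apply (i j : ℕ) : eP P i j = if j = i then 1 else 0 := by
  unfold eP
  rw [lp.single_apply, Pi.single_apply]

lemma gP_eP (i j : ℕ) : gP P i (eP P j) = if i = j then 1 else 0 := by
  rw [gP_apply, eP_apply]

/-- The tail projection. -/
noncomputable def QP (k : ℕ) : EP P →L[ℂ] EP P :=
  LinearMap.mkContinuous
    { toFun := fun x => ⟨fun i => if k ≤ i then x i else 0,
        (lp.memℓp x).mono' fun i => by split_ifs <;> simp⟩
      map_add' := fun x y => by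
        ext i
        simp only [lp.coeFn_add, Pi.add_apply]
        split_ifs <;> simp
      map_smul' := fun c x => by
        ext i
        simp only [lp.coeFn_smul, Pi.smul_apply, RingHom.id_apply]
        split_ifs <;> simp } 1 fun x => by
      rw [one_mul]
      have hp0 : P ≠ 0 := (zero_lt_one.trans_le hP.out).ne'
      apply lp.norm_mono hp0
      intro i
      simp only [LinearMap.coe_mk, AddHom.coe_mk]
      split_ifs <;> simp

lemma QP_apply (k : ℕ) (x : EP P) (i : ℕ) : QP P k x i = if k ≤ i then x i else 0 := rfl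

lemma QP_norm (k : ℕ) : ‖QP P k‖ ≤ 1 :=
  LinearMap.mkContinuous_norm_le _ zero_le_one _

lemma QP_eP (k i : ℕ) (h : k ≤ i) : QP P k (eP P i) = eP P i := by
  ext j
  rw [QP_apply, eP_apply]
  split_ifs <;> first | rfl | omega

variable {P}

lemma sum_smul_eP (s : Finset ℕ) (u : ℕ → ℂ) :
    ∑ i ∈ s, u i • eP P i = ∑ i ∈ s, lp.single P i (u i) := by
  refine sum_congr rfl fun i _ => ?_
  unfold eP
  rw [← lp.single_smul, smul_eq_mul, mul_one]

lemma toReal_pos' (hPt : P ≠ ∞) : 0 < P.toReal :=
  ENNReal.toReal_pos (zero_lt_one.trans_le hP.out).ne' hPt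

lemma one_sub_QP (k : ℕ) (x : EP P) : (1 - QP P k) x = ∑ i ∈ range k, lp.single P i (x i) := by
  ext j
  rw [_root_.sub_apply, one_apply_eq_self, lp.coeFn_sub, Pi.sub_apply, QP_apply, lp.coeFn_sum]
  simp only [Finset.sum_apply, lp.single_apply]
  by_cases h : j < k
  · rw [if_neg (by omega), sum_eq_single j]
    · simp
    · intro b _ hb
      exact Pi.single_eq_of_ne hb.symm _
    · intro h'
      exact absurd (mem_range.2 h) h'
  · rw [if_pos (by omega), sum_eq_zero]
    · simp
    · intro b hb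
      rw [mem_range] at hb
      exact Pi.single_eq_of_ne (by omega) _

lemma QP_tendsto (hPt : P ≠ ∞) (x : EP P) : Tendsto (fun k => QP P k x) atTop (𝓝 0) := by
  have h1 := (lp.hasSum_single hPt x).tendsto_sum_nat
  have h2 := h1.const_sub x
  rw [sub_self] at h2
  refine h2.congr fun k => ?_
  rw [← one_sub_QP, _root_.sub_apply, one_apply_eq_self]
  abel

lemma norm_QP_dis (hP1 : 1 < P) (hPt : P ≠ ∞) (K : ℕ → ℕ) (hK : StrictMono K) (f : ℕ → EP P)
    (J : ℕ) : ‖∑ j ∈ range J, (QP P (K j) - QP P (K (j + 1))) (f j)‖ ^ P.toReal ≤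
      ∑ j ∈ range J, ‖f j‖ ^ P.toReal := by
  have hp := toReal_pos' hPt
  set S := ∑ j ∈ range J, (QP P (K j) - QP P (K (j + 1))) (f j) with hS
  have hpt : ∀ i, ‖S i‖ ^ P.toReal ≤ ∑ j ∈ range J, ‖f j i‖ ^ P.toReal := by
    intro i
    have e : S i = ∑ j ∈ range J, if K j ≤ i ∧ i < K (j + 1) then f j i else 0 := by
      rw [hS, lp.coeFn_sum, Finset.sum_apply]
      refine sum_congr rfl fun j _ => ?_
      rw [_root_.sub_apply, lp.coeFn_sub, Pi.sub_apply, QP_apply, QP_apply]
      have := hK (Nat.lt_succ_self j)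
      by_cases h1 : K j ≤ i
      · by_cases h2 : i < K (j + 1)
        · rw [if_pos h1, if_neg (by omega), if_pos ⟨h1, h2⟩, sub_zero]
        · rw [if_pos h1, if_pos (by omega), if_neg (by tauto), sub_self]
      · rw [if_neg h1, if_neg (by simp only [Nat.succ_eq_add_one] at this; omega),
          if_neg (by tauto), sub_zero]
    rw [e]
    by_cases hex : ∃ j ∈ range J, K j ≤ i ∧ i < K (j + 1)
    · obtain ⟨j, hj, hj'⟩ := hex
      rw [sum_eq_single j]
      · rw [if_pos hj']
        exact single_le_sum (f := fun j => ‖f j i‖ ^ P.toReal) (fun _ _ => by positivity) hj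
      · intro b _ hb
        rw [if_neg]
        intro hb'
        rcases lt_or_gt_of_ne hb with h | h
        · have := hK.monotone (Nat.succ_le_of_lt h)
          simp only [Nat.succ_eq_add_one] at this
          omega
        · have := hK.monotone (Nat.succ_le_of_lt h)
          simp only [Nat.succ_eq_add_one] at this
          omega
      · intro h
        exact absurd hj h
    · push Not at hex
      rw [sum_eq_zero]
      · rw [norm_zero, Real.zero_rpow hp.ne']
        exact sum_nonneg fun _ _ => by positivity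
      · intro j hj
        rw [if_neg]
        intro h
        exact absurd h.2 (not_lt.2 (hex j hj h.1))
  rw [lp.norm_rpow_eq_tsum hp]
  have hsum : ∀ j, Summable fun i => ‖f j i‖ ^ P.toReal := fun j => (lp.memℓp (f j)).summable hp
  calc ∑' i, ‖S i‖ ^ P.toReal ≤ ∑' i, ∑ j ∈ range J, ‖f j i‖ ^ P.toReal :=
        Summable.tsum_le_tsum hpt ((lp.memℓp S).summable hp) (summable_sum fun j _ => hsum j)
    _ = ∑ j ∈ range J, ‖f j‖ ^ P.toReal := by
        rw [Summable.tsum_finsetSum fun j _ => hsum j]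
        exact sum_congr rfl fun j _ => (lp.norm_rpow_eq_tsum hp (f j)).symm

lemma one_lt_toReal (hP1 : 1 < P) (hPt : P ≠ ∞) : 1 < P.toReal := by
  rw [← ENNReal.toReal_one]
  exact (ENNReal.toReal_lt_toReal ENNReal.one_ne_top hPt).2 hP1

lemma frame_lp (hP1 : 1 < P) (hPt : P ≠ ∞) {q : ℝ} (hq : P.toReal.HolderConjugate q) :
    Frame P.toReal q (eP P) (gP P) (QP P) := by
  have hp := toReal_pos' hPt
  have hp1 := one_lt_toReal hP1 hPt
  have hQy : ∀ y : StrongDual ℂ (EP P), Tendsto (fun k => y.comp (QP P k)) atTop (𝓝 0) :=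
    comp_tendsto_of_disjoint hp1 (QP P) (QP_tendsto hPt) (norm_QP_dis hP1 hPt)
  refine ⟨?_, ?_, ?_, ?_, ?_, QP_tendsto hPt, hQy, ?_, QP_norm P⟩
  · intro s u
    rw [sum_smul_eP]
    have h1 := lp.norm_sum_single (E := fun _ : ℕ => ℂ) hp u s
    have h2 : ‖∑ i ∈ s, lp.single P i (u i)‖ =
        (‖∑ i ∈ s, lp.single P i (u i)‖ ^ P.toReal) ^ (1 / P.toReal) := by
      rw [← Real.rpow_mul (norm_nonneg _), mul_one_div_cancel hp.ne', Real.rpow_one]
    rw [h2, h1]
  · intro s w
    refine ContinuousLinearMap.opNorm_le_bound _ (by positivity) fun x => ?_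
    rw [_root_.sum_apply]
    simp only [_root_.smul_apply, gP_apply, smul_eq_mul]
    have h1 : ‖∑ i ∈ s, w i * x i‖ ≤ ∑ i ∈ s, ‖w i‖ * ‖x i‖ :=
      (norm_sum_le _ _).trans (le_of_eq (sum_congr rfl fun i _ => norm_mul _ _))
    refine h1.trans ?_
    have h2 := Real.inner_le_Lp_mul_Lq s (fun i => ‖w i‖) (fun i => ‖x i‖) hq.symm
    simp only [abs_norm] at h2
    refine h2.trans (mul_le_mul_of_nonneg_left ?_ (by positivity))
    have h3 := lp.sum_rpow_le_norm_rpow hp x s
    have h4 := Real.rpow_le_rpow (sum_nonneg fun i _ => by positivity) h3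
      (show 0 ≤ 1 / P.toReal by positivity)
    rwa [← Real.rpow_mul (norm_nonneg _), mul_one_div_cancel hp.ne', Real.rpow_one] at h4
  · exact gP_eP P
  · intro x
    rw [tendsto_zero_iff_norm_tendsto_zero]
    refine squeeze_zero (fun i => norm_nonneg _) (fun i => ?_)
      (tendsto_zero_iff_norm_tendsto_zero.1 (QP_tendsto hPt x))
    have h1 := lp.norm_apply_le_norm (zero_lt_one.trans_le hP.out).ne' (QP P i x) i
    rw [QP_apply, if_pos le_rfl] at h1
    exact h1
  · intro y
    rw [tendsto_zero_iff_norm_tendsto_zero]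
    refine squeeze_zero (fun i => norm_nonneg _) (fun i => ?_)
      (tendsto_zero_iff_norm_tendsto_zero.1 (hQy y))
    have h1 : y (eP P i) = (y.comp (QP P i)) (eP P i) := by
      rw [ContinuousLinearMap.comp_apply, QP_eP P i i le_rfl]
    rw [h1]
    refine ((y.comp (QP P i)).le_opNorm _).trans ?_
    have h2 : ‖eP P i‖ = 1 := by
      unfold eP
      rw [lp.norm_single (zero_lt_one.trans_le hP.out)]
      simp
    rw [h2, mul_one]
  · exact fun k i h => QP_eP P k i h

end

end Pool.Agent.Y280
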