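import Pool.Agent.Y280.Ell
import Pool.Agent.Y280.CM

/-!
# Regular contractions of `ℓ_p`
-/

set_option autoImplicit false
open Finset Filter Topology
open scoped ENNReal ComplexOrder

namespace Pool.Agent.Y280

variable {P : ℝ≥0∞} [hP : Fact (1 ≤ P)]

/-- The entries of an operator on `ℓ_P`. -/
noncomputable def ent (T : EP P →L[ℂ] EP P) (i j : ℕ) : ℂ := T (eP P j) i

/-- All finite sections of the matrix of absolute values are contractions. -/
def RegS (p : ℝ) (a : ℕ → ℕ → ℂ) : Prop :=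
  ∀ (N : ℕ) (x : ℕ → ℝ), (∀ j, 0 ≤ x j) →
    ∑ i ∈ range N, (∑ j ∈ range N, ‖a i j‖ * x j) ^ p ≤ ∑ j ∈ range N, x j ^ p

lemma RegS.regM {p : ℝ} {a : ℕ → ℕ → ℂ} (h : RegS p a) (N : ℕ) :
    RegM p (fun i j : Fin N => a i j) := by
  intro x hx
  have h1 := h N (fun j => if hj : j < N then x ⟨j, hj⟩ else 0) (fun j => by
    beta_reduce
    split_ifs
    · exact hx _
    · exact le_rfl)
  rw [← Fin.sum_univ_eq_sum_range
    (fun i => (∑ j ∈ range N, ‖a i j‖ * (if hj : j < N then x ⟨j, hj⟩ else 0)) ^ p) N,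
    ← Fin.sum_univ_eq_sum_range (fun j => (if hj : j < N then x ⟨j, hj⟩ else 0) ^ p) N] at h1
  have e1 : ∀ i : Fin N, ∑ j ∈ range N, ‖a i j‖ * (if hj : j < N then x ⟨j, hj⟩ else 0) =
      ∑ j : Fin N, ‖a i j‖ * x j := by
    intro i
    rw [← Fin.sum_univ_eq_sum_range (fun j => ‖a i j‖ * (if hj : j < N then x ⟨j, hj⟩ else 0)) N]
    exact sum_congr rfl fun j _ => by simp
  rw [sum_congr rfl fun i _ => by rw [e1 i]] at h1
  simpa using h1

lemma RegS.mono {p : ℝ} (hp : 0 ≤ p) {a b : ℕ → ℕ → ℂ} (h : RegS p b)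
    (hab : ∀ i j, ‖a i j‖ ≤ ‖b i j‖) : RegS p a := by
  intro N x hx
  refine le_trans (sum_le_sum fun i _ => ?_) (h N x hx)
  refine Real.rpow_le_rpow (sum_nonneg fun j _ => mul_nonneg (norm_nonneg _) (hx j)) ?_ hp
  exact sum_le_sum fun j _ => mul_le_mul_of_nonneg_right (hab i j) (hx j)

/-- The compressions. -/
noncomputable def cmp (T : EP P →L[ℂ] EP P) (N : ℕ) : EP P →L[ℂ] EP P :=
  (1 - QP P N) * T * (1 - QP P N)

lemma one_sub_QP_apply (N : ℕ) (x : EP P) (i : ℕ) :
    (1 - QP P N) x i = if i < N then x i else 0 := by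
  rw [_root_.sub_apply, one_apply_eq_self, lp.coeFn_sub, Pi.sub_apply, QP_apply]
  by_cases h : i < N
  · rw [if_neg (by omega), if_pos h, sub_zero]
  · rw [if_pos (by omega), if_neg h, sub_self]

lemma T_one_sub (T : EP P →L[ℂ] EP P) (N : ℕ) (z : EP P) (i : ℕ) :
    T ((1 - QP P N) z) i = ∑ j ∈ range N, ent T i j * z j := by
  have h1 : (1 - QP P N) z = ∑ j ∈ range N, z j • eP P j := by
    rw [one_sub_QP, sum_smul_eP]
  rw [h1, map_sum, lp.coeFn_sum, Finset.sum_apply]
  refine sum_congr rfl fun j _ => ?_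
  rw [map_smul, lp.coeFn_smul, Pi.smul_apply, smul_eq_mul, mul_comm]
  rfl

lemma cmp_pow (T : EP P →L[ℂ] EP P) (N : ℕ) (x : EP P) (n : ℕ) :
    (∀ i : Fin N, ((cmp T N ^ n) ((1 - QP P N) x)) i =
      itv (fun i j : Fin N => ent T i j) (fun i => x i) n i) ∧
    (∀ i, N ≤ i → ((cmp T N ^ n) ((1 - QP P N) x)) i = 0) := by
  induction n with
  | zero =>
    constructor
    · intro i
      rw [pow_zero, one_apply_eq_self, one_sub_QP_apply, if_pos i.2]
      rfl
    · intro i hi
      rw [pow_zero, one_apply_eq_self, one_sub_QP_apply, if_neg (by omega)]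
  | succ n ih =>
    set z := (cmp T N ^ n) ((1 - QP P N) x) with hz
    have e : (cmp T N ^ (n + 1)) ((1 - QP P N) x) = (1 - QP P N) (T ((1 - QP P N) z)) := by
      rw [pow_succ', mul_apply_eq_comp, ← hz]
      rfl
    constructor
    · intro i
      rw [e, one_sub_QP_apply, if_pos i.2, T_one_sub, ← Fin.sum_univ_eq_sum_range
        (fun j => ent T i j * z j) N]
      simp only [itv]
      exact sum_congr rfl fun j _ => by rw [ih.1 j]
    · intro i hi
      rw [e, one_sub_QP_apply, if_neg (by omega)]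

lemma norm_supp (hPt : P ≠ ∞) (z : EP P) (N : ℕ) (h : ∀ i, N ≤ i → z i = 0) :
    ‖z‖ ^ P.toReal = ∑ i ∈ range N, ‖z i‖ ^ P.toReal := by
  have hp := toReal_pos' hPt
  rw [lp.norm_rpow_eq_tsum hp]
  apply tsum_eq_sum
  intro i hi
  rw [mem_range, not_lt] at hi
  rw [h i hi, norm_zero, Real.zero_rpow hp.ne']

lemma cmp_tendsto (hPt : P ≠ ∞) (T : EP P →L[ℂ] EP P) (n : ℕ) (x : EP P) :
    Tendsto (fun N => (cmp T N ^ n) ((1 - QP P N) x)) atTop (𝓝 ((T ^ n) x)) := by
  have hQ1 : ∀ x, Tendsto (fun k => (1 - QP P k) x) atTop (𝓝 x) := by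
    intro x
    have := (QP_tendsto hPt x).const_sub x
    rw [sub_zero] at this
    exact this
  have hQ2 : ∀ (z : ℕ → EP P) (z0 : EP P), Tendsto z atTop (𝓝 z0) →
      Tendsto (fun k => (1 - QP P k) (z k)) atTop (𝓝 z0) := by
    intro z z0 hz
    have h3 : Tendsto (fun k => QP P k (z k)) atTop (𝓝 0) := by
      rw [tendsto_zero_iff_norm_tendsto_zero]
      have h4 : Tendsto (fun k => ‖z k - z0‖ + ‖QP P k z0‖) atTop (𝓝 (0 + 0)) :=
        Tendsto.add (tendsto_iff_norm_sub_tendsto_zero.1 hz)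
          (tendsto_zero_iff_norm_tendsto_zero.1 (QP_tendsto hPt _))
      rw [add_zero] at h4
      refine squeeze_zero (fun k => norm_nonneg _) (fun k => ?_) h4
      have e : QP P k (z k) = QP P k (z k - z0) + QP P k z0 := by
        rw [map_sub]; abel
      rw [e]
      refine (norm_add_le _ _).trans (add_le_add ?_ le_rfl)
      exact ((QP P k).le_opNorm _).trans (mul_le_of_le_one_left (norm_nonneg _) (QP_norm P k))
    have h4 := hz.sub h3
    rw [sub_zero] at h4
    exact h4
  induction n with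
  | zero => simpa using hQ1 x
  | succ n ih =>
    have e : ∀ N, (cmp T N ^ (n + 1)) ((1 - QP P N) x) =
        (1 - QP P N) (T ((1 - QP P N) ((cmp T N ^ n) ((1 - QP P N) x)))) := by
      intro N
      rw [pow_succ', mul_apply_eq_comp]
      rfl
    simp only [e]
    have e2 : (T ^ (n + 1)) x = T ((T ^ n) x) := by rw [pow_succ', mul_apply_eq_comp]
    rw [e2]
    apply hQ2
    exact (T.continuous.tendsto _).comp (hQ2 _ _ ih)

/-- **Transference** on `ℓ_p`. -/
lemma TR_of_RegS (hP1 : 1 < P) (hPt : P ≠ ∞) {T : EP P →L[ℂ] EP P}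
    (hT : RegS P.toReal (ent T)) : TR P.toReal T 1 := by
  have hp := toReal_pos' hPt
  have hp1 := one_lt_toReal hP1 hPt
  intro D c C hC hc hN x
  rw [one_mul]
  have h1 : Tendsto (fun N => ∑ n ∈ range D, c n • (cmp T N ^ n) ((1 - QP P N) x)) atTop
      (𝓝 (∑ n ∈ range D, c n • (T ^ n) x)) :=
    tendsto_finsetSum _ fun n _ => (cmp_tendsto hPt T n x).const_smul (c n)
  refine le_of_tendsto h1.norm (Eventually.of_forall fun N => ?_)
  set z := ∑ n ∈ range D, c n • (cmp T N ^ n) ((1 - QP P N) x) with hz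
  have hzi : ∀ i, z i = ∑ n ∈ range D, c n * ((cmp T N ^ n) ((1 - QP P N) x)) i := by
    intro i
    rw [hz, lp.coeFn_sum, Finset.sum_apply]
    exact sum_congr rfl fun n _ => by rw [lp.coeFn_smul, Pi.smul_apply, smul_eq_mul]
  have h2 : ‖z‖ ^ P.toReal = ∑ i ∈ range N, ‖z i‖ ^ P.toReal := by
    apply norm_supp hPt
    intro i hi
    rw [hzi]
    exact sum_eq_zero fun n _ => by rw [(cmp_pow T N x n).2 i hi, mul_zero]
  have h3 := transfer_fin hp1 (fun i j : Fin N => ent T i j) (hT.regM N) hC hc hN (fun i => x i)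
  have h4 : ∑ i ∈ range N, ‖z i‖ ^ P.toReal = ∑ i : Fin N, ‖∑ n ∈ range D, c n *
      itv (fun i j : Fin N => ent T i j) (fun i => x i) n i‖ ^ P.toReal := by
    rw [← Fin.sum_univ_eq_sum_range (fun i => ‖z i‖ ^ P.toReal) N]
    refine sum_congr rfl fun i _ => ?_
    rw [hzi]
    congr 2
    exact sum_congr rfl fun n _ => by rw [(cmp_pow T N x n).1 i]
  have h5 : ∑ i : Fin N, ‖x i‖ ^ P.toReal ≤ ‖x‖ ^ P.toReal := by
    rw [Fin.sum_univ_eq_sum_range (fun i => ‖x i‖ ^ P.toReal) N]
    exact lp.sum_rpow_le_norm_rpow hp x _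
  have h6 : ‖z‖ ^ P.toReal ≤ (C * ‖x‖) ^ P.toReal := by
    rw [h2, h4, Real.mul_rpow hC (norm_nonneg _)]
    exact h3.trans (mul_le_mul_of_nonneg_left h5 (by positivity))
  exact (Real.rpow_le_rpow_iff (norm_nonneg _) (by positivity) hp).1 h6

lemma norm_le_one_of_RegS (hP1 : 1 < P) (hPt : P ≠ ∞) {T : EP P →L[ℂ] EP P}
    (hT : RegS P.toReal (ent T)) : ‖T‖ ≤ 1 := by
  refine ContinuousLinearMap.opNorm_le_bound _ zero_le_one fun x => ?_
  have := TR.pow (one_lt_toReal hP1 hPt).le (TR_of_RegS hP1 hPt hT) 1 x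
  simpa using this

/-- The entries of the block shift. -/
lemma ent_blk (k B M i j : ℕ) :
    ent (blk (eP P) (gP P) k B M) i j = 0 ∨ (k ≤ j ∧ i = j + 1 ∧
      ent (blk (eP P) (gP P) k B M) i j = 1) := by
  unfold ent
  rw [blk_apply, lp.coeFn_sum, Finset.sum_apply]
  have e : ∀ b ∈ range B, (∑ j' ∈ range (M - 1), gP P (pos k M b j') (eP P j) •
      eP P (pos k M b (j' + 1)) : EP P) i = ∑ j' ∈ range (M - 1),
      if pos k M b j' = j ∧ i = j + 1 then (1 : ℂ) else 0 := by
    intro b _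
    rw [lp.coeFn_sum, Finset.sum_apply]
    refine sum_congr rfl fun j' _ => ?_
    rw [lp.coeFn_smul, Pi.smul_apply, gP_eP, eP_apply, smul_eq_mul]
    have : pos k M b (j' + 1) = pos k M b j' + 1 := by unfold pos; omega
    rw [this]
    by_cases h1 : pos k M b j' = j
    · subst h1
      by_cases h2 : i = pos k M b j' + 1 <;> simp [h2]
    · simp [h1]
  rw [sum_congr rfl e]
  by_cases hex : ∃ b ∈ range B, ∃ j' ∈ range (M - 1), pos k M b j' = j ∧ i = j + 1
  · obtain ⟨b, hb, j', hj', h1, h2⟩ := hex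
    right
    refine ⟨by rw [← h1]; unfold pos; omega, h2, ?_⟩
    rw [sum_eq_single b]
    · rw [sum_eq_single j']
      · rw [if_pos ⟨h1, h2⟩]
      · intro j'' hj'' hne
        rw [mem_range] at hj' hj''
        rw [if_neg]
        intro h
        exact hne (pos_inj (k := k) (by omega) (by omega) (h.1.trans h1.symm)).2
      · intro h; exact absurd hj' h
    · intro b' _ hne
      apply sum_eq_zero
      intro j'' hj''
      rw [mem_range] at hj' hj''
      rw [if_neg]
      intro h
      exact hne (pos_inj (k := k) (by omega) (by omega) (h.1.trans h1.symm)).1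
    · intro h; exact absurd hb h
  · push Not at hex
    left
    apply sum_eq_zero
    intro b hb
    apply sum_eq_zero
    intro j' hj'
    rw [if_neg]
    intro h
    exact hex b hb j' hj' h.1 h.2

/-- The entries of the perturbed compression. -/
lemma ent_pert (T : EP P →L[ℂ] EP P) (k B M i j : ℕ) :
    ent ((1 - QP P k) * T * (1 - QP P k) + blk (eP P) (gP P) k B M) i j =
      (if i < k ∧ j < k then ent T i j else 0) + ent (blk (eP P) (gP P) k B M) i j := by
  unfold ent
  rw [_root_.add_apply, lp.coeFn_add, Pi.add_apply]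
  congr 1
  rw [mul_apply_eq_comp, mul_apply_eq_comp, one_sub_QP_apply]
  by_cases hj : j < k
  · have h1 : (1 - QP P k) (eP P j) = eP P j := by
      ext l
      rw [one_sub_QP_apply, eP_apply]
      split_ifs <;> first | rfl | omega
    rw [h1]
    by_cases hi : i < k
    · rw [if_pos hi, if_pos ⟨hi, hj⟩]
    · rw [if_neg hi, if_neg (fun h => hi h.1)]
  · have h1 : (1 - QP P k) (eP P j) = 0 := by
      ext l
      rw [one_sub_QP_apply, eP_apply, lp.coeFn_zero, Pi.zero_apply]
      split_ifs <;> first | rfl | omega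
    rw [h1, map_zero, if_neg (fun h : i < k ∧ j < k => hj h.2)]
    simp

lemma RegS_pert {p : ℝ} (hp : 0 < p) {T : EP P →L[ℂ] EP P} (hT : RegS p (ent T)) (k B M : ℕ) :
    RegS p (ent ((1 - QP P k) * T * (1 - QP P k) + blk (eP P) (gP P) k B M)) := by
  have h0 : RegS p (fun i j => if i < k ∧ j < k then ent T i j else
      if k ≤ j ∧ i = j + 1 then 1 else 0) := by
    intro N x hx
    set m := min k N with hm
    have hrow1 : ∀ i ∈ range m, ∑ j ∈ range N, ‖(if i < k ∧ j < k then ent T i j else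
        if k ≤ j ∧ i = j + 1 then (1 : ℂ) else 0)‖ * x j = ∑ j ∈ range m, ‖ent T i j‖ * x j := by
      intro i hi
      rw [mem_range] at hi
      have hsub : range m ⊆ range N := range_subset_range.2 (by omega)
      rw [← sum_subset hsub]
      · refine sum_congr rfl fun j hj => ?_
        rw [mem_range] at hj
        rw [if_pos (by omega)]
      · intro j hj hj'
        rw [mem_range] at hj hj'
        rw [if_neg (by omega), if_neg (by omega), norm_zero, zero_mul]
    have hrow2 : ∀ i ∈ range N, m ≤ i → ∑ j ∈ range N, ‖(if i < k ∧ j < k then ent T i j else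
        if k ≤ j ∧ i = j + 1 then (1 : ℂ) else 0)‖ * x j =
        if k + 1 ≤ i then x (i - 1) else 0 := by
      intro i hi hmi
      rw [mem_range] at hi
      by_cases hki : k + 1 ≤ i
      · rw [if_pos hki, sum_eq_single (i - 1)]
        · rw [if_neg (by omega), if_pos (by omega), norm_one, one_mul]
        · intro j _ hj
          rw [if_neg (by omega), if_neg (by omega), norm_zero, zero_mul]
        · intro h
          rw [mem_range] at h
          omega
      · rw [if_neg hki]
        apply sum_eq_zero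
        intro j hj
        rw [if_neg (by omega), if_neg (by omega), norm_zero, zero_mul]
    have hsplit : ∑ i ∈ range N, (∑ j ∈ range N, ‖(if i < k ∧ j < k then ent T i j else
        if k ≤ j ∧ i = j + 1 then (1 : ℂ) else 0)‖ * x j) ^ p =
        ∑ i ∈ range m, (∑ j ∈ range m, ‖ent T i j‖ * x j) ^ p +
        ∑ i ∈ Ico m N, (if k + 1 ≤ i then x (i - 1) else 0) ^ p := by
      rw [range_eq_Ico, ← sum_Ico_consecutive _ (Nat.zero_le m) (show m ≤ N by omega)]
      congr 1
      · rw [← range_eq_Ico, ← range_eq_Ico]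
        exact sum_congr rfl fun i hi => by rw [hrow1 i hi]
      · refine sum_congr rfl fun i hi => ?_
        rw [mem_Ico] at hi
        rw [← range_eq_Ico, hrow2 i (mem_range.2 hi.2) hi.1]
    rw [hsplit]
    have h2 : ∑ j ∈ range N, x j ^ p = ∑ j ∈ range m, x j ^ p + ∑ j ∈ Ico m N, x j ^ p := by
      have := sum_Ico_consecutive (fun j => x j ^ p) (Nat.zero_le m) (show m ≤ N by omega)
      rw [← range_eq_Ico, ← range_eq_Ico] at this
      exact this.symm
    rw [h2]
    refine add_le_add (hT m x hx) ?_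
    -- the shifted part
    have h3 : ∑ i ∈ Ico m N, (if k + 1 ≤ i then x (i - 1) else 0) ^ p =
        ∑ i ∈ (Ico m N).filter (fun i => k + 1 ≤ i), x (i - 1) ^ p := by
      rw [sum_filter]
      refine sum_congr rfl fun i _ => ?_
      split_ifs
      · rfl
      · exact Real.zero_rpow hp.ne'
    have h4 : ∑ i ∈ (Ico m N).filter (fun i => k + 1 ≤ i), x (i - 1) ^ p =
        ∑ j ∈ ((Ico m N).filter (fun i => k + 1 ≤ i)).image (fun i => i - 1), x j ^ p := by
      rw [sum_image]
      intro a ha b hb hab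
      simp only [coe_filter, mem_Ico, Set.mem_ofPred_eq] at ha hb
      simp only at hab
      omega
    rw [h3, h4]
    apply sum_le_sum_of_subset_of_nonneg
    · intro j hj
      rw [mem_image] at hj
      obtain ⟨i, hi, rfl⟩ := hj
      rw [mem_filter, mem_Ico] at hi
      rw [mem_Ico]
      omega
    · intro j _ _
      exact Real.rpow_nonneg (hx j) _
  refine h0.mono hp.le fun i j => ?_
  rw [ent_pert]
  rcases ent_blk (P := P) k B M i j with h | ⟨h1, h2, h3⟩
  · rw [h, add_zero]
    by_cases hc : i < k ∧ j < k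
    · rw [if_pos hc, if_pos hc]
    · rw [if_neg hc, norm_zero]; exact norm_nonneg _
  · rw [h3, if_neg (by omega), if_neg (by omega), if_pos ⟨h1, h2⟩, zero_add]

end Pool.Agent.Y280
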