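import Pool.Agent.Y280.EllReg

/-!
# Typical regular and positive contractions of `ℓ_p`
-/

set_option autoImplicit false
open Finset Filter Topology TopologicalSpace
open scoped ENNReal ComplexOrder

namespace Pool.Agent.Y280

lemma sep_of_span {V : Type*} [NormedAddCommGroup V] [NormedSpace ℂ V] (v : ℕ → V)
    (h : ∀ x, x ∈ closure (Submodule.span ℂ (Set.range v) : Set V)) : SeparableSpace V := by
  rw [← isSeparable_univ_iff]
  have h1 : IsSeparable (Set.range v) := (Set.countable_range v).isSeparable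
  have h2 := (h1.span (R := ℂ)).closure
  exact h2.mono fun x _ => h x

section general

variable {E : Type*} [NormedAddCommGroup E] [NormedSpace ℂ E] {C : Set (E →L[ℂ] E)}

lemma hc_of_le {t : TopologicalSpace C} (ht : t ≤ sot C) (x : E) :
    @Continuous C E t _ (fun T => (T : E →L[ℂ] E) x) := by
  have h1 : @Continuous C (E → E) (sot C) _ (fun T x => (T : E →L[ℂ] E) x) :=
    continuous_induced_dom
  have h2 : @Continuous C (E → E) t _ (fun T x => (T : E →L[ℂ] E) x) := continuous_le_dom ht h1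
  exact @Continuous.comp _ _ _ t _ _ _ _ (continuous_apply x) h2

lemma htend_of_le {t : TopologicalSpace C} (ht : sotStar C ≤ t) (w : ℕ → C) (w0 : C)
    (h1 : ∀ x, Tendsto (fun m => (w m : E →L[ℂ] E) x) atTop (𝓝 ((w0 : E →L[ℂ] E) x)))
    (h2 : ∀ y : StrongDual ℂ E, Tendsto (fun m => y.comp (w m : E →L[ℂ] E)) atTop
      (𝓝 (y.comp (w0 : E →L[ℂ] E)))) : Tendsto w atTop (@nhds C t w0) := by
  have h3 : Tendsto w atTop (@nhds C (sotStar C) w0) := by
    rw [nhds_induced, tendsto_comap_iff]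
    exact (tendsto_pi_nhds.2 h1).prodMk_nhds (tendsto_pi_nhds.2 h2)
  exact h3.mono_right (nhds_mono ht)

lemma cm_sot [CompleteSpace E] [SeparableSpace E] (hn : ∀ T ∈ C, ‖T‖ ≤ 1)
    (hcl : ∀ (w : ℕ → E →L[ℂ] E) (T0 : E →L[ℂ] E), (∀ m, w m ∈ C) →
      (∀ x, Tendsto (fun m => w m x) atTop (𝓝 (T0 x))) → T0 ∈ C) :
    @IsCompletelyMetrizableSpace C (sot C) := by
  refine @cm_abs E _ _ C (sot C) _ _ (fun T => (T : E →L[ℂ] E)) ?_ Subtype.val_injective
    (fun w => hn _ w.2) ?_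
  · exact @Topology.IsInducing.mk _ _ (sot C) _ _ rfl
  · intro w T0 h
    exact ⟨⟨T0, hcl (fun m => w m) T0 (fun m => (w m).2) h⟩, rfl⟩

lemma cm_sotStar [CompleteSpace E] [SeparableSpace E] [SeparableSpace (StrongDual ℂ E)]
    (hn : ∀ T ∈ C, ‖T‖ ≤ 1)
    (hcl : ∀ (w : ℕ → E →L[ℂ] E) (T0 : E →L[ℂ] E), (∀ m, w m ∈ C) →
      (∀ x, Tendsto (fun m => w m x) atTop (𝓝 (T0 x))) → T0 ∈ C) :
    @IsCompletelyMetrizableSpace C (sotStar C) := by
  refine @cm_abs_star E _ _ C (sotStar C) _ _ _ (fun T => (T : E →L[ℂ] E)) ?_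
    Subtype.val_injective (fun w => hn _ w.2) ?_
  · exact @Topology.IsInducing.mk _ _ (sotStar C) _ _ rfl
  · intro w T0 h
    exact ⟨⟨T0, hcl (fun m => w m) T0 (fun m => (w m).2) h⟩, rfl⟩

end general

variable {P : ℝ≥0∞} [hP : Fact (1 ≤ P)]

lemma sep_EP (hPt : P ≠ ∞) : SeparableSpace (EP P) := by
  apply sep_of_span (eP P)
  intro x
  have h1 := (lp.hasSum_single hPt x).tendsto_sum_nat
  refine mem_closure_of_tendsto h1 (Eventually.of_forall fun n => ?_)
  have := sum_smul_eP (P := P) (range n) x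
  rw [← this]
  exact Submodule.sum_mem _ fun i _ => Submodule.smul_mem _ _ (Submodule.subset_span ⟨i, rfl⟩)

lemma sep_EP_dual (hP1 : 1 < P) (hPt : P ≠ ∞) : SeparableSpace (StrongDual ℂ (EP P)) := by
  apply sep_of_span (gP P)
  intro y
  have h1 := comp_tendsto_of_disjoint (one_lt_toReal hP1 hPt) (QP P) (QP_tendsto hPt)
    (norm_QP_dis hP1 hPt) y
  have h2 := h1.const_sub y
  rw [sub_zero] at h2
  refine mem_closure_of_tendsto h2 (Eventually.of_forall fun n => ?_)
  have e : y - y.comp (QP P n) = ∑ i ∈ range n, y (eP P i) • gP P i := by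
    ext x
    have e1 : (y - y.comp (QP P n)) x = y ((1 - QP P n) x) := by
      simp [_root_.sub_apply]
    rw [e1, one_sub_QP, ← sum_smul_eP, map_sum, _root_.sum_apply]
    refine sum_congr rfl fun i _ => ?_
    rw [map_smul, _root_.smul_apply, gP_apply, smul_eq_mul, smul_eq_mul, mul_comm]
  rw [e]
  exact Submodule.sum_mem _ fun i _ => Submodule.smul_mem _ _ (Submodule.subset_span ⟨i, rfl⟩)

/-- Regular contractions of `ℓ_P` with entries in `Φ`. -/
def Cls (P : ℝ≥0∞) [Fact (1 ≤ P)] (Φ : Set ℂ) : Set (EP P →L[ℂ] EP P) :=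
  {T | RegS P.toReal (ent T) ∧ ∀ i j, ent T i j ∈ Φ}

lemma cls_norm (hP1 : 1 < P) (hPt : P ≠ ∞) {Φ : Set ℂ} : ∀ T ∈ Cls P Φ, ‖T‖ ≤ 1 :=
  fun _ hT => norm_le_one_of_RegS hP1 hPt hT.1

lemma cls_closed (hPt : P ≠ ∞) {Φ : Set ℂ} (hΦ : IsClosed Φ)
    (w : ℕ → EP P →L[ℂ] EP P) (T0 : EP P →L[ℂ] EP P) (hw : ∀ m, w m ∈ Cls P Φ)
    (h : ∀ x, Tendsto (fun m => w m x) atTop (𝓝 (T0 x))) : T0 ∈ Cls P Φ := by
  have hp := toReal_pos' hPt
  have hent : ∀ i j, Tendsto (fun m => ent (w m) i j) atTop (𝓝 (ent T0 i j)) := fun i j =>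
    ((gP P i).continuous.tendsto _).comp (h (eP P j))
  constructor
  · intro N x hx
    refine le_of_tendsto (f := fun m => ∑ i ∈ range N, (∑ j ∈ range N, ‖ent (w m) i j‖ * x j) ^
      P.toReal) (x := atTop) ?_ (Eventually.of_forall fun m => (hw m).1 N x hx)
    refine tendsto_finsetSum _ fun i _ => Tendsto.rpow_const ?_ (Or.inr hp.le)
    exact tendsto_finsetSum _ fun j _ => (hent i j).norm.mul_const _
  · intro i j
    exact hΦ.mem_of_tendsto (hent i j) (Eventually.of_forall fun m => (hw m).2 i j)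

theorem cls_typical (hP1 : 1 < P) (hPt : P ≠ ∞) {Φ : Set ℂ} (h0 : (0 : ℂ) ∈ Φ)
    (h1 : (1 : ℂ) ∈ Φ) (hsc : ∀ z ∈ Φ, ∀ r : ℝ, 0 ≤ r → r ≤ 1 → (r : ℂ) * z ∈ Φ)
    {t : TopologicalSpace (Cls P Φ)} (ht1 : sotStar (Cls P Φ) ≤ t) (ht2 : t ≤ sot (Cls P Φ)) :
    {T : Cls P Φ | Good (T : EP P →L[ℂ] EP P)} ∈ @residual (Cls P Φ) t := by
  have hp := toReal_pos' hPt
  have hp1 := one_lt_toReal hP1 hPt
  haveI := sep_EP hPt
  have hq := Real.HolderConjugate.conjExponent hp1
  refine @typical_abs (EP P) _ _ (Cls P Φ) t _ _ P.toReal _ hq (eP P) (gP P) (QP P)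
    (frame_lp hP1 hPt hq) (fun T => (T : EP P →L[ℂ] EP P)) (hc_of_le ht2) (htend_of_le ht1)
    (fun w => cls_norm hP1 hPt _ w.2) (fun w => TR_of_RegS hP1 hPt w.2.1) ?_ ?_
  · intro w r hr0 hr1
    refine ⟨⟨(r : ℂ) • (w : EP P →L[ℂ] EP P), ?_, ?_⟩, rfl⟩
    · refine w.2.1.mono hp.le fun i j => ?_
      have e : ent ((r : ℂ) • (w : EP P →L[ℂ] EP P)) i j = r * ent (w : EP P →L[ℂ] EP P) i j := by
        unfold ent
        rw [_root_.smul_apply, lp.coeFn_smul, Pi.smul_apply, smul_eq_mul]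
      rw [e, norm_mul, Complex.norm_real, Real.norm_of_nonneg hr0]
      exact mul_le_of_le_one_left (norm_nonneg _) hr1
    · intro i j
      have e : ent ((r : ℂ) • (w : EP P →L[ℂ] EP P)) i j = r * ent (w : EP P →L[ℂ] EP P) i j := by
        unfold ent
        rw [_root_.smul_apply, lp.coeFn_smul, Pi.smul_apply, smul_eq_mul]
      rw [e]
      exact hsc _ (w.2.2 i j) r hr0 hr1
  · intro w k B M
    refine ⟨⟨_, RegS_pert hp w.2.1 k B M, ?_⟩, rfl⟩
    intro i j
    rw [ent_pert]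
    rcases ent_blk (P := P) k B M i j with h | ⟨h2, h3, h4⟩
    · rw [h, add_zero]
      split_ifs
      · exact w.2.2 i j
      · exact h0
    · rw [h4, if_neg (by omega), zero_add]
      exact h1

lemma cls_cm_sot (hP1 : 1 < P) (hPt : P ≠ ∞) {Φ : Set ℂ} (hΦ : IsClosed Φ) :
    @IsCompletelyMetrizableSpace (Cls P Φ) (sot (Cls P Φ)) := by
  haveI := sep_EP hPt
  exact cm_sot (cls_norm hP1 hPt) (cls_closed hPt hΦ)

lemma cls_cm_sotStar (hP1 : 1 < P) (hPt : P ≠ ∞) {Φ : Set ℂ} (hΦ : IsClosed Φ) :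
    @IsCompletelyMetrizableSpace (Cls P Φ) (sotStar (Cls P Φ)) := by
  haveI := sep_EP hPt
  haveI := sep_EP_dual hP1 hPt
  exact cm_sotStar (cls_norm hP1 hPt) (cls_closed hPt hΦ)

/-- Positive contractions of `ℓ_P`. -/
def PosC (P : ℝ≥0∞) [Fact (1 ≤ P)] : Set (EP P →L[ℂ] EP P) :=
  {T | ‖T‖ ≤ 1 ∧ ∀ x : EP P, (∀ i, 0 ≤ x i) → ∀ i, 0 ≤ T x i}

lemma posC_eq (hP1 : 1 < P) (hPt : P ≠ ∞) : PosC P = Cls P {z | 0 ≤ z} := by
  have hp := toReal_pos' hPt
  ext T
  constructor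
  · rintro ⟨hn, hpos⟩
    have hent : ∀ i j, 0 ≤ ent T i j := by
      intro i j
      apply hpos (eP P j)
      intro k
      rw [eP_apply]
      split_ifs
      · exact zero_le_one
      · exact le_rfl
    refine ⟨?_, hent⟩
    intro N x hx
    set X : EP P := ∑ j ∈ range N, ((x j : ℝ) : ℂ) • eP P j with hX
    have hXn : ‖X‖ ^ P.toReal = ∑ j ∈ range N, x j ^ P.toReal := by
      rw [hX, sum_smul_eP]
      have h1 := lp.norm_sum_single (E := fun _ : ℕ => ℂ) hp (fun j => ((x j : ℝ) : ℂ)) (range N)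
      rw [h1]
      exact sum_congr rfl fun j _ => by rw [Complex.norm_real, Real.norm_of_nonneg (hx j)]
    have hTX : ∀ i, T X i = ((∑ j ∈ range N, ‖ent T i j‖ * x j : ℝ) : ℂ) := by
      intro i
      rw [hX, map_sum, lp.coeFn_sum, Finset.sum_apply, Complex.ofReal_sum]
      refine sum_congr rfl fun j _ => ?_
      rw [map_smul, lp.coeFn_smul, Pi.smul_apply, smul_eq_mul, Complex.ofReal_mul, mul_comm]
      congr 1
      have h2 := hent i j
      have h3 : ent T i j = ((ent T i j).re : ℂ) := by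
        rw [Complex.nonneg_iff] at h2
        exact Complex.ext rfl (by simpa using h2.2.symm)
      have h4 : 0 ≤ (ent T i j).re := (Complex.nonneg_iff.1 h2).1
      change ent T i j = _
      conv_rhs => rw [h3, Complex.norm_real, Real.norm_of_nonneg h4]
      exact h3
    have h1 := lp.sum_rpow_le_norm_rpow hp (T X) (range N)
    have h2 : ‖T X‖ ^ P.toReal ≤ ‖X‖ ^ P.toReal := by
      refine Real.rpow_le_rpow (norm_nonneg _) ?_ hp.le
      exact (T.le_opNorm X).trans (mul_le_of_le_one_left (norm_nonneg _) hn)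
    rw [hXn] at h2
    refine le_trans (le_of_eq ?_) (h1.trans h2)
    refine sum_congr rfl fun i _ => ?_
    rw [hTX, Complex.norm_real, Real.norm_of_nonneg
      (sum_nonneg fun j _ => mul_nonneg (norm_nonneg _) (hx j))]
  · rintro ⟨hr, hent⟩
    refine ⟨norm_le_one_of_RegS hP1 hPt hr, ?_⟩
    intro x hx i
    have hlim : Tendsto (fun N => T ((1 - QP P N) x) i) atTop (𝓝 (T x i)) := by
      have h1 := (QP_tendsto hPt x).const_sub x
      rw [sub_zero] at h1
      exact ((gP P i).continuous.tendsto _).comp ((T.continuous.tendsto _).comp h1)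
    refine ge_of_tendsto' hlim fun N => ?_
    rw [T_one_sub]
    exact sum_nonneg fun j _ => mul_nonneg (hent i j) (hx j)

/-- Contractively regular operators on `ℓ_P`: the matrix of absolute values is a contraction. -/
def RegC (P : ℝ≥0∞) [Fact (1 ≤ P)] : Set (EP P →L[ℂ] EP P) :=
  {T | ∀ (N : ℕ) (x : ℕ → ℝ), (∀ j, 0 ≤ x j) →
    ∑ i ∈ range N, (∑ j ∈ range N, ‖T (lp.single P j 1) i‖ * x j) ^ P.toReal ≤
      ∑ j ∈ range N, x j ^ P.toReal}

lemma regC_eq : RegC P = Cls P Set.univ := by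
  ext T
  constructor
  · intro h
    exact ⟨h, fun _ _ => trivial⟩
  · intro h
    exact h.1

/-- From orthogonal orbits to invariant subspaces. -/
lemma inv_of_good {E : Type*} [NormedAddCommGroup E] [NormedSpace ℂ E] {T : E →L[ℂ] E}
    (h : Good T) (x₀ : E) {ε : ℝ} (hε : 0 < ε) :
    ∃ M : Submodule ℂ E, IsClosed (M : Set E) ∧ M ≠ ⊥ ∧ M ≠ ⊤ ∧ (∀ v ∈ M, T v ∈ M) ∧
      ∃ x ∈ M, ‖x - x₀‖ < ε := by
  obtain ⟨x, y, hx, hxx, hy, hxy⟩ := h x₀ ε hε
  set M0 : Submodule ℂ E := Submodule.span ℂ (Set.range fun n => (T ^ n) x) with hM0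
  have hTM : ∀ v ∈ M0, T v ∈ M0 := by
    intro v hv
    have h1 : M0 ≤ M0.comap T.toLinearMap := by
      rw [hM0, Submodule.span_le]
      rintro _ ⟨n, rfl⟩
      apply Submodule.subset_span
      refine ⟨n + 1, ?_⟩
      beta_reduce
      rw [pow_succ', mul_apply_eq_comp]
      rfl
    exact h1 hv
  have hxM : x ∈ M0.topologicalClosure := by
    apply M0.le_topologicalClosure
    exact Submodule.subset_span ⟨0, by simp⟩
  refine ⟨M0.topologicalClosure, M0.isClosed_topologicalClosure, ?_, ?_, ?_, x, hxM, hxx⟩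
  · intro hb
    rw [hb, Submodule.mem_bot] at hxM
    exact hx hxM
  · intro ht
    apply hy
    ext v
    have hv : v ∈ M0.topologicalClosure := by rw [ht]; trivial
    have h2 : (M0.topologicalClosure : Set E) ⊆ {v | y v = 0} := by
      have hcl : IsClosed {v | y v = 0} := isClosed_eq y.continuous continuous_const
      apply closure_minimal _ hcl
      intro v hv
      have h3 : M0 ≤ LinearMap.ker y.toLinearMap := by
        rw [hM0, Submodule.span_le]
        rintro _ ⟨n, rfl⟩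
        exact hxy n
      exact h3 hv
    simpa using h2 hv
  · intro v hv
    have hmaps : Set.MapsTo T (closure (M0 : Set E)) (closure (M0 : Set E)) :=
      Set.MapsTo.closure (fun v hv => hTM v hv) T.continuous
    exact hmaps hv

end Pool.Agent.Y280
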