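import Pool.Agent.Y280.EllTyp

/-!
# Typical positive contractions and typical regular contractions of `ℓ_p` (version over `lp`)
-/

set_option autoImplicit false
open Finset TopologicalSpace
open scoped ENNReal ComplexOrder

namespace Pool.Agent.Y280

variable (p : ℝ≥0∞) [Fact (1 ≤ p)]

/-- **Typical positive (typical regular) contractions of `ℓ_p`, `1 < p < ∞`, have nontrivial closed
invariant subspaces**, in the strong and in the strong* operator topology. The spaces of
contractions are completely metrizable. -/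
theorem result_lp (hp1 : 1 < p) (hp : p ≠ ∞) (C : Set (EP p →L[ℂ] EP p))
    (hC : C = PosC p ∨ C = RegC p) (t : TopologicalSpace C)
    (ht : t = sot C ∨ t = sotStar C) :
    C.Nonempty ∧ @IsCompletelyMetrizableSpace C t ∧ @BaireSpace C t ∧
    {T : C | ∀ (x₀ : EP p) (ε : ℝ), 0 < ε →
      ∃ M : Submodule ℂ (EP p), IsClosed (M : Set (EP p)) ∧ M ≠ ⊥ ∧ M ≠ ⊤ ∧
        (∀ v ∈ M, (T : EP p →L[ℂ] EP p) v ∈ M) ∧ ∃ x ∈ M, ‖x - x₀‖ < ε} ∈ @residual C t := by
  have key : ∀ Φ : Set ℂ, IsClosed Φ → (0 : ℂ) ∈ Φ → (1 : ℂ) ∈ Φ →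
      (∀ z ∈ Φ, ∀ r : ℝ, 0 ≤ r → r ≤ 1 → (r : ℂ) * z ∈ Φ) → C = Cls p Φ →
      C.Nonempty ∧ @IsCompletelyMetrizableSpace C t ∧ @BaireSpace C t ∧
      {T : C | ∀ (x₀ : EP p) (ε : ℝ), 0 < ε →
        ∃ M : Submodule ℂ (EP p), IsClosed (M : Set (EP p)) ∧ M ≠ ⊥ ∧ M ≠ ⊤ ∧
          (∀ v ∈ M, (T : EP p →L[ℂ] EP p) v ∈ M) ∧ ∃ x ∈ M, ‖x - x₀‖ < ε} ∈ @residual C t := by
    intro Φ hcl h0 h1 hsc hCΦ
    subst hCΦ
    have hcm : @IsCompletelyMetrizableSpace (Cls p Φ) t := by
      rcases ht with rfl | rfl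
      · exact cls_cm_sot hp1 hp hcl
      · exact cls_cm_sotStar hp1 hp hcl
    refine ⟨⟨0, ?_, fun i j => ?_⟩, hcm, ?_, ?_⟩
    · intro N x hx
      have hpr := toReal_pos' hp
      have e : ∀ i ∈ range N, (∑ j ∈ range N, ‖ent (0 : EP p →L[ℂ] EP p) i j‖ * x j) ^
          p.toReal = 0 := by
        intro i _
        rw [sum_eq_zero, Real.zero_rpow hpr.ne']
        intro j _
        simp [ent]
      rw [sum_congr rfl e, sum_const_zero]
      exact sum_nonneg fun j _ => Real.rpow_nonneg (hx j) _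
    · simpa [ent] using h0
    · exact @BaireSpace.of_completelyPseudoMetrizable _ t
        (@IsCompletelyMetrizableSpace.toIsCompletelyPseudoMetrizableSpace _ t hcm)
    · have ht1 : sotStar (Cls p Φ) ≤ t := by
        rcases ht with rfl | rfl
        · exact sotStar_le_sot _
        · exact le_rfl
      have ht2 : t ≤ sot (Cls p Φ) := by
        rcases ht with rfl | rfl
        · exact le_rfl
        · exact sotStar_le_sot _
      have h := cls_typical hp1 hp h0 h1 hsc ht1 ht2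
      refine Filter.mem_of_superset h fun T hT => ?_
      intro x₀ ε hε
      exact inv_of_good hT x₀ hε
  rcases hC with hC | hC
  · refine key {z | 0 ≤ z} ?_ (show (0 : ℂ) ≤ 0 from le_rfl)
      (show (0 : ℂ) ≤ 1 from zero_le_one) ?_ (hC.trans (posC_eq hp1 hp))
    · exact isClosed_le continuous_const continuous_id
    · intro z hz r hr _
      exact (show (0 : ℂ) ≤ (r : ℂ) * z from mul_nonneg (by exact_mod_cast hr) hz)
  · exact key Set.univ isClosed_univ trivial trivial (fun _ _ _ _ _ => trivial)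
      (hC.trans regC_eq)

end Pool.Agent.Y280
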