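import Pool.Agent.Y280.Defs

/-!
# Transfer of statements on typical operators through an isometric isomorphism
-/

set_option autoImplicit false
open TopologicalSpace Topology Filter
open scoped ENNReal

namespace Pool.Agent.Y280

variable {E F : Type} [NormedAddCommGroup E] [NormedSpace ℂ E]
  [NormedAddCommGroup F] [NormedSpace ℂ F]

/-- Conjugation of operators by an isometric isomorphism. -/
def cj (e : E ≃ₗᵢ[ℂ] F) (T : E →L[ℂ] E) : F →L[ℂ] F :=
  (e.toContinuousLinearEquiv : E →L[ℂ] F).comp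
    (T.comp (e.symm.toContinuousLinearEquiv : F →L[ℂ] E))

lemma cj_apply (e : E ≃ₗᵢ[ℂ] F) (T : E →L[ℂ] E) (y : F) : cj e T y = e (T (e.symm y)) := rfl

lemma cj_symm_cj (e : E ≃ₗᵢ[ℂ] F) (T : E →L[ℂ] E) : cj e.symm (cj e T) = T := by
  ext x
  simp [cj_apply]

lemma cj_cj_symm (e : E ≃ₗᵢ[ℂ] F) (T : F →L[ℂ] F) : cj e (cj e.symm T) = T := by
  ext x
  simp [cj_apply]

lemma norm_cj (e : E ≃ₗᵢ[ℂ] F) (T : E →L[ℂ] E) : ‖cj e T‖ = ‖T‖ := by
  have key : ∀ {E F : Type} [NormedAddCommGroup E] [NormedSpace ℂ E]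
      [NormedAddCommGroup F] [NormedSpace ℂ F] (e : E ≃ₗᵢ[ℂ] F) (T : E →L[ℂ] E),
      ‖cj e T‖ ≤ ‖T‖ := by
    intro E F _ _ _ _ e T
    refine ContinuousLinearMap.opNorm_le_bound _ (norm_nonneg _) fun y => ?_
    rw [cj_apply, e.norm_map]
    exact (T.le_opNorm _).trans_eq (by rw [e.symm.norm_map])
  refine le_antisymm (key e T) ?_
  have := key e.symm (cj e T)
  rwa [cj_symm_cj] at this

lemma continuous_cj_sot (e : E ≃ₗᵢ[ℂ] F) (C : Set (E →L[ℂ] E)) (C' : Set (F →L[ℂ] F))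
    (f : C → C') (hf : ∀ T : C, (f T : F →L[ℂ] F) = cj e T) :
    @Continuous C C' (SOT C) (SOT C') f := by
  letI := SOT C
  refine continuous_induced_rng.2 (continuous_pi fun y => ?_)
  have e1 : (fun T : C => ((fun (T : C') (x : F) => (T : F →L[ℂ] F) x) ∘ f) T y) =
      fun T : C => e ((T : E →L[ℂ] E) (e.symm y)) := by
    funext T
    show (f T : F →L[ℂ] F) y = _
    rw [hf, cj_apply]
  rw [e1]
  exact e.continuous.comp ((continuous_apply (e.symm y)).comp
    (continuous_induced_dom (f := fun (T : C) (x : E) => (T : E →L[ℂ] E) x)))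

lemma continuous_cj_sotStar (e : E ≃ₗᵢ[ℂ] F) (C : Set (E →L[ℂ] E)) (C' : Set (F →L[ℂ] F))
    (f : C → C') (hf : ∀ T : C, (f T : F →L[ℂ] F) = cj e T) :
    @Continuous C C' (SOTStar C) (SOTStar C') f := by
  letI := SOTStar C
  have hd : Continuous (fun T : C => ((fun x : E => (T : E →L[ℂ] E) x),
    (fun y : StrongDual ℂ E => y.comp (T : E →L[ℂ] E)))) := continuous_induced_dom
  refine continuous_induced_rng.2 (Continuous.prodMk (continuous_pi fun y => ?_)
    (continuous_pi fun y => ?_))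
  · have e1 : (fun T : C => (f T : F →L[ℂ] F) y) =
        fun T : C => e ((T : E →L[ℂ] E) (e.symm y)) := by
      funext T
      rw [hf, cj_apply]
    refine Eq.mpr (congrArg _ e1) ?_
    exact e.continuous.comp ((continuous_apply (e.symm y)).comp hd.fst)
  · have e1 : (fun T : C => y.comp (f T : F →L[ℂ] F)) =
        fun T : C => (((y.comp (e.toContinuousLinearEquiv : E →L[ℂ] F)).comp
          (T : E →L[ℂ] E)).comp (e.symm.toContinuousLinearEquiv : F →L[ℂ] E)) := by
      funext T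
      rw [hf]
      rfl
    refine Eq.mpr (congrArg _ e1) ?_
    have h2 : Continuous (fun T : C => (y.comp (e.toContinuousLinearEquiv : E →L[ℂ] F)).comp
          (T : E →L[ℂ] E)) :=
      (continuous_apply (y.comp (e.toContinuousLinearEquiv : E →L[ℂ] F))).comp hd.snd
    exact h2.clm_comp continuous_const

/-- Transfer of the statement through an isometric isomorphism. -/
theorem transfer_typ (e : E ≃ₗᵢ[ℂ] F) (C : Set (E →L[ℂ] E)) (C' : Set (F →L[ℂ] F))
    (h : ∀ T, T ∈ C ↔ cj e T ∈ C') (t : TopologicalSpace C)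
    (ht : t = SOT C ∨ t = SOTStar C) (P : (E →L[ℂ] E) → Prop) (P' : (F →L[ℂ] F) → Prop)
    (hP : ∀ T, P' (cj e T) → P T)
    (hC' : ∀ t' : TopologicalSpace C', (t' = SOT C' ∨ t' = SOTStar C') →
      C'.Nonempty ∧ @IsCompletelyMetrizableSpace C' t' ∧ @BaireSpace C' t' ∧
        {T : C' | P' T} ∈ @residual C' t') :
    C.Nonempty ∧ @IsCompletelyMetrizableSpace C t ∧ @BaireSpace C t ∧
      {T : C | P T} ∈ @residual C t := by
  have h' : ∀ T, T ∈ C' ↔ cj e.symm T ∈ C := fun T => by rw [h, cj_cj_symm]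
  let f : C ≃ C' :=
    { toFun := fun T => ⟨cj e T, (h T).1 T.2⟩
      invFun := fun T => ⟨cj e.symm T, (h' T).1 T.2⟩
      left_inv := fun T => Subtype.ext (cj_symm_cj e T)
      right_inv := fun T => Subtype.ext (cj_cj_symm e T) }
  obtain ⟨t', ht', hc1, hc2⟩ : ∃ t' : TopologicalSpace C', (t' = SOT C' ∨ t' = SOTStar C') ∧
      @Continuous C C' t t' f ∧ @Continuous C' C t' t f.symm := by
    rcases ht with rfl | rfl
    · exact ⟨SOT C', Or.inl rfl, continuous_cj_sot e C C' f fun _ => rfl,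
        continuous_cj_sot e.symm C' C f.symm fun _ => rfl⟩
    · exact ⟨SOTStar C', Or.inr rfl, continuous_cj_sotStar e C C' f fun _ => rfl,
        continuous_cj_sotStar e.symm C' C f.symm fun _ => rfl⟩
  obtain ⟨hne, hcm, hb, hr⟩ := hC' t' ht'
  letI := t
  letI := t'
  let φ : C ≃ₜ C' := ⟨f, hc1, hc2⟩
  haveI := hcm
  have hcmC : IsCompletelyMetrizableSpace C := φ.isClosedEmbedding.IsCompletelyMetrizableSpace
  refine ⟨?_, hcmC, ?_, ?_⟩
  · obtain ⟨T, hT⟩ := hne
    exact ⟨cj e.symm T, (h' T).1 hT⟩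
  · exact BaireSpace.of_completelyPseudoMetrizable
  · have : φ ⁻¹' {T : C' | P' T} ∈ residual C := by
      have h1 := φ.symm.residual_map_eq
      rw [← h1, Filter.mem_map, ← Set.preimage_comp]
      simpa using hr
    exact Filter.mem_of_superset this fun T hT => hP T hT

/-- A space whose coordinates satisfy `IsEllp` is isometric to Mathlib's `lp`. -/
theorem exists_isometry {p : ℝ≥0∞} [Fact (1 ≤ p)] (hp0 : 0 < p.toReal)
    {c : E →ₗ[ℂ] (ℕ → ℂ)} (hc : IsEllp p.toReal c) :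
    ∃ e : E ≃ₗᵢ[ℂ] lp (fun _ : ℕ => ℂ) p, ∀ x i, e x i = c x i := by
  have hmem : ∀ x, Memℓp (c x) p := fun x => memℓp_gen (hc.summable x)
  let f : E →ₗ[ℂ] lp (fun _ : ℕ => ℂ) p :=
    { toFun := fun x => ⟨c x, hmem x⟩
      map_add' := fun x y => by
        ext i
        simp
      map_smul' := fun r x => by
        ext i
        simp }
  have hn : ∀ x, ‖f x‖ = ‖x‖ := by
    intro x
    have h1 := lp.norm_rpow_eq_tsum hp0 (f x)
    have h2 : ‖f x‖ ^ p.toReal = ‖x‖ ^ p.toReal := by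
      rw [h1, hc.norm_rpow]
      rfl
    exact (Real.rpow_left_inj (norm_nonneg _) (norm_nonneg _) hp0.ne').1 h2
  let g : E →ₗᵢ[ℂ] lp (fun _ : ℕ => ℂ) p := ⟨f, hn⟩
  have hs : Function.Surjective g := by
    intro y
    obtain ⟨x, hx⟩ := hc.surjective y ((lp.memℓp y).summable hp0)
    refine ⟨x, ?_⟩
    ext i
    show c x i = _
    rw [hx]
  refine ⟨LinearIsometryEquiv.ofSurjective g hs, fun x i => ?_⟩
  simp [LinearIsometryEquiv.ofSurjective, g, f]

/-- Mathlib's `lp` has coordinates satisfying `IsEllp`. -/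
theorem isEllp_lp {p : ℝ≥0∞} [Fact (1 ≤ p)] (hp0 : 0 < p.toReal) :
    IsEllp p.toReal (E := lp (fun _ : ℕ => ℂ) p)
      ({ toFun := fun x i => x i
         map_add' := fun _ _ => rfl
         map_smul' := fun _ _ => rfl } : lp (fun _ : ℕ => ℂ) p →ₗ[ℂ] (ℕ → ℂ)) where
  summable x := (lp.memℓp x).summable hp0
  norm_rpow x := lp.norm_rpow_eq_tsum hp0 x
  surjective a ha := ⟨⟨a, memℓp_gen ha⟩, rfl⟩

/-- The property to be `DenselyInvariant` is invariant under conjugation. -/
lemma denselyInvariant_cj (e : E ≃ₗᵢ[ℂ] F) (T : E →L[ℂ] E) (h : DenselyInvariant (cj e T)) :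
    DenselyInvariant T := by
  intro x₀ ε hε
  obtain ⟨M, hcl, hb, ht, hinv, x, hx, hxe⟩ := h (e x₀) ε hε
  refine ⟨M.comap (e.toLinearEquiv : E →ₗ[ℂ] F), ?_, ?_, ?_, ?_, e.symm x, ?_, ?_⟩
  · exact hcl.preimage e.continuous
  · intro hbot
    apply hb
    rw [Submodule.eq_bot_iff]
    intro v hv
    have : e.symm v ∈ M.comap (e.toLinearEquiv : E →ₗ[ℂ] F) := by
      show e (e.symm v) ∈ M
      rwa [e.apply_symm_apply]
    rw [hbot, Submodule.mem_bot] at this
    simpa using this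
  · intro htop
    apply ht
    rw [Submodule.eq_top_iff']
    intro v
    have : e.symm v ∈ M.comap (e.toLinearEquiv : E →ₗ[ℂ] F) := by
      rw [htop]
      trivial
    have h2 : e (e.symm v) ∈ M := this
    rwa [e.apply_symm_apply] at h2
  · intro v hv
    have h1 := hinv (e v) hv
    rw [cj_apply, e.symm_apply_apply] at h1
    exact h1
  · show e (e.symm x) ∈ M
    rwa [e.apply_symm_apply]
  · rw [← e.norm_map, map_sub, e.apply_symm_apply]
    exact hxe

end Pool.Agent.Y280
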