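import Pool.Agent.Y280.Fin1
import Pool.Agent.Y280.Transf

/-!
# Typical positive contractions and typical regular contractions of `ℓ_p`, in coordinates
-/

set_option autoImplicit false
open Finset TopologicalSpace
open scoped ENNReal ComplexOrder

namespace Pool.Agent.Y280

variable {E : Type} [NormedAddCommGroup E] [NormedSpace ℂ E]

lemma exists_exponent {p : ℝ} (hp : 1 < p) :
    ∃ P : ℝ≥0∞, 1 < P ∧ P ≠ ∞ ∧ P.toReal = p := by
  have hp0 : 0 < p := zero_lt_one.trans hp
  refine ⟨ENNReal.ofReal p, ?_, ENNReal.ofReal_ne_top, ENNReal.toReal_ofReal hp0.le⟩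
  rw [← ENNReal.ofReal_one]
  exact (ENNReal.ofReal_lt_ofReal_iff hp0).2 hp

theorem result_pos (p : ℝ) (hp : 1 < p) (c : E →ₗ[ℂ] (ℕ → ℂ)) (hc : IsEllp p c)
    (C : Set (E →L[ℂ] E))
    (hC : C = {T | ‖T‖ ≤ 1 ∧ ∀ x, (∀ i, 0 ≤ c x i) → ∀ i, 0 ≤ c (T x) i})
    (t : TopologicalSpace C) (ht : t = SOT C ∨ t = SOTStar C) :
    C.Nonempty ∧ @IsCompletelyMetrizableSpace C t ∧ @BaireSpace C t ∧
      {T : C | DenselyInvariant (T : E →L[ℂ] E)} ∈ @residual C t := by
  have hp0 : 0 < p := zero_lt_one.trans hp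
  obtain ⟨P, hP1, hPt, hPr⟩ := exists_exponent hp
  haveI : Fact (1 ≤ P) := ⟨hP1.le⟩
  have hc' : IsEllp P.toReal c := by rw [hPr]; exact hc
  obtain ⟨e, he⟩ := exists_isometry (by rw [hPr]; exact hp0) hc'
  have he' : ∀ (y : EP P) i, c (e.symm y) i = y i := by
    intro y i
    rw [← he, e.apply_symm_apply]
  refine transfer_typ e C (PosC P) ?_ t ht DenselyInvariant DenselyInvariant
      (denselyInvariant_cj e) fun t' ht' => result_lp P hP1 hPt _ (Or.inl rfl) t' ht'
  intro T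
  rw [hC]
  constructor
  · rintro ⟨hn, hpos⟩
    refine ⟨by rwa [norm_cj], fun x hx i => ?_⟩
    rw [cj_apply, he]
    exact hpos _ (fun i => by rw [he']; exact hx i) i
  · rintro ⟨hn, hpos⟩
    refine ⟨by rwa [norm_cj] at hn, fun x hx i => ?_⟩
    have := hpos (e x) (fun i => by rw [he]; exact hx i) i
    rwa [cj_apply, he, e.symm_apply_apply] at this

theorem result_reg (p : ℝ) (hp : 1 < p) (c : E →ₗ[ℂ] (ℕ → ℂ)) (hc : IsEllp p c)
    (C : Set (E →L[ℂ] E))
    (hC : C = {T | ∀ e : ℕ → E, (∀ j, c (e j) = Pi.single j 1) → ∀ (N : ℕ) (x : ℕ → ℝ),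
      (∀ j, 0 ≤ x j) → ∑ i ∈ range N, (∑ j ∈ range N, ‖c (T (e j)) i‖ * x j) ^ p ≤
        ∑ j ∈ range N, x j ^ p})
    (t : TopologicalSpace C) (ht : t = SOT C ∨ t = SOTStar C) :
    C.Nonempty ∧ @IsCompletelyMetrizableSpace C t ∧ @BaireSpace C t ∧
      {T : C | DenselyInvariant (T : E →L[ℂ] E)} ∈ @residual C t := by
  have hp0 : 0 < p := zero_lt_one.trans hp
  obtain ⟨P, hP1, hPt, hPr⟩ := exists_exponent hp
  haveI : Fact (1 ≤ P) := ⟨hP1.le⟩
  have hc' : IsEllp P.toReal c := by rw [hPr]; exact hc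
  obtain ⟨e, he⟩ := exists_isometry (by rw [hPr]; exact hp0) hc'
  have he' : ∀ (y : EP P) i, c (e.symm y) i = y i := by
    intro y i
    rw [← he, e.apply_symm_apply]
  refine transfer_typ e C (RegC P) ?_ t ht DenselyInvariant DenselyInvariant
      (denselyInvariant_cj e) fun t' ht' => result_lp P hP1 hPt _ (Or.inr rfl) t' ht'
  intro T
  rw [hC]
  have hb : ∀ j, c (e.symm (lp.single P j 1)) = Pi.single j 1 := by
    intro j
    funext i
    rw [he', lp.single_apply]
  have huniq : ∀ (b : ℕ → E), (∀ j, c (b j) = Pi.single j 1) →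
      ∀ j, b j = e.symm (lp.single P j 1) := by
    intro b hbj j
    apply e.injective
    ext i
    rw [he, he, hbj, hb]
  constructor
  · intro h N x hx
    have := h _ hb N x hx
    rw [hPr]
    refine (le_of_eq ?_).trans this
    refine sum_congr rfl fun i _ => ?_
    congr 1
    refine sum_congr rfl fun j _ => ?_
    rw [cj_apply, he]
  · intro h b hbj N x hx
    have := h N x hx
    rw [hPr] at this
    refine (le_of_eq ?_).trans this
    refine sum_congr rfl fun i _ => ?_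
    congr 1
    refine sum_congr rfl fun j _ => ?_
    rw [cj_apply, he, huniq b hbj j]

end Pool.Agent.Y280
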