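import Mathlib

/-!
# Averages over the circle
-/

set_option autoImplicit false
open Finset MeasureTheory intervalIntegral Filter Topology
open scoped Real ComplexConjugate

namespace Pool.Agent.Y280

/-- A point of the circle. -/
noncomputable def zt (θ : ℝ) : ℂ := Complex.exp (-(θ * Complex.I))

lemma norm_zt (θ : ℝ) : ‖zt θ‖ = 1 := by
  unfold zt
  rw [show -((θ : ℂ) * Complex.I) = ((-θ : ℝ) : ℂ) * Complex.I by push_cast; ring]
  exact Complex.norm_exp_ofReal_mul_I _

lemma continuous_zt : Continuous zt := by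
  unfold zt
  fun_prop

lemma zt_conj (θ : ℝ) : conj (zt θ) = Complex.exp (θ * Complex.I) := by
  unfold zt
  rw [← Complex.exp_conj, map_neg, map_mul, Complex.conj_ofReal, Complex.conj_I]
  congr 1
  ring

/-- Average over the circle. -/
noncomputable def Av {V : Type*} [NormedAddCommGroup V] [NormedSpace ℝ V] (f : ℝ → V) : V :=
  (2 * π)⁻¹ • ∫ θ in (0 : ℝ)..(2 * π), f θ

lemma orth (m n : ℕ) : Av (fun θ => conj (zt θ) ^ m * zt θ ^ n) = if m = n then 1 else 0 := by
  have e : ∀ θ : ℝ, conj (zt θ) ^ m * zt θ ^ n =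
      Complex.exp ((((m : ℂ) - n) * Complex.I) * θ) := by
    intro θ
    rw [zt_conj, zt, ← Complex.exp_nat_mul, ← Complex.exp_nat_mul, ← Complex.exp_add]
    congr 1
    ring
  unfold Av
  simp only [e]
  have hpi : (π : ℂ) ≠ 0 := by exact_mod_cast Real.pi_ne_zero
  split_ifs with h
  · subst h
    simp only [sub_self, zero_mul, Complex.exp_zero, intervalIntegral.integral_const, sub_zero]
    rw [smul_smul]
    rw [inv_mul_cancel₀ (by positivity), one_smul]
  · have hne : ((m : ℂ) - n) * Complex.I ≠ 0 := by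
      apply mul_ne_zero _ Complex.I_ne_zero
      rw [sub_ne_zero]
      exact_mod_cast h
    rw [integral_exp_mul_complex hne]
    have h1 : Complex.exp (((m : ℂ) - n) * Complex.I * ((2 * π : ℝ) : ℂ)) = 1 := by
      rw [show ((m : ℂ) - n) * Complex.I * ((2 * π : ℝ) : ℂ) =
        (((m : ℤ) - n : ℤ) : ℂ) * (2 * π * Complex.I) by push_cast; ring]
      exact Complex.exp_int_mul_two_pi_mul_I _
    rw [h1]
    simp

lemma Av_add {f g : ℝ → ℂ} (hf : Continuous f) (hg : Continuous g) :
    Av (fun θ => f θ + g θ) = Av f + Av g := by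
  unfold Av
  rw [intervalIntegral.integral_add (hf.intervalIntegrable _ _) (hg.intervalIntegrable _ _),
    smul_add]

lemma Av_sub {V : Type*} [NormedAddCommGroup V] [NormedSpace ℝ V] {f g : ℝ → V}
    (hf : Continuous f) (hg : Continuous g) :
    Av (fun θ => f θ - g θ) = Av f - Av g := by
  unfold Av
  rw [intervalIntegral.integral_sub (hf.intervalIntegrable _ _) (hg.intervalIntegrable _ _),
    smul_sub]

lemma Av_const_mul (a : ℂ) (f : ℝ → ℂ) : Av (fun θ => a * f θ) = a * Av f := by
  unfold Av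
  rw [intervalIntegral.integral_const_mul]
  rw [mul_smul_comm]

lemma Av_const_mul_real (a : ℝ) (f : ℝ → ℝ) : Av (fun θ => a * f θ) = a * Av f := by
  unfold Av
  rw [intervalIntegral.integral_const_mul]
  rw [mul_smul_comm]

lemma Av_sum {ι : Type*} (s : Finset ι) (f : ι → ℝ → ℂ) (hf : ∀ i, Continuous (f i)) :
    Av (fun θ => ∑ i ∈ s, f i θ) = ∑ i ∈ s, Av (f i) := by
  unfold Av
  rw [intervalIntegral.integral_finset_sum fun i _ => (hf i).intervalIntegrable _ _, smul_sum]

lemma Av_conj (f : ℝ → ℂ) : Av (fun θ => conj (f θ)) = conj (Av f) := by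
  unfold Av
  rw [intervalIntegral.integral_of_le (by positivity), intervalIntegral.integral_of_le
    (by positivity), integral_conj, Complex.real_smul, Complex.real_smul, map_mul,
    Complex.conj_ofReal]

lemma Av_ofReal (f : ℝ → ℝ) : Av (fun θ => (f θ : ℂ)) = ((Av f : ℝ) : ℂ) := by
  unfold Av
  rw [intervalIntegral.integral_ofReal]
  simp

lemma Av_const (a : ℂ) : Av (fun _ => a) = a := by
  unfold Av
  simp only [intervalIntegral.integral_const, sub_zero]
  rw [smul_smul, inv_mul_cancel₀ (by positivity), one_smul]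

lemma Av_mono {f g : ℝ → ℝ} (hf : Continuous f) (hg : Continuous g) (h : ∀ θ, f θ ≤ g θ) :
    Av f ≤ Av g := by
  unfold Av
  rw [smul_eq_mul, smul_eq_mul]
  refine mul_le_mul_of_nonneg_left ?_ (by positivity)
  exact intervalIntegral.integral_mono (by positivity) (hf.intervalIntegrable _ _)
    (hg.intervalIntegrable _ _) h

lemma norm_Av_le {f : ℝ → ℂ} : ‖Av f‖ ≤ Av (fun θ => ‖f θ‖) := by
  unfold Av
  rw [norm_smul, Real.norm_of_nonneg (by positivity), smul_eq_mul]
  refine mul_le_mul_of_nonneg_left ?_ (by positivity)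
  exact intervalIntegral.norm_integral_le_integral_norm (by positivity)

lemma Av_const_real (a : ℝ) : Av (fun _ => a) = a := by
  unfold Av
  simp only [intervalIntegral.integral_const, sub_zero]
  rw [smul_smul, inv_mul_cancel₀ (by positivity), one_smul]

/-- Power series on the circle of radius `s`. -/
noncomputable def ps (a : ℕ → ℂ) (s θ : ℝ) : ℂ := ∑' n, a n * ((s : ℂ) * zt θ) ^ n

section
variable {a : ℕ → ℂ} {K s : ℝ}

lemma ps_term_norm (ha : ∀ n, ‖a n‖ ≤ K) (hs0 : 0 ≤ s) (n : ℕ) (θ : ℝ) :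
    ‖a n * ((s : ℂ) * zt θ) ^ n‖ ≤ K * s ^ n := by
  rw [norm_mul, norm_pow, norm_mul, norm_zt, mul_one, Complex.norm_real,
    Real.norm_of_nonneg hs0]
  exact mul_le_mul_of_nonneg_right (ha n) (by positivity)

lemma ps_hasSum (ha : ∀ n, ‖a n‖ ≤ K) (hs0 : 0 ≤ s) (hs1 : s < 1) (θ : ℝ) :
    HasSum (fun n => a n * ((s : ℂ) * zt θ) ^ n) (ps a s θ) := by
  refine (Summable.of_norm_bounded ((summable_geometric_of_lt_one hs0 hs1).mul_left K)
    fun n => ?_).hasSum
  exact ps_term_norm ha hs0 n θ

lemma continuous_ps (ha : ∀ n, ‖a n‖ ≤ K) (hs0 : 0 ≤ s) (hs1 : s < 1) :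
    Continuous (ps a s) := by
  apply continuous_tsum (u := fun n => K * s ^ n)
  · intro n
    exact continuous_const.mul ((continuous_const.mul continuous_zt).pow n)
  · exact (summable_geometric_of_lt_one hs0 hs1).mul_left K
  · exact fun n θ => ps_term_norm ha hs0 n θ

/-- Integration of a power series against a continuous function. -/
lemma Av_mul_ps (ha : ∀ n, ‖a n‖ ≤ K) (hs0 : 0 ≤ s) (hs1 : s < 1) {h : ℝ → ℂ}
    (hh : Continuous h) {L : ℝ} (hL : ∀ θ, ‖h θ‖ ≤ L) :
    HasSum (fun n => a n * (s : ℂ) ^ n * Av (fun θ => h θ * zt θ ^ n))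
      (Av (fun θ => h θ * ps a s θ)) := by
  let F : ℕ → C(ℝ, ℂ) := fun n => ⟨fun θ => h θ * (a n * ((s : ℂ) * zt θ) ^ n),
    hh.mul (continuous_const.mul ((continuous_const.mul continuous_zt).pow n))⟩
  have hK : 0 ≤ K := (norm_nonneg _).trans (ha 0)
  have hL0 : 0 ≤ L := (norm_nonneg _).trans (hL 0)
  have hsum : Summable fun n => ‖(F n).restrict
      (⟨Set.uIcc 0 (2 * π), isCompact_uIcc⟩ : TopologicalSpace.Compacts ℝ)‖ := by
    refine Summable.of_nonneg_of_le (fun n => norm_nonneg _) (fun n => ?_)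
      (((summable_geometric_of_lt_one hs0 hs1).mul_left K).mul_left L)
    rw [ContinuousMap.norm_le _ (by positivity)]
    intro θ
    show ‖h θ * (a n * ((s : ℂ) * zt θ) ^ n)‖ ≤ _
    rw [norm_mul]
    exact mul_le_mul (hL _) (ps_term_norm ha hs0 n _) (norm_nonneg _) hL0
  have h1 := intervalIntegral.hasSum_intervalIntegral_of_summable_norm (a := 0) (b := 2 * π) hsum
  have h2 := h1.const_smul ((2 * π)⁻¹ : ℝ)
  have e1 : ∀ θ, ∑' n, F n θ = h θ * ps a s θ := by
    intro θ
    exact ((ps_hasSum ha hs0 hs1 θ).mul_left (h θ)).tsum_eq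
  have e2 : ∀ n, (2 * π)⁻¹ • ∫ θ in (0 : ℝ)..(2 * π), F n θ =
      a n * (s : ℂ) ^ n * Av (fun θ => h θ * zt θ ^ n) := by
    intro n
    rw [← Av_const_mul]
    unfold Av
    congr 1
    apply intervalIntegral.integral_congr
    intro θ _
    show h θ * (a n * ((s : ℂ) * zt θ) ^ n) = _
    ring
  simp only [e1, e2] at h2
  exact h2

/-- The polynomial with coefficients `g`, conjugate variable. -/
noncomputable def pg (D : ℕ) (g : ℕ → ℂ) (θ : ℝ) : ℂ := ∑ m ∈ range D, g m * conj (zt θ) ^ m

lemma continuous_pg (D : ℕ) (g : ℕ → ℂ) : Continuous (pg D g) := by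
  unfold pg
  refine continuous_finset_sum _ fun m _ => continuous_const.mul (Continuous.pow ?_ m)
  exact Complex.continuous_conj.comp continuous_zt

lemma Av_pg_ps (ha : ∀ n, ‖a n‖ ≤ K) (hs0 : 0 ≤ s) (hs1 : s < 1) (D : ℕ) (g : ℕ → ℂ)
    {L : ℝ} (hL : ∀ θ, ‖pg D g θ‖ ≤ L) :
    Av (fun θ => pg D g θ * ps a s θ) = ∑ n ∈ range D, g n * (a n * (s : ℂ) ^ n) := by
  have h1 := Av_mul_ps ha hs0 hs1 (continuous_pg D g) hL
  have e : ∀ n, Av (fun θ => pg D g θ * zt θ ^ n) = if n < D then g n else 0 := by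
    intro n
    have e1 : (fun θ => pg D g θ * zt θ ^ n) =
        fun θ => ∑ m ∈ range D, g m * (conj (zt θ) ^ m * zt θ ^ n) := by
      funext θ
      unfold pg
      rw [sum_mul]
      exact sum_congr rfl fun m _ => by ring
    rw [e1, Av_sum]
    · simp only [Av_const_mul, orth]
      simp
    · intro m
      refine continuous_const.mul (Continuous.mul (Continuous.pow ?_ m) (continuous_zt.pow n))
      exact Complex.continuous_conj.comp continuous_zt
  simp only [e] at h1
  rw [← h1.tsum_eq, tsum_eq_sum (s := range D)]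
  · refine sum_congr rfl fun n hn => ?_
    rw [mem_range] at hn
    rw [if_pos hn]
    ring
  · intro n hn
    rw [mem_range] at hn
    rw [if_neg hn, mul_zero]

lemma Av_pg_conj_ps (ha : ∀ n, ‖a n‖ ≤ K) (hs0 : 0 ≤ s) (hs1 : s < 1) (D : ℕ) (g : ℕ → ℂ)
    {L : ℝ} (hL : ∀ θ, ‖pg D g θ‖ ≤ L) :
    Av (fun θ => pg D g θ * conj (ps a s θ)) = (if 0 < D then g 0 else 0) * conj (a 0) := by
  have hcc : Continuous fun θ => conj (pg D g θ) :=
    Complex.continuous_conj.comp (continuous_pg D g)
  have h1 := Av_mul_ps ha hs0 hs1 hcc (L := L) (fun θ => by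
    rw [RCLike.norm_conj]; exact hL θ)
  have e : ∀ n, Av (fun θ => conj (pg D g θ) * zt θ ^ n) =
      if n = 0 then (if 0 < D then conj (g 0) else 0) else 0 := by
    intro n
    have e1 : (fun θ => conj (pg D g θ) * zt θ ^ n) =
        fun θ => ∑ m ∈ range D, conj (g m) * (conj (zt θ) ^ 0 * zt θ ^ (m + n)) := by
      funext θ
      unfold pg
      rw [map_sum, sum_mul]
      refine sum_congr rfl fun m _ => ?_
      rw [map_mul, map_pow, Complex.conj_conj]
      ring
    rw [e1, Av_sum]
    · simp only [Av_const_mul, orth]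
      by_cases hn : n = 0
      · subst hn
        simp only [add_zero, if_true]
        split_ifs with hD
        · rw [sum_eq_single 0]
          · simp
          · intro b _ hb
            rw [if_neg (Ne.symm hb), mul_zero]
          · intro h
            exact absurd (mem_range.2 hD) h
        · have : D = 0 := by omega
          subst this
          simp
      · rw [if_neg hn]
        refine sum_eq_zero fun m _ => ?_
        rw [if_neg (by omega), mul_zero]
    · intro m
      refine continuous_const.mul (Continuous.mul (Continuous.pow ?_ 0)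
        (continuous_zt.pow (m + n)))
      exact Complex.continuous_conj.comp continuous_zt
  simp only [e] at h1
  have h2 : (Av fun θ => conj (pg D g θ) * ps a s θ) =
      a 0 * (if 0 < D then conj (g 0) else 0) := by
    rw [← h1.tsum_eq, tsum_eq_single 0]
    · simp
    · intro n hn
      rw [if_neg hn, mul_zero]
  have h3 := congrArg conj h2
  rw [← Av_conj] at h3
  simp only [map_mul, Complex.conj_conj] at h3
  rw [h3]
  split_ifs <;> simp [mul_comm]

/-- Parseval. -/
lemma Av_norm_sq_ps (ha : ∀ n, ‖a n‖ ≤ K) (hs0 : 0 ≤ s) (hs1 : s < 1) :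
    HasSum (fun n => ‖a n‖ ^ 2 * s ^ (2 * n)) (Av (fun θ => ‖ps a s θ‖ ^ 2)) := by
  have hb : ∀ θ, ‖ps a s θ‖ ≤ K * (1 - s)⁻¹ := by
    intro θ
    refine (norm_tsum_le_tsum_norm ?_).trans ?_
    · exact (ps_hasSum ha hs0 hs1 θ).summable.norm
    · have h1 : HasSum (fun n => K * s ^ n) (K * (1 - s)⁻¹) :=
        (hasSum_geometric_of_lt_one hs0 hs1).mul_left K
      rw [← h1.tsum_eq]
      exact Summable.tsum_le_tsum (fun n => ps_term_norm ha hs0 n θ)
        (ps_hasSum ha hs0 hs1 θ).summable.norm h1.summable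
  have hcc : Continuous fun θ => conj (ps a s θ) :=
    Complex.continuous_conj.comp (continuous_ps ha hs0 hs1)
  have h1 := Av_mul_ps ha hs0 hs1 hcc (L := K * (1 - s)⁻¹) (fun θ => by
    rw [RCLike.norm_conj]; exact hb θ)
  have e : ∀ n, Av (fun θ => conj (ps a s θ) * zt θ ^ n) = conj (a n * (s : ℂ) ^ n) := by
    intro n
    have h2 := Av_pg_ps ha hs0 hs1 (n + 1) (fun m => if m = n then 1 else 0) (L := 1) (by
      intro θ
      unfold pg
      rw [sum_eq_single n]
      · simp [norm_zt]
      · intro b _ hb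
        beta_reduce
        rw [if_neg hb, zero_mul]
      · intro h
        exact absurd (self_mem_range_succ n) h)
    have e1 : (fun θ => pg (n + 1) (fun m => if m = n then 1 else 0) θ * ps a s θ) =
        fun θ => conj (conj (ps a s θ) * zt θ ^ n) := by
      funext θ
      unfold pg
      rw [sum_eq_single n]
      · simp [mul_comm]
      · intro b _ hb
        beta_reduce
        rw [if_neg hb, zero_mul]
      · intro h
        exact absurd (self_mem_range_succ n) h
    rw [e1, Av_conj, sum_eq_single n] at h2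
    · have h3 := congrArg conj h2
      rw [Complex.conj_conj] at h3
      rw [h3]
      simp
    · intro b _ hb
      rw [if_neg hb, zero_mul]
    · intro h
      exact absurd (self_mem_range_succ n) h
  simp only [e] at h1
  have e2 : (fun θ => conj (ps a s θ) * ps a s θ) = fun θ => ((‖ps a s θ‖ ^ 2 : ℝ) : ℂ) := by
    funext θ
    rw [mul_comm, Complex.mul_conj, Complex.normSq_eq_norm_sq]
  rw [e2, Av_ofReal] at h1
  have e3 : ∀ n, a n * (s : ℂ) ^ n * conj (a n * (s : ℂ) ^ n) =
      ((‖a n‖ ^ 2 * s ^ (2 * n) : ℝ) : ℂ) := by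
    intro n
    rw [Complex.mul_conj, Complex.normSq_eq_norm_sq, norm_mul, norm_pow, Complex.norm_real,
      Real.norm_of_nonneg hs0]
    congr 1
    ring
  simp only [e3] at h1
  exact_mod_cast h1

end

end Pool.Agent.Y280
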