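import Pool.Agent.Y280.GDense
import Pool.Agent.Y280.Crit

/-!
# The Baire category argument
-/

set_option autoImplicit false
open Finset Filter Topology TopologicalSpace
open scoped ENNReal

namespace Pool.Agent.Y280

variable {P : ℝ≥0∞} [hP : Fact (1 ≤ P)]

/-- The assumptions on a topology on the unit ball. -/
structure BallTop (P : ℝ≥0∞) [Fact (1 ≤ P)] {W : Type*} [TopologicalSpace W]
    (Φ : W → EP P →L[ℂ] EP P) : Prop where
  norm : ∀ w, ‖Φ w‖ ≤ 1
  surj : ∀ T : EP P →L[ℂ] EP P, ‖T‖ ≤ 1 → ∃ w, Φ w = T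
  conv : ∀ (v : ℕ → W) (v0 : W), Tendsto v atTop (𝓝 v0) →
    (∀ x, Tendsto (fun k => Φ (v k) x) atTop (𝓝 (Φ v0 x))) ∧
      (2 < P.toReal → ∀ y : StrongDual ℂ (EP P),
        Tendsto (fun k => y.comp (Φ (v k))) atTop (𝓝 (y.comp (Φ v0))))
  tend : ∀ (v : ℕ → W) (v0 : W), (∀ x, Tendsto (fun m => Φ (v m) x) atTop (𝓝 (Φ v0 x))) →
    (∀ y : StrongDual ℂ (EP P), Tendsto (fun m => y.comp (Φ (v m))) atTop (𝓝 (y.comp (Φ v0)))) →
    Tendsto v atTop (𝓝 v0)

variable {W : Type*} [TopologicalSpace W] {Φ : W → EP P →L[ℂ] EP P}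

lemma BallTop.tend_norm (h : BallTop P Φ) (v : ℕ → W) (v0 : W)
    (hv : Tendsto (fun m => ‖Φ (v m) - Φ v0‖) atTop (𝓝 0)) : Tendsto v atTop (𝓝 v0) := by
  have h1 : Tendsto (fun m => Φ (v m)) atTop (𝓝 (Φ v0)) :=
    tendsto_iff_norm_sub_tendsto_zero.2 hv
  refine h.tend v v0 (fun x => ?_) fun y => ?_
  · exact ((ContinuousLinearMap.apply ℂ (EP P) x).continuous.tendsto _).comp h1
  · exact ((ContinuousLinearMap.compL ℂ (EP P) (EP P) ℂ y).continuous.tendsto _).comp h1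

/-- The set where the functional has norm at most `ρ`. -/
def 𝒜 (Φ : W → EP P →L[ℂ] EP P) (x : EP P) (y : StrongDual ℂ (EP P)) (ρ : ℝ) : Set W :=
  {w | NdC P.toReal (Φ w) x y ρ}

lemma interior_A [FirstCountableTopology W] (hP1 : 1 < P) (hPt : P ≠ ∞) (h : BallTop P Φ)
    {w : W} {r : ℝ} (hr1 : r < 1) (hw : ‖Φ w‖ ≤ r) {N : ℕ} (hcyc : Cyc (Φ w) N) {x : EP P}
    {y : StrongDual ℂ (EP P)} {ρ η : ℝ} (hN : NdC P.toReal (Φ w) x y ρ) (hη : 0 < η)
    (hx : ‖y‖ * ‖QP P N x‖ + ‖y.comp (QP P N)‖ * ‖x‖ ≤ η) :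
    w ∈ interior (𝒜 Φ x y (ρ + 3 * η)) := by
  rw [mem_interior_iff_mem_nhds]
  by_contra hcon
  have h1 : ∃ᶠ v in 𝓝 w, ¬ NdC P.toReal (Φ v) x y (ρ + 3 * η) := by
    intro hc
    exact hcon (hc.mono fun v hv => not_not.1 hv)
  obtain ⟨v, hv, hv'⟩ := exists_seq_forall_of_frequently h1
  obtain ⟨h2, h3⟩ := h.conv v w hv
  have h4 := cont_NdC hP1 hPt (fun k => h.norm (v k)) hr1 hw h2 h3 hcyc hN hη hx
  obtain ⟨k, hk⟩ := h4.exists
  exact hv' k hk

/-- Finite strict contractions are dense. -/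
lemma exists_finite (hP1 : 1 < P) (hPt : P ≠ ∞) (h : BallTop P Φ) {U : Set W} (hU : IsOpen U)
    {w : W} (hw : w ∈ U) : ∃ w1 ∈ U, ∃ (N : ℕ) (r : ℝ), r < 1 ∧ ‖Φ w1‖ ≤ r ∧
      cmp (Φ w1) N = Φ w1 := by
  set t : ℕ → ℝ := fun m => 1 - 1 / ((m : ℝ) + 1) with ht
  have ht0 : ∀ m, 0 ≤ t m := by
    intro m
    have h2 : 1 / ((m : ℝ) + 1) ≤ 1 := by
      rw [div_le_one (by positivity)]
      have : (0 : ℝ) ≤ m := Nat.cast_nonneg m
      linarith
    simp only [ht]
    linarith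
  have ht1 : ∀ m, t m < 1 := by
    intro m
    have h1 : 0 < 1 / ((m : ℝ) + 1) := by positivity
    simp only [ht]
    linarith
  have htl : Tendsto (fun m => ((t m : ℝ) : ℂ)) atTop (𝓝 1) := by
    have h1 : Tendsto (fun m : ℕ => (1 : ℝ) - 1 / ((m : ℝ) + 1)) atTop (𝓝 (1 - 0)) :=
      tendsto_one_div_add_atTop_nhds_zero_nat.const_sub 1
    rw [sub_zero] at h1
    exact (Complex.continuous_ofReal.tendsto 1).comp h1
  have hcn : ∀ m, ‖cmp (Φ w) m‖ ≤ 1 := by
    intro m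
    refine ContinuousLinearMap.opNorm_le_bound _ zero_le_one fun x => ?_
    rw [one_mul]
    have hq : ∀ z : EP P, ‖(1 - QP P m) z‖ ≤ ‖z‖ := by
      intro z
      apply lp.norm_mono (zero_lt_one.trans_le hP.out).ne'
      intro i
      rw [one_sub_QP_apply]
      split_ifs
      · exact le_rfl
      · simp
    show ‖(1 - QP P m) (Φ w ((1 - QP P m) x))‖ ≤ ‖x‖
    refine (hq _).trans (((Φ w).le_opNorm _).trans ?_)
    exact (mul_le_of_le_one_left (norm_nonneg _) (h.norm w)).trans (hq x)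
  have hTn : ∀ m, ‖(t m : ℂ) • cmp (Φ w) m‖ ≤ t m := by
    intro m
    rw [norm_smul, Complex.norm_real, Real.norm_of_nonneg (ht0 m)]
    exact mul_le_of_le_one_right (ht0 m) (hcn m)
  choose v hv using fun m => h.surj _ ((hTn m).trans (ht1 m).le)
  have hlim : Tendsto v atTop (𝓝 w) := by
    apply h.tend
    · intro x
      simp only [hv, _root_.smul_apply]
      have h1 : Tendsto (fun m => cmp (Φ w) m x) atTop (𝓝 (Φ w x)) := by
        have h2 := cmp_tendsto hPt (Φ w) 1 x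
        simp only [pow_one] at h2
        refine h2.congr fun m => ?_
        show (1 - QP P m) (Φ w ((1 - QP P m) ((1 - QP P m) x))) =
          (1 - QP P m) (Φ w ((1 - QP P m) x))
        congr 2
        ext l
        simp only [one_sub_QP_apply]
        split_ifs <;> rfl
      have h3 := htl.smul h1
      rwa [one_smul] at h3
    · intro y
      have e : ∀ m, y.comp (Φ (v m)) = (t m : ℂ) • (y.comp (Φ w) -
          ((y.comp (QP P m)).comp (Φ w * (1 - QP P m)) + (y.comp (Φ w)).comp (QP P m))) := by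
        intro m
        rw [hv]
        ext x
        simp only [ContinuousLinearMap.comp_apply, _root_.add_apply, _root_.sub_apply,
          _root_.smul_apply, mul_apply_eq_comp, one_apply_eq_self, map_add, map_sub, map_smul,
          cmp, smul_eq_mul]
        ring
      simp only [e]
      have h1 : Tendsto (fun m => (y.comp (QP P m)).comp (Φ w * (1 - QP P m))) atTop (𝓝 0) := by
        rw [tendsto_zero_iff_norm_tendsto_zero]
        have h2 : Tendsto (fun k => ‖y.comp (QP P k)‖ * 2) atTop (𝓝 (0 * 2)) :=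
          (tendsto_zero_iff_norm_tendsto_zero.1 (QPdual_tendsto hP1 hPt y)).mul_const 2
        rw [zero_mul] at h2
        refine squeeze_zero (fun k => norm_nonneg _) (fun k => ?_) h2
        refine (ContinuousLinearMap.opNorm_comp_le _ _).trans
          (mul_le_mul_of_nonneg_left ?_ (norm_nonneg _))
        refine (norm_mul_le _ _).trans ?_
        have h3 : ‖(1 : EP P →L[ℂ] EP P) - QP P k‖ ≤ 2 := by
          refine (norm_sub_le _ _).trans ?_
          have := QP_norm P k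
          have h4 : ‖(1 : EP P →L[ℂ] EP P)‖ ≤ 1 := ContinuousLinearMap.norm_id_le
          linarith
        nlinarith [h.norm w, norm_nonneg (Φ w), norm_nonneg ((1 : EP P →L[ℂ] EP P) - QP P k)]
      have h2 := h1.add (QPdual_tendsto hP1 hPt (y.comp (Φ w)))
      rw [add_zero] at h2
      have h3 := h2.const_sub (y.comp (Φ w))
      rw [sub_zero] at h3
      have h4 := htl.smul h3
      rwa [one_smul] at h4
  obtain ⟨m, hm⟩ := (hlim.eventually (hU.mem_nhds hw)).exists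
  refine ⟨v m, hm, m, t m, ht1 m, ?_, ?_⟩
  · rw [hv]
    exact hTn m
  · rw [hv]
    have h1 : cmp (cmp (Φ w) m) m = cmp (Φ w) m := by
      unfold cmp
      have h2 : (1 - QP P m) * (1 - QP P m) = (1 - QP P m : EP P →L[ℂ] EP P) := by
        ext x l
        show ((1 - QP P m) ((1 - QP P m) x)) l = ((1 - QP P m) x) l
        simp only [one_sub_QP_apply]
        split_ifs <;> rfl
      calc (1 - QP P m) * ((1 - QP P m) * Φ w * (1 - QP P m)) * (1 - QP P m)
          = ((1 - QP P m) * (1 - QP P m)) * Φ w * ((1 - QP P m) * (1 - QP P m)) := by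
            simp only [mul_assoc]
        _ = _ := by rw [h2]
    have h2 := cmp_lin (N := m) (t m : ℂ) 0 h1 h1
    rwa [zero_smul, add_zero] at h2

/-- **The density step in the ball.** -/
theorem step_ball [FirstCountableTopology W] (hP1 : 1 < P) (hPt : P ≠ ∞) {q : ℝ}
    (hq : P.toReal.HolderConjugate q) (h : BallTop P Φ) {x : EP P} {y : StrongDual ℂ (EP P)}
    {ρ : ℝ} (hρ : 0 < ρ) {w0 : W} (hw0 : w0 ∈ interior (𝒜 Φ x y ρ)) {V : Set W} (hV : IsOpen V)
    (hwV : w0 ∈ V) {d : ℕ → EP P} (hd : DenseRange d) {d' : ℕ → StrongDual ℂ (EP P)}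
    (hd' : DenseRange d') {ε : ℝ} (hε : 0 < ε) (x0 : EP P) :
    ∃ w2 ∈ V, ∃ i j : ℕ, w2 ∈ interior (𝒜 Φ (d i) (d' j) ε) ∧
      ‖d i - x‖ ≤ ρ ^ (1 / P.toReal) + ε ∧ ‖d' j - y‖ ≤ ρ ^ (1 / q) + ε ∧
      ‖d' j x0 - y x0‖ ≤ ε := by
  have hp := toReal_pos' hPt
  -- a finite strict contraction
  obtain ⟨w1, hw1, N, r, hr1, hwr, hcmp⟩ := exists_finite hP1 hPt h
    (isOpen_interior.inter hV) (show w0 ∈ interior (𝒜 Φ x y ρ) ∩ V from ⟨hw0, hwV⟩)
  have hr0 : 0 ≤ r := (norm_nonneg _).trans hwr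
  set T0 := Φ w1 with hT0
  -- scaling
  obtain ⟨s, hs0, hs1, hrs, hNs⟩ : ∃ s : ℝ, 0 < s ∧ s < 1 ∧ r ≤ s ∧
      NdC P.toReal ((s : ℂ)⁻¹ • T0) x y ρ := by
    set s : ℕ → ℝ := fun k => 1 - (1 - r) / ((k : ℝ) + 2) with hs
    have hs' : ∀ k, r < s k ∧ s k < 1 := by
      intro k
      have h2 : (0 : ℝ) ≤ k := Nat.cast_nonneg k
      have h3 : 0 < (1 - r) / ((k : ℝ) + 2) := div_pos (by linarith) (by linarith)
      have h4 : (1 - r) / ((k : ℝ) + 2) < 1 - r := by
        rw [div_lt_iff₀ (by linarith)]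
        nlinarith
      simp only [hs]
      constructor <;> linarith
    have hsl : Tendsto (fun k => ((s k : ℝ) : ℂ)⁻¹) atTop (𝓝 1) := by
      have h1 : Tendsto (fun k : ℕ => (1 - r) / ((k : ℝ) + 2)) atTop (𝓝 0) := by
        have := tendsto_const_div_atTop_nhds_zero_nat (1 - r)
        have h2 := this.comp (tendsto_add_atTop_nat 2)
        refine h2.congr fun k => ?_
        simp
      have h2 := h1.const_sub 1
      rw [sub_zero] at h2
      have h3 : Tendsto (fun k => ((s k : ℝ) : ℂ)⁻¹) atTop (𝓝 (((1 : ℝ) : ℂ)⁻¹)) :=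
        ((Complex.continuous_ofReal.tendsto 1).comp h2).inv₀ (by simp)
      rwa [Complex.ofReal_one, inv_one] at h3
    have hn : ∀ k, ‖((s k : ℝ) : ℂ)⁻¹ • T0‖ ≤ 1 := by
      intro k
      have hk := hs' k
      have hk0 : 0 < s k := hr0.trans_lt hk.1
      rw [norm_smul, norm_inv, Complex.norm_real, Real.norm_of_nonneg hk0.le,
        inv_mul_le_iff₀ hk0, mul_one]
      exact hwr.trans hk.1.le
    choose v hv using fun k => h.surj _ (hn k)
    have hlim : Tendsto v atTop (𝓝 w1) := by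
      apply h.tend_norm
      have h1 : Tendsto (fun k => ((s k : ℝ) : ℂ)⁻¹ • T0) atTop (𝓝 T0) := by
        have := hsl.smul_const T0
        rwa [one_smul] at this
      simp only [hv]
      exact tendsto_iff_norm_sub_tendsto_zero.1 h1
    obtain ⟨k, hk⟩ := (hlim.eventually (isOpen_interior.mem_nhds hw1.1)).exists
    refine ⟨s k, hr0.trans_lt (hs' k).1, (hs' k).2, (hs' k).1.le, ?_⟩
    have := interior_subset hk
    rw [← hv]
    exact this
  -- placing the block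
  obtain ⟨T1, x', y', hT1n, hT1c, hT1s, hT1d, hx', hy', hyx0, hsum⟩ :=
    density_step hP1 hPt hq hcmp hwr hrs hs0 hs1 hρ hNs (show 0 < ε / 8 by positivity) x0
  choose v hv using fun m => h.surj _ ((hT1n m).trans hs1.le)
  have hvlim : Tendsto v atTop (𝓝 w1) := h.tend v w1 (fun x => by simpa only [hv] using hT1s x)
    (fun y => by simpa only [hv] using hT1d y)
  have hyx0' := (tendsto_iff_norm_sub_tendsto_zero.1 hyx0).eventually
    (gt_mem_nhds (show (0 : ℝ) < ε / 2 by positivity))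
  obtain ⟨m, hm1, hm2, hm3⟩ := (hsum.and (hyx0'.and
    (hvlim.eventually (hV.mem_nhds hw1.2)))).exists
  -- the dense sets
  set δ : ℝ := min (min ε (ε / 2 / (‖x0‖ + 1))) (min 1 (ε / 8 / (‖y' m‖ + ‖x' m‖ + 1))) with hδ
  have hδ0 : 0 < δ := by
    rw [hδ]
    exact lt_min (lt_min hε (by positivity)) (lt_min one_pos (by positivity))
  have hδ1 : δ ≤ ε := (min_le_left _ _).trans (min_le_left _ _)
  have hδ2 : δ * (‖x0‖ + 1) ≤ ε / 2 := by
    have : δ ≤ ε / 2 / (‖x0‖ + 1) := (min_le_left _ _).trans (min_le_right _ _)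
    rwa [le_div_iff₀ (by positivity)] at this
  have hδ3 : δ ≤ 1 := (min_le_right _ _).trans (min_le_left _ _)
  have hδ4 : δ * (‖y' m‖ + ‖x' m‖ + 1) ≤ ε / 8 := by
    have : δ ≤ ε / 8 / (‖y' m‖ + ‖x' m‖ + 1) := (min_le_right _ _).trans (min_le_right _ _)
    rwa [le_div_iff₀ (by positivity)] at this
  obtain ⟨i, hi⟩ := hd.exists_dist_lt (x' m) hδ0
  obtain ⟨j, hj⟩ := hd'.exists_dist_lt (y' m) hδ0
  rw [dist_comm, dist_eq_norm] at hi hj
  have hN1 : NdC P.toReal (T1 m) (d i) (d' j) (ε / 4) := by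
    have h1 := NdC.lip (x' := d i) (y' := d' j) hPt ((hT1n m).trans hs1.le)
      (NdC.of_sum hp hm1)
    refine h1.mono ?_
    have h2 : ‖d i‖ ≤ ‖x' m‖ + 1 := by
      have : d i = x' m + (d i - x' m) := by abel
      rw [this]
      exact (norm_add_le _ _).trans (by linarith)
    have h3 : ‖y' m‖ * ‖d i - x' m‖ ≤ ‖y' m‖ * δ :=
      mul_le_mul_of_nonneg_left hi.le (norm_nonneg _)
    have h4 : ‖d' j - y' m‖ * ‖d i‖ ≤ δ * (‖x' m‖ + 1) :=
      mul_le_mul hj.le h2 (norm_nonneg _) hδ0.le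
    nlinarith
  -- truncation
  obtain ⟨N1, hN1c⟩ := hT1c m
  obtain ⟨N', hN'1, hN'2⟩ : ∃ N', N1 ≤ N' ∧
      ‖d' j‖ * ‖QP P N' (d i)‖ + ‖(d' j).comp (QP P N')‖ * ‖d i‖ ≤ ε / 12 := by
    have h1 : Tendsto (fun k => ‖d' j‖ * ‖QP P k (d i)‖ + ‖(d' j).comp (QP P k)‖ * ‖d i‖)
        atTop (𝓝 (‖d' j‖ * 0 + 0 * ‖d i‖)) :=
      ((tendsto_zero_iff_norm_tendsto_zero.1 (QP_tendsto hPt (d i))).const_mul _).add
        ((tendsto_zero_iff_norm_tendsto_zero.1 (QPdual_tendsto hP1 hPt (d' j))).mul_const _)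
    rw [mul_zero, zero_mul, add_zero] at h1
    obtain ⟨N', h2, h3⟩ := ((h1.eventually (gt_mem_nhds
      (show (0 : ℝ) < ε / 12 by positivity))).and (eventually_ge_atTop N1)).exists
    exact ⟨N', h3, h2.le⟩
  -- a cyclic perturbation
  set s' := (1 + s) / 2 with hs'
  have hss' : s < s' := by rw [hs']; linarith
  have hs'1 : s' < 1 := by rw [hs']; linarith
  have hs'0 : 0 < s' := hs0.trans hss'
  have hpert : ∀ k : ℕ, ∃ T2 : EP P →L[ℂ] EP P, ‖T2 - T1 m‖ ≤ min (s' - s) (1 / ((k : ℝ) + 1)) ∧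
      cmp T2 N' = T2 ∧ Cyc T2 N' := fun k =>
    exists_cyc (cmp_mono hN1c hN'1) (lt_min (by linarith) (by positivity))
  choose T2 hT2 hT2c hT2cyc using hpert
  have hT2n : ∀ k, ‖T2 k‖ ≤ s' := by
    intro k
    have e : T2 k = T1 m + (T2 k - T1 m) := by abel
    rw [e]
    refine (norm_add_le _ _).trans ?_
    have h1 := (hT2 k).trans (min_le_left _ _)
    have h2 := hT1n m
    linarith
  have hT2l : Tendsto (fun k => ‖T2 k - T1 m‖) atTop (𝓝 0) :=
    squeeze_zero (fun _ => norm_nonneg _) (fun k => (hT2 k).trans (min_le_right _ _))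
      tendsto_one_div_add_atTop_nhds_zero_nat
  choose v2 hv2 using fun k => h.surj _ ((hT2n k).trans hs'1.le)
  have hv2l : Tendsto v2 atTop (𝓝 (v m)) := by
    apply h.tend_norm
    simp only [hv2, hv]
    exact hT2l
  have hNk : ∀ᶠ k in atTop, NdC P.toReal (T2 k) (d i) (d' j) (ε / 4 + ε / 4) := by
    have h1 : Tendsto (fun k => ‖d' j‖ * (‖T2 k - T1 m‖ * ‖d i‖ / (1 - s') ^ 2)) atTop
        (𝓝 (‖d' j‖ * (0 * ‖d i‖ / (1 - s') ^ 2))) :=
      ((hT2l.mul_const _).div_const _).const_mul _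
    rw [zero_mul, zero_div, mul_zero] at h1
    filter_upwards [h1.eventually (gt_mem_nhds (show (0 : ℝ) < ε / 4 by positivity))] with k hk
    exact (hN1.strict hp hs'0.le hs'1 ((hT1n m).trans hss'.le) (hT2n k)).mono (by linarith)
  obtain ⟨k, hk1, hk2⟩ := (hNk.and (hv2l.eventually (hV.mem_nhds hm3))).exists
  refine ⟨v2 k, hk2, i, j, ?_, ?_, ?_, ?_⟩
  · have h1 := interior_A (w := v2 k) (r := s') (N := N') (x := d i) (y := d' j)
      (ρ := ε / 4 + ε / 4) (η := ε / 12) hP1 hPt h hs'1 (by rw [hv2]; exact hT2n k)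
      (by rw [hv2]; exact hT2cyc k) (by rw [hv2]; exact hk1) (by positivity) hN'2
    refine interior_mono ?_ h1
    intro v hv
    exact NdC.mono hv (by linarith)
  · have e : d i - x = (x' m - x) + (d i - x' m) := by abel
    rw [e]
    exact (norm_add_le _ _).trans (add_le_add (hx' m) (hi.le.trans hδ1))
  · have e : d' j - y = (y' m - y) + (d' j - y' m) := by abel
    rw [e]
    exact (norm_add_le _ _).trans (add_le_add (hy' m) (hj.le.trans hδ1))
  · have e : d' j x0 - y x0 = (y' m x0 - y x0) + (d' j - y' m) x0 := by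
      rw [_root_.sub_apply]
      ring
    rw [e]
    refine (norm_add_le _ _).trans ?_
    have h1 : ‖(d' j - y' m) x0‖ ≤ δ * (‖x0‖ + 1) := by
      refine ((d' j - y' m).le_opNorm _).trans ?_
      exact mul_le_mul hj.le (by linarith) (norm_nonneg _) hδ0.le
    linarith

end Pool.Agent.Y280
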