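import Pool.Agent.Y280.GReal

/-!
# Continuity of the functional at cyclic finite matrices
-/

set_option autoImplicit false
open Finset Filter Topology
open scoped ENNReal ComplexConjugate

namespace Pool.Agent.Y280

section general

variable {E : Type*} [NormedAddCommGroup E] [NormedSpace ℂ E]

/-- Polynomials of an operator. -/
noncomputable def pol (T : E →L[ℂ] E) (D : ℕ) (c : ℕ → ℂ) : E →L[ℂ] E :=
  ∑ n ∈ range D, c n • T ^ n

lemma pol_apply (T : E →L[ℂ] E) (D : ℕ) (c : ℕ → ℂ) (x : E) :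
    pol T D c x = ∑ n ∈ range D, c n • (T ^ n) x := by
  unfold pol
  rw [_root_.sum_apply]
  rfl

lemma map_pol (T : E →L[ℂ] E) (D : ℕ) (c : ℕ → ℂ) (x : E) (y : StrongDual ℂ E) :
    y (pol T D c x) = ∑ n ∈ range D, c n * y ((T ^ n) x) := by
  rw [pol_apply, map_sum]
  exact sum_congr rfl fun n _ => by rw [map_smul, smul_eq_mul]

/-- The functional `c ↦ y (c(T) x)` has norm at most `ρ`. -/
def NdC (p : ℝ) (T : E →L[ℂ] E) (x : E) (y : StrongDual ℂ E) (ρ : ℝ) : Prop :=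
  ∀ (D : ℕ) (c : ℕ → ℂ), NC p D c 1 → ‖y (pol T D c x)‖ ≤ ρ

lemma NdC.mono {p : ℝ} {T : E →L[ℂ] E} {x : E} {y : StrongDual ℂ E} {ρ ρ' : ℝ}
    (h : NdC p T x y ρ) (hr : ρ ≤ ρ') : NdC p T x y ρ' := fun D c hc => (h D c hc).trans hr

lemma NC.scale {p : ℝ} (hp : 0 < p) {D : ℕ} {c : ℕ → ℂ} {C t : ℝ} (hC : 0 ≤ C) (ht : 0 ≤ t)
    (h : NC p D c C) : NC p D (fun n => (t : ℂ) * c n) (t * C) := by
  intro I _ A hA x
  have e : ∀ i, ∑ n ∈ range D, ((t : ℂ) * c n) * itv A x n i =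
      (t : ℂ) * ∑ n ∈ range D, c n * itv A x n i := by
    intro i
    rw [mul_sum]
    exact sum_congr rfl fun n _ => by ring
  simp only [e, norm_mul, Complex.norm_real, Real.norm_of_nonneg ht]
  have e2 : ∀ i ∈ (univ : Finset I), (t * ‖∑ n ∈ range D, c n * itv A x n i‖) ^ p =
      t ^ p * ‖∑ n ∈ range D, c n * itv A x n i‖ ^ p := fun i _ =>
    Real.mul_rpow ht (norm_nonneg _)
  rw [sum_congr rfl e2, ← mul_sum, Real.mul_rpow ht hC, mul_assoc]
  exact mul_le_mul_of_nonneg_left (h I A hA x) (by positivity)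

lemma NdC.all {p : ℝ} (hp : 0 < p) {T : E →L[ℂ] E} {x : E} {y : StrongDual ℂ E} {ρ : ℝ}
    (h : NdC p T x y ρ) (D : ℕ) (c : ℕ → ℂ) (C : ℝ) (hC : 0 ≤ C) (hc : NC p D c C) :
    ‖∑ n ∈ range D, c n * y ((T ^ n) x)‖ ≤ ρ * C := by
  have key : ∀ C' : ℝ, 0 < C' → C ≤ C' → ‖∑ n ∈ range D, c n * y ((T ^ n) x)‖ ≤ ρ * C' := by
    intro C' hC' hCC
    have h1 : NC p D (fun n => ((C'⁻¹ : ℝ) : ℂ) * c n) 1 := by
      have h2 := hc.scale hp hC (inv_nonneg.2 hC'.le)
      intro I _ A hA x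
      refine (h2 I A hA x).trans ?_
      refine mul_le_mul_of_nonneg_right ?_ (sum_nonneg fun _ _ => by positivity)
      refine Real.rpow_le_rpow (by positivity) ?_ hp.le
      rw [inv_mul_le_iff₀ hC', mul_one]
      exact hCC
    have h3 := h D _ h1
    rw [map_pol] at h3
    have e : ∑ n ∈ range D, ((C'⁻¹ : ℝ) : ℂ) * c n * y ((T ^ n) x) =
        ((C'⁻¹ : ℝ) : ℂ) * ∑ n ∈ range D, c n * y ((T ^ n) x) := by
      rw [mul_sum]
      exact sum_congr rfl fun n _ => by ring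
    rw [e, norm_mul, Complex.norm_real, Real.norm_of_nonneg (by positivity),
      inv_mul_le_iff₀ hC'] at h3
    linarith
  have h1 : Tendsto (fun C' : ℝ => ρ * C') (𝓝[>] C) (𝓝 (ρ * C)) :=
    ((continuous_const.mul continuous_id).tendsto C).mono_left nhdsWithin_le_nhds
  refine ge_of_tendsto h1 ?_
  filter_upwards [self_mem_nhdsWithin] with C' hC'
  exact key C' (hC.trans_lt hC') (le_of_lt hC')

/-- Absolute summability gives a bound. -/
lemma NdC.of_sum {p : ℝ} (hp : 0 < p) {T : E →L[ℂ] E} {x : E} {y : StrongDual ℂ E} {ρ : ℝ}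
    (h : ∀ D, ∑ n ∈ range D, ‖y ((T ^ n) x)‖ ≤ ρ) : NdC p T x y ρ := by
  intro D c hc
  rw [map_pol]
  refine (norm_sum_le _ _).trans (le_trans (sum_le_sum fun n hn => ?_) (h D))
  rw [norm_mul]
  exact mul_le_of_le_one_left (norm_nonneg _) (hc.coeff hp zero_le_one (mem_range.1 hn))

/-- Powers of strict contractions. -/
lemma sum_pow_diff {T T' : E →L[ℂ] E} {r : ℝ} (hr0 : 0 ≤ r) (hr1 : r < 1) (hT : ‖T‖ ≤ r)
    (hT' : ‖T'‖ ≤ r) (x : E) (D : ℕ) :
    ∑ n ∈ range D, ‖(T' ^ n) x - (T ^ n) x‖ ≤ ‖T' - T‖ * ‖x‖ / (1 - r) ^ 2 := by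
  have hr : 0 < 1 - r := by linarith
  induction D with
  | zero =>
    rw [range_zero, sum_empty]
    positivity
  | succ D ih =>
    rw [sum_range_succ']
    have h1 : ∀ n ∈ range D, ‖(T' ^ (n + 1)) x - (T ^ (n + 1)) x‖ ≤
        r * ‖(T' ^ n) x - (T ^ n) x‖ + ‖T' - T‖ * ‖x‖ * r ^ n := by
      intro n _
      have e : (T' ^ (n + 1)) x - (T ^ (n + 1)) x =
          T' ((T' ^ n) x - (T ^ n) x) + (T' - T) ((T ^ n) x) := by
        rw [pow_succ', pow_succ', mul_apply_eq_comp, mul_apply_eq_comp, map_sub,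
          _root_.sub_apply]
        abel
      rw [e]
      refine (norm_add_le _ _).trans (add_le_add ?_ ?_)
      · exact (T'.le_opNorm _).trans (mul_le_mul_of_nonneg_right hT' (norm_nonneg _))
      · refine ((T' - T).le_opNorm _).trans ?_
        rw [mul_assoc]
        refine mul_le_mul_of_nonneg_left ?_ (norm_nonneg _)
        have := norm_pow_le hr0 hT n x
        linarith
    have h2 := sum_le_sum h1
    rw [sum_add_distrib, ← mul_sum, ← mul_sum] at h2
    have h3 : ∑ n ∈ range D, r ^ n ≤ 1 / (1 - r) := by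
      rw [one_div]
      rw [← tsum_geometric_of_lt_one hr0 hr1]
      exact (summable_geometric_of_lt_one hr0 hr1).sum_le_tsum _ fun _ _ => by positivity
    have h4 : ‖(T' ^ 0) x - (T ^ 0) x‖ = 0 := by
      rw [pow_zero, pow_zero, sub_self, norm_zero]
    rw [h4, add_zero]
    refine h2.trans ?_
    have h5 : r * ∑ n ∈ range D, ‖(T' ^ n) x - (T ^ n) x‖ ≤
        r * (‖T' - T‖ * ‖x‖ / (1 - r) ^ 2) := mul_le_mul_of_nonneg_left ih hr0
    have h6 : ‖T' - T‖ * ‖x‖ * ∑ n ∈ range D, r ^ n ≤ ‖T' - T‖ * ‖x‖ * (1 / (1 - r)) :=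
      mul_le_mul_of_nonneg_left h3 (by positivity)
    have h7 : r * (‖T' - T‖ * ‖x‖ / (1 - r) ^ 2) + ‖T' - T‖ * ‖x‖ * (1 / (1 - r)) =
        ‖T' - T‖ * ‖x‖ / (1 - r) ^ 2 := by
      field_simp
      ring
    linarith

lemma NdC.strict {p : ℝ} (hp : 0 < p) {T T' : E →L[ℂ] E} {r : ℝ} (hr0 : 0 ≤ r) (hr1 : r < 1)
    (hT : ‖T‖ ≤ r) (hT' : ‖T'‖ ≤ r) {x : E} {y : StrongDual ℂ E} {ρ : ℝ}
    (h : NdC p T x y ρ) : NdC p T' x y (ρ + ‖y‖ * (‖T' - T‖ * ‖x‖ / (1 - r) ^ 2)) := by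
  intro D c hc
  have e : y (pol T' D c x) = y (pol T D c x) +
      ∑ n ∈ range D, c n * y ((T' ^ n) x - (T ^ n) x) := by
    rw [map_pol, map_pol, ← sum_add_distrib]
    exact sum_congr rfl fun n _ => by rw [map_sub]; ring
  rw [e]
  refine (norm_add_le _ _).trans (add_le_add (h D c hc) ?_)
  have h1 : ‖∑ n ∈ range D, c n * y ((T' ^ n) x - (T ^ n) x)‖ ≤
      ∑ n ∈ range D, ‖y‖ * ‖(T' ^ n) x - (T ^ n) x‖ := by
    refine (norm_sum_le _ _).trans (sum_le_sum fun n hn => ?_)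
    rw [norm_mul]
    refine (mul_le_of_le_one_left (norm_nonneg _)
      (hc.coeff hp zero_le_one (mem_range.1 hn))).trans ?_
    exact y.le_opNorm _
  refine h1.trans ?_
  rw [← mul_sum]
  exact mul_le_mul_of_nonneg_left (sum_pow_diff hr0 hr1 hT hT' x D) (norm_nonneg _)

end general

variable {P : ℝ≥0∞} [hP : Fact (1 ≤ P)]

lemma norm_pol_apply_le (hPt : P ≠ ∞) {T : EP P →L[ℂ] EP P} (hT : ‖T‖ ≤ 1) {D : ℕ} {c : ℕ → ℂ}
    (hc : NC P.toReal D c 1) (x : EP P) : ‖pol T D c x‖ ≤ ‖x‖ := by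
  rw [pol_apply]
  have := hc.op hPt hT zero_le_one x
  rwa [one_mul] at this

lemma NdC.top (hPt : P ≠ ∞) {T : EP P →L[ℂ] EP P} (hT : ‖T‖ ≤ 1) (x : EP P)
    (y : StrongDual ℂ (EP P)) : NdC P.toReal T x y (‖y‖ * ‖x‖) := by
  intro D c hc
  refine (y.le_opNorm _).trans (mul_le_mul_of_nonneg_left ?_ (norm_nonneg _))
  exact norm_pol_apply_le hPt hT hc x

lemma NdC.lip (hPt : P ≠ ∞) {T : EP P →L[ℂ] EP P} (hT : ‖T‖ ≤ 1) {x x' : EP P}
    {y y' : StrongDual ℂ (EP P)} {ρ : ℝ} (h : NdC P.toReal T x y ρ) :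
    NdC P.toReal T x' y' (ρ + ‖y‖ * ‖x' - x‖ + ‖y' - y‖ * ‖x'‖) := by
  intro D c hc
  have e : y' (pol T D c x') = y (pol T D c x) + y (pol T D c (x' - x)) +
      (y' - y) (pol T D c x') := by
    rw [map_sub (pol T D c), map_sub y, _root_.sub_apply]
    ring
  rw [e]
  refine (norm_add_le _ _).trans (add_le_add ((norm_add_le _ _).trans (add_le_add (h D c hc) ?_))
    ?_)
  · exact NdC.top hPt hT _ _ D c hc
  · exact NdC.top hPt hT _ _ D c hc

lemma NdC.coeff' {p : ℝ} {T : EP P →L[ℂ] EP P} {x : EP P} {y : StrongDual ℂ (EP P)} {ρ : ℝ}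
    (h : NdC p T x y ρ) (n : ℕ) : ‖y ((T ^ n) x)‖ ≤ ρ := by
  have h1 := h (n + 1) _ (NC_delta p n)
  rw [map_pol, sum_eq_single n] at h1
  · simpa using h1
  · intro b _ hb
    rw [if_neg hb, zero_mul]
  · intro h'
    exact absurd (self_mem_range_succ n) h'

/-- Every basis vector `e_i`, `i < N`, generates the first `N` basis vectors. -/
def Cyc (T : EP P →L[ℂ] EP P) (N : ℕ) : Prop :=
  ∀ i < N, ∀ j < N, eP P j ∈ Submodule.span ℂ (Set.range fun n : ℕ => (T ^ n) (eP P i))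

/-- Shifted polynomials. -/
lemma pg_shift (D m : ℕ) (c : ℕ → ℂ) (θ : ℝ) :
    pg (m + D) (fun n => if m ≤ n then c (n - m) else 0) θ = conj (zt θ) ^ m * pg D c θ := by
  unfold pg
  rw [sum_range_add, mul_sum]
  rw [sum_eq_zero (s := range m), zero_add]
  · refine sum_congr rfl fun n _ => ?_
    beta_reduce
    rw [if_pos (by omega), Nat.add_sub_cancel_left, pow_add]
    ring
  · intro n hn
    rw [mem_range] at hn
    beta_reduce
    rw [if_neg (by omega), zero_mul]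

theorem cont_basis (hP1 : 1 < P) (hPt : P ≠ ∞) {T : ℕ → EP P →L[ℂ] EP P}
    (hT : ∀ k, ‖T k‖ ≤ 1) {T1 : EP P →L[ℂ] EP P} {r : ℝ} (hr1 : r < 1) (hT1 : ‖T1‖ ≤ r)
    (hsot : ∀ x, Tendsto (fun k => T k x) atTop (𝓝 (T1 x)))
    (hstar : 2 < P.toReal → ∀ y : StrongDual ℂ (EP P),
      Tendsto (fun k => y.comp (T k)) atTop (𝓝 (y.comp T1)))
    {N : ℕ} (hcyc : Cyc T1 N) (D : ℕ → ℕ) (c : ℕ → ℕ → ℂ)
    (hc : ∀ k, NC P.toReal (D k) (c k) 1) {i j : ℕ} (hi : i < N) (hj : j < N) :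
    Tendsto (fun k => gP P i (pol (T k) (D k) (c k) (eP P j)) -
      gP P i (pol T1 (D k) (c k) (eP P j))) atTop (𝓝 0) := by
  have hp := toReal_pos' hPt
  -- the vectors `T1 ^ m e_i`
  have h1 : ∀ m : ℕ, Tendsto (fun k => gP P i (pol (T k) (D k) (c k) ((T1 ^ m) (eP P i))) -
      gP P i (pol T1 (D k) (c k) ((T1 ^ m) (eP P i)))) atTop (𝓝 0) := by
    intro m
    have h2 := diag_tendsto hP1 hPt hT hr1 hT1 hsot hstar i (fun k => m + D k)
      (fun k n => if m ≤ n then c k (n - m) else 0) (fun k θ => by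
        rw [pg_shift, norm_mul, norm_pow, RCLike.norm_conj, norm_zt, one_pow, one_mul]
        exact (hc k).pg_le hp zero_le_one θ)
    have e1 : ∀ (S : EP P →L[ℂ] EP P) k, gP P i (pol S (D k) (c k) ((S ^ m) (eP P i))) =
        ∑ n ∈ range (m + D k), (if m ≤ n then c k (n - m) else 0) * al S i n := by
      intro S k
      rw [map_pol, sum_range_add]
      rw [sum_eq_zero (s := range m), zero_add]
      · refine sum_congr rfl fun n _ => ?_
        rw [if_pos (by omega), Nat.add_sub_cancel_left]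
        congr 1
        unfold al
        rw [gP_apply, ← mul_apply_eq_comp, ← pow_add, add_comm]
      · intro n hn
        rw [mem_range] at hn
        rw [if_neg (by omega), zero_mul]
    have h3 : Tendsto (fun k => gP P i (pol (T k) (D k) (c k)
        ((T k ^ m) (eP P i) - (T1 ^ m) (eP P i)))) atTop (𝓝 0) := by
      have h4 := tendsto_pow_apply hT hsot m (eP P i)
      rw [tendsto_iff_norm_sub_tendsto_zero] at h4
      refine squeeze_zero_norm (fun k => ?_) h4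
      rw [gP_apply]
      exact (norm_coord_le _ _).trans (norm_pol_apply_le hPt (hT k) (hc k) _)
    have h5 := h2.sub h3
    rw [sub_zero] at h5
    refine h5.congr fun k => ?_
    have e2 : ∑ n ∈ range (m + D k), (if m ≤ n then c k (n - m) else 0) *
        (al (T k) i n - al T1 i n) =
        gP P i (pol (T k) (D k) (c k) ((T k ^ m) (eP P i))) -
        gP P i (pol T1 (D k) (c k) ((T1 ^ m) (eP P i))) := by
      rw [e1, e1, ← sum_sub_distrib]
      exact sum_congr rfl fun n _ => by ring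
    rw [e2, map_sub (pol (T k) (D k) (c k)), map_sub (gP P i)]
    ring
  -- linear combinations
  have h2 : ∀ v ∈ Submodule.span ℂ (Set.range fun n : ℕ => (T1 ^ n) (eP P i)),
      Tendsto (fun k => gP P i (pol (T k) (D k) (c k) v) - gP P i (pol T1 (D k) (c k) v))
      atTop (𝓝 0) := by
    intro v hv
    induction hv using Submodule.span_induction with
    | mem x hx =>
      obtain ⟨m, rfl⟩ := hx
      exact h1 m
    | zero =>
      refine tendsto_const_nhds.congr fun k => ?_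
      simp
    | add x y _ _ hx hy =>
      have := hx.add hy
      rw [add_zero] at this
      refine this.congr fun k => ?_
      simp only [map_add]
      ring
    | smul a x _ hx =>
      have := hx.const_mul a
      rw [mul_zero] at this
      refine this.congr fun k => ?_
      simp only [map_smul, smul_eq_mul]
      ring
  exact h2 _ (hcyc i hi j hj)

/-- **Continuity lemma**. -/
theorem cont_NdC (hP1 : 1 < P) (hPt : P ≠ ∞) {T : ℕ → EP P →L[ℂ] EP P}
    (hT : ∀ k, ‖T k‖ ≤ 1) {T1 : EP P →L[ℂ] EP P} {r : ℝ} (hr1 : r < 1) (hT1 : ‖T1‖ ≤ r)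
    (hsot : ∀ x, Tendsto (fun k => T k x) atTop (𝓝 (T1 x)))
    (hstar : 2 < P.toReal → ∀ y : StrongDual ℂ (EP P),
      Tendsto (fun k => y.comp (T k)) atTop (𝓝 (y.comp T1)))
    {N : ℕ} (hcyc : Cyc T1 N) {x : EP P} {y : StrongDual ℂ (EP P)} {ρ η : ℝ}
    (hN : NdC P.toReal T1 x y ρ) (hη : 0 < η)
    (hx : ‖y‖ * ‖QP P N x‖ + ‖y.comp (QP P N)‖ * ‖x‖ ≤ η) :
    ∀ᶠ k in atTop, NdC P.toReal (T k) x y (ρ + 3 * η) := by
  have hp := toReal_pos' hPt
  have hT1' : ‖T1‖ ≤ 1 := hT1.trans hr1.le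
  by_contra hcon
  rw [not_eventually] at hcon
  obtain ⟨φ, hφ, hφ'⟩ := extraction_of_frequently_atTop hcon
  simp only [NdC, not_forall, not_le] at hφ'
  choose D c hc hbad using hφ'
  -- the truncated functional
  have hsot' : ∀ x, Tendsto (fun k => T (φ k) x) atTop (𝓝 (T1 x)) := fun x =>
    (hsot x).comp hφ.tendsto_atTop
  have hstar' : 2 < P.toReal → ∀ y : StrongDual ℂ (EP P),
      Tendsto (fun k => y.comp (T (φ k))) atTop (𝓝 (y.comp T1)) := fun h y =>
    (hstar h y).comp hφ.tendsto_atTop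
  have h1 : ∀ i < N, ∀ j < N, Tendsto (fun k => gP P i (pol (T (φ k)) (D k) (c k) (eP P j)) -
      gP P i (pol T1 (D k) (c k) (eP P j))) atTop (𝓝 0) := fun i hi j hj =>
    cont_basis hP1 hPt (fun k => hT (φ k)) hr1 hT1 hsot' hstar' hcyc D c hc hi hj
  -- expansion of the truncated functional
  have hyx : ∀ S : EP P →L[ℂ] EP P, ∀ k, y ((1 - QP P N) (pol S (D k) (c k) ((1 - QP P N) x))) =
      ∑ i ∈ range N, ∑ j ∈ range N, y (eP P i) * x j * gP P i (pol S (D k) (c k) (eP P j)) := by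
    intro S k
    rw [one_sub_QP N x, ← sum_smul_eP, map_sum, map_sum, map_sum, sum_comm]
    refine sum_congr rfl fun j _ => ?_
    rw [one_sub_QP, ← sum_smul_eP, map_sum]
    refine sum_congr rfl fun i _ => ?_
    rw [map_smul, map_smul, lp.coeFn_smul, Pi.smul_apply, gP_apply]
    simp only [smul_eq_mul]
    ring
  have h2 : Tendsto (fun k => y ((1 - QP P N) (pol (T (φ k)) (D k) (c k) ((1 - QP P N) x))) -
      y ((1 - QP P N) (pol T1 (D k) (c k) ((1 - QP P N) x)))) atTop (𝓝 0) := by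
    have h3 : Tendsto (fun k => ∑ i ∈ range N, ∑ j ∈ range N, y (eP P i) * x j *
        (gP P i (pol (T (φ k)) (D k) (c k) (eP P j)) - gP P i (pol T1 (D k) (c k) (eP P j))))
        atTop (𝓝 (∑ i ∈ range N, ∑ j ∈ range N, y (eP P i) * x j * 0)) :=
      tendsto_finsetSum _ fun i hi => tendsto_finsetSum _ fun j hj =>
        (h1 i (mem_range.1 hi) j (mem_range.1 hj)).const_mul _
    simp only [mul_zero, sum_const_zero] at h3
    refine h3.congr fun k => ?_
    rw [hyx, hyx, ← sum_sub_distrib]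
    refine sum_congr rfl fun i _ => ?_
    rw [← sum_sub_distrib]
    exact sum_congr rfl fun j _ => by ring
  -- truncation errors
  have h3 : ∀ S : EP P →L[ℂ] EP P, ‖S‖ ≤ 1 → ∀ k, ‖y (pol S (D k) (c k) x) -
      y ((1 - QP P N) (pol S (D k) (c k) ((1 - QP P N) x)))‖ ≤ η := by
    intro S hS k
    set R := pol S (D k) (c k)
    have e : y (R x) - y ((1 - QP P N) (R ((1 - QP P N) x))) =
        (y.comp (QP P N)) (R ((1 - QP P N) x)) + y (R (QP P N x)) := by
      rw [_root_.sub_apply, _root_.sub_apply, ContinuousLinearMap.comp_apply, one_apply_eq_self,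
        one_apply_eq_self]
      simp only [map_sub]
      ring
    rw [e]
    refine (norm_add_le _ _).trans ?_
    have h4 : ‖(y.comp (QP P N)) (R ((1 - QP P N) x))‖ ≤ ‖y.comp (QP P N)‖ * ‖x‖ := by
      refine ((y.comp (QP P N)).le_opNorm _).trans (mul_le_mul_of_nonneg_left ?_ (norm_nonneg _))
      refine (norm_pol_apply_le hPt hS (hc k) _).trans ?_
      have h0 : P ≠ 0 := (zero_lt_one.trans_le hP.out).ne'
      apply lp.norm_mono h0
      intro i
      rw [one_sub_QP_apply]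
      split_ifs
      · exact le_rfl
      · simp
    have h5 : ‖y (R (QP P N x))‖ ≤ ‖y‖ * ‖QP P N x‖ :=
      (y.le_opNorm _).trans (mul_le_mul_of_nonneg_left (norm_pol_apply_le hPt hS (hc k) _)
        (norm_nonneg _))
    linarith
  have h4 := (tendsto_zero_iff_norm_tendsto_zero.1 h2).eventually (gt_mem_nhds hη)
  obtain ⟨k, hk⟩ := h4.exists
  have h5 := h3 (T (φ k)) (hT _) k
  have h6 := h3 T1 hT1' k
  have h7 := hN (D k) (c k) (hc k)
  have h8 := hbad k
  set a := y (pol (T (φ k)) (D k) (c k) x)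
  set a' := y ((1 - QP P N) (pol (T (φ k)) (D k) (c k) ((1 - QP P N) x)))
  set b := y (pol T1 (D k) (c k) x)
  set b' := y ((1 - QP P N) (pol T1 (D k) (c k) ((1 - QP P N) x)))
  have e : a = (a - a') + (a' - b') + -(b - b') + b := by ring
  have h9 : ‖a‖ ≤ ‖a - a'‖ + ‖a' - b'‖ + ‖b - b'‖ + ‖b‖ := by
    calc ‖a‖ = ‖(a - a') + (a' - b') + -(b - b') + b‖ := by rw [← e]
      _ ≤ _ := by
        refine (norm_add_le _ _).trans (add_le_add ?_ le_rfl)
        refine (norm_add_le _ _).trans (add_le_add ?_ (norm_neg _).le)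
        exact norm_add_le _ _
  linarith

end Pool.Agent.Y280
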