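import Pool.Agent.Y280.GCont

/-!
# Density of the cyclic finite matrices
-/

set_option autoImplicit false
open Finset Filter Topology Polynomial
open scoped ENNReal

namespace Pool.Agent.Y280

/-- The Krylov matrix. -/
def kry {N : ℕ} {R : Type*} [CommRing R] (A : Matrix (Fin N) (Fin N) R) (i : Fin N) :
    Matrix (Fin N) (Fin N) R := Matrix.of fun j n => (A ^ (n : ℕ)) j i

lemma exists_large {N : ℕ} (A B : Matrix (Fin N) (Fin N) ℂ) (hB : ∀ i, (kry B i).det ≠ 0)
    (R : ℝ) : ∃ s : ℝ, R < s ∧ ∀ i, (kry (B + (s : ℂ) • A) i).det ≠ 0 := by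
  classical
  set M : Matrix (Fin N) (Fin N) ℂ[X] := B.map C + (X : ℂ[X]) • A.map C with hM
  have hev : ∀ (s : ℂ) i, (kry M i).det.eval s = (kry (B + s • A) i).det := by
    intro s i
    rw [← Polynomial.coe_evalRingHom, RingHom.map_det]
    congr 1
    ext j n
    have e1 : (evalRingHom s).mapMatrix M = B + s • A := by
      ext a b
      simp only [hM, RingHom.mapMatrix_apply, Matrix.map_apply, Matrix.add_apply,
        Matrix.smul_apply, smul_eq_mul, coe_evalRingHom, eval_add, eval_mul, eval_C, eval_X]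
    have e2 : (evalRingHom s).mapMatrix (M ^ (n : ℕ)) = (B + s • A) ^ (n : ℕ) := by
      rw [map_pow, e1]
    have e3 := congrFun (congrFun e2 j) i
    exact e3
  have hne : ∏ i, (kry M i).det ≠ 0 := by
    rw [prod_ne_zero_iff]
    intro i _ h0
    apply hB i
    have := hev 0 i
    rw [h0, eval_zero, zero_smul, add_zero] at this
    exact this.symm
  by_contra hcon
  push Not at hcon
  apply hne
  apply Polynomial.eq_zero_of_infinite_isRoot
  refine Set.infinite_of_injective_forall_mem (f := fun n : ℕ => ((R + 1 + n : ℝ) : ℂ)) ?_ ?_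
  · intro a b hab
    have h1 : (R + 1 + a : ℝ) = R + 1 + b := Complex.ofReal_injective hab
    have h2 : (a : ℝ) = b := by linarith
    exact_mod_cast h2
  · intro n
    obtain ⟨i, hi⟩ := hcon (R + 1 + n) (by
      have : (0 : ℝ) ≤ n := Nat.cast_nonneg n
      linarith)
    show eval _ _ = 0
    rw [eval_prod]
    apply prod_eq_zero (mem_univ i)
    rw [hev]
    exact hi

/-- The cyclic permutation matrix. -/
def cycM (N : ℕ) : Matrix (Fin N) (Fin N) ℂ :=
  Matrix.of fun j i => if (j : ℕ) = (i + 1) % N then 1 else 0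

lemma cycM_pow (N : ℕ) (n : ℕ) (j i : Fin N) :
    (cycM N ^ n) j i = if (j : ℕ) = (i + n) % N then 1 else 0 := by
  induction n generalizing j with
  | zero =>
    rw [pow_zero, Matrix.one_apply, add_zero, Nat.mod_eq_of_lt i.2]
    by_cases h : j = i
    · rw [if_pos h, if_pos (by rw [h])]
    · rw [if_neg h, if_neg (fun h' => h (Fin.ext h'))]
  | succ n ih =>
    have hN : 0 < N := (Nat.zero_le _).trans_lt i.2
    rw [pow_succ', Matrix.mul_apply]
    rw [sum_eq_single (⟨(i + n) % N, Nat.mod_lt _ hN⟩ : Fin N)]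
    · rw [ih, if_pos rfl, mul_one]
      show (if (j : ℕ) = ((i + n) % N + 1) % N then (1 : ℂ) else 0) = _
      rw [Nat.mod_add_mod, add_assoc]
    · intro b _ hb
      rw [ih, if_neg (fun h => hb (Fin.ext h)), mul_zero]
    · intro h
      exact absurd (mem_univ _) h

lemma det_kry_cycM (N : ℕ) (i : Fin N) : (kry (cycM N) i).det ≠ 0 := by
  have hN : 0 < N := (Nat.zero_le _).trans_lt i.2
  have h1 : kry (cycM N) i * (kry (cycM N) i).transpose = 1 := by
    ext j j'
    rw [Matrix.mul_apply, Matrix.one_apply]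
    have e : ∀ n : Fin N, kry (cycM N) i j n * (kry (cycM N) i).transpose n j' =
        if (j : ℕ) = (i + n) % N ∧ (j' : ℕ) = (i + n) % N then 1 else 0 := by
      intro n
      show (cycM N ^ (n : ℕ)) j i * (cycM N ^ (n : ℕ)) j' i = _
      rw [cycM_pow, cycM_pow]
      split_ifs <;> simp_all
    simp only [e]
    by_cases hj : j = j'
    · subst hj
      rw [if_pos rfl]
      have hex : (i + (j + N - i) % N) % N = j := by
        rw [Nat.add_mod_mod, show (i : ℕ) + (j + N - i) = j + N by have := i.2; omega,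
          Nat.add_mod_right, Nat.mod_eq_of_lt j.2]
      rw [sum_eq_single (⟨(j + N - i) % N, Nat.mod_lt _ hN⟩ : Fin N)]
      · rw [if_pos ⟨hex.symm, hex.symm⟩]
      · intro b _ hb
        rw [if_neg]
        rintro ⟨h, _⟩
        apply hb
        apply Fin.ext
        show (b : ℕ) = (j + N - i) % N
        have hb2 := b.2
        have hi2 := i.2
        rcases Nat.lt_or_ge (i + b) N with h3 | h3
        · rw [Nat.mod_eq_of_lt h3] at h
          rw [h, show (i : ℕ) + b + N - i = b + N by omega, Nat.add_mod_right,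
            Nat.mod_eq_of_lt hb2]
        · have h4 : ((i : ℕ) + b) % N = i + b - N := by
            rw [Nat.mod_eq_sub_mod h3, Nat.mod_eq_of_lt (by omega)]
          rw [h4] at h
          rw [h, show (i : ℕ) + b - N + N - i = b by omega, Nat.mod_eq_of_lt hb2]
      · intro h
        exact absurd (mem_univ _) h
    · rw [if_neg hj]
      refine sum_eq_zero fun n _ => ?_
      rw [if_neg]
      rintro ⟨h, h'⟩
      exact hj (Fin.ext (h.trans h'.symm))
  intro h0
  have h2 := congrArg Matrix.det h1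
  rw [Matrix.det_mul, h0, zero_mul, Matrix.det_one] at h2
  exact zero_ne_one h2

variable {P : ℝ≥0∞} [hP : Fact (1 ≤ P)]

/-- The matrix of an operator. -/
noncomputable def matN (S : EP P →L[ℂ] EP P) (N : ℕ) : Matrix (Fin N) (Fin N) ℂ :=
  Matrix.of fun i j => ent S i j

lemma pow_matN {S : EP P →L[ℂ] EP P} {N : ℕ} (hS : cmp S N = S) (n : ℕ) (i : Fin N) :
    (∀ j : Fin N, ((S ^ n) (eP P i)) j = (matN S N ^ n) j i) ∧
      ∀ j, N ≤ j → ((S ^ n) (eP P i)) j = 0 := by
  induction n with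
  | zero =>
    constructor
    · intro j
      rw [pow_zero, pow_zero, one_apply_eq_self, Matrix.one_apply, eP_apply]
      by_cases h : j = i
      · rw [if_pos h, if_pos (by rw [h])]
      · rw [if_neg h, if_neg (fun h' => h (Fin.ext h'))]
    · intro j hj
      rw [pow_zero, one_apply_eq_self, eP_apply, if_neg]
      have := i.2
      omega
  | succ n ih =>
    set z := (S ^ n) (eP P i) with hz
    have e : (S ^ (n + 1)) (eP P i) = S z := by
      rw [pow_succ', mul_apply_eq_comp]
    have e2 : (1 - QP P N) z = z := by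
      ext l
      rw [one_sub_QP_apply]
      split_ifs with h
      · rfl
      · exact (ih.2 l (by omega)).symm
    constructor
    · intro j
      rw [e, ← e2, T_one_sub, pow_succ', Matrix.mul_apply,
        ← Fin.sum_univ_eq_sum_range (fun l => ent S j l * z l) N]
      exact sum_congr rfl fun l _ => by rw [ih.1 l]; rfl
    · intro j hj
      rw [e, ← hS]
      show ((1 - QP P N) (S ((1 - QP P N) z))) j = 0
      rw [one_sub_QP_apply, if_neg (by omega)]

lemma cyc_of_det {S : EP P →L[ℂ] EP P} {N : ℕ} (hS : cmp S N = S)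
    (hdet : ∀ i, (kry (matN S N) i).det ≠ 0) : Cyc S N := by
  classical
  intro i hi j hj
  set K := kry (matN S N) ⟨i, hi⟩ with hK
  have hu : IsUnit K.det := isUnit_iff_ne_zero.2 (hdet _)
  set b : Fin N → ℂ := K⁻¹.mulVec (Pi.single ⟨j, hj⟩ 1) with hb
  have hKb : K.mulVec b = Pi.single ⟨j, hj⟩ 1 := by
    rw [hb, Matrix.mulVec_mulVec, Matrix.mul_nonsing_inv K hu, Matrix.one_mulVec]
  have e : ∑ n : Fin N, b n • (S ^ (n : ℕ)) (eP P i) = eP P j := by
    ext l
    rw [lp.coeFn_sum, Finset.sum_apply, eP_apply]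
    have e1 : ∀ n : Fin N, (b n • (S ^ (n : ℕ)) (eP P i) : EP P) l =
        b n * ((S ^ (n : ℕ)) (eP P i)) l := fun n => rfl
    simp only [e1]
    by_cases hl : l < N
    · have e2 := congrFun hKb ⟨l, hl⟩
      rw [Matrix.mulVec, dotProduct] at e2
      have e3 : ∀ n : Fin N, b n * ((S ^ (n : ℕ)) (eP P i)) l = K ⟨l, hl⟩ n * b n := by
        intro n
        have := (pow_matN hS (n : ℕ) ⟨i, hi⟩).1 ⟨l, hl⟩
        simp only at this
        rw [this, mul_comm]
        rfl
      rw [sum_congr rfl fun n _ => e3 n, e2, Pi.single_apply]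
      by_cases h : l = j
      · rw [if_pos h, if_pos (Fin.ext h)]
      · rw [if_neg h, if_neg (fun h' => h (congrArg Fin.val h'))]
    · rw [if_neg (by omega)]
      refine sum_eq_zero fun n _ => ?_
      have := (pow_matN hS (n : ℕ) ⟨i, hi⟩).2 l (by omega)
      simp only at this
      rw [this, mul_zero]
  rw [← e]
  exact Submodule.sum_mem _ fun n _ => Submodule.smul_mem _ _ (Submodule.subset_span ⟨n, rfl⟩)

lemma Cyc.smul {S : EP P →L[ℂ] EP P} {N : ℕ} (h : Cyc S N) {t : ℂ} (ht : t ≠ 0) :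
    Cyc (t • S) N := by
  intro i hi j hj
  have h1 : Submodule.span ℂ (Set.range fun n : ℕ => (S ^ n) (eP P i)) ≤
      Submodule.span ℂ (Set.range fun n : ℕ => ((t • S) ^ n) (eP P i)) := by
    rw [Submodule.span_le]
    rintro _ ⟨n, rfl⟩
    have e : (S ^ n) (eP P i) = (t ^ n)⁻¹ • (((t • S) ^ n) (eP P i)) := by
      rw [_root_.smul_pow, _root_.smul_apply, smul_smul, inv_mul_cancel₀ (pow_ne_zero n ht), one_smul]
    beta_reduce
    rw [e]
    exact Submodule.smul_mem _ _ (Submodule.subset_span ⟨n, rfl⟩)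
  exact h1 (h i hi j hj)

/-- The cyclic permutation operator. -/
noncomputable def cycOp (P : ℝ≥0∞) [Fact (1 ≤ P)] (N : ℕ) : EP P →L[ℂ] EP P :=
  ∑ i ∈ range N, (gP P i).smulRight (eP P ((i + 1) % N))

lemma cycOp_apply (N : ℕ) (x : EP P) :
    cycOp P N x = ∑ i ∈ range N, x i • eP P ((i + 1) % N) := by
  unfold cycOp
  rw [_root_.sum_apply]
  rfl

lemma QP_eP_lt (k i : ℕ) (h : i < k) : QP P k (eP P i) = 0 := by
  ext j
  rw [QP_apply, eP_apply, lp.coeFn_zero, Pi.zero_apply]
  split_ifs <;> first | rfl | omega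

lemma cmp_cycOp (N : ℕ) : cmp (cycOp P N) N = cycOp P N := by
  ext x : 1
  show (1 - QP P N) (cycOp P N ((1 - QP P N) x)) = cycOp P N x
  rw [cycOp_apply, cycOp_apply, map_sum]
  refine sum_congr rfl fun i hi => ?_
  rw [mem_range] at hi
  rw [map_smul, one_sub_QP_apply, if_pos hi, _root_.sub_apply, one_apply_eq_self,
    QP_eP_lt _ _ (Nat.mod_lt _ (by omega)), sub_zero]

lemma matN_cycOp (N : ℕ) : matN (cycOp P N) N = cycM N := by
  ext j i
  show (cycOp P N (eP P i)) j = if (j : ℕ) = (i + 1) % N then 1 else 0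
  rw [cycOp_apply, lp.coeFn_sum, Finset.sum_apply, sum_eq_single (i : ℕ)]
  · rw [lp.coeFn_smul, Pi.smul_apply, eP_apply, eP_apply, if_pos rfl, one_smul]
  · intro b _ hb
    rw [lp.coeFn_smul, Pi.smul_apply, eP_apply, if_neg hb, zero_smul]
  · intro h
    exact absurd (mem_range.2 i.2) h

/-- **Density of the cyclic matrices.** -/
theorem exists_cyc {T : EP P →L[ℂ] EP P} {N : ℕ} (hT : cmp T N = T) {η : ℝ} (hη : 0 < η) :
    ∃ T' : EP P →L[ℂ] EP P, ‖T' - T‖ ≤ η ∧ cmp T' N = T' ∧ Cyc T' N := by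
  obtain ⟨s, hs, hs'⟩ := exists_large (matN T N) (cycM N) (det_kry_cycM N)
    ((‖cycOp P N‖ + 1) / η)
  have hs0 : 0 < s := lt_trans (by positivity) hs
  have hsC : (s : ℂ) ≠ 0 := by exact_mod_cast hs0.ne'
  have hcmp : ∀ (a b : ℂ) (A B : EP P →L[ℂ] EP P), cmp A N = A → cmp B N = B →
      cmp (a • A + b • B) N = a • A + b • B := by
    intro a b A B hA hB
    conv_rhs => rw [← hA, ← hB]
    unfold cmp
    simp only [mul_add, add_mul, mul_smul_comm, smul_mul_assoc]
  set S : EP P →L[ℂ] EP P := (1 : ℂ) • cycOp P N + (s : ℂ) • T with hS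
  have hSc : cmp S N = S := hcmp _ _ _ _ (cmp_cycOp N) hT
  have hSm : matN S N = cycM N + (s : ℂ) • matN T N := by
    rw [← matN_cycOp (P := P)]
    ext j i
    show (S (eP P i)) j = (cycOp P N (eP P i)) j + (s : ℂ) * (T (eP P i)) j
    rw [hS, one_smul]
    rfl
  have hcyc : Cyc S N := cyc_of_det hSc (fun i => by rw [hSm]; exact hs' i)
  have hcyc' := hcyc.smul (t := (s : ℂ)⁻¹) (inv_ne_zero hsC)
  have e : (s : ℂ)⁻¹ • S = (s : ℂ)⁻¹ • cycOp P N + (1 : ℂ) • T := by
    rw [hS, smul_add, smul_smul, smul_smul, mul_one, inv_mul_cancel₀ hsC]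
  refine ⟨(s : ℂ)⁻¹ • S, ?_, ?_, hcyc'⟩
  · rw [e, one_smul, add_sub_cancel_right, norm_smul, norm_inv, Complex.norm_real,
      Real.norm_of_nonneg hs0.le]
    rw [inv_mul_le_iff₀ hs0]
    rw [div_lt_iff₀ hη] at hs
    linarith
  · rw [e]
    exact hcmp _ _ _ _ (cmp_cycOp N) hT

end Pool.Agent.Y280
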