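import Pool.Agent.Y280.GPlace

/-!
# The density step
-/

set_option autoImplicit false
open Finset Filter Topology
open scoped ENNReal

namespace Pool.Agent.Y280

variable {P : ℝ≥0∞} [hP : Fact (1 ≤ P)]

lemma cmp_lin {N : ℕ} (a b : ℂ) {A B : EP P →L[ℂ] EP P} (hA : cmp A N = A) (hB : cmp B N = B) :
    cmp (a • A + b • B) N = a • A + b • B := by
  conv_rhs => rw [← hA, ← hB]
  unfold cmp
  simp only [mul_add, add_mul, mul_smul_comm, smul_mul_assoc]

lemma cmp_mono {N N' : ℕ} {T : EP P →L[ℂ] EP P} (h : cmp T N = T) (hN : N ≤ N') :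
    cmp T N' = T := by
  have h1 : (1 - QP P N') * (1 - QP P N) = 1 - QP P N := by
    ext x l
    show ((1 - QP P N') ((1 - QP P N) x)) l = ((1 - QP P N) x) l
    simp only [one_sub_QP_apply]
    split_ifs <;> first | rfl | omega
  have h2 : (1 - QP P N) * (1 - QP P N') = 1 - QP P N := by
    ext x l
    show ((1 - QP P N) ((1 - QP P N') x)) l = ((1 - QP P N) x) l
    simp only [one_sub_QP_apply]
    split_ifs <;> first | rfl | omega
  have h3 : T = (1 - QP P N) * T * (1 - QP P N) := h.symm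
  calc cmp T N' = (1 - QP P N') * T * (1 - QP P N') := rfl
    _ = (1 - QP P N') * ((1 - QP P N) * T * (1 - QP P N)) * (1 - QP P N') := by rw [← h3]
    _ = ((1 - QP P N') * (1 - QP P N)) * T * ((1 - QP P N) * (1 - QP P N')) := by
        simp only [mul_assoc]
    _ = (1 - QP P N) * T * (1 - QP P N) := by rw [h1, h2]
    _ = T := h3.symm

lemma cmp_plc {I : Type} [Fintype I] {κ : I → ℕ} {N' : ℕ} (h : ∀ i, κ i < N')
    (A : I → I → ℂ) : cmp (plc κ P A) N' = plc κ P A := by
  ext x : 1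
  show (1 - QP P N') (plc κ P A ((1 - QP P N') x)) = plc κ P A x
  have e1 : plc κ P A ((1 - QP P N') x) = plc κ P A x := by
    rw [plc_apply, plc_apply]
    congr 1
    funext i
    exact sum_congr rfl fun j _ => by rw [one_sub_QP_apply, if_pos (h j)]
  have e2 : QP P N' (plc κ P A x) = 0 := by
    rw [plc_apply]
    unfold vec
    rw [map_sum]
    exact sum_eq_zero fun i _ => by rw [map_smul, QP_eP_lt _ _ (h i), smul_zero]
  rw [e1, _root_.sub_apply, one_apply_eq_self, e2, sub_zero]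

lemma QPdual_tendsto (hP1 : 1 < P) (hPt : P ≠ ∞) (y : StrongDual ℂ (EP P)) :
    Tendsto (fun k => y.comp (QP P k)) atTop (𝓝 0) :=
  comp_tendsto_of_disjoint (one_lt_toReal hP1 hPt) (QP P) (QP_tendsto hPt)
    (norm_QP_dis hP1 hPt) y

theorem density_step (hP1 : 1 < P) (hPt : P ≠ ∞) {q : ℝ} (hq : P.toReal.HolderConjugate q)
    {T0 : EP P →L[ℂ] EP P} {N : ℕ} (hcmp : cmp T0 N = T0) {r s : ℝ} (hT0 : ‖T0‖ ≤ r)
    (hrs : r ≤ s) (hs0 : 0 < s) (hs1 : s < 1) {x : EP P} {y : StrongDual ℂ (EP P)} {ρ : ℝ}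
    (hρ : 0 < ρ) (hN : NdC P.toReal ((s : ℂ)⁻¹ • T0) x y ρ) {ε : ℝ} (hε : 0 < ε) (x0 : EP P) :
    ∃ (T1 : ℕ → EP P →L[ℂ] EP P) (x' : ℕ → EP P) (y' : ℕ → StrongDual ℂ (EP P)),
      (∀ m, ‖T1 m‖ ≤ s) ∧ (∀ m, ∃ N', cmp (T1 m) N' = T1 m) ∧
      (∀ x, Tendsto (fun m => T1 m x) atTop (𝓝 (T0 x))) ∧
      (∀ y : StrongDual ℂ (EP P), Tendsto (fun m => y.comp (T1 m)) atTop (𝓝 (y.comp T0))) ∧
      (∀ m, ‖x' m - x‖ ≤ ρ ^ (1 / P.toReal)) ∧ (∀ m, ‖y' m - y‖ ≤ ρ ^ (1 / q)) ∧
      Tendsto (fun m => y' m x0) atTop (𝓝 (y x0)) ∧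
      ∀ᶠ m in atTop, ∀ D, ∑ n ∈ range D, ‖y' m (((T1 m) ^ n) (x' m))‖ ≤ ε := by
  have hp := toReal_pos' hPt
  have hs : 0 < 1 - s := by linarith
  have hr0 : 0 ≤ r := (norm_nonneg _).trans hT0
  set K := ‖y‖ * ‖x‖ + ρ with hK
  have hK0 : 0 < K := by positivity
  obtain ⟨D0, hD0⟩ : ∃ D0 : ℕ, K * s ^ D0 / (1 - s) < ε / 3 := by
    obtain ⟨D0, h⟩ := exists_pow_lt_of_lt_one (show 0 < ε / 3 * (1 - s) / K by positivity) hs1
    refine ⟨D0, ?_⟩
    rw [lt_div_iff₀ hK0] at h
    rw [div_lt_iff₀ hs]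
    linarith
  set η := ε / 3 / (D0 + 1) with hη
  have hη0 : 0 < η := by positivity
  obtain ⟨I, _, A, u, w, hA, hu, hw, hreal⟩ := realiseC hq hρ (D := D0)
    (fun n => y ((((s : ℂ)⁻¹ • T0) ^ n) x)) (fun c C hC hc => hN.all hp D0 c C hC hc) hη0
  set κ : ℕ → I → ℕ := fun m i => N + m + Fintype.equivFin I i with hκ
  have hκi : ∀ m, Function.Injective (κ m) := by
    intro m i j hij
    have : ((Fintype.equivFin I i : Fin _) : ℕ) = Fintype.equivFin I j := by
      simp only [hκ] at hij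
      omega
    exact (Fintype.equivFin I).injective (Fin.ext this)
  have hκm : ∀ m i, N + m ≤ κ m i := fun m i => by simp only [hκ]; omega
  have hκN : ∀ m i, N ≤ κ m i := fun m i => by simp only [hκ]; omega
  have hκt : Tendsto (fun m => N + m) atTop atTop :=
    tendsto_atTop_mono (fun m => Nat.le_add_left m N) tendsto_id
  have hQx : ∀ x : EP P, Tendsto (fun m => ‖QP P (N + m) x‖) atTop (𝓝 0) := fun x =>
    (tendsto_zero_iff_norm_tendsto_zero.1 (QP_tendsto hPt x)).comp hκt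
  have hQy : ∀ y : StrongDual ℂ (EP P), Tendsto (fun m => ‖y.comp (QP P (N + m))‖) atTop (𝓝 0) :=
    fun y => (tendsto_zero_iff_norm_tendsto_zero.1 (QPdual_tendsto hP1 hPt y)).comp hκt
  have hun : ∀ m, ‖vec (κ m) P u‖ ≤ ρ ^ (1 / P.toReal) := fun m => norm_vec_le hPt (hκi m) hu
  have hwn : ∀ m, ‖fnl (κ m) P w‖ ≤ ρ ^ (1 / q) := by
    intro m
    refine (norm_fnl_le hP1 hPt hq (hκi m) w).trans ?_
    have := hq.symm.pos
    exact Real.rpow_le_rpow (sum_nonneg fun _ _ => by positivity) hw (by positivity)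
  refine ⟨fun m => T0 + (s : ℂ) • plc (κ m) P A, fun m => x + vec (κ m) P u,
    fun m => y - fnl (κ m) P w, ?_, ?_, ?_, ?_, ?_, ?_, ?_, ?_⟩
  · intro m
    exact norm_sum_le' hPt (hκi m) hA hcmp (hκN m) hs0.le (hT0.trans hrs)
  · intro m
    refine ⟨N + m + Fintype.card I, ?_⟩
    have h1 := cmp_lin (N := N + m + Fintype.card I) 1 (s : ℂ) (cmp_mono hcmp (by omega))
      (cmp_plc (P := P) (κ := κ m) (N' := N + m + Fintype.card I) (fun i => by
        simp only [hκ]
        have := (Fintype.equivFin I i).2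
        omega) A)
    rwa [one_smul] at h1
  · intro z
    have h1 : Tendsto (fun m => (s : ℂ) • plc (κ m) P A z) atTop (𝓝 0) := by
      rw [tendsto_zero_iff_norm_tendsto_zero]
      refine squeeze_zero (fun _ => norm_nonneg _) (fun m => ?_) (hQx z)
      rw [norm_smul, Complex.norm_real, Real.norm_of_nonneg hs0.le]
      exact (mul_le_of_le_one_left (norm_nonneg _) hs1.le).trans
        (norm_plc_le hPt (hκi m) (hκm m) hA z)
    have h2 := h1.const_add (T0 z)
    rw [add_zero] at h2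
    exact h2
  · intro z
    have h1 : Tendsto (fun m => z.comp ((s : ℂ) • plc (κ m) P A)) atTop (𝓝 0) := by
      rw [tendsto_zero_iff_norm_tendsto_zero]
      refine squeeze_zero (fun _ => norm_nonneg _) (fun m => ?_) (hQy z)
      refine ContinuousLinearMap.opNorm_le_bound _ (norm_nonneg _) fun x => ?_
      rw [ContinuousLinearMap.comp_apply, _root_.smul_apply, map_smul, norm_smul,
        Complex.norm_real, Real.norm_of_nonneg hs0.le]
      refine (mul_le_of_le_one_left (norm_nonneg _) hs1.le).trans ?_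
      rw [← QP_plc (hκm m)]
      refine ((z.comp (QP P (N + m))).le_opNorm _).trans
        (mul_le_mul_of_nonneg_left ?_ (norm_nonneg _))
      exact ((plc (κ m) P A).le_opNorm _).trans
        (mul_le_of_le_one_left (norm_nonneg _) (norm_plc_le' hPt (hκi m) hA))
    have h2 := h1.const_add (z.comp T0)
    rw [add_zero] at h2
    refine h2.congr fun m => ?_
    rw [ContinuousLinearMap.comp_add]
  · intro m
    rw [add_sub_cancel_left]
    exact hun m
  · intro m
    rw [sub_sub_cancel_left, norm_neg]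
    exact hwn m
  · have h1 : Tendsto (fun m => fnl (κ m) P w x0) atTop (𝓝 0) := by
      rw [tendsto_zero_iff_norm_tendsto_zero]
      have h2 := (hQx x0).const_mul (ρ ^ (1 / q))
      rw [mul_zero] at h2
      refine squeeze_zero (fun _ => norm_nonneg _) (fun m => ?_) h2
      rw [← fnl_QP (hκm m)]
      exact ((fnl (κ m) P w).le_opNorm _).trans
        (mul_le_mul_of_nonneg_right (hwn m) (norm_nonneg _))
    have h2 := h1.const_sub (y x0)
    rw [sub_zero] at h2
    exact h2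
  · -- the sum
    have h1 : Tendsto (fun m => (‖y‖ * ‖QP P (N + m) x‖ +
        ‖y.comp (QP P (N + m))‖ * ρ ^ (1 / P.toReal) + ρ ^ (1 / q) * ‖QP P (N + m) x‖) *
        (1 - s)⁻¹) atTop (𝓝 ((‖y‖ * 0 + 0 * ρ ^ (1 / P.toReal) + ρ ^ (1 / q) * 0) *
        (1 - s)⁻¹)) :=
      ((((hQx x).const_mul _).add ((hQy y).mul_const _)).add ((hQx x).const_mul _)).mul_const _
    rw [mul_zero, zero_mul, mul_zero, add_zero, add_zero, zero_mul] at h1
    filter_upwards [h1.eventually (gt_mem_nhds (show (0 : ℝ) < ε / 3 by positivity))] with m hm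
    intro D
    set δ := ‖y‖ * ‖QP P (N + m) x‖ + ‖y.comp (QP P (N + m))‖ * ρ ^ (1 / P.toReal) +
      ρ ^ (1 / q) * ‖QP P (N + m) x‖ with hδ
    have hδ0 : 0 ≤ δ := by positivity
    set b : ℕ → ℝ := fun n => ‖y ((T0 ^ n) x) - (s : ℂ) ^ n * ∑ i, w i * itv A u n i‖ with hb
    have hterm : ∀ n, ‖(y - fnl (κ m) P w) (((T0 + (s : ℂ) • plc (κ m) P A) ^ n)
        (x + vec (κ m) P u))‖ ≤ b n + s ^ n * δ := by
      intro n
      refine (place_term hP1 hPt (hκi m) hA hcmp (Nat.le_add_right N m) (hκm m) hs0.le x y u w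
        n).trans ?_
      refine add_le_add le_rfl (mul_le_mul_of_nonneg_left ?_ (by positivity))
      refine add_le_add (add_le_add le_rfl ?_) ?_
      · exact mul_le_mul_of_nonneg_left (hun m) (norm_nonneg _)
      · exact mul_le_mul_of_nonneg_right (hwn m) (norm_nonneg _)
    have hB : ∀ n, ‖∑ i, w i * itv A u n i‖ ≤ ρ := by
      intro n
      rw [← fnl_vec (P := P) (hκi m) w (itv A u n)]
      refine ((fnl (κ m) P w).le_opNorm _).trans ?_
      have h2 : ‖vec (κ m) P (itv A u n)‖ ≤ ρ ^ (1 / P.toReal) :=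
        norm_vec_le hPt (hκi m) ((itv_contr hA u n).trans hu)
      have h3 : ρ ^ (1 / q) * ρ ^ (1 / P.toReal) = ρ := by
        rw [← Real.rpow_add hρ, one_div, one_div, add_comm, hq.inv_add_inv_eq_one,
          Real.rpow_one]
      calc ‖fnl (κ m) P w‖ * ‖vec (κ m) P (itv A u n)‖
          ≤ ρ ^ (1 / q) * ρ ^ (1 / P.toReal) :=
            mul_le_mul (hwn m) h2 (norm_nonneg _) (by positivity)
        _ = ρ := h3
    have hb1 : ∀ n, b n ≤ K * s ^ n := by
      intro n
      rw [hb]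
      beta_reduce
      refine (norm_sub_le _ _).trans ?_
      rw [hK, add_mul]
      refine add_le_add ?_ ?_
      · refine (y.le_opNorm _).trans ?_
        rw [mul_assoc]
        refine mul_le_mul_of_nonneg_left ?_ (norm_nonneg _)
        have := norm_pow_le hs0.le (hT0.trans hrs) n x
        linarith
      · rw [norm_mul, norm_pow, Complex.norm_real, Real.norm_of_nonneg hs0.le, mul_comm]
        exact mul_le_mul_of_nonneg_right (hB n) (by positivity)
    have hb2 : ∀ n < D0, b n ≤ η := by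
      intro n hn
      have h2 := hreal n hn
      have hsn : (s : ℂ) ^ n ≠ 0 := pow_ne_zero _ (by exact_mod_cast hs0.ne')
      have e : y ((T0 ^ n) x) - (s : ℂ) ^ n * ∑ i, w i * itv A u n i =
          -((s : ℂ) ^ n * (∑ i, w i * itv A u n i - y ((((s : ℂ)⁻¹ • T0) ^ n) x))) := by
        rw [_root_.smul_pow, _root_.smul_apply, map_smul, smul_eq_mul, inv_pow]
        field_simp
        ring
      rw [hb]
      beta_reduce
      rw [e, norm_neg, norm_mul, norm_pow, Complex.norm_real, Real.norm_of_nonneg hs0.le]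
      exact (mul_le_of_le_one_left (norm_nonneg _) (pow_le_one₀ hs0.le hs1.le)).trans h2.le
    have hgeo : ∀ D : ℕ, ∑ n ∈ range D, s ^ n ≤ (1 - s)⁻¹ := by
      intro D
      rw [← tsum_geometric_of_lt_one hs0.le hs1]
      exact (summable_geometric_of_lt_one hs0.le hs1).sum_le_tsum _ fun _ _ => by positivity
    have hbsum : ∑ n ∈ range D, b n ≤ ε / 3 + ε / 3 := by
      have h2 : ∑ n ∈ range D, b n ≤ ∑ n ∈ range (D0 + D), b n :=
        sum_le_sum_of_subset_of_nonneg (range_subset_range.2 (by omega)) fun _ _ _ =>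
          norm_nonneg _
      refine h2.trans ?_
      rw [sum_range_add]
      refine add_le_add ?_ ?_
      · calc ∑ n ∈ range D0, b n ≤ ∑ n ∈ range D0, η :=
              sum_le_sum fun n hn => hb2 n (mem_range.1 hn)
          _ = D0 * η := by rw [sum_const, card_range, nsmul_eq_mul]
          _ ≤ (D0 + 1) * η := by nlinarith
          _ = ε / 3 := by rw [hη]; field_simp
      · calc ∑ n ∈ range D, b (D0 + n) ≤ ∑ n ∈ range D, K * s ^ D0 * s ^ n :=
              sum_le_sum fun n _ => (hb1 _).trans_eq (by rw [pow_add]; ring)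
          _ = K * s ^ D0 * ∑ n ∈ range D, s ^ n := by rw [mul_sum]
          _ ≤ K * s ^ D0 * (1 - s)⁻¹ := mul_le_mul_of_nonneg_left (hgeo D) (by positivity)
          _ = K * s ^ D0 / (1 - s) := by rw [div_eq_mul_inv]
          _ ≤ ε / 3 := hD0.le
    calc ∑ n ∈ range D, ‖(y - fnl (κ m) P w) (((T0 + (s : ℂ) • plc (κ m) P A) ^ n)
          (x + vec (κ m) P u))‖ ≤ ∑ n ∈ range D, (b n + s ^ n * δ) :=
          sum_le_sum fun n _ => hterm n
      _ = ∑ n ∈ range D, b n + (∑ n ∈ range D, s ^ n) * δ := by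
          rw [sum_add_distrib, sum_mul]
      _ ≤ (ε / 3 + ε / 3) + (1 - s)⁻¹ * δ :=
          add_le_add hbsum (mul_le_mul_of_nonneg_right (hgeo D) hδ0)
      _ ≤ ε := by
          rw [mul_comm (1 - s)⁻¹ δ]
          linarith

end Pool.Agent.Y280
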