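import Pool.Agent.Y280.GAv

/-!
# Comparison of two Herglotz functions
-/

set_option autoImplicit false
open Finset Filter Topology
open scoped Real ComplexConjugate

namespace Pool.Agent.Y280

lemma two_re_ge {a U : ℂ} (h : a * (1 - U) = 1) (hU : ‖U‖ ≤ 1) : 1 ≤ 2 * a.re := by
  have ha0 : a ≠ 0 := by
    rintro rfl
    rw [zero_mul] at h
    exact zero_ne_one h
  have h1 : a - 1 = a * U := by
    linear_combination h
  have h2 : ‖a - 1‖ ≤ ‖a‖ := by
    rw [h1, norm_mul]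
    exact mul_le_of_le_one_right (norm_nonneg _) hU
  have h3 : ‖a - 1‖ ^ 2 ≤ ‖a‖ ^ 2 := pow_le_pow_left₀ (norm_nonneg _) h2 2
  rw [← Complex.normSq_eq_norm_sq, ← Complex.normSq_eq_norm_sq, Complex.normSq_apply,
    Complex.normSq_apply] at h3
  simp only [Complex.sub_re, Complex.one_re, Complex.sub_im, Complex.one_im, sub_zero] at h3
  nlinarith

lemma herglotz_pointwise {a b U V : ℂ} {r : ℝ} (hr0 : 0 ≤ r) (hr1 : r < 1)
    (ha : a * (1 - U) = 1) (hb : b * (1 - V) = 1) (hU : ‖U‖ ≤ 1) (hV : ‖V‖ ≤ r) :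
    2 * b.re - 2 * a.re ≤ 4 / (1 - r) ^ 2 * ‖U - V‖ := by
  have hr : 0 < 1 - r := by linarith
  have hV1 : 1 - r ≤ ‖1 - V‖ := by
    have := norm_sub_norm_le (1 : ℂ) V
    rw [norm_one] at this
    linarith
  have hbn : ‖b‖ * ‖1 - V‖ = 1 := by rw [← norm_mul, hb, norm_one]
  have han : ‖a‖ * ‖1 - U‖ = 1 := by rw [← norm_mul, ha, norm_one]
  have hb1 : ‖b‖ ≤ 1 / (1 - r) := by
    rw [le_div_iff₀ hr]
    exact (mul_le_mul_of_nonneg_left hV1 (norm_nonneg _)).trans_eq hbn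
  rcases le_or_gt ((1 - r) / 2) ‖1 - U‖ with h | h
  · have ha1 : ‖a‖ ≤ 2 / (1 - r) := by
      rw [le_div_iff₀ hr]
      have : ‖a‖ * ((1 - r) / 2) ≤ ‖a‖ * ‖1 - U‖ := mul_le_mul_of_nonneg_left h (norm_nonneg _)
      linarith
    have e : b - a = a * b * (V - U) := by
      linear_combination a * hb - b * ha
    have h1 : 2 * b.re - 2 * a.re ≤ 2 * ‖b - a‖ := by
      have := Complex.re_le_norm (b - a)
      rw [Complex.sub_re] at this
      linarith
    refine h1.trans ?_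
    rw [e, norm_mul, norm_mul, norm_sub_rev V U]
    have h2 : ‖a‖ * ‖b‖ ≤ 2 / (1 - r) * (1 / (1 - r)) :=
      mul_le_mul ha1 hb1 (norm_nonneg _) (by positivity)
    calc 2 * (‖a‖ * ‖b‖ * ‖U - V‖) ≤ 2 * (2 / (1 - r) * (1 / (1 - r)) * ‖U - V‖) := by
          have := mul_le_mul_of_nonneg_right h2 (norm_nonneg (U - V))
          linarith
      _ = 4 / (1 - r) ^ 2 * ‖U - V‖ := by field_simp; ring
  · have h1 : (1 - r) / 2 ≤ ‖U - V‖ := by
      have h3 : ‖1 - V‖ ≤ ‖1 - U‖ + ‖U - V‖ := by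
        have := norm_add_le (1 - U) (U - V)
        rwa [sub_add_sub_cancel] at this
      linarith
    have h2 := two_re_ge ha hU
    have h3 := Complex.re_le_norm b
    have h4 : 2 / (1 - r) ≤ 4 / (1 - r) ^ 2 * ‖U - V‖ := by
      calc 2 / (1 - r) = 4 / (1 - r) ^ 2 * ((1 - r) / 2) := by field_simp; ring
        _ ≤ _ := mul_le_mul_of_nonneg_left h1 (by positivity)
    have h5 : 2 * b.re ≤ 2 / (1 - r) := by
      have : 2 / (1 - r) = 2 * (1 / (1 - r)) := by ring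
      rw [this]
      linarith
    linarith

lemma ps_sub {a b : ℕ → ℂ} {K s : ℝ} (ha : ∀ n, ‖a n‖ ≤ K) (hb : ∀ n, ‖b n‖ ≤ K)
    (hs0 : 0 ≤ s) (hs1 : s < 1) (θ : ℝ) :
    ps (fun n => a n - b n) s θ = ps a s θ - ps b s θ := by
  unfold ps
  rw [← (ps_hasSum ha hs0 hs1 θ).summable.tsum_sub (ps_hasSum hb hs0 hs1 θ).summable]
  exact tsum_congr fun n => by ring

lemma Av_ps {a : ℕ → ℂ} {K s : ℝ} (ha : ∀ n, ‖a n‖ ≤ K) (hs0 : 0 ≤ s) (hs1 : s < 1) :
    Av (ps a s) = a 0 := by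
  have h := Av_pg_ps ha hs0 hs1 1 (fun _ => 1) (L := 1) (fun θ => by simp [pg])
  have e : (fun θ => pg 1 (fun _ => 1) θ * ps a s θ) = ps a s := by
    funext θ
    simp [pg]
  rw [e] at h
  rw [h]
  simp

/-- **Comparison of Herglotz functions.** -/
theorem herglotz_diff {α β u v : ℕ → ℂ} {r : ℝ} (hr0 : 0 ≤ r) (hr1 : r < 1)
    (hα : ∀ n, ‖α n‖ ≤ 1) (hβ : ∀ n, ‖β n‖ ≤ 1) (hu : ∀ n, ‖u n‖ ≤ 1) (hv : ∀ n, ‖v n‖ ≤ 1)
    (h0 : α 0 = β 0)
    (hU : ∀ s : ℝ, 0 ≤ s → s < 1 → ∀ θ, ps α s θ * (1 - ps u s θ) = 1)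
    (hV : ∀ s : ℝ, 0 ≤ s → s < 1 → ∀ θ, ps β s θ * (1 - ps v s θ) = 1)
    (hU1 : ∀ s : ℝ, 0 ≤ s → s < 1 → ∀ θ, ‖ps u s θ‖ ≤ 1)
    (hV1 : ∀ s : ℝ, 0 ≤ s → s < 1 → ∀ θ, ‖ps v s θ‖ ≤ r)
    {δ : ℝ} (hδ0 : 0 < δ) (hδ : ∀ N, ∑ n ∈ range N, ‖u n - v n‖ ^ 2 ≤ δ ^ 2)
    (D : ℕ) (g : ℕ → ℂ) {L : ℝ} (hg : ∀ θ, ‖pg D g θ‖ ≤ L) :
    ‖∑ n ∈ range D, g n * (α n - β n)‖ ≤ L * (8 / (1 - r) ^ 2 * δ) := by
  have hr : 0 < 1 - r := by linarith
  have hL0 : 0 ≤ L := (norm_nonneg _).trans (hg 0)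
  have main : ∀ s : ℝ, 0 ≤ s → s < 1 →
      ‖∑ n ∈ range D, g n * ((α n - β n) * (s : ℂ) ^ n)‖ ≤ L * (8 / (1 - r) ^ 2 * δ) := by
    intro s hs0 hs1
    have hγ : ∀ n, ‖α n - β n‖ ≤ 2 := fun n =>
      (norm_sub_le _ _).trans (by linarith [hα n, hβ n])
    have huv : ∀ n, ‖u n - v n‖ ≤ 2 := fun n =>
      (norm_sub_le _ _).trans (by linarith [hu n, hv n])
    set A := ps (fun n => α n - β n) s with hA
    have hAc : Continuous A := continuous_ps hγ hs0 hs1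
    have h1 : Av (fun θ => pg D g θ * A θ) = ∑ n ∈ range D, g n * ((α n - β n) * (s : ℂ) ^ n) :=
      Av_pg_ps hγ hs0 hs1 D g hg
    have h2 : Av (fun θ => pg D g θ * conj (A θ)) = 0 := by
      rw [hA, Av_pg_conj_ps hγ hs0 hs1 D g hg, h0, sub_self, map_zero, mul_zero]
    have h3 : Av (fun θ => pg D g θ * ((2 * (A θ).re : ℝ) : ℂ)) =
        ∑ n ∈ range D, g n * ((α n - β n) * (s : ℂ) ^ n) := by
      rw [← h1, ← add_zero (Av fun θ => pg D g θ * A θ), ← h2, ← Av_add]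
      · congr 1
        funext θ
        rw [← mul_add, Complex.add_conj]
      · exact (continuous_pg D g).mul hAc
      · exact (continuous_pg D g).mul (Complex.continuous_conj.comp hAc)
    rw [← h3]
    have hxc : Continuous fun θ => 2 * (A θ).re :=
      continuous_const.mul (Complex.continuous_re.comp hAc)
    have h4 : Av (fun θ => ‖pg D g θ * ((2 * (A θ).re : ℝ) : ℂ)‖) ≤
        L * Av (fun θ => |2 * (A θ).re|) := by
      rw [← Av_const_mul_real]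
      apply Av_mono
      · exact ((continuous_pg D g).mul (Complex.continuous_ofReal.comp hxc)).norm
      · exact continuous_const.mul hxc.abs
      · intro θ
        rw [norm_mul, Complex.norm_real, Real.norm_eq_abs]
        exact mul_le_mul_of_nonneg_right (hg θ) (abs_nonneg _)
    refine (norm_Av_le.trans h4).trans (mul_le_mul_of_nonneg_left ?_ hL0)
    -- the average of `|x|`
    have h5 : Av (fun θ => 2 * (A θ).re) = 0 := by
      have e1 : Av A = 0 := by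
        rw [hA, Av_ps hγ hs0 hs1, h0, sub_self]
      have e2 : ((Av (fun θ => 2 * (A θ).re) : ℝ) : ℂ) = 0 := by
        rw [← Av_ofReal]
        have e3 : (fun θ => ((2 * (A θ).re : ℝ) : ℂ)) = fun θ => A θ + conj (A θ) := by
          funext θ
          rw [Complex.add_conj]
        rw [e3, Av_add (f := fun θ => A θ) (g := fun θ => conj (A θ)) hAc
          (Complex.continuous_conj.comp hAc), Av_conj]
        rw [show (Av fun θ => A θ) = Av A from rfl, e1, map_zero, add_zero]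
      exact_mod_cast e2
    set Wf := ps (fun n => u n - v n) s with hW
    have hWc : Continuous Wf := continuous_ps huv hs0 hs1
    have h6 : ∀ θ, |2 * (A θ).re| ≤ 2 * (A θ).re + 2 * (4 / (1 - r) ^ 2 * ‖Wf θ‖) := by
      intro θ
      have e1 : A θ = ps α s θ - ps β s θ := ps_sub hα hβ hs0 hs1 θ
      have e2 : Wf θ = ps u s θ - ps v s θ := ps_sub hu hv hs0 hs1 θ
      have h7 := herglotz_pointwise hr0 hr1 (hU s hs0 hs1 θ) (hV s hs0 hs1 θ)
        (hU1 s hs0 hs1 θ) (hV1 s hs0 hs1 θ)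
      rw [← e2] at h7
      have e3 : (A θ).re = (ps α s θ).re - (ps β s θ).re := by rw [e1, Complex.sub_re]
      have h8 : 0 ≤ 4 / (1 - r) ^ 2 * ‖Wf θ‖ := by positivity
      rw [abs_le]
      constructor
      · rw [e3]
        linarith
      · linarith
    have h7 : Av (fun θ => |2 * (A θ).re|) ≤
        Av (fun θ => 2 * (A θ).re + 2 * (4 / (1 - r) ^ 2 * ‖Wf θ‖)) :=
      Av_mono hxc.abs (hxc.add (continuous_const.mul (continuous_const.mul hWc.norm))) h6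
    have h8 : Av (fun θ => 2 * (A θ).re + 2 * (4 / (1 - r) ^ 2 * ‖Wf θ‖)) =
        8 / (1 - r) ^ 2 * Av (fun θ => ‖Wf θ‖) := by
      have e1 : Av (fun θ => 2 * (A θ).re + 2 * (4 / (1 - r) ^ 2 * ‖Wf θ‖)) =
          Av (fun θ => 2 * (A θ).re) - Av (fun θ => -(8 / (1 - r) ^ 2) * ‖Wf θ‖) := by
        rw [← Av_sub (f := fun θ => 2 * (A θ).re) (g := fun θ => -(8 / (1 - r) ^ 2) * ‖Wf θ‖) hxc
            (continuous_const.mul hWc.norm)]
        congr 1
        funext θ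
        ring
      rw [e1, h5, Av_const_mul_real]
      ring
    have hc1 : Continuous fun θ => -(1 / (2 * δ)) * ‖Wf θ‖ ^ 2 :=
      continuous_const.mul (hWc.norm.pow 2)
    have h9 : Av (fun θ => ‖Wf θ‖) ≤ δ := by
      have h10 : Av (fun θ => ‖Wf θ‖ ^ 2) ≤ δ ^ 2 := by
        have hs := Av_norm_sq_ps huv hs0 hs1
        rw [← hs.tsum_eq]
        apply hs.summable.tsum_le_of_sum_range_le
        intro N
        refine le_trans (sum_le_sum fun n _ => ?_) (hδ N)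
        exact mul_le_of_le_one_right (by positivity) (pow_le_one₀ hs0 hs1.le)
      have h11 : ∀ θ, ‖Wf θ‖ ≤ δ / 2 - -(1 / (2 * δ)) * ‖Wf θ‖ ^ 2 := by
        intro θ
        have : 0 ≤ (‖Wf θ‖ - δ) ^ 2 / (2 * δ) := by positivity
        have e : δ / 2 - -(1 / (2 * δ)) * ‖Wf θ‖ ^ 2 - ‖Wf θ‖ = (‖Wf θ‖ - δ) ^ 2 / (2 * δ) := by
          field_simp
          ring
        linarith
      have h12 := Av_mono (f := fun θ => ‖Wf θ‖)
        (g := fun θ => δ / 2 - -(1 / (2 * δ)) * ‖Wf θ‖ ^ 2) hWc.norm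
        (continuous_const.sub hc1) h11
      have h13 : Av (fun θ => δ / 2 - -(1 / (2 * δ)) * ‖Wf θ‖ ^ 2) =
          δ / 2 + 1 / (2 * δ) * Av (fun θ => ‖Wf θ‖ ^ 2) := by
        rw [Av_sub (f := fun _ => δ / 2) (g := fun θ => -(1 / (2 * δ)) * ‖Wf θ‖ ^ 2)
          continuous_const hc1, Av_const_real, Av_const_mul_real]
        ring
      rw [h13] at h12
      refine h12.trans ?_
      have h14 : 1 / (2 * δ) * Av (fun θ => ‖Wf θ‖ ^ 2) ≤ 1 / (2 * δ) * δ ^ 2 :=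
        mul_le_mul_of_nonneg_left h10 (by positivity)
      have h15 : 1 / (2 * δ) * δ ^ 2 = δ / 2 := by
        field_simp
      linarith
    rw [h8] at h7
    exact h7.trans (mul_le_mul_of_nonneg_left h9 (by positivity))
  -- let `s` tend to one
  have hc : Continuous fun s : ℝ => ‖∑ n ∈ range D, g n * ((α n - β n) * (s : ℂ) ^ n)‖ := by
    refine (continuous_finset_sum _ fun n _ => ?_).norm
    exact continuous_const.mul (continuous_const.mul (Complex.continuous_ofReal.pow n))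
  have ht : Tendsto (fun s : ℝ => ‖∑ n ∈ range D, g n * ((α n - β n) * (s : ℂ) ^ n)‖)
      (𝓝[<] 1) (𝓝 ‖∑ n ∈ range D, g n * (α n - β n)‖) := by
    have := hc.tendsto 1
    simp only [Complex.ofReal_one, one_pow, mul_one] at this
    exact this.mono_left nhdsWithin_le_nhds
  refine le_of_tendsto ht ?_
  have h1 : ∀ᶠ s : ℝ in 𝓝[<] 1, 0 ≤ s :=
    ((lt_mem_nhds (zero_lt_one (α := ℝ))).mono fun _ h => le_of_lt h).filter_mono
      nhdsWithin_le_nhds
  filter_upwards [h1, self_mem_nhdsWithin] with s hs0 hs1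
  exact main s hs0 hs1

end Pool.Agent.Y280
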