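import Pool.Agent.Y280.GSot
import Pool.Agent.Y280.Transf

/-!
# Typical contractions of `ℓ_p` have invariant subspaces
-/

set_option autoImplicit false
open Finset Filter Topology TopologicalSpace
open scoped ENNReal

namespace Pool.Agent.Y280

variable {P : ℝ≥0∞} [hP : Fact (1 ≤ P)]

/-- The unit ball of the operators. -/
def OpBall (P : ℝ≥0∞) [Fact (1 ≤ P)] : Set (EP P →L[ℂ] EP P) := {T | ‖T‖ ≤ 1}

lemma opBall_closed (w : ℕ → EP P →L[ℂ] EP P) (T0 : EP P →L[ℂ] EP P)
    (hw : ∀ m, w m ∈ OpBall P) (h : ∀ x, Tendsto (fun m => w m x) atTop (𝓝 (T0 x))) :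
    T0 ∈ OpBall P := by
  refine ContinuousLinearMap.opNorm_le_bound _ zero_le_one fun x => ?_
  refine le_of_tendsto (h x).norm (Eventually.of_forall fun m => ?_)
  exact ((w m).le_opNorm x).trans (mul_le_mul_of_nonneg_right (hw m) (norm_nonneg _))

lemma opBall_cm_sot (hPt : P ≠ ∞) :
    @IsCompletelyMetrizableSpace (OpBall P) (sot (OpBall P)) := by
  haveI := sep_EP hPt
  exact cm_sot (fun T hT => hT) opBall_closed

lemma opBall_cm_sotStar (hP1 : 1 < P) (hPt : P ≠ ∞) :
    @IsCompletelyMetrizableSpace (OpBall P) (sotStar (OpBall P)) := by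
  haveI := sep_EP hPt
  haveI := sep_EP_dual hP1 hPt
  exact cm_sotStar (fun T hT => hT) opBall_closed

lemma fc_of_cm {X : Type*} (t : TopologicalSpace X) (h : @IsCompletelyMetrizableSpace X t) :
    @FirstCountableTopology X t := by
  letI := t
  haveI := h
  letI := upgradeIsCompletelyMetrizable X
  infer_instance

lemma ballTop_sotStar : @BallTop P _ (OpBall P) (sotStar (OpBall P))
    (fun w => (w : EP P →L[ℂ] EP P)) := by
  letI : TopologicalSpace (OpBall P) := sotStar (OpBall P)
  refine ⟨fun w => w.2, fun T hT => ⟨⟨T, hT⟩, rfl⟩, ?_, ?_⟩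
  · intro v v0 hv
    have hd : Continuous (fun T : OpBall P => ((fun x : EP P => (T : EP P →L[ℂ] EP P) x),
      (fun y : StrongDual ℂ (EP P) => y.comp (T : EP P →L[ℂ] EP P)))) := continuous_induced_dom
    have h1 := (hd.tendsto v0).comp hv
    refine ⟨fun x => ?_, fun _ y => ?_⟩
    · exact ((continuous_apply x).comp continuous_fst).continuousAt.tendsto.comp h1
    · exact ((continuous_apply y).comp continuous_snd).continuousAt.tendsto.comp h1
  · intro v v0 h1 h2
    exact htend_of_le le_rfl v v0 h1 h2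

lemma ballTop_sot (h2 : P.toReal ≤ 2) : @BallTop P _ (OpBall P) (sot (OpBall P))
    (fun w => (w : EP P →L[ℂ] EP P)) := by
  letI : TopologicalSpace (OpBall P) := sot (OpBall P)
  refine ⟨fun w => w.2, fun T hT => ⟨⟨T, hT⟩, rfl⟩, ?_, ?_⟩
  · intro v v0 hv
    refine ⟨fun x => ?_, fun h => absurd h (not_lt.2 h2)⟩
    exact ((hc_of_le le_rfl x).tendsto v0).comp hv
  · intro v v0 h1 h2
    exact htend_of_le (sotStar_le_sot _) v v0 h1 h2

/-- Points of continuity of the identity from the strong to the strong* topology. -/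
lemma dense_points (hP2 : 2 < P.toReal) (hP1 : 1 < P) (hPt : P ≠ ∞) :
    @Dense (OpBall P) (sotStar (OpBall P))
      {w | @nhds _ (sot (OpBall P)) w ≤ @nhds _ (sotStar (OpBall P)) w} := by
  have hfc := fc_of_cm _ (opBall_cm_sot hPt)
  set W := OpBall P
  -- the sets of small oscillation
  let O : ℕ → ℕ → Set W := fun i m => ⋃ (U : Set W) (_ : @IsOpen W (sot W) U ∧
    ∀ z ∈ U, ∀ z' ∈ U, ‖(gP P i).comp (z : EP P →L[ℂ] EP P) -
      (gP P i).comp (z' : EP P →L[ℂ] EP P)‖ ≤ 1 / ((m : ℝ) + 1)), U
  have hres : ∀ i m, O i m ∈ @residual W (sotStar W) := by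
    intro i m
    letI : TopologicalSpace W := sotStar W
    apply residual_of_dense_open
    · exact isOpen_iUnion fun U => isOpen_iUnion fun hU => sotStar_le_sot _ U hU.1
    · rw [dense_iff_inter_open]
      intro V hV hVne
      obtain ⟨w0, hw0⟩ := hVne
      obtain ⟨w1, hw1V, N0, r, hr1, hwr, hcmp⟩ := exists_finite hP1 hPt
        (ballTop_sotStar (P := P)) hV hw0
      set A : EP P →L[ℂ] EP P := w1.1 with hA
      set N := max N0 (i + 1) with hN
      have hcmp' : cmp A N = A := cmp_mono hcmp (le_max_left _ _)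
      have hr0 : 0 ≤ r := (norm_nonneg _).trans hwr
      set δ : ℕ → ℝ := fun k => (1 - r) / ((k : ℝ) + 2) with hδ
      have hδ0 : ∀ k, 0 < δ k := by
        intro k
        have h2 : (0 : ℝ) ≤ k := Nat.cast_nonneg k
        exact div_pos (by linarith) (by linarith)
      have hδ1 : ∀ k, r + δ k < 1 := by
        intro k
        have h2 : (0 : ℝ) ≤ k := Nat.cast_nonneg k
        have h4 : (1 - r) / ((k : ℝ) + 2) < 1 - r := by
          rw [div_lt_iff₀ (by linarith)]
          nlinarith
        simp only [hδ]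
        linarith
      have hδl : Tendsto δ atTop (𝓝 0) := by
        have := tendsto_const_div_atTop_nhds_zero_nat (1 - r)
        have h2 := this.comp (tendsto_add_atTop_nat 2)
        refine h2.congr fun k => ?_
        simp [hδ]
      choose b hb0 hb1 v hv0 hTn hvn hTv hTi using fun k : ℕ =>
        exists_pert hPt hcmp' hwr hr1 (i := i) (m := N + k) (by omega) (by omega) (hδ0 k) (hδ1 k)
      set R : ℕ → EP P →L[ℂ] EP P := fun k => (δ k : ℂ) • (gP P (N + k)).smulRight (eP P i) +
        (b k : ℂ) • (gP P (N + k)).smulRight (eP P (N + k)) with hR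
      have hκt : Tendsto (fun m => N + m) atTop atTop :=
        tendsto_atTop_mono (fun m => Nat.le_add_left m N) tendsto_id
      have hp1 := one_lt_toReal hP1 hPt
      have hF := frame_lp hP1 hPt (Real.HolderConjugate.conjExponent hp1)
      have hgx : ∀ x : EP P, Tendsto (fun k => gP P (N + k) x) atTop (𝓝 0) := fun x =>
        (hF.hgx x).comp hκt
      have hye : ∀ y : StrongDual ℂ (EP P), Tendsto (fun k => y (eP P (N + k))) atTop (𝓝 0) :=
        fun y => (hF.hyf y).comp hκt
      have hδc : Tendsto (fun k => ((δ k : ℝ) : ℂ)) atTop (𝓝 0) := by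
        have h9 := (Complex.continuous_ofReal.tendsto 0).comp hδl
        rw [Complex.ofReal_zero] at h9
        exact h9
      have hRx : ∀ x, Tendsto (fun k => R k x) atTop (𝓝 0) := by
        intro x
        rw [tendsto_zero_iff_norm_tendsto_zero]
        have h1 : Tendsto (fun k => 2 * ‖gP P (N + k) x‖) atTop (𝓝 (2 * 0)) :=
          (tendsto_zero_iff_norm_tendsto_zero.1 (hgx x)).const_mul 2
        rw [mul_zero] at h1
        refine squeeze_zero (fun _ => norm_nonneg _) (fun k => ?_) h1
        simp only [hR, _root_.add_apply, _root_.smul_apply, ContinuousLinearMap.smulRight_apply]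
        refine (norm_add_le _ _).trans ?_
        rw [norm_smul, norm_smul, norm_smul, norm_smul, norm_eP, norm_eP, Complex.norm_real,
          Complex.norm_real, Real.norm_of_nonneg (hδ0 k).le, Real.norm_of_nonneg (hb0 k)]
        have h2 : δ k ≤ 1 := by have := hδ1 k; linarith
        have h3 := hb1 k
        have h4 := norm_nonneg (gP P (N + k) x)
        nlinarith [hδ0 k, hb0 k]
      have hRy : ∀ y : StrongDual ℂ (EP P), Tendsto (fun k => y.comp (R k)) atTop (𝓝 0) := by
        intro y
        rw [tendsto_zero_iff_norm_tendsto_zero]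
        have h1 : Tendsto (fun k => δ k * ‖y (eP P i)‖ + ‖y (eP P (N + k))‖) atTop
            (𝓝 (0 * ‖y (eP P i)‖ + 0)) :=
          (hδl.mul_const _).add (tendsto_zero_iff_norm_tendsto_zero.1 (hye y))
        rw [zero_mul, add_zero] at h1
        refine squeeze_zero (fun _ => norm_nonneg _) (fun k => ?_) h1
        refine ContinuousLinearMap.opNorm_le_bound _ (by have := hδ0 k; positivity) fun x => ?_
        simp only [hR, ContinuousLinearMap.comp_apply, _root_.add_apply, _root_.smul_apply,
          ContinuousLinearMap.smulRight_apply, map_add, map_smul, smul_eq_mul]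
        refine (norm_add_le _ _).trans ?_
        rw [norm_mul, norm_mul, norm_mul, norm_mul, Complex.norm_real,
          Complex.norm_real, Real.norm_of_nonneg (hδ0 k).le, Real.norm_of_nonneg (hb0 k), add_mul]
        have h4 : ‖gP P (N + k) x‖ ≤ ‖x‖ := norm_coord_le x _
        refine add_le_add ?_ ?_
        · have h5 : ‖gP P (N + k) x‖ * ‖y (eP P i)‖ ≤ ‖x‖ * ‖y (eP P i)‖ :=
            mul_le_mul_of_nonneg_right h4 (norm_nonneg _)
          have h6 := mul_le_mul_of_nonneg_left h5 (hδ0 k).le
          linarith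
        · have h5 : ‖gP P (N + k) x‖ * ‖y (eP P (N + k))‖ ≤ ‖x‖ * ‖y (eP P (N + k))‖ :=
            mul_le_mul_of_nonneg_right h4 (norm_nonneg _)
          have h6 : b k * (‖gP P (N + k) x‖ * ‖y (eP P (N + k))‖) ≤
              ‖gP P (N + k) x‖ * ‖y (eP P (N + k))‖ :=
            mul_le_of_le_one_left (by positivity) (hb1 k)
          linarith
      let u : ℕ → W := fun k => ⟨A + R k, (hTn k).le⟩
      have hul : Tendsto u atTop (𝓝 w1) := by
        apply htend_of_le (C := W) le_rfl
        · intro x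
          have h1 := (hRx x).const_add (A x)
          rw [add_zero] at h1
          exact h1
        · intro y
          have h1 := (hRy y).const_add (y.comp A)
          rw [add_zero] at h1
          refine h1.congr fun k => ?_
          rw [← ContinuousLinearMap.comp_add]
      obtain ⟨k, hk⟩ := (hul.eventually (hV.mem_nhds hw1V)).exists
      refine ⟨u k, hk, ?_⟩
      -- the row is continuous at `u k`
      have hcont : Tendsto (fun z : W => (gP P i).comp (z : EP P →L[ℂ] EP P))
          (@nhds W (sot W) (u k)) (𝓝 ((gP P i).comp (u k : EP P →L[ℂ] EP P))) := by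
        haveI : (@nhds W (sot W) (u k)).IsCountablyGenerated :=
          @FirstCountableTopology.nhds_generated_countable W (sot W) hfc (u k)
        apply tendsto_of_seq_tendsto
        intro z hz
        have hzx : ∀ x, Tendsto (fun l => (z l : EP P →L[ℂ] EP P) x) atTop
            (𝓝 ((u k : EP P →L[ℂ] EP P) x)) := fun x =>
          Tendsto.comp (@Continuous.tendsto _ _ (sot W) _ _ (hc_of_le (C := W) le_rfl x) (u k)) hz
        exact row_tendsto hP2 hPt (fun l => (z l).2) (u k).2 hzx (hv0 k)
          (by rw [hvn k]; exact hTv k) (hTi k)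
      have hε : (0 : ℝ) < 1 / ((m : ℝ) + 1) / 2 := by positivity
      have hev := (Metric.tendsto_nhds.1 hcont) _ hε
      obtain ⟨U, hUs, hUo, hUm⟩ := (@mem_nhds_iff W (sot W) (u k) _).1 hev
      simp only [O, Set.mem_iUnion]
      refine ⟨U, ⟨hUo, fun z hz z' hz' => ?_⟩, hUm⟩
      have h1 : dist ((gP P i).comp (z : EP P →L[ℂ] EP P))
        ((gP P i).comp (u k : EP P →L[ℂ] EP P)) < _ := hUs hz
      have h2 : dist ((gP P i).comp (z' : EP P →L[ℂ] EP P))
        ((gP P i).comp (u k : EP P →L[ℂ] EP P)) < _ := hUs hz'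
      rw [← dist_eq_norm]
      refine (dist_triangle_right _ _ ((gP P i).comp (u k : EP P →L[ℂ] EP P))).trans ?_
      linarith
  have hG : ∀ᶠ w in @residual W (sotStar W), ∀ i m, w ∈ O i m := by
    rw [eventually_countable_forall]; intro i
    rw [eventually_countable_forall]; intro m
    exact hres i m
  haveI hB : @BaireSpace W (sotStar W) :=
    @BaireSpace.of_completelyPseudoMetrizable _ (sotStar W)
      (@IsCompletelyMetrizableSpace.toIsCompletelyPseudoMetrizableSpace _ (sotStar W)
        (opBall_cm_sotStar hP1 hPt))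
  have hdense := @dense_of_mem_residual W (sotStar W) hB _ hG
  refine @Dense.mono W (sotStar W) _ _ ?_ hdense
  intro w hw
  have hw' : ∀ i m, w ∈ O i m := hw
  show @nhds W (sot W) w ≤ @nhds W (sotStar W) w
  haveI : (@nhds W (sot W) w).IsCountablyGenerated :=
    @FirstCountableTopology.nhds_generated_countable W (sot W) hfc w
  have : Tendsto id (@nhds W (sot W) w) (@nhds W (sotStar W) w) := by
    apply tendsto_of_seq_tendsto
    intro z hz
    have hzx : ∀ x, Tendsto (fun l => (z l : EP P →L[ℂ] EP P) x) atTop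
        (𝓝 ((w : EP P →L[ℂ] EP P) x)) := fun x =>
      Tendsto.comp (@Continuous.tendsto _ _ (sot W) _ _ (hc_of_le (C := W) le_rfl x) w) hz
    have hzr : ∀ i, Tendsto (fun l => (gP P i).comp (z l : EP P →L[ℂ] EP P)) atTop
        (𝓝 ((gP P i).comp (w : EP P →L[ℂ] EP P))) := by
      intro i
      rw [Metric.tendsto_atTop']
      intro ε hε
      obtain ⟨m, hm⟩ := exists_nat_one_div_lt hε
      have h1 := hw' i m
      simp only [O, Set.mem_iUnion] at h1
      obtain ⟨U, ⟨hUo, hU⟩, hwU⟩ := h1
      have h2 : ∀ᶠ l in atTop, z l ∈ U :=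
        hz.eventually (@IsOpen.mem_nhds W (sot W) w U hUo hwU)
      obtain ⟨L, hL⟩ := eventually_atTop.1 h2
      refine ⟨L, fun l hl => ?_⟩
      rw [dist_eq_norm]
      exact (hU _ (hL l (le_of_lt hl)) _ hwU).trans_lt hm
    exact htend_of_le (C := W) le_rfl z w hzx
      (all_rows hP1 hPt (fun l => (z l).2) w.2 hzr)
  exact this

/-- **Typical contractions of `ℓ_p`.** -/
theorem typ_all (hP1 : 1 < P) (hPt : P ≠ ∞) (t : TopologicalSpace (OpBall P))
    (ht : t = SOT (OpBall P) ∨ t = SOTStar (OpBall P)) :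
    (OpBall P).Nonempty ∧ @IsCompletelyMetrizableSpace (OpBall P) t ∧
      @BaireSpace (OpBall P) t ∧
      {T : OpBall P | DenselyInvariant (T : EP P →L[ℂ] EP P)} ∈ @residual (OpBall P) t := by
  have hcm1 := opBall_cm_sot hPt
  have hcm2 := opBall_cm_sotStar hP1 hPt
  have hstar : {w : OpBall P | Good (w : EP P →L[ℂ] EP P)} ∈
      @residual (OpBall P) (sotStar (OpBall P)) := by
    letI : TopologicalSpace (OpBall P) := sotStar (OpBall P)
    haveI := fc_of_cm _ hcm2
    exact typ_ball hP1 hPt (ballTop_sotStar (P := P))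
  have hsot : {w : OpBall P | Good (w : EP P →L[ℂ] EP P)} ∈
      @residual (OpBall P) (sot (OpBall P)) := by
    rcases le_or_gt P.toReal 2 with h2 | h2
    · letI : TopologicalSpace (OpBall P) := sot (OpBall P)
      haveI := fc_of_cm _ hcm1
      exact typ_ball hP1 hPt (ballTop_sot h2)
    · exact residual_transfer _ _ (sotStar_le_sot _) (dense_points h2 hP1 hPt) hstar
  have hgood : ∀ T : OpBall P, Good (T : EP P →L[ℂ] EP P) →
      DenselyInvariant (T : EP P →L[ℂ] EP P) := fun T hT x₀ ε hε => inv_of_good hT x₀ hε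
  have hb : ∀ t : TopologicalSpace (OpBall P), @IsCompletelyMetrizableSpace (OpBall P) t →
      @BaireSpace (OpBall P) t := fun t hcm =>
    @BaireSpace.of_completelyPseudoMetrizable _ t
      (@IsCompletelyMetrizableSpace.toIsCompletelyPseudoMetrizableSpace _ t hcm)
  refine ⟨⟨0, by simp [OpBall]⟩, ?_⟩
  rcases ht with rfl | rfl
  · exact ⟨hcm1, hb _ hcm1, Filter.mem_of_superset hsot fun T hT => hgood T hT⟩
  · exact ⟨hcm2, hb _ hcm2, Filter.mem_of_superset hstar fun T hT => hgood T hT⟩

/-- The same in coordinates. -/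
theorem result_ball {E : Type} [NormedAddCommGroup E] [NormedSpace ℂ E] (p : ℝ) (hp : 1 < p)
    (c : E →ₗ[ℂ] (ℕ → ℂ)) (hc : IsEllp p c) (C : Set (E →L[ℂ] E)) (hC : C = {T | ‖T‖ ≤ 1})
    (t : TopologicalSpace C) (ht : t = SOT C ∨ t = SOTStar C) :
    C.Nonempty ∧ @IsCompletelyMetrizableSpace C t ∧ @BaireSpace C t ∧
      {T : C | DenselyInvariant (T : E →L[ℂ] E)} ∈ @residual C t := by
  have hp0 : 0 < p := zero_lt_one.trans hp
  obtain ⟨P, hP1, hPt, hPr⟩ : ∃ P : ℝ≥0∞, 1 < P ∧ P ≠ ∞ ∧ P.toReal = p := by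
    refine ⟨ENNReal.ofReal p, ?_, ENNReal.ofReal_ne_top, ENNReal.toReal_ofReal hp0.le⟩
    rw [← ENNReal.ofReal_one]
    exact (ENNReal.ofReal_lt_ofReal_iff hp0).2 hp
  haveI : Fact (1 ≤ P) := ⟨hP1.le⟩
  have hc' : IsEllp P.toReal c := by rw [hPr]; exact hc
  obtain ⟨e, he⟩ := exists_isometry (by rw [hPr]; exact hp0) hc'
  refine transfer_typ e C (OpBall P) ?_ t ht DenselyInvariant DenselyInvariant
      (denselyInvariant_cj e) fun t' ht' => typ_all hP1 hPt t' ht'
  intro T
  rw [hC]
  show ‖T‖ ≤ 1 ↔ ‖cj e T‖ ≤ 1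
  rw [norm_cj]

end Pool.Agent.Y280
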