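import Pool.Agent.Y280.GTail

/-!
# The norm of a polynomial on all contraction matrices
-/

set_option autoImplicit false
open Finset Filter Topology
open scoped ENNReal ComplexConjugate

namespace Pool.Agent.Y280

/-- The matrix `A` is a contraction of `ℓ_p^I`. -/
def ContrM (p : ℝ) {I : Type} [Fintype I] (A : I → I → ℂ) : Prop :=
  ∀ x : I → ℂ, ∑ i, ‖∑ j, A i j * x j‖ ^ p ≤ ∑ j, ‖x j‖ ^ p

/-- The polynomial with coefficients `c n`, `n < D`, is bounded by `C` on all contraction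
matrices of `ℓ_p`. -/
def NC (p : ℝ) (D : ℕ) (c : ℕ → ℂ) (C : ℝ) : Prop :=
  ∀ (I : Type) [Fintype I] (A : I → I → ℂ), ContrM p A → ∀ x : I → ℂ,
    ∑ i, ‖∑ n ∈ range D, c n * itv A x n i‖ ^ p ≤ C ^ p * ∑ i, ‖x i‖ ^ p

section mat

variable {I J : Type} [Fintype I] [Fintype J]

lemma itv_smul (A : I → I → ℂ) (a : ℂ) (x : I → ℂ) (n : ℕ) (i : I) :
    itv A (fun i => a * x i) n i = a * itv A x n i := by
  induction n generalizing i with
  | zero => rfl
  | succ n ih =>
    simp only [itv]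
    rw [mul_sum]
    refine sum_congr rfl fun j _ => ?_
    rw [ih]
    ring

/-- Block diagonal matrices. -/
def bd (A : I → I → ℂ) (B : J → J → ℂ) : I ⊕ J → I ⊕ J → ℂ
  | .inl i, .inl j => A i j
  | .inr i, .inr j => B i j
  | _, _ => 0

lemma itv_bd (A : I → I → ℂ) (B : J → J → ℂ) (x : I → ℂ) (y : J → ℂ) (n : ℕ) :
    (∀ i, itv (bd A B) (Sum.elim x y) n (.inl i) = itv A x n i) ∧
      ∀ j, itv (bd A B) (Sum.elim x y) n (.inr j) = itv B y n j := by
  induction n with
  | zero => exact ⟨fun i => rfl, fun j => rfl⟩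
  | succ n ih =>
    constructor
    · intro i
      simp only [itv]
      rw [Fintype.sum_sum_type]
      simp only [bd, zero_mul, sum_const_zero, add_zero]
      exact sum_congr rfl fun j _ => by rw [ih.1]
    · intro i
      simp only [itv]
      rw [Fintype.sum_sum_type]
      simp only [bd, zero_mul, sum_const_zero, zero_add]
      exact sum_congr rfl fun j _ => by rw [ih.2]

lemma ContrM.bd {p : ℝ} {A : I → I → ℂ} {B : J → J → ℂ} (hA : ContrM p A) (hB : ContrM p B) :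
    ContrM p (bd A B) := by
  intro x
  rw [Fintype.sum_sum_type, Fintype.sum_sum_type]
  refine add_le_add ?_ ?_
  · refine le_trans (le_of_eq (sum_congr rfl fun i _ => ?_)) (hA fun i => x (.inl i))
    rw [Fintype.sum_sum_type]
    simp [Pool.Agent.Y280.bd]
  · refine le_trans (le_of_eq (sum_congr rfl fun i _ => ?_)) (hB fun i => x (.inr i))
    rw [Fintype.sum_sum_type]
    simp [Pool.Agent.Y280.bd]

lemma itv_contr {p : ℝ} {A : I → I → ℂ} (hA : ContrM p A) (x : I → ℂ) (n : ℕ) :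
    ∑ i, ‖itv A x n i‖ ^ p ≤ ∑ i, ‖x i‖ ^ p := by
  induction n with
  | zero => exact le_rfl
  | succ n ih => exact (hA (itv A x n)).trans ih

end mat

lemma NC.disc {p : ℝ} (hp : 0 < p) {D : ℕ} {c : ℕ → ℂ} {C : ℝ} (hC : 0 ≤ C) (h : NC p D c C)
    {z : ℂ} (hz : ‖z‖ ≤ 1) : ‖∑ n ∈ range D, c n * z ^ n‖ ≤ C := by
  have h1 := h Unit (fun _ _ => z) (by
    intro x
    simp only [univ_unique, sum_singleton, norm_mul]
    refine Real.rpow_le_rpow (by positivity) ?_ hp.le
    exact mul_le_of_le_one_left (norm_nonneg _) hz) (fun _ => 1)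
  have e : ∀ n, itv (fun _ _ : Unit => z) (fun _ => 1) n () = z ^ n := by
    intro n
    induction n with
    | zero => rfl
    | succ n ih =>
      simp only [itv, univ_unique, sum_singleton]
      rw [show (default : Unit) = () from rfl, ih, pow_succ']
  simp only [univ_unique, sum_singleton, norm_one, Real.one_rpow, mul_one] at h1
  rw [show (default : Unit) = () from rfl] at h1
  simp only [e] at h1
  exact (Real.rpow_le_rpow_iff (norm_nonneg _) hC hp).1 h1

lemma NC_delta (p : ℝ) (n : ℕ) : NC p (n + 1) (fun k => if k = n then 1 else 0) 1 := by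
  intro I _ A hA x
  rw [Real.one_rpow, one_mul]
  refine le_trans (le_of_eq (sum_congr rfl fun i _ => ?_)) (itv_contr hA x n)
  rw [sum_eq_single n]
  · simp
  · intro b _ hb
    beta_reduce
    rw [if_neg hb, zero_mul]
  · intro h
    exact absurd (self_mem_range_succ n) h

lemma Av_pg_zt (D : ℕ) (g : ℕ → ℂ) (n : ℕ) :
    Av (fun θ => pg D g θ * zt θ ^ n) = if n < D then g n else 0 := by
  have e1 : (fun θ => pg D g θ * zt θ ^ n) =
      fun θ => ∑ m ∈ range D, g m * (conj (zt θ) ^ m * zt θ ^ n) := by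
    funext θ
    unfold pg
    rw [sum_mul]
    exact sum_congr rfl fun m _ => by ring
  rw [e1, Av_sum]
  · simp only [Av_const_mul, orth]
    simp
  · intro m
    refine continuous_const.mul (Continuous.mul (Continuous.pow ?_ m) (continuous_zt.pow n))
    exact Complex.continuous_conj.comp continuous_zt

lemma NC.pg_le {p : ℝ} (hp : 0 < p) {D : ℕ} {c : ℕ → ℂ} {C : ℝ} (hC : 0 ≤ C) (h : NC p D c C)
    (θ : ℝ) : ‖pg D c θ‖ ≤ C :=
  h.disc hp hC (by rw [RCLike.norm_conj, norm_zt])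

lemma NC.coeff {p : ℝ} (hp : 0 < p) {D : ℕ} {c : ℕ → ℂ} {C : ℝ} (hC : 0 ≤ C) (h : NC p D c C)
    {n : ℕ} (hn : n < D) : ‖c n‖ ≤ C := by
  have h1 := Av_pg_zt D c n
  rw [if_pos hn] at h1
  rw [← h1]
  refine norm_Av_le.trans ?_
  rw [← Av_const_real C]
  apply Av_mono
  · exact ((continuous_pg D c).mul (continuous_zt.pow n)).norm
  · exact continuous_const
  · intro θ
    rw [norm_mul, norm_pow, norm_zt, one_pow, mul_one]
    exact h.pg_le hp hC θ

section operators

variable {P : ℝ≥0∞} [hP : Fact (1 ≤ P)]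

lemma contrM_section (hPt : P ≠ ∞) {T : EP P →L[ℂ] EP P} (hT : ‖T‖ ≤ 1) (N : ℕ) :
    ContrM P.toReal (fun i j : Fin N => ent T i j) := by
  have hp := toReal_pos' hPt
  intro x
  set X : EP P := ∑ j ∈ range N, (if hj : j < N then x ⟨j, hj⟩ else 0) • eP P j with hX
  have hXj : ∀ j, X j = if hj : j < N then x ⟨j, hj⟩ else 0 := by
    intro j
    rw [hX, lp.coeFn_sum, Finset.sum_apply]
    have e : ∀ k ∈ range N, ((if hk : k < N then x ⟨k, hk⟩ else 0) • eP P k : EP P) j =
        if k = j then (if hj : j < N then x ⟨j, hj⟩ else 0) else 0 := by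
      intro k _
      rw [lp.coeFn_smul, Pi.smul_apply, eP_apply, smul_eq_mul]
      by_cases h : k = j
      · subst h; simp
      · rw [if_neg h, if_neg (Ne.symm h), mul_zero]
    rw [sum_congr rfl e, sum_ite_eq' (range N) j]
    by_cases hj : j < N
    · rw [if_pos (mem_range.2 hj)]
    · rw [if_neg (fun h => hj (mem_range.1 h)), dif_neg hj]
  have h1 : ‖X‖ ^ P.toReal = ∑ j : Fin N, ‖x j‖ ^ P.toReal := by
    rw [norm_supp hPt X N (fun i hi => by rw [hXj, dif_neg (by omega)]),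
      ← Fin.sum_univ_eq_sum_range (fun i => ‖X i‖ ^ P.toReal) N]
    refine sum_congr rfl fun j _ => ?_
    rw [hXj, dif_pos j.2]
  have h2 : ∀ i : Fin N, T X i = ∑ j : Fin N, ent T i j * x j := by
    intro i
    rw [hX, map_sum, lp.coeFn_sum, Finset.sum_apply, ← Fin.sum_univ_eq_sum_range
      (fun j => (T ((if hj : j < N then x ⟨j, hj⟩ else 0) • eP P j)) i) N]
    refine sum_congr rfl fun j _ => ?_
    rw [map_smul, lp.coeFn_smul, Pi.smul_apply, smul_eq_mul, dif_pos j.2, mul_comm]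
    rfl
  rw [← h1]
  calc ∑ i : Fin N, ‖∑ j : Fin N, ent T i j * x j‖ ^ P.toReal
      = ∑ i : Fin N, ‖T X i‖ ^ P.toReal := sum_congr rfl fun i _ => by rw [h2]
    _ = ∑ i ∈ range N, ‖T X i‖ ^ P.toReal :=
        Fin.sum_univ_eq_sum_range (fun i => ‖T X i‖ ^ P.toReal) N
    _ ≤ ‖T X‖ ^ P.toReal := lp.sum_rpow_le_norm_rpow hp (T X) _
    _ ≤ ‖X‖ ^ P.toReal := by
        refine Real.rpow_le_rpow (norm_nonneg _) ?_ hp.le
        exact (T.le_opNorm X).trans (mul_le_of_le_one_left (norm_nonneg _) hT)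

/-- Polynomials of contractions of `ℓ_p`. -/
lemma NC.op (hPt : P ≠ ∞) {T : EP P →L[ℂ] EP P} (hT : ‖T‖ ≤ 1) {D : ℕ} {c : ℕ → ℂ} {C : ℝ}
    (hC : 0 ≤ C) (hN : NC P.toReal D c C) (x : EP P) :
    ‖∑ n ∈ range D, c n • (T ^ n) x‖ ≤ C * ‖x‖ := by
  have hp := toReal_pos' hPt
  have h1 : Tendsto (fun N => ∑ n ∈ range D, c n • (cmp T N ^ n) ((1 - QP P N) x)) atTop
      (𝓝 (∑ n ∈ range D, c n • (T ^ n) x)) :=
    tendsto_finsetSum _ fun n _ => (cmp_tendsto hPt T n x).const_smul (c n)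
  refine le_of_tendsto h1.norm (Eventually.of_forall fun N => ?_)
  set z := ∑ n ∈ range D, c n • (cmp T N ^ n) ((1 - QP P N) x) with hz
  have hzi : ∀ i, z i = ∑ n ∈ range D, c n * ((cmp T N ^ n) ((1 - QP P N) x)) i := by
    intro i
    rw [hz, lp.coeFn_sum, Finset.sum_apply]
    exact sum_congr rfl fun n _ => by rw [lp.coeFn_smul, Pi.smul_apply, smul_eq_mul]
  have h2 : ‖z‖ ^ P.toReal = ∑ i ∈ range N, ‖z i‖ ^ P.toReal := by
    apply norm_supp hPt
    intro i hi
    rw [hzi]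
    exact sum_eq_zero fun n _ => by rw [(cmp_pow T N x n).2 i hi, mul_zero]
  have h3 := hN (Fin N) (fun i j : Fin N => ent T i j) (contrM_section hPt hT N) (fun i => x i)
  have h4 : ∑ i ∈ range N, ‖z i‖ ^ P.toReal = ∑ i : Fin N, ‖∑ n ∈ range D, c n *
      itv (fun i j : Fin N => ent T i j) (fun i => x i) n i‖ ^ P.toReal := by
    rw [← Fin.sum_univ_eq_sum_range (fun i => ‖z i‖ ^ P.toReal) N]
    refine sum_congr rfl fun i _ => ?_
    rw [hzi]
    congr 2
    exact sum_congr rfl fun n _ => by rw [(cmp_pow T N x n).1 i]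
  have h5 : ∑ i : Fin N, ‖x i‖ ^ P.toReal ≤ ‖x‖ ^ P.toReal := by
    rw [Fin.sum_univ_eq_sum_range (fun i => ‖x i‖ ^ P.toReal) N]
    exact lp.sum_rpow_le_norm_rpow hp x _
  have h6 : ‖z‖ ^ P.toReal ≤ (C * ‖x‖) ^ P.toReal := by
    rw [h2, h4, Real.mul_rpow hC (norm_nonneg _)]
    exact h3.trans (mul_le_mul_of_nonneg_left h5 (by positivity))
  exact (Real.rpow_le_rpow_iff (norm_nonneg _) (by positivity) hp).1 h6

end operators

end Pool.Agent.Y280
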