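import Pool.Agent.Y280.GCyc

/-!
# Placing a finite matrix far out
-/

set_option autoImplicit false
open Finset Filter Topology
open scoped ENNReal

namespace Pool.Agent.Y280

variable {P : ℝ≥0∞} [hP : Fact (1 ≤ P)]

section tails

lemma norm_split_tail (hPt : P ≠ ∞) (N : ℕ) (x : EP P) :
    ‖x‖ ^ P.toReal = ‖(1 - QP P N) x‖ ^ P.toReal + ‖QP P N x‖ ^ P.toReal := by
  have hp := toReal_pos' hPt
  rw [lp.norm_rpow_eq_tsum hp, lp.norm_rpow_eq_tsum hp, lp.norm_rpow_eq_tsum hp,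
    ← ((lp.memℓp ((1 - QP P N) x)).summable hp).tsum_add ((lp.memℓp (QP P N x)).summable hp)]
  refine tsum_congr fun l => ?_
  rw [one_sub_QP_apply, QP_apply]
  by_cases h : l < N
  · rw [if_pos h, if_neg (by omega), norm_zero, Real.zero_rpow hp.ne', add_zero]
  · rw [if_neg h, if_pos (by omega), norm_zero, Real.zero_rpow hp.ne', zero_add]

lemma QP_QP {k m : ℕ} (h : k ≤ m) (x : EP P) : QP P m (QP P k x) = QP P m x := by
  ext l
  simp only [QP_apply]
  split_ifs <;> first | rfl | omega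

lemma QP_QP' {k m : ℕ} (h : k ≤ m) (x : EP P) : QP P k (QP P m x) = QP P m x := by
  ext l
  simp only [QP_apply]
  split_ifs <;> first | rfl | omega

lemma norm_QP_anti {k m : ℕ} (h : k ≤ m) (x : EP P) : ‖QP P m x‖ ≤ ‖QP P k x‖ := by
  rw [← QP_QP h]
  exact ((QP P m).le_opNorm _).trans (mul_le_of_le_one_left (norm_nonneg _) (QP_norm P m))

end tails

section place

variable {I : Type} [Fintype I] (κ : I → ℕ)

/-- The vector with entries `u` at the places `κ`. -/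
noncomputable def vec (P : ℝ≥0∞) [Fact (1 ≤ P)] (u : I → ℂ) : EP P := ∑ i, u i • eP P (κ i)

/-- The functional with entries `w` at the places `κ`. -/
noncomputable def fnl (P : ℝ≥0∞) [Fact (1 ≤ P)] (w : I → ℂ) : StrongDual ℂ (EP P) :=
  ∑ i, w i • gP P (κ i)

/-- The operator with matrix `A` at the places `κ`. -/
noncomputable def plc (P : ℝ≥0∞) [Fact (1 ≤ P)] (A : I → I → ℂ) : EP P →L[ℂ] EP P :=
  ∑ i, ∑ j, A i j • (gP P (κ j)).smulRight (eP P (κ i))

variable {κ}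

lemma fnl_apply (w : I → ℂ) (x : EP P) : fnl κ P w x = ∑ i, w i * x (κ i) := by
  unfold fnl
  rw [_root_.sum_apply]
  rfl

lemma plc_apply (A : I → I → ℂ) (x : EP P) :
    plc κ P A x = vec κ P (fun i => ∑ j, A i j * x (κ j)) := by
  unfold plc vec
  rw [_root_.sum_apply]
  refine sum_congr rfl fun i _ => ?_
  rw [_root_.sum_apply, sum_smul]
  refine sum_congr rfl fun j _ => ?_
  rw [_root_.smul_apply, ContinuousLinearMap.smulRight_apply, gP_apply, smul_smul]

lemma vec_coord (hκ : Function.Injective κ) (u : I → ℂ) (i : I) : vec κ P u (κ i) = u i := by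
  unfold vec
  rw [lp.coeFn_sum, Finset.sum_apply, sum_eq_single i]
  · rw [lp.coeFn_smul, Pi.smul_apply, eP_apply, if_pos rfl, smul_eq_mul, mul_one]
  · intro b _ hb
    rw [lp.coeFn_smul, Pi.smul_apply, eP_apply, if_neg (fun h => hb (hκ h).symm), smul_zero]
  · intro h
    exact absurd (mem_univ _) h

lemma vec_coord_ne (u : I → ℂ) (l : ℕ) (hl : ∀ i, κ i ≠ l) : vec κ P u l = 0 := by
  unfold vec
  rw [lp.coeFn_sum, Finset.sum_apply]
  refine sum_eq_zero fun i _ => ?_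
  rw [lp.coeFn_smul, Pi.smul_apply, eP_apply, if_neg (fun h => hl i h.symm), smul_zero]

lemma norm_vec (hPt : P ≠ ∞) (hκ : Function.Injective κ) (u : I → ℂ) :
    ‖vec κ P u‖ ^ P.toReal = ∑ i, ‖u i‖ ^ P.toReal := by
  classical
  have hp := toReal_pos' hPt
  rw [lp.norm_rpow_eq_tsum hp, tsum_eq_sum (s := univ.image κ)]
  · rw [sum_image fun a _ b _ h => hκ h]
    exact sum_congr rfl fun i _ => by rw [vec_coord hκ]
  · intro l hl
    rw [vec_coord_ne, norm_zero, Real.zero_rpow hp.ne']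
    intro i hi
    exact hl (mem_image.2 ⟨i, mem_univ _, hi⟩)

lemma sum_coord_le (hPt : P ≠ ∞) (hκ : Function.Injective κ) (x : EP P) :
    ∑ i, ‖x (κ i)‖ ^ P.toReal ≤ ‖x‖ ^ P.toReal := by
  classical
  have hp := toReal_pos' hPt
  have h := lp.sum_rpow_le_norm_rpow hp x (univ.image κ)
  rwa [sum_image fun a _ b _ h => hκ h] at h

lemma QP_vec {m : ℕ} (hm : ∀ i, m ≤ κ i) (u : I → ℂ) : QP P m (vec κ P u) = vec κ P u := by
  unfold vec
  rw [map_sum]
  exact sum_congr rfl fun i _ => by rw [map_smul, QP_eP _ _ _ (hm i)]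

lemma fnl_QP {m : ℕ} (hm : ∀ i, m ≤ κ i) (w : I → ℂ) (x : EP P) :
    fnl κ P w (QP P m x) = fnl κ P w x := by
  rw [fnl_apply, fnl_apply]
  exact sum_congr rfl fun i _ => by rw [QP_apply, if_pos (hm i)]

lemma plc_QP {m : ℕ} (hm : ∀ i, m ≤ κ i) (A : I → I → ℂ) (x : EP P) :
    plc κ P A (QP P m x) = plc κ P A x := by
  rw [plc_apply, plc_apply]
  congr 1
  funext i
  exact sum_congr rfl fun j _ => by rw [QP_apply, if_pos (hm j)]

lemma QP_plc {m : ℕ} (hm : ∀ i, m ≤ κ i) (A : I → I → ℂ) (x : EP P) :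
    QP P m (plc κ P A x) = plc κ P A x := by
  rw [plc_apply, QP_vec hm]

lemma fnl_vec (hκ : Function.Injective κ) (w u : I → ℂ) :
    fnl κ P w (vec κ P u) = ∑ i, w i * u i := by
  rw [fnl_apply]
  exact sum_congr rfl fun i _ => by rw [vec_coord hκ]

lemma plc_vec (hκ : Function.Injective κ) (A : I → I → ℂ) (u : I → ℂ) (n : ℕ) :
    (plc κ P A ^ n) (vec κ P u) = vec κ P (itv A u n) := by
  induction n with
  | zero => rw [pow_zero, one_apply_eq_self]; rfl
  | succ n ih =>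
    rw [pow_succ', mul_apply_eq_comp, ih, plc_apply]
    congr 1
    funext i
    simp only [itv]
    exact sum_congr rfl fun j _ => by rw [vec_coord hκ]

lemma norm_plc_le (hPt : P ≠ ∞) (hκ : Function.Injective κ) {m : ℕ} (hm : ∀ i, m ≤ κ i)
    {A : I → I → ℂ} (hA : ContrM P.toReal A) (x : EP P) : ‖plc κ P A x‖ ≤ ‖QP P m x‖ := by
  have hp := toReal_pos' hPt
  rw [← plc_QP hm, plc_apply]
  have h1 : ‖vec κ P (fun i => ∑ j, A i j * (QP P m x) (κ j))‖ ^ P.toReal ≤
      ‖QP P m x‖ ^ P.toReal := by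
    rw [norm_vec hPt hκ]
    exact (hA fun j => (QP P m x) (κ j)).trans (sum_coord_le hPt hκ (QP P m x))
  exact (Real.rpow_le_rpow_iff (norm_nonneg _) (norm_nonneg _) hp).1 h1

lemma norm_plc_le' (hPt : P ≠ ∞) (hκ : Function.Injective κ)
    {A : I → I → ℂ} (hA : ContrM P.toReal A) : ‖plc κ P A‖ ≤ 1 := by
  refine ContinuousLinearMap.opNorm_le_bound _ zero_le_one fun x => ?_
  rw [one_mul]
  refine (norm_plc_le hPt hκ (m := 0) (fun _ => Nat.zero_le _) hA x).trans ?_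
  exact ((QP P 0).le_opNorm x).trans (mul_le_of_le_one_left (norm_nonneg _) (QP_norm P 0))

lemma norm_fnl_le (hP1 : 1 < P) (hPt : P ≠ ∞) {q : ℝ} (hq : P.toReal.HolderConjugate q)
    (hκ : Function.Injective κ) (w : I → ℂ) :
    ‖fnl κ P w‖ ≤ (∑ i, ‖w i‖ ^ q) ^ (1 / q) := by
  have hp := toReal_pos' hPt
  refine ContinuousLinearMap.opNorm_le_bound _ (by positivity) fun x => ?_
  rw [fnl_apply]
  have h1 : ‖∑ i, w i * x (κ i)‖ ≤ ∑ i, ‖w i‖ * ‖x (κ i)‖ :=
    (norm_sum_le _ _).trans (le_of_eq (sum_congr rfl fun i _ => norm_mul _ _))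
  refine h1.trans ?_
  have h2 := Real.inner_le_Lp_mul_Lq univ (fun i => ‖w i‖) (fun i => ‖x (κ i)‖) hq.symm
  simp only [abs_norm] at h2
  refine h2.trans (mul_le_mul_of_nonneg_left ?_ (by positivity))
  have h4 := Real.rpow_le_rpow (sum_nonneg fun i _ => by positivity) (sum_coord_le hPt hκ x)
    (show 0 ≤ 1 / P.toReal by positivity)
  rwa [← Real.rpow_mul (norm_nonneg _), mul_one_div_cancel hp.ne', Real.rpow_one] at h4

lemma norm_vec_le (hPt : P ≠ ∞) (hκ : Function.Injective κ) {u : I → ℂ} {ρ : ℝ}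
    (hu : ∑ i, ‖u i‖ ^ P.toReal ≤ ρ) : ‖vec κ P u‖ ≤ ρ ^ (1 / P.toReal) := by
  have hp := toReal_pos' hPt
  have h1 := norm_vec (P := P) hPt hκ u
  have h2 : ‖vec κ P u‖ = (‖vec κ P u‖ ^ P.toReal) ^ (1 / P.toReal) := by
    rw [← Real.rpow_mul (norm_nonneg _), mul_one_div_cancel hp.ne', Real.rpow_one]
  rw [h2, h1]
  exact Real.rpow_le_rpow (sum_nonneg fun _ _ => by positivity) hu (by positivity)

end place

section sum

variable {I : Type} [Fintype I] {κ : I → ℕ} {A : I → I → ℂ} {T0 : EP P →L[ℂ] EP P} {N m : ℕ}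
  {s : ℝ}

/-- Powers of a finite matrix do not see the tail. -/
lemma fin_pow_supp (hT0 : cmp T0 N = T0) (x : EP P) (n : ℕ) :
    QP P N ((T0 ^ n) ((1 - QP P N) x)) = 0 := by
  cases n with
  | zero =>
    rw [pow_zero, one_apply_eq_self]
    ext l
    rw [QP_apply, one_sub_QP_apply, lp.coeFn_zero, Pi.zero_apply]
    split_ifs <;> first | rfl | omega
  | succ n =>
    rw [pow_succ', mul_apply_eq_comp, ← hT0]
    ext l
    show (QP P N ((1 - QP P N) _)) l = _
    rw [QP_apply, one_sub_QP_apply, lp.coeFn_zero, Pi.zero_apply]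
    split_ifs <;> first | rfl | omega

lemma fin_QP (hT0 : cmp T0 N = T0) (x : EP P) : T0 (QP P N x) = 0 := by
  rw [← hT0]
  show (1 - QP P N) (T0 ((1 - QP P N) (QP P N x))) = 0
  have e : (1 - QP P N) (QP P N x) = 0 := by
    rw [_root_.sub_apply, one_apply_eq_self, QP_QP le_rfl, sub_self]
  rw [e, map_zero, map_zero]

lemma plc_of_QP_zero (hm : ∀ i, N ≤ κ i) {z : EP P} (hz : QP P N z = 0) :
    plc κ P A z = 0 := by
  rw [← plc_QP hm, hz, map_zero]

/-- Powers of `T0 + s • plc`. -/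
lemma pow_sum (hT0 : cmp T0 N = T0) (hN : ∀ i, N ≤ κ i) (x : EP P) (n : ℕ) :
    ((T0 + (s : ℂ) • plc κ P A) ^ n) x =
      (T0 ^ n) ((1 - QP P N) x) + (s : ℂ) ^ n • (plc κ P A ^ n) (QP P N x) := by
  induction n with
  | zero =>
    rw [pow_zero, pow_zero, pow_zero, pow_zero, one_smul, one_apply_eq_self, one_apply_eq_self,
      one_apply_eq_self, _root_.sub_apply, one_apply_eq_self]
    abel
  | succ n ih =>
    rw [pow_succ', mul_apply_eq_comp, ih, map_add, map_smul]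
    simp only [_root_.add_apply, _root_.smul_apply]
    have h1 : QP P N ((plc κ P A ^ n) (QP P N x)) = (plc κ P A ^ n) (QP P N x) := by
      cases n with
      | zero => rw [pow_zero, one_apply_eq_self, QP_QP le_rfl]
      | succ n => rw [pow_succ', mul_apply_eq_comp, QP_plc hN]
    have h2 : T0 ((plc κ P A ^ n) (QP P N x)) = 0 := by
      rw [← h1]
      exact fin_QP hT0 _
    have h3 : plc κ P A ((T0 ^ n) ((1 - QP P N) x)) = 0 :=
      plc_of_QP_zero hN (fin_pow_supp hT0 x n)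
    rw [h2, h3, smul_zero, add_zero, zero_add, pow_succ' T0, mul_apply_eq_comp,
      pow_succ' (plc κ P A), mul_apply_eq_comp, smul_smul, ← pow_succ]

lemma norm_sum_le' (hPt : P ≠ ∞) (hκ : Function.Injective κ) (hA : ContrM P.toReal A)
    (hT0 : cmp T0 N = T0) (hN : ∀ i, N ≤ κ i) (hs0 : 0 ≤ s) (hT : ‖T0‖ ≤ s) :
    ‖T0 + (s : ℂ) • plc κ P A‖ ≤ s := by
  have hp := toReal_pos' hPt
  refine ContinuousLinearMap.opNorm_le_bound _ hs0 fun x => ?_
  have h1 : (T0 + (s : ℂ) • plc κ P A) x =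
      T0 ((1 - QP P N) x) + (s : ℂ) • plc κ P A (QP P N x) := by
    have := pow_sum (s := s) (A := A) hT0 hN x 1
    simpa using this
  have h2 : ‖(T0 + (s : ℂ) • plc κ P A) x‖ ^ P.toReal ≤ (s * ‖x‖) ^ P.toReal := by
    rw [norm_split_tail hPt N ((T0 + (s : ℂ) • plc κ P A) x)]
    have e0 := fin_pow_supp hT0 x 1
    rw [pow_one] at e0
    have e1 : QP P N ((T0 + (s : ℂ) • plc κ P A) x) = (s : ℂ) • plc κ P A (QP P N x) := by
      rw [h1, map_add, e0, zero_add, map_smul, QP_plc hN]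
    have e2 : (1 - QP P N) ((T0 + (s : ℂ) • plc κ P A) x) = T0 ((1 - QP P N) x) := by
      rw [_root_.sub_apply, one_apply_eq_self, e1, h1]
      abel
    rw [e1, e2, Real.mul_rpow hs0 (norm_nonneg _), norm_split_tail hPt N x, mul_add]
    refine add_le_add ?_ ?_
    · rw [← Real.mul_rpow hs0 (norm_nonneg _)]
      refine Real.rpow_le_rpow (norm_nonneg _) ?_ hp.le
      exact (T0.le_opNorm _).trans (mul_le_mul_of_nonneg_right hT (norm_nonneg _))
    · rw [← Real.mul_rpow hs0 (norm_nonneg _)]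
      refine Real.rpow_le_rpow (norm_nonneg _) ?_ hp.le
      rw [norm_smul, Complex.norm_real, Real.norm_of_nonneg hs0]
      refine mul_le_mul_of_nonneg_left ?_ hs0
      refine (norm_plc_le hPt hκ hN hA _).trans_eq ?_
      rw [QP_QP le_rfl]
  exact (Real.rpow_le_rpow_iff (norm_nonneg _) (by positivity) hp).1 h2

/-- **Estimate for the new pair of vectors.** -/
lemma place_term (hP1 : 1 < P) (hPt : P ≠ ∞) (hκ : Function.Injective κ)
    (hA : ContrM P.toReal A) (hT0 : cmp T0 N = T0) (hNm : N ≤ m) (hm : ∀ i, m ≤ κ i)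
    (hs0 : 0 ≤ s) (x : EP P) (y : StrongDual ℂ (EP P)) (u w : I → ℂ) (n : ℕ) :
    ‖(y - fnl κ P w) (((T0 + (s : ℂ) • plc κ P A) ^ n) (x + vec κ P u))‖ ≤
      ‖y ((T0 ^ n) x) - (s : ℂ) ^ n * ∑ i, w i * itv A u n i‖ +
      s ^ n * (‖y‖ * ‖QP P m x‖ + ‖y.comp (QP P m)‖ * ‖vec κ P u‖ +
        ‖fnl κ P w‖ * ‖QP P m x‖) := by
  have hp := toReal_pos' hPt
  have hN : ∀ i, N ≤ κ i := fun i => hNm.trans (hm i)
  have hcontr := norm_plc_le' (P := P) hPt hκ hA
  -- the vector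
  have e1 : ((T0 + (s : ℂ) • plc κ P A) ^ n) (x + vec κ P u) =
      (T0 ^ n) ((1 - QP P N) x) + (s : ℂ) ^ n • ((plc κ P A ^ n) (QP P N x) +
        vec κ P (itv A u n)) := by
    rw [pow_sum hT0 hN]
    have h1 : (1 - QP P N) (x + vec κ P u) = (1 - QP P N) x := by
      rw [map_add, _root_.sub_apply (f := (1 : EP P →L[ℂ] EP P)) (x := vec κ P u),
        one_apply_eq_self, QP_vec hN, sub_self, add_zero]
    have h2 : QP P N (x + vec κ P u) = QP P N x + vec κ P u := by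
      rw [map_add, QP_vec hN]
    rw [h1, h2, map_add, plc_vec hκ]
  -- the norm of the powers
  have hpl : ∀ n : ℕ, 1 ≤ n → ‖(plc κ P A ^ n) (QP P N x)‖ ≤ ‖QP P m x‖ := by
    intro n hn
    obtain ⟨k, rfl⟩ : ∃ k, n = k + 1 := ⟨n - 1, by omega⟩
    rw [pow_succ, mul_apply_eq_comp]
    have h1 := norm_pow_le zero_le_one hcontr k (plc κ P A (QP P N x))
    rw [one_pow, one_mul] at h1
    refine h1.trans ((norm_plc_le hPt hκ hm hA _).trans_eq ?_)
    rw [QP_QP hNm]
  have hv : ‖y (vec κ P (itv A u n))‖ ≤ ‖y.comp (QP P m)‖ * ‖vec κ P u‖ := by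
    have h1 : y (vec κ P (itv A u n)) = (y.comp (QP P m)) (vec κ P (itv A u n)) := by
      rw [ContinuousLinearMap.comp_apply, QP_vec hm]
    rw [h1]
    refine ((y.comp (QP P m)).le_opNorm _).trans (mul_le_mul_of_nonneg_left ?_ (norm_nonneg _))
    have h2 : ‖vec κ P (itv A u n)‖ ^ P.toReal ≤ ‖vec κ P u‖ ^ P.toReal := by
      rw [norm_vec hPt hκ, norm_vec hPt hκ]
      exact itv_contr hA u n
    exact (Real.rpow_le_rpow_iff (norm_nonneg _) (norm_nonneg _) hp).1 h2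
  have hfn : ‖fnl κ P w ((plc κ P A ^ n) (QP P N x))‖ ≤ ‖fnl κ P w‖ * ‖QP P m x‖ := by
    rcases Nat.eq_zero_or_pos n with h0 | h0
    · subst h0
      rw [pow_zero, one_apply_eq_self, ← fnl_QP hm, QP_QP hNm]
      exact (fnl κ P w).le_opNorm _
    · exact ((fnl κ P w).le_opNorm _).trans
        (mul_le_mul_of_nonneg_left (hpl n h0) (norm_nonneg _))
  have hf0 : fnl κ P w ((T0 ^ n) ((1 - QP P N) x)) = 0 := by
    rw [← fnl_QP hN, fin_pow_supp hT0, map_zero]
  have hfv : fnl κ P w (vec κ P (itv A u n)) = ∑ i, w i * itv A u n i := fnl_vec hκ _ _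
  have hsn : ‖(s : ℂ) ^ n‖ = s ^ n := by
    rw [norm_pow, Complex.norm_real, Real.norm_of_nonneg hs0]
  set B := ∑ i, w i * itv A u n i with hB
  have hval : (y - fnl κ P w) (((T0 + (s : ℂ) • plc κ P A) ^ n) (x + vec κ P u)) =
      y ((T0 ^ n) ((1 - QP P N) x)) + (s : ℂ) ^ n * (y ((plc κ P A ^ n) (QP P N x)) +
        y (vec κ P (itv A u n)) - fnl κ P w ((plc κ P A ^ n) (QP P N x)) - B) := by
    rw [e1, _root_.sub_apply, map_add, map_add, hf0, map_smul, map_smul, map_add, map_add, hfv,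
      smul_eq_mul, smul_eq_mul]
    ring
  rw [hval]
  rcases Nat.eq_zero_or_pos n with h0 | h0
  · subst h0
    have e2 : y ((T0 ^ 0) ((1 - QP P N) x)) + (s : ℂ) ^ 0 * (y ((plc κ P A ^ 0) (QP P N x)) +
        y (vec κ P (itv A u 0)) - fnl κ P w ((plc κ P A ^ 0) (QP P N x)) - B) =
        (y ((T0 ^ 0) x) - (s : ℂ) ^ 0 * B) + (s : ℂ) ^ 0 * (y (vec κ P (itv A u 0)) -
          fnl κ P w ((plc κ P A ^ 0) (QP P N x))) := by
      simp only [pow_zero, one_apply_eq_self, one_mul, _root_.sub_apply, map_sub]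
      ring
    rw [e2]
    refine (norm_add_le _ _).trans (add_le_add le_rfl ?_)
    rw [norm_mul, hsn]
    refine mul_le_mul_of_nonneg_left ?_ (by positivity)
    refine (norm_sub_le _ _).trans ?_
    have : 0 ≤ ‖y‖ * ‖QP P m x‖ := by positivity
    linarith
  · have h4 : (T0 ^ n) ((1 - QP P N) x) = (T0 ^ n) x := by
      obtain ⟨k, rfl⟩ : ∃ k, n = k + 1 := ⟨n - 1, by omega⟩
      rw [pow_succ, mul_apply_eq_comp, mul_apply_eq_comp]
      congr 1
      rw [_root_.sub_apply, one_apply_eq_self, map_sub, fin_QP hT0, sub_zero]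
    rw [h4]
    have e2 : y ((T0 ^ n) x) + (s : ℂ) ^ n * (y ((plc κ P A ^ n) (QP P N x)) +
        y (vec κ P (itv A u n)) - fnl κ P w ((plc κ P A ^ n) (QP P N x)) - B) =
        (y ((T0 ^ n) x) - (s : ℂ) ^ n * B) + (s : ℂ) ^ n * ((y ((plc κ P A ^ n) (QP P N x)) +
        y (vec κ P (itv A u n))) - fnl κ P w ((plc κ P A ^ n) (QP P N x))) := by ring
    rw [e2]
    refine (norm_add_le _ _).trans (add_le_add le_rfl ?_)
    rw [norm_mul, hsn]
    refine mul_le_mul_of_nonneg_left ?_ (by positivity)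
    refine (norm_sub_le _ _).trans (add_le_add ((norm_add_le _ _).trans (add_le_add ?_ hv)) hfn)
    exact (y.le_opNorm _).trans (mul_le_mul_of_nonneg_left (hpl n h0) (norm_nonneg _))

end sum

end Pool.Agent.Y280
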