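import Pool.Agent.Y280.GNC

/-!
# Realisation by contraction matrices
-/

set_option autoImplicit false
open Finset Filter Topology
open scoped ENNReal ComplexConjugate

namespace Pool.Agent.Y280

/-- Duality for finite sums. -/
lemma dual_boundF {I : Type} {p q : ℝ} (hpq : p.HolderConjugate q) {K : ℝ}
    (s : Finset I) (v : I → ℂ)
    (h : ∀ w : I → ℂ, ∑ m ∈ s, ‖w m‖ ^ q ≤ 1 → ‖∑ m ∈ s, v m * w m‖ ≤ K) :
    (∑ m ∈ s, ‖v m‖ ^ p) ^ (1 / p) ≤ K := by
  obtain ⟨g, hg, hg'⟩ := (NNReal.isGreatest_Lp s (fun m => ‖v m‖₊) hpq).1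
  have h1 : (∑ m ∈ s, ‖v m‖ ^ p) ^ (1 / p) = ∑ m ∈ s, ‖v m‖ * (g m : ℝ) := by
    have := congrArg (fun x : NNReal => (x : ℝ)) hg'
    push_cast at this
    simpa using this.symm
  rw [h1]
  -- phases
  set w : I → ℂ := fun m => (g m : ℂ) * ((starRingEnd ℂ) (v m) / ‖v m‖) with hw
  have hw1 : ∀ m, ‖w m‖ ≤ g m := by
    intro m
    rw [hw]
    simp only [norm_mul, norm_div, RCLike.norm_conj, Complex.norm_real, norm_norm]
    by_cases hv : ‖v m‖ = 0
    · rw [hv]; simp
    · rw [div_self hv, mul_one]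
      simp
  have hw2 : ∀ m, v m * w m = ((‖v m‖ * (g m : ℝ) : ℝ) : ℂ) := by
    intro m
    rw [hw]
    by_cases hv : v m = 0
    · simp [hv]
    · have hv' : (‖v m‖ : ℂ) ≠ 0 := by
        simpa using hv
      have e : v m * (starRingEnd ℂ) (v m) = (‖v m‖ : ℂ) ^ 2 := by
        rw [Complex.mul_conj, Complex.normSq_eq_norm_sq]; push_cast; ring
      have : v m * ((g m : ℂ) * ((starRingEnd ℂ) (v m) / ‖v m‖)) =
          (g m : ℂ) * (v m * (starRingEnd ℂ) (v m)) / ‖v m‖ := by ring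
      beta_reduce
      rw [this, e]
      push_cast
      field_simp
  have h2 := h w ?_
  · rw [sum_congr rfl fun m _ => hw2 m, ← Complex.ofReal_sum, Complex.norm_real] at h2
    exact (le_abs_self _).trans h2
  · have hg1 : ∑ m ∈ s, (g m : ℝ) ^ q ≤ 1 := by
      have : (∑ m ∈ s, (g m) ^ q) ≤ 1 := hg
      exact_mod_cast this
    refine le_trans (sum_le_sum fun m _ => ?_) hg1
    exact Real.rpow_le_rpow (norm_nonneg _) (hw1 m) hpq.symm.nonneg

lemma sum_scaleF {p s : ℝ} (hp : 0 < p) (hs : 0 ≤ s) {I : Type} [Fintype I] (u : I → ℂ) :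
    ∑ b, ‖((s ^ (1 / p) : ℝ) : ℂ) * u b‖ ^ p = s * ∑ b, ‖u b‖ ^ p := by
  rw [mul_sum]
  refine sum_congr rfl fun b _ => ?_
  rw [norm_mul, Complex.norm_real, Real.norm_of_nonneg (by positivity),
    Real.mul_rpow (by positivity) (norm_nonneg _), ← Real.rpow_mul hs,
    one_div_mul_cancel hp.ne', Real.rpow_one]

/-- The set of the sequences `⟨A ^ n u, w⟩`. -/
def WC (p q : ℝ) (D : ℕ) : Set (Fin D → ℂ) :=
  {a | ∃ (I : Type) (_ : Fintype I) (A : I → I → ℂ) (u w : I → ℂ), ContrM p A ∧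
    ∑ i, ‖u i‖ ^ p ≤ 1 ∧ ∑ i, ‖w i‖ ^ q ≤ 1 ∧ ∀ n : Fin D, a n = ∑ i, w i * itv A u n i}

lemma WC_convex {p q : ℝ} (hpq : p.HolderConjugate q) (D : ℕ) : Convex ℝ (WC p q D) := by
  rintro a ⟨I, _, A, u, w, hA, hu, hw, ha⟩ a' ⟨J, _, A', u', w', hA', hu', hw', ha'⟩ s t hs ht hst
  refine ⟨I ⊕ J, inferInstance, bd A A',
    Sum.elim (fun b => ((s ^ (1 / p) : ℝ) : ℂ) * u b) (fun b => ((t ^ (1 / p) : ℝ) : ℂ) * u' b),
    Sum.elim (fun b => ((s ^ (1 / q) : ℝ) : ℂ) * w b) (fun b => ((t ^ (1 / q) : ℝ) : ℂ) * w' b),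
    hA.bd hA', ?_, ?_, ?_⟩
  · rw [Fintype.sum_sum_type]
    simp only [Sum.elim_inl, Sum.elim_inr]
    rw [sum_scaleF hpq.pos hs, sum_scaleF hpq.pos ht]
    nlinarith
  · rw [Fintype.sum_sum_type]
    simp only [Sum.elim_inl, Sum.elim_inr]
    rw [sum_scaleF hpq.symm.pos hs, sum_scaleF hpq.symm.pos ht]
    nlinarith
  · intro n
    rw [Fintype.sum_sum_type]
    simp only [Sum.elim_inl, Sum.elim_inr]
    have e1 : ∀ i, ((s ^ (1 / q) : ℝ) : ℂ) * w i * itv (bd A A')
        (Sum.elim (fun b => ((s ^ (1 / p) : ℝ) : ℂ) * u b)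
          (fun b => ((t ^ (1 / p) : ℝ) : ℂ) * u' b)) n (.inl i) =
        (s : ℂ) * (w i * itv A u n i) := by
      intro i
      rw [(itv_bd A A' _ _ n).1, itv_smul, ← scale_mul hpq hs]
      ring
    have e2 : ∀ i, ((t ^ (1 / q) : ℝ) : ℂ) * w' i * itv (bd A A')
        (Sum.elim (fun b => ((s ^ (1 / p) : ℝ) : ℂ) * u b)
          (fun b => ((t ^ (1 / p) : ℝ) : ℂ) * u' b)) n (.inr i) =
        (t : ℂ) * (w' i * itv A' u' n i) := by
      intro i
      rw [(itv_bd A A' _ _ n).2, itv_smul, ← scale_mul hpq ht]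
      ring
    rw [sum_congr rfl fun i _ => e1 i, sum_congr rfl fun i _ => e2 i, ← mul_sum, ← mul_sum,
      ← ha, ← ha']
    simp

/-- **Realisation lemma.** -/
theorem realiseC {p q : ℝ} (hpq : p.HolderConjugate q) {D : ℕ} {ρ : ℝ} (hρ : 0 < ρ) (a : ℕ → ℂ)
    (h : ∀ (c : ℕ → ℂ) (C : ℝ), 0 ≤ C → NC p D c C → ‖∑ n ∈ range D, c n * a n‖ ≤ ρ * C)
    {ε : ℝ} (hε : 0 < ε) :
    ∃ (I : Type) (_ : Fintype I) (A : I → I → ℂ) (u w : I → ℂ), ContrM p A ∧
      ∑ i, ‖u i‖ ^ p ≤ ρ ∧ ∑ i, ‖w i‖ ^ q ≤ ρ ∧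
      ∀ n < D, ‖∑ i, w i * itv A u n i - a n‖ < ε := by
  have hmem : (fun n : Fin D => a n / (ρ : ℂ)) ∈ closure (WC p q D) := by
    by_contra hc
    obtain ⟨f, s, hf, hs⟩ := RCLike.geometric_hahn_banach_closed_point (𝕜 := ℂ)
      (WC_convex hpq D).closure isClosed_closure hc
    set d : ℕ → ℂ := fun n => if hn : n < D then f (Pi.single ⟨n, hn⟩ 1) else 0 with hd
    have hfd : ∀ a : ℕ → ℂ, f (fun n : Fin D => a n) = ∑ n ∈ range D, d n * a n := by
      intro a
      rw [← Fin.sum_univ_eq_sum_range (fun n => d n * a n) D]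
      have : (fun n : Fin D => a n) = ∑ n : Fin D, a n • (Pi.single n (1 : ℂ) : Fin D → ℂ) := by
        ext i
        simp [Finset.sum_apply, Pi.single_apply]
      rw [this, map_sum]
      refine sum_congr rfl fun n _ => ?_
      rw [map_smul, hd]
      simp [mul_comm]
    have hzero : (0 : Fin D → ℂ) ∈ closure (WC p q D) := by
      apply subset_closure
      exact ⟨Empty, inferInstance, fun b => b.elim, fun b => b.elim, fun b => b.elim,
        by intro x; simp, by simp, by simp, by simp⟩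
    have hs0 : 0 < s := by
      have := hf 0 hzero
      simpa using this
    -- single matrices
    have hsb : ∀ (I : Type) [Fintype I] (A : I → I → ℂ) (u w : I → ℂ), ContrM p A →
        ∑ i, ‖u i‖ ^ p ≤ 1 → ∑ i, ‖w i‖ ^ q ≤ 1 →
        ‖∑ n ∈ range D, d n * ∑ i, w i * itv A u n i‖ ≤ s := by
      intro I _ A u w hA hu hw
      obtain ⟨θ, hθ, hθ'⟩ : ∃ θ : ℂ, ‖θ‖ = 1 ∧
          θ * (∑ n ∈ range D, d n * ∑ i, w i * itv A u n i) =
          (‖∑ n ∈ range D, d n * ∑ i, w i * itv A u n i‖ : ℂ) := by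
        set z := ∑ n ∈ range D, d n * ∑ i, w i * itv A u n i
        by_cases hz : z = 0
        · exact ⟨1, by simp, by simp [hz]⟩
        · refine ⟨(starRingEnd ℂ) z / ‖z‖, ?_, ?_⟩
          · simp [norm_div, hz]
          · have hz' : (‖z‖ : ℂ) ≠ 0 := by simpa using hz
            rw [div_mul_eq_mul_div, mul_comm, Complex.mul_conj, Complex.normSq_eq_norm_sq]
            push_cast
            field_simp
      have h1 := hf (fun n : Fin D => ∑ i, (θ * w i) * itv A u n i) (by
        apply subset_closure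
        refine ⟨I, inferInstance, A, u, fun i => θ * w i, hA, hu, ?_, fun n => rfl⟩
        simpa [norm_mul, hθ] using hw)
      rw [hfd (fun n => ∑ i, (θ * w i) * itv A u n i)] at h1
      have h2 : ∑ n ∈ range D, d n * ∑ i, (θ * w i) * itv A u n i =
          θ * ∑ n ∈ range D, d n * ∑ i, w i * itv A u n i := by
        rw [mul_sum]
        refine sum_congr rfl fun n _ => ?_
        rw [mul_sum, mul_sum, mul_sum]
        exact sum_congr rfl fun i _ => by ring
      rw [h2, hθ'] at h1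
      simpa using h1.le
    have hNC : NC p D d s := by
      intro I _ A hA u
      set U := (∑ k, ‖u k‖ ^ p) ^ (1 / p) with hU
      have hSnn : 0 ≤ ∑ k, ‖u k‖ ^ p := sum_nonneg fun i _ => by positivity
      have hUnn : 0 ≤ U := by positivity
      have hUp : U ^ p = ∑ k, ‖u k‖ ^ p := by
        rw [hU, ← Real.rpow_mul hSnn, one_div_mul_cancel hpq.ne_zero, Real.rpow_one]
      rcases hUnn.eq_or_lt with hU0 | hU0
      · -- `u = 0`
        have h1 : ∑ k, ‖u k‖ ^ p = 0 := by
          rw [← hUp, ← hU0, Real.zero_rpow hpq.ne_zero]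
        have h2 : u = fun k => 0 * u k := by
          funext k
          have := (sum_eq_zero_iff_of_nonneg (fun i _ => by positivity)).1 h1 k (mem_univ k)
          rw [Real.rpow_eq_zero (norm_nonneg _) hpq.ne_zero] at this
          rw [zero_mul]
          simpa using this
        rw [h1, mul_zero]
        refine le_of_eq (sum_eq_zero fun i _ => ?_)
        rw [sum_eq_zero, norm_zero, Real.zero_rpow hpq.ne_zero]
        intro n _
        rw [h2, itv_smul, zero_mul, mul_zero]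
      · set u' : I → ℂ := fun k => ((U⁻¹ : ℝ) : ℂ) * u k with hu'
        have h1 : ∑ j, ‖u' j‖ ^ p ≤ 1 := by
          have : ∀ j ∈ univ, ‖u' j‖ ^ p = (U ^ p)⁻¹ * ‖u j‖ ^ p := by
            intro j _
            rw [hu']
            simp only [norm_mul, Complex.norm_real]
            rw [Real.mul_rpow (norm_nonneg _) (norm_nonneg _), Real.norm_of_nonneg (by positivity),
              Real.inv_rpow hUnn]
          rw [sum_congr rfl this, ← mul_sum, ← hUp, inv_mul_cancel₀ (by positivity)]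
        have h2 : (∑ i, ‖∑ n ∈ range D, d n * itv A u' n i‖ ^ p) ^ (1 / p) ≤ s := by
          apply dual_boundF hpq
          intro w hw
          have h3 := hsb I A u' w hA h1 hw
          have e : ∑ i, (∑ n ∈ range D, d n * itv A u' n i) * w i =
              ∑ n ∈ range D, d n * ∑ i, w i * itv A u' n i := by
            simp only [sum_mul, mul_sum]
            rw [sum_comm]
            exact sum_congr rfl fun n _ => sum_congr rfl fun i _ => by ring
          rw [e]
          exact h3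
        have h3 : ∀ i ∈ univ, ‖∑ n ∈ range D, d n * itv A u n i‖ ^ p =
            U ^ p * ‖∑ n ∈ range D, d n * itv A u' n i‖ ^ p := by
          intro i _
          have : ∑ n ∈ range D, d n * itv A u n i =
              (U : ℂ) * ∑ n ∈ range D, d n * itv A u' n i := by
            rw [mul_sum]
            refine sum_congr rfl fun k _ => ?_
            rw [hu', itv_smul]
            have : (U : ℂ) ≠ 0 := by exact_mod_cast hU0.ne'
            push_cast
            field_simp
          rw [this, norm_mul, Complex.norm_real, Real.norm_of_nonneg hUnn,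
            Real.mul_rpow hUnn (norm_nonneg _)]
        have h4 : ∑ i, ‖∑ n ∈ range D, d n * itv A u' n i‖ ^ p ≤ s ^ p := by
          have h5 := Real.rpow_le_rpow (by positivity) h2 hpq.nonneg
          rwa [← Real.rpow_mul (sum_nonneg fun _ _ => by positivity),
            one_div_mul_cancel hpq.ne_zero, Real.rpow_one] at h5
        rw [sum_congr rfl h3, ← mul_sum, hUp, mul_comm]
        exact mul_le_mul_of_nonneg_right h4 hSnn
    have h1 := h d s hs0.le hNC
    have h2 : s < ‖(∑ n ∈ range D, d n * a n) / ρ‖ := by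
      have e0 := hfd (fun n => a n / (ρ : ℂ))
      beta_reduce at e0
      rw [e0] at hs
      have e : ∑ n ∈ range D, d n * (a n / (ρ : ℂ)) = (∑ n ∈ range D, d n * a n) / ρ := by
        rw [sum_div]; exact sum_congr rfl fun _ _ => by ring
      rw [e] at hs
      exact hs.trans_le (Complex.re_le_norm _)
    rw [norm_div, Complex.norm_real, Real.norm_of_nonneg hρ.le, lt_div_iff₀ hρ] at h2
    linarith
  obtain ⟨b, ⟨I, hI, A, u, w, hA, hu, hw, hb⟩, hdist⟩ := Metric.mem_closure_iff.1 hmem (ε / ρ)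
    (by positivity)
  refine ⟨I, hI, A, fun j => ((ρ ^ (1 / p) : ℝ) : ℂ) * u j,
    fun j => ((ρ ^ (1 / q) : ℝ) : ℂ) * w j, hA, ?_, ?_, ?_⟩
  · rw [sum_scaleF hpq.pos hρ.le]
    nlinarith
  · rw [sum_scaleF hpq.symm.pos hρ.le]
    nlinarith
  · intro n hn
    have e1 : ∑ i, ((ρ ^ (1 / q) : ℝ) : ℂ) * w i *
        itv A (fun j => ((ρ ^ (1 / p) : ℝ) : ℂ) * u j) n i = (ρ : ℂ) * ∑ i, w i * itv A u n i := by
      rw [mul_sum]
      refine sum_congr rfl fun i _ => ?_
      rw [itv_smul, ← scale_mul hpq hρ.le]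
      ring
    have h1 := (dist_pi_lt_iff (by positivity)).1 hdist ⟨n, hn⟩
    simp only [] at h1
    rw [hb, dist_eq_norm] at h1
    beta_reduce
    rw [e1]
    have h2 : (ρ : ℂ) * ∑ i, w i * itv A u n i - a n =
        -(ρ * (a n / ρ - ∑ i, w i * itv A u n i)) := by
      have : (ρ : ℂ) ≠ 0 := by exact_mod_cast hρ.ne'
      field_simp
      ring
    rw [h2, norm_neg, norm_mul, Complex.norm_real, Real.norm_of_nonneg hρ.le]
    rw [lt_div_iff₀ hρ] at h1
    linarith

end Pool.Agent.Y280
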