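import Pool.Agent.Y280.GDiag
import Pool.Agent.Y280.EllTyp

/-!
# The diagonal coefficients of contractions of `ℓ_p`
-/

set_option autoImplicit false
open Finset Filter Topology
open scoped ENNReal ComplexConjugate

namespace Pool.Agent.Y280

section general

variable {E : Type*} [NormedAddCommGroup E] [NormedSpace ℂ E]

lemma resolvent_series [CompleteSpace E] {S : E →L[ℂ] E} (hS : ‖S‖ ≤ 1) {z : ℂ} (hz : ‖z‖ < 1)
    (e : E) : ∃ W : E, HasSum (fun n : ℕ => z ^ n • (S ^ n) e) W ∧ W = e + z • S W := by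
  have hsum : Summable fun n : ℕ => z ^ n • (S ^ n) e := by
    refine Summable.of_norm_bounded
      ((summable_geometric_of_lt_one (norm_nonneg z) hz).mul_right ‖e‖) fun n => ?_
    rw [norm_smul, norm_pow]
    refine mul_le_mul_of_nonneg_left ?_ (by positivity)
    have := norm_pow_le zero_le_one hS n e
    rwa [one_pow, one_mul] at this
  refine ⟨_, hsum.hasSum, ?_⟩
  set W := ∑' n : ℕ, z ^ n • (S ^ n) e with hW
  have h1 : HasSum (fun n : ℕ => z ^ (n + 1) • (S ^ (n + 1)) e)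
      (W - ∑ i ∈ range 1, z ^ i • (S ^ i) e) :=
    (hasSum_nat_add_iff' 1).2 hsum.hasSum
  have h2 : HasSum (fun n : ℕ => z • S (z ^ n • (S ^ n) e)) (z • S W) :=
    (S.hasSum hsum.hasSum).const_smul z
  have e1 : (fun n : ℕ => z • S (z ^ n • (S ^ n) e)) =
      fun n : ℕ => z ^ (n + 1) • (S ^ (n + 1)) e := by
    funext n
    rw [map_smul, smul_smul, pow_succ' S n, mul_apply_eq_comp, pow_succ']
  rw [e1] at h2
  have h3 := h1.unique h2
  rw [sum_range_one, pow_zero, pow_zero, one_smul, one_apply_eq_self] at h3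
  rw [← h3]
  abel

lemma eq_zero_of_smul {S : E →L[ℂ] E} (hS : ‖S‖ ≤ 1) {z : ℂ} (hz : ‖z‖ < 1) {d : E}
    (h : d = z • S d) : d = 0 := by
  by_contra hd
  have h1 : ‖d‖ ≤ ‖z‖ * ‖d‖ := by
    conv_lhs => rw [h]
    rw [norm_smul]
    refine mul_le_mul_of_nonneg_left ?_ (norm_nonneg _)
    exact (S.le_opNorm d).trans (mul_le_of_le_one_left (norm_nonneg _) hS)
  have h2 : 0 < ‖d‖ := norm_pos_iff.2 hd
  nlinarith

lemma tendsto_comp_apply {S : ℕ → E →L[ℂ] E} (hS : ∀ k, ‖S k‖ ≤ 1) {S1 : E →L[ℂ] E}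
    (h : ∀ x, Tendsto (fun k => S k x) atTop (𝓝 (S1 x))) {z : ℕ → E} {z0 : E}
    (hz : Tendsto z atTop (𝓝 z0)) : Tendsto (fun k => S k (z k)) atTop (𝓝 (S1 z0)) := by
  rw [tendsto_iff_norm_sub_tendsto_zero]
  have h1 : Tendsto (fun k => ‖z k - z0‖ + ‖S k z0 - S1 z0‖) atTop (𝓝 (0 + 0)) :=
    (tendsto_iff_norm_sub_tendsto_zero.1 hz).add (tendsto_iff_norm_sub_tendsto_zero.1 (h z0))
  rw [add_zero] at h1
  refine squeeze_zero (fun _ => norm_nonneg _) (fun k => ?_) h1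
  have e : S k (z k) - S1 z0 = S k (z k - z0) + (S k z0 - S1 z0) := by
    rw [map_sub]; abel
  rw [e]
  refine (norm_add_le _ _).trans (add_le_add ?_ le_rfl)
  exact ((S k).le_opNorm _).trans (mul_le_of_le_one_left (norm_nonneg _) (hS k))

lemma tendsto_pow_apply {S : ℕ → E →L[ℂ] E} (hS : ∀ k, ‖S k‖ ≤ 1) {S1 : E →L[ℂ] E}
    (h : ∀ x, Tendsto (fun k => S k x) atTop (𝓝 (S1 x))) (n : ℕ) (x : E) :
    Tendsto (fun k => (S k ^ n) x) atTop (𝓝 ((S1 ^ n) x)) := by
  induction n with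
  | zero => simpa using tendsto_const_nhds
  | succ n ih =>
    have e : ∀ T : E →L[ℂ] E, (T ^ (n + 1)) x = T ((T ^ n) x) := fun T => by
      rw [pow_succ', mul_apply_eq_comp]
    simp only [e]
    exact tendsto_comp_apply hS h ih

lemma tendsto_dual_comp {S : ℕ → E →L[ℂ] E} (hS : ∀ k, ‖S k‖ ≤ 1) {S1 : E →L[ℂ] E}
    (h : ∀ y : StrongDual ℂ E, Tendsto (fun k => y.comp (S k)) atTop (𝓝 (y.comp S1)))
    {y : ℕ → StrongDual ℂ E} {y0 : StrongDual ℂ E} (hy : Tendsto y atTop (𝓝 y0)) :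
    Tendsto (fun k => (y k).comp (S k)) atTop (𝓝 (y0.comp S1)) := by
  rw [tendsto_iff_norm_sub_tendsto_zero]
  have h1 : Tendsto (fun k => ‖y k - y0‖ + ‖y0.comp (S k) - y0.comp S1‖) atTop (𝓝 (0 + 0)) :=
    (tendsto_iff_norm_sub_tendsto_zero.1 hy).add (tendsto_iff_norm_sub_tendsto_zero.1 (h y0))
  rw [add_zero] at h1
  refine squeeze_zero (fun _ => norm_nonneg _) (fun k => ?_) h1
  have e : (y k).comp (S k) - y0.comp S1 =
      (y k - y0).comp (S k) + (y0.comp (S k) - y0.comp S1) := by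
    rw [ContinuousLinearMap.sub_comp]; abel
  rw [e]
  refine (norm_add_le _ _).trans (add_le_add ?_ le_rfl)
  exact (ContinuousLinearMap.opNorm_comp_le _ _).trans
    (mul_le_of_le_one_right (norm_nonneg _) (hS k))

lemma tendsto_dual_pow {S : ℕ → E →L[ℂ] E} (hS : ∀ k, ‖S k‖ ≤ 1) {S1 : E →L[ℂ] E}
    (h : ∀ y : StrongDual ℂ E, Tendsto (fun k => y.comp (S k)) atTop (𝓝 (y.comp S1)))
    (n : ℕ) {y : ℕ → StrongDual ℂ E} {y0 : StrongDual ℂ E} (hy : Tendsto y atTop (𝓝 y0)) :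
    Tendsto (fun k => (y k).comp (S k ^ n)) atTop (𝓝 (y0.comp (S1 ^ n))) := by
  induction n with
  | zero =>
    have e : ∀ (y : StrongDual ℂ E) (T : E →L[ℂ] E), y.comp (T ^ 0) = y := fun y T => by
      ext x
      simp
    simp only [e]
    exact hy
  | succ n ih =>
    have e : ∀ (y : StrongDual ℂ E) (T : E →L[ℂ] E), y.comp (T ^ (n + 1)) =
        (y.comp (T ^ n)).comp T := fun y T => by
      ext x
      simp only [ContinuousLinearMap.comp_apply]
      rw [pow_succ, mul_apply_eq_comp]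
    simp only [e]
    exact tendsto_dual_comp hS h ih

end general

variable {P : ℝ≥0∞} [hP : Fact (1 ≤ P)]

/-- The coordinate projection. -/
noncomputable def cpr (P : ℝ≥0∞) [Fact (1 ≤ P)] (i : ℕ) : EP P →L[ℂ] EP P :=
  (gP P i).smulRight (eP P i)

lemma cpr_apply (i : ℕ) (x : EP P) (j : ℕ) : cpr P i x j = if j = i then x i else 0 := by
  unfold cpr
  rw [ContinuousLinearMap.smulRight_apply, lp.coeFn_smul, Pi.smul_apply, gP_apply, eP_apply,
    smul_eq_mul]
  split_ifs <;> simp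

lemma one_sub_cpr_apply (i : ℕ) (x : EP P) (j : ℕ) :
    (1 - cpr P i) x j = if j = i then 0 else x j := by
  rw [_root_.sub_apply, one_apply_eq_self, lp.coeFn_sub, Pi.sub_apply, cpr_apply]
  split_ifs with h
  · rw [h, sub_self]
  · rw [sub_zero]

/-- Splitting of the norm at one coordinate. -/
lemma norm_split (hPt : P ≠ ∞) (i : ℕ) (x : EP P) :
    ‖x‖ ^ P.toReal = ‖x i‖ ^ P.toReal + ‖(1 - cpr P i) x‖ ^ P.toReal := by
  have hp := toReal_pos' hPt
  rw [lp.norm_rpow_eq_tsum hp, lp.norm_rpow_eq_tsum hp]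
  have h1 : Summable fun j => ‖x j‖ ^ P.toReal := (lp.memℓp x).summable hp
  rw [h1.tsum_eq_add_tsum_ite i]
  congr 1
  refine tsum_congr fun j => ?_
  rw [one_sub_cpr_apply]
  split_ifs
  · rw [norm_zero, Real.zero_rpow hp.ne']
  · rfl

lemma norm_one_sub_cpr (hPt : P ≠ ∞) (i : ℕ) (x : EP P) : ‖(1 - cpr P i) x‖ ≤ ‖x‖ := by
  have hp := toReal_pos' hPt
  have h := norm_split hPt i x
  have h1 : ‖(1 - cpr P i) x‖ ^ P.toReal ≤ ‖x‖ ^ P.toReal := by
    rw [h]
    have : 0 ≤ ‖x i‖ ^ P.toReal := by positivity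
    linarith
  exact (Real.rpow_le_rpow_iff (norm_nonneg _) (norm_nonneg _) hp).1 h1

/-- The operator with the `i`-th row removed. -/
noncomputable def rowless (i : ℕ) (T : EP P →L[ℂ] EP P) : EP P →L[ℂ] EP P :=
  (1 - cpr P i) * T

lemma rowless_apply (i : ℕ) (T : EP P →L[ℂ] EP P) (x : EP P) :
    rowless i T x = (1 - cpr P i) (T x) := rfl

lemma rowless_coord (i : ℕ) (T : EP P →L[ℂ] EP P) (x : EP P) : rowless i T x i = 0 := by
  rw [rowless_apply, one_sub_cpr_apply, if_pos rfl]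

lemma norm_rowless (hPt : P ≠ ∞) (i : ℕ) {T : EP P →L[ℂ] EP P} {r : ℝ} (hT : ‖T‖ ≤ r) :
    ‖rowless i T‖ ≤ r := by
  refine ContinuousLinearMap.opNorm_le_bound _ ((norm_nonneg _).trans hT) fun x => ?_
  rw [rowless_apply]
  refine (norm_one_sub_cpr hPt i _).trans ((T.le_opNorm x).trans ?_)
  exact mul_le_mul_of_nonneg_right hT (norm_nonneg _)

/-- The renewal coefficients. -/
noncomputable def uh (T : EP P →L[ℂ] EP P) (i : ℕ) : ℕ → ℂ
  | 0 => 0
  | l + 1 => T ((rowless i T ^ l) (eP P i)) i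

/-- The diagonal coefficients. -/
noncomputable def al (T : EP P →L[ℂ] EP P) (i n : ℕ) : ℂ := (T ^ n) (eP P i) i

lemma norm_coord_le (x : EP P) (i : ℕ) : ‖x i‖ ≤ ‖x‖ :=
  lp.norm_apply_le_norm (zero_lt_one.trans_le hP.out).ne' x i

lemma norm_eP (i : ℕ) : ‖eP P i‖ = 1 := by
  unfold eP
  rw [lp.norm_single (zero_lt_one.trans_le hP.out)]
  simp

lemma norm_al_le {T : EP P →L[ℂ] EP P} (hT : ‖T‖ ≤ 1) (i n : ℕ) : ‖al T i n‖ ≤ 1 := by
  refine (norm_coord_le _ _).trans ((norm_pow_le zero_le_one hT n _).trans ?_)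
  rw [one_pow, one_mul, norm_eP]

lemma norm_uh_le (hPt : P ≠ ∞) {T : EP P →L[ℂ] EP P} (hT : ‖T‖ ≤ 1) (i n : ℕ) :
    ‖uh T i n‖ ≤ 1 := by
  cases n with
  | zero =>
    show ‖(0 : ℂ)‖ ≤ 1
    rw [norm_zero]
    exact zero_le_one
  | succ l =>
    refine (norm_coord_le _ _).trans ((T.le_opNorm _).trans ?_)
    have h1 := norm_pow_le zero_le_one (norm_rowless hPt i hT) l (eP P i)
    rw [one_pow, one_mul, norm_eP] at h1
    exact mul_le_one₀ hT (norm_nonneg _) h1

lemma al_zero (T : EP P →L[ℂ] EP P) (i : ℕ) : al T i 0 = 1 := by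
  unfold al
  rw [pow_zero, one_apply_eq_self, eP_apply, if_pos rfl]

lemma norm_sz {s : ℝ} (hs0 : 0 ≤ s) (hs1 : s < 1) (θ : ℝ) : ‖(s : ℂ) * zt θ‖ < 1 := by
  rw [norm_mul, norm_zt, mul_one, Complex.norm_real, Real.norm_of_nonneg hs0]
  exact hs1

lemma renewal (hPt : P ≠ ∞) {T : EP P →L[ℂ] EP P} {r : ℝ} (hr : r ≤ 1) (hT : ‖T‖ ≤ r)
    (i : ℕ) {s : ℝ} (hs0 : 0 ≤ s) (hs1 : s < 1) (θ : ℝ) :
    ps (al T i) s θ * (1 - ps (uh T i) s θ) = 1 ∧ ‖ps (uh T i) s θ‖ ≤ r := by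
  have hp := toReal_pos' hPt
  have hT1 : ‖T‖ ≤ 1 := hT.trans hr
  have hr0 : 0 ≤ r := (norm_nonneg _).trans hT
  set z : ℂ := (s : ℂ) * zt θ with hz
  have hz1 : ‖z‖ < 1 := norm_sz hs0 hs1 θ
  obtain ⟨w, hw, hw'⟩ := resolvent_series hT1 hz1 (eP P i)
  obtain ⟨v, hv, hv'⟩ := resolvent_series (norm_rowless hPt i hT1) hz1 (eP P i)
  -- the coordinates
  have hwi : w i = ps (al T i) s θ := by
    have h1 := (gP P i).hasSum hw
    have h2 := ps_hasSum (norm_al_le hT1 i) hs0 hs1 θ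
    have e1 : (fun n => gP P i (z ^ n • (T ^ n) (eP P i))) = fun n => al T i n * z ^ n := by
      funext n
      rw [map_smul, gP_apply, smul_eq_mul, mul_comm]
      rfl
    rw [e1] at h1
    exact h1.unique h2
  set U : ℂ := z * (T v) i with hU
  have hUi : U = ps (uh T i) s θ := by
    have h1 := (((gP P i).comp T).hasSum hv).mul_left z
    have h2 := ps_hasSum (norm_uh_le hPt hT1 i) hs0 hs1 θ
    have h3 : HasSum (fun n => uh T i (n + 1) * z ^ (n + 1)) (ps (uh T i) s θ) := by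
      have := (hasSum_nat_add_iff' 1).2 h2
      rw [sum_range_one] at this
      simpa [uh] using this
    refine HasSum.unique (f := fun n => uh T i (n + 1) * z ^ (n + 1)) ?_ h3
    have e1 : (fun n => z * ((gP P i).comp T) (z ^ n • (rowless i T ^ n) (eP P i))) =
        fun n => uh T i (n + 1) * z ^ (n + 1) := by
      funext n
      rw [map_smul, ContinuousLinearMap.comp_apply, gP_apply, smul_eq_mul]
      show z * (z ^ n * T ((rowless i T ^ n) (eP P i)) i) = _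
      simp only [uh]
      ring
    rw [e1] at h1
    exact h1
  -- `v_i = 1`
  have hvi : v i = 1 := by
    have h1 : v i = (eP P i + z • rowless i T v) i := by rw [← hv']
    rw [h1, lp.coeFn_add, Pi.add_apply, lp.coeFn_smul, Pi.smul_apply, rowless_coord, eP_apply,
      if_pos rfl, smul_zero, add_zero]
  have hrow : rowless i T v = T v - (T v) i • eP P i := by
    rw [rowless_apply, _root_.sub_apply, one_apply_eq_self]
    rfl
  have hvw : v - (1 - U) • w = 0 := by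
    apply eq_zero_of_smul hT1 hz1
    have e1 : v = (1 - U) • eP P i + z • T v := by
      conv_lhs => rw [hv', hrow]
      rw [smul_sub, smul_smul, sub_smul, one_smul, ← hU]
      abel
    have e2 : (1 - U) • w = (1 - U) • eP P i + z • T ((1 - U) • w) := by
      conv_lhs => rw [hw']
      rw [smul_add, map_smul, smul_comm z]
    rw [map_sub, smul_sub]
    conv_lhs => rw [e1, e2]
    abel
  have hprod : w i * (1 - U) = 1 := by
    have h1 : v = (1 - U) • w := sub_eq_zero.1 hvw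
    rw [h1, lp.coeFn_smul, Pi.smul_apply, smul_eq_mul] at hvi
    rw [mul_comm]
    exact hvi
  refine ⟨by rw [← hwi, ← hUi]; exact hprod, ?_⟩
  rw [← hUi]
  have hwi0 : w i ≠ 0 := by
    intro h
    rw [h, zero_mul] at hprod
    exact zero_ne_one hprod
  have hlt : ‖w i - 1‖ ≤ r * ‖w i‖ := by
    have h1 : ‖w - eP P i‖ ≤ r * ‖w‖ := by
      have : w - eP P i = z • T w := by
        conv_lhs => rw [hw']
        abel
      rw [this, norm_smul]
      calc ‖z‖ * ‖T w‖ ≤ 1 * (r * ‖w‖) :=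
            mul_le_mul hz1.le ((T.le_opNorm w).trans
              (mul_le_mul_of_nonneg_right hT (norm_nonneg _))) (norm_nonneg _) zero_le_one
        _ = r * ‖w‖ := one_mul _
    have h2 : ‖w - eP P i‖ ^ P.toReal ≤ r ^ P.toReal * ‖w‖ ^ P.toReal := by
      rw [← Real.mul_rpow hr0 (norm_nonneg _)]
      exact Real.rpow_le_rpow (norm_nonneg _) h1 hp.le
    rw [norm_split hPt i (w - eP P i), norm_split hPt i w] at h2
    have e1 : (1 - cpr P i) (w - eP P i) = (1 - cpr P i) w := by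
      ext j
      rw [one_sub_cpr_apply, one_sub_cpr_apply, lp.coeFn_sub, Pi.sub_apply, eP_apply]
      split_ifs with hj
      · rfl
      · rw [sub_zero]
    have e2 : (w - eP P i) i = w i - 1 := by
      rw [lp.coeFn_sub, Pi.sub_apply, eP_apply, if_pos rfl]
    rw [e1, e2, mul_add] at h2
    have h3 : r ^ P.toReal * ‖(1 - cpr P i) w‖ ^ P.toReal ≤ ‖(1 - cpr P i) w‖ ^ P.toReal :=
      mul_le_of_le_one_left (by positivity) (Real.rpow_le_one hr0 hr hp.le)
    have h4 : ‖w i - 1‖ ^ P.toReal ≤ (r * ‖w i‖) ^ P.toReal := by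
      rw [Real.mul_rpow hr0 (norm_nonneg _)]
      linarith
    exact (Real.rpow_le_rpow_iff (norm_nonneg _) (by positivity) hp).1 h4
  have h5 : ‖w i‖ * ‖U‖ ≤ ‖w i‖ * r := by
    rw [← norm_mul]
    have : w i * U = w i - 1 := by linear_combination -hprod
    rw [this]
    linarith
  exact le_of_mul_le_mul_left h5 (norm_pos_iff.2 hwi0)

end Pool.Agent.Y280
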