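import Pool.Agent.Y280.GTyp

/-!
# The strong operator topology for `p > 2`
-/

set_option autoImplicit false
open Finset Filter Topology TopologicalSpace
open scoped ENNReal

namespace Pool.Agent.Y280

/-- A point-set lemma on two topologies. -/
lemma residual_transfer {X : Type*} (t t' : TopologicalSpace X) (hle : t' ≤ t)
    (hD : @Dense X t' {x | @nhds X t x ≤ @nhds X t' x}) {s : Set X}
    (hs : s ∈ @residual X t') : s ∈ @residual X t := by
  rw [@mem_residual_iff] at hs ⊢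
  obtain ⟨S, hSo, hSd, hSc, hSs⟩ := hs
  refine ⟨(fun u => @interior X t u) '' S, ?_, ?_, hSc.image _, ?_⟩
  · rintro _ ⟨u, _, rfl⟩
    exact @isOpen_interior X t u
  · rintro _ ⟨u, hu, rfl⟩
    rw [@dense_iff_inter_open X t]
    intro V hV hVne
    have hV' : @IsOpen X t' V := hle V hV
    have h1 : (V ∩ u).Nonempty := (@dense_iff_inter_open X t' u).1 (hSd u hu) V hV' hVne
    have h2 : @IsOpen X t' (V ∩ u) := @IsOpen.inter X t' V u hV' (hSo u hu)
    obtain ⟨x, hx1, hx2⟩ := (@dense_iff_inter_open X t' _).1 hD (V ∩ u) h2 h1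
    refine ⟨x, hx1.1, ?_⟩
    have h3 : u ∈ @nhds X t' x := @IsOpen.mem_nhds X t' x u (hSo u hu) hx1.2
    exact (@mem_interior_iff_mem_nhds X t x u).2 (hx2 h3)
  · intro x hx
    apply hSs
    intro u hu
    have h3 : x ∈ @interior X t u := hx _ ⟨u, hu, rfl⟩
    exact (@interior_subset X t u) h3

lemma mid_rpow {p x y : ℝ} (hp : 1 ≤ p) (hx : 0 ≤ x) (hy : 0 ≤ y) :
    (1 / 2 * x + 1 / 2 * y) ^ p ≤ 1 / 2 * x ^ p + 1 / 2 * y ^ p := by
  have := (convexOn_rpow hp).2 (Set.mem_Ici.2 hx) (Set.mem_Ici.2 hy)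
    (show (0 : ℝ) ≤ 1 / 2 by norm_num) (show (0 : ℝ) ≤ 1 / 2 by norm_num) (by norm_num)
  simpa only [smul_eq_mul] using this

lemma two_point {p : ℝ} (hp : 2 ≤ p) (a b : ℂ) :
    2 * ‖a‖ ^ p + 2 * (‖a‖ ^ (p - 2) * ‖b‖ ^ 2) ≤ ‖a + b‖ ^ p + ‖a - b‖ ^ p := by
  have h1 : ‖a + b‖ ^ 2 + ‖a - b‖ ^ 2 = 2 * (‖a‖ ^ 2 + ‖b‖ ^ 2) := by
    have := parallelogram_law_with_norm ℝ a b
    nlinarith
  have e : ∀ x : ℝ, 0 ≤ x → x ^ p = (x ^ 2) ^ (p / 2) := by
    intro x hx
    rw [← Real.rpow_natCast, ← Real.rpow_mul hx]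
    congr 1
    push_cast
    ring
  have h2 := mid_rpow (x := ‖a + b‖ ^ 2) (y := ‖a - b‖ ^ 2) (show 1 ≤ p / 2 by linarith)
    (by positivity) (by positivity)
  rw [← e _ (norm_nonneg _), ← e _ (norm_nonneg _)] at h2
  have h3 : 1 / 2 * ‖a + b‖ ^ 2 + 1 / 2 * ‖a - b‖ ^ 2 = ‖a‖ ^ 2 + ‖b‖ ^ 2 := by linarith
  rw [h3] at h2
  have h4 : ‖a‖ ^ p + ‖a‖ ^ (p - 2) * ‖b‖ ^ 2 ≤ (‖a‖ ^ 2 + ‖b‖ ^ 2) ^ (p / 2) := by
    have e1 : ‖a‖ ^ p = ‖a‖ ^ (p - 2) * ‖a‖ ^ 2 := by
      rw [← Real.rpow_natCast ‖a‖ 2, ← Real.rpow_add_of_nonneg (norm_nonneg _) (by linarith)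
        (by norm_num)]
      congr 1
      push_cast
      ring
    have e2 : (‖a‖ ^ 2 + ‖b‖ ^ 2) ^ (p / 2) =
        (‖a‖ ^ 2 + ‖b‖ ^ 2) ^ (p / 2 - 1) * (‖a‖ ^ 2 + ‖b‖ ^ 2) := by
      conv_rhs => rw [← Real.rpow_one (‖a‖ ^ 2 + ‖b‖ ^ 2)]
      rw [← Real.rpow_mul (by positivity), one_mul, ← Real.rpow_add_of_nonneg (by positivity)
        (by linarith) (by norm_num)]
      congr 1
      ring
    have e3 : ‖a‖ ^ (p - 2) = (‖a‖ ^ 2) ^ (p / 2 - 1) := by
      rw [← Real.rpow_natCast, ← Real.rpow_mul (norm_nonneg _)]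
      congr 1
      push_cast
      ring
    rw [e1, e2, ← mul_add, e3]
    refine mul_le_mul_of_nonneg_right ?_ (by positivity)
    exact Real.rpow_le_rpow (by positivity) (by nlinarith [sq_nonneg ‖b‖]) (by linarith)
  linarith

variable {P : ℝ≥0∞} [hP : Fact (1 ≤ P)]

lemma two_point_norm (hP2 : 2 ≤ P.toReal) (hPt : P ≠ ∞) (i : ℕ) (a b : EP P) :
    2 * ‖a‖ ^ P.toReal + 2 * (‖a i‖ ^ (P.toReal - 2) * ‖b i‖ ^ 2) ≤
      ‖a + b‖ ^ P.toReal + ‖a - b‖ ^ P.toReal := by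
  have hp := toReal_pos' hPt
  rw [norm_split hPt i a, norm_split hPt i (a + b), norm_split hPt i (a - b)]
  have h1 := two_point hP2 (a i) (b i)
  have e1 : (a + b) i = a i + b i := rfl
  have e2 : (a - b) i = a i - b i := rfl
  rw [e1, e2]
  set A := (1 - cpr P i) a with hA
  set B := (1 - cpr P i) b with hB
  have e3 : (1 - cpr P i) (a + b) = A + B := map_add _ _ _
  have e4 : (1 - cpr P i) (a - b) = A - B := map_sub _ _ _
  rw [e3, e4]
  have h2 := mid_rpow (x := ‖A + B‖) (y := ‖A - B‖) (show 1 ≤ P.toReal by linarith)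
    (norm_nonneg _) (norm_nonneg _)
  have h3 : ‖A‖ ≤ 1 / 2 * ‖A + B‖ + 1 / 2 * ‖A - B‖ := by
    have h4 : ‖A + A‖ ≤ ‖A + B‖ + ‖A - B‖ := by
      have e : A + A = (A + B) + (A - B) := by abel
      rw [e]
      exact norm_add_le _ _
    have h5 : ‖A + A‖ = 2 * ‖A‖ := by
      rw [← two_smul ℝ A, norm_smul]
      norm_num
    linarith
  have h4 : ‖A‖ ^ P.toReal ≤ (1 / 2 * ‖A + B‖ + 1 / 2 * ‖A - B‖) ^ P.toReal :=
    Real.rpow_le_rpow (norm_nonneg _) h3 hp.le
  linarith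

lemma norm_fin_add_tail (hPt : P ≠ ∞) {M : ℕ} {v h : EP P} (hv : QP P M v = 0)
    (hh : QP P M h = h) : ‖v + h‖ ^ P.toReal = ‖v‖ ^ P.toReal + ‖h‖ ^ P.toReal := by
  rw [norm_split_tail hPt M (v + h)]
  have e1 : QP P M (v + h) = h := by rw [map_add, hv, hh, zero_add]
  have e2 : (1 - QP P M) (v + h) = v := by
    rw [_root_.sub_apply, one_apply_eq_self, e1, add_sub_cancel_right]
  rw [e1, e2]

/-- Bound for the `i`-th row in the tail. -/
lemma row_tail_bound (hP2 : 2 < P.toReal) (hPt : P ≠ ∞) {T : EP P →L[ℂ] EP P} (hT : ‖T‖ ≤ 1)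
    {M i : ℕ} {v h : EP P} (hv : QP P M v = 0) (hh : QP P M h = h) (hh1 : ‖h‖ ≤ 1) {t : ℝ}
    (ht : 0 < t) : ‖(T v) i‖ ^ (P.toReal - 2) * (t ^ 2 * ‖(T h) i‖ ^ 2) ≤
      ‖v‖ ^ P.toReal - ‖T v‖ ^ P.toReal + t ^ P.toReal := by
  have hp := toReal_pos' hPt
  have h1 := two_point_norm hP2.le hPt i (T v) (T ((t : ℂ) • h))
  have e1 : ‖(T ((t : ℂ) • h)) i‖ ^ 2 = t ^ 2 * ‖(T h) i‖ ^ 2 := by
    rw [map_smul, lp.coeFn_smul, Pi.smul_apply, norm_smul, Complex.norm_real,
      Real.norm_of_nonneg ht.le, mul_pow]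
  rw [e1, ← map_add, ← map_sub] at h1
  have hle : ∀ z : EP P, ‖T z‖ ^ P.toReal ≤ ‖z‖ ^ P.toReal := fun z =>
    Real.rpow_le_rpow (norm_nonneg _) ((T.le_opNorm z).trans
      (mul_le_of_le_one_left (norm_nonneg _) hT)) hp.le
  have hth : ‖(t : ℂ) • h‖ ^ P.toReal ≤ t ^ P.toReal := by
    refine Real.rpow_le_rpow (norm_nonneg _) ?_ hp.le
    rw [norm_smul, Complex.norm_real, Real.norm_of_nonneg ht.le]
    exact mul_le_of_le_one_right ht.le hh1
  have h2 : ‖v + (t : ℂ) • h‖ ^ P.toReal ≤ ‖v‖ ^ P.toReal + t ^ P.toReal := by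
    rw [norm_fin_add_tail hPt hv (by rw [map_smul, hh])]
    linarith
  have h3 : ‖v - (t : ℂ) • h‖ ^ P.toReal ≤ ‖v‖ ^ P.toReal + t ^ P.toReal := by
    rw [sub_eq_add_neg, norm_fin_add_tail hPt hv (by rw [map_neg, map_smul, hh]), norm_neg]
    linarith
  have h4 := hle (v + (t : ℂ) • h)
  have h5 := hle (v - (t : ℂ) • h)
  linarith

lemma row_tail_tendsto (hP2 : 2 < P.toReal) (hPt : P ≠ ∞) {T : ℕ → EP P →L[ℂ] EP P}
    (hT : ∀ k, ‖T k‖ ≤ 1) {T1 : EP P →L[ℂ] EP P}
    (hsot : ∀ x, Tendsto (fun k => T k x) atTop (𝓝 (T1 x))) {M i : ℕ} {v : EP P}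
    (hv : QP P M v = 0) (hvn : ‖T1 v‖ = ‖v‖) (hvi : (T1 v) i ≠ 0) :
    Tendsto (fun k => ((gP P i).comp (T k)).comp (QP P M)) atTop (𝓝 0) := by
  have hp := toReal_pos' hPt
  rw [Metric.tendsto_atTop']
  intro ε hε
  set c : ℝ := ‖(T1 v) i‖ / 2 with hc
  have hc0 : 0 < c := by have := norm_pos_iff.2 hvi; positivity
  -- the parameter `t`
  obtain ⟨t, ht0, ht⟩ : ∃ t : ℝ, 0 < t ∧ 2 * t ^ (P.toReal - 2) < c ^ (P.toReal - 2) * (ε / 2) ^ 2 := by
    have h1 : Tendsto (fun t : ℝ => 2 * t ^ (P.toReal - 2)) (𝓝[>] 0) (𝓝 0) := by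
      have h2 : Continuous fun t : ℝ => 2 * t ^ (P.toReal - 2) :=
        continuous_const.mul (continuous_id.rpow_const fun _ => Or.inr (by linarith))
      have h3 := h2.tendsto 0
      rw [Real.zero_rpow (by linarith), mul_zero] at h3
      exact h3.mono_left nhdsWithin_le_nhds
    obtain ⟨t, h3, h4⟩ := ((h1.eventually (gt_mem_nhds
      (show (0 : ℝ) < c ^ (P.toReal - 2) * (ε / 2) ^ 2 by positivity))).and
      self_mem_nhdsWithin).exists
    exact ⟨t, h4, h3⟩
  have h1 : Tendsto (fun k => ‖v‖ ^ P.toReal - ‖T k v‖ ^ P.toReal) atTop (𝓝 0) := by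
    have h2 := ((hsot v).norm.rpow_const (p := P.toReal) (Or.inr hp.le)).const_sub
      (‖v‖ ^ P.toReal)
    rw [hvn, sub_self] at h2
    exact h2
  have h2 : Tendsto (fun k => ‖(T k v) i‖) atTop (𝓝 ‖(T1 v) i‖) :=
    (((gP P i).continuous.tendsto _).comp (hsot v)).norm
  have h3 := h1.eventually (gt_mem_nhds (show (0 : ℝ) < t ^ P.toReal by positivity))
  have h4 := h2.eventually (lt_mem_nhds (show c < ‖(T1 v) i‖ by rw [hc] at hc0 ⊢; linarith))
  obtain ⟨K, hK⟩ := eventually_atTop.1 (h3.and h4)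
  refine ⟨K, fun k hk => ?_⟩
  obtain ⟨h5, h6⟩ := hK k (le_of_lt hk)
  rw [dist_zero_right]
  have hunit : ∀ h : EP P, QP P M h = h → ‖h‖ ≤ 1 → ‖(T k h) i‖ ≤ ε / 2 := by
    intro h hh hh1
    have h7 := row_tail_bound hP2 hPt (hT k) (i := i) hv hh hh1 ht0
    have h8 : c ^ (P.toReal - 2) * (t ^ 2 * ‖(T k h) i‖ ^ 2) ≤
        ‖(T k v) i‖ ^ (P.toReal - 2) * (t ^ 2 * ‖(T k h) i‖ ^ 2) :=
      mul_le_mul_of_nonneg_right (Real.rpow_le_rpow hc0.le h6.le (by linarith)) (by positivity)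
    have h9 : t ^ P.toReal = t ^ (P.toReal - 2) * t ^ 2 := by
      rw [← Real.rpow_natCast t 2, ← Real.rpow_add ht0]
      congr 1
      push_cast
      ring
    have h10 : (c ^ (P.toReal - 2) * ‖(T k h) i‖ ^ 2) * t ^ 2 ≤
        (2 * t ^ (P.toReal - 2)) * t ^ 2 := by
      have : c ^ (P.toReal - 2) * (t ^ 2 * ‖(T k h) i‖ ^ 2) ≤ t ^ P.toReal + t ^ P.toReal := by
        linarith
      rw [h9] at this
      linarith
    have h11 := le_of_mul_le_mul_right h10 (by positivity)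
    have h12 : c ^ (P.toReal - 2) * ‖(T k h) i‖ ^ 2 ≤ c ^ (P.toReal - 2) * (ε / 2) ^ 2 :=
      h11.trans ht.le
    have h13 := le_of_mul_le_mul_left h12 (by positivity)
    exact (sq_le_sq₀ (norm_nonneg _) (by positivity)).1 h13
  refine lt_of_le_of_lt (ContinuousLinearMap.opNorm_le_bound _ (show 0 ≤ ε / 2 by positivity)
    fun x => ?_) (by linarith)
  rw [ContinuousLinearMap.comp_apply, ContinuousLinearMap.comp_apply, gP_apply]
  rcases eq_or_ne x 0 with rfl | hx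
  · simp
  · have hx0 : 0 < ‖x‖ := norm_pos_iff.2 hx
    have h7 := hunit (((‖x‖⁻¹ : ℝ) : ℂ) • QP P M x) (by rw [map_smul, QP_QP le_rfl]) (by
      rw [norm_smul, Complex.norm_real, Real.norm_of_nonneg (by positivity),
        inv_mul_le_iff₀ hx0, mul_one]
      exact ((QP P M).le_opNorm x).trans (mul_le_of_le_one_left (norm_nonneg _) (QP_norm P M)))
    rw [map_smul, lp.coeFn_smul, Pi.smul_apply, norm_smul, Complex.norm_real,
      Real.norm_of_nonneg (by positivity), inv_mul_le_iff₀ hx0] at h7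
    linarith

lemma comp_one_sub (f : StrongDual ℂ (EP P)) (M : ℕ) :
    f.comp (1 - QP P M) = ∑ j ∈ range M, f (eP P j) • gP P j := by
  ext x
  rw [ContinuousLinearMap.comp_apply, one_sub_QP, ← sum_smul_eP, map_sum, _root_.sum_apply]
  refine sum_congr rfl fun j _ => ?_
  rw [map_smul, _root_.smul_apply, gP_apply, smul_eq_mul, smul_eq_mul, mul_comm]

lemma comp_one_sub_tendsto {f : ℕ → StrongDual ℂ (EP P)} {f1 : StrongDual ℂ (EP P)}
    (h : ∀ j, Tendsto (fun k => f k (eP P j)) atTop (𝓝 (f1 (eP P j)))) (M : ℕ) :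
    Tendsto (fun k => (f k).comp (1 - QP P M)) atTop (𝓝 (f1.comp (1 - QP P M))) := by
  simp only [comp_one_sub]
  exact tendsto_finsetSum _ fun j _ => (h j).smul_const _

lemma row_tendsto (hP2 : 2 < P.toReal) (hPt : P ≠ ∞) {T : ℕ → EP P →L[ℂ] EP P}
    (hT : ∀ k, ‖T k‖ ≤ 1) {T1 : EP P →L[ℂ] EP P} (hT1 : ‖T1‖ ≤ 1)
    (hsot : ∀ x, Tendsto (fun k => T k x) atTop (𝓝 (T1 x))) {M i : ℕ} {v : EP P}
    (hv : QP P M v = 0) (hvn : ‖T1 v‖ = ‖v‖) (hvi : (T1 v) i ≠ 0) :
    Tendsto (fun k => (gP P i).comp (T k)) atTop (𝓝 ((gP P i).comp T1)) := by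
  have h1 := row_tail_tendsto hP2 hPt hT hsot hv hvn hvi
  have h2 : ((gP P i).comp T1).comp (QP P M) = 0 := by
    have := row_tail_tendsto hP2 hPt (T := fun _ => T1) (fun _ => hT1) (T1 := T1)
      (fun x => tendsto_const_nhds) hv hvn hvi
    exact tendsto_nhds_unique tendsto_const_nhds this
  have h3 : Tendsto (fun k => ((gP P i).comp (T k)).comp (1 - QP P M)) atTop
      (𝓝 (((gP P i).comp T1).comp (1 - QP P M))) :=
    comp_one_sub_tendsto (f := fun k => (gP P i).comp (T k)) (f1 := (gP P i).comp T1)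
      (fun j => ((gP P i).continuous.tendsto (T1 (eP P j))).comp (hsot (eP P j))) M
  have h4 := h3.add h1
  have e : ∀ f : StrongDual ℂ (EP P), f.comp (1 - QP P M) + f.comp (QP P M) = f := by
    intro f
    rw [← ContinuousLinearMap.comp_add, sub_add_cancel]
    ext x
    simp
  simp only [e] at h4
  have e1 := e ((gP P i).comp T1)
  rw [h2, add_zero] at e1
  rw [e1, add_zero] at h4
  exact h4

lemma all_rows (hP1 : 1 < P) (hPt : P ≠ ∞) {T : ℕ → EP P →L[ℂ] EP P}
    (hT : ∀ k, ‖T k‖ ≤ 1) {T1 : EP P →L[ℂ] EP P} (hT1 : ‖T1‖ ≤ 1)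
    (h : ∀ i, Tendsto (fun k => (gP P i).comp (T k)) atTop (𝓝 ((gP P i).comp T1)))
    (y : StrongDual ℂ (EP P)) : Tendsto (fun k => y.comp (T k)) atTop (𝓝 (y.comp T1)) := by
  rw [Metric.tendsto_atTop']
  intro ε hε
  obtain ⟨n, hn⟩ := ((tendsto_zero_iff_norm_tendsto_zero.1 (QPdual_tendsto hP1 hPt y)).eventually
    (gt_mem_nhds (show (0 : ℝ) < ε / 4 by positivity))).exists
  have h1 : Tendsto (fun k => (y.comp (1 - QP P n)).comp (T k)) atTop
      (𝓝 ((y.comp (1 - QP P n)).comp T1)) := by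
    have e : ∀ S : EP P →L[ℂ] EP P, (y.comp (1 - QP P n)).comp S =
        ∑ j ∈ range n, y (eP P j) • (gP P j).comp S := by
      intro S
      rw [comp_one_sub]
      ext x
      simp [_root_.sum_apply]
    simp only [e]
    exact tendsto_finsetSum _ fun j _ => (h j).const_smul _
  obtain ⟨K, hK⟩ := Metric.tendsto_atTop'.1 h1 (ε / 4) (by positivity)
  refine ⟨K, fun k hk => ?_⟩
  have h2 := hK k hk
  rw [dist_eq_norm] at h2 ⊢
  have e : y.comp (T k) - y.comp T1 = ((y.comp (1 - QP P n)).comp (T k) -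
      (y.comp (1 - QP P n)).comp T1) + ((y.comp (QP P n)).comp (T k) -
      (y.comp (QP P n)).comp T1) := by
    ext x
    simp only [_root_.sub_apply, _root_.add_apply, ContinuousLinearMap.comp_apply,
      one_apply_eq_self, map_sub]
    ring
  rw [e]
  refine (norm_add_le _ _).trans_lt ?_
  have h3 : ‖(y.comp (QP P n)).comp (T k) - (y.comp (QP P n)).comp T1‖ ≤
      ‖y.comp (QP P n)‖ + ‖y.comp (QP P n)‖ := by
    refine (norm_sub_le _ _).trans (add_le_add ?_ ?_)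
    · exact (ContinuousLinearMap.opNorm_comp_le _ _).trans
        (mul_le_of_le_one_right (norm_nonneg _) (hT k))
    · exact (ContinuousLinearMap.opNorm_comp_le _ _).trans
        (mul_le_of_le_one_right (norm_nonneg _) hT1)
  linarith

/-- Norm-attaining vectors of finite matrices. -/
lemma exists_norming {M : EP P →L[ℂ] EP P} {k : ℕ} (hM : M.comp (1 - QP P k) = M)
    (hn : ‖M‖ = 1) : ∃ v : EP P, QP P k v = 0 ∧ ‖v‖ = 1 ∧ ‖M v‖ = 1 := by
  set K : Set (EP P) := {v | QP P k v = 0 ∧ ‖v‖ ≤ 1} with hK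
  have hKc : IsCompact K := by
    have h1 : Continuous fun c : Fin k → ℂ => ∑ j : Fin k, c j • eP P j :=
      continuous_finset_sum _ fun j _ => (continuous_apply j).smul continuous_const
    have h2 := (isCompact_closedBall (0 : Fin k → ℂ) 1).image h1
    refine h2.of_isClosed_subset ?_ ?_
    · exact (isClosed_eq (QP P k).continuous continuous_const).inter
        (isClosed_le continuous_norm continuous_const)
    · rintro v ⟨hv, hv1⟩
      refine ⟨fun j => v j, ?_, ?_⟩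
      · rw [mem_closedBall_zero_iff, pi_norm_le_iff_of_nonneg zero_le_one]
        intro j
        exact (norm_coord_le v j).trans hv1
      · have h3 : (1 - QP P k) v = v := by
          rw [_root_.sub_apply, one_apply_eq_self, hv, sub_zero]
        beta_reduce
        rw [Fin.sum_univ_eq_sum_range (fun j => v j • eP P j) k, sum_smul_eP, ← one_sub_QP, h3]
  obtain ⟨v, hvK, hv⟩ := hKc.exists_isMaxOn ⟨0, by simp [hK]⟩ (M.continuous.norm.continuousOn)
  have h1 : ‖M‖ ≤ ‖M v‖ := by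
    refine ContinuousLinearMap.opNorm_le_bound _ (norm_nonneg _) fun x => ?_
    set z := (1 - QP P k) x with hz
    have hMx : M x = M z := by
      conv_lhs => rw [← hM]
      rfl
    have hzx : ‖z‖ ≤ ‖x‖ := by
      apply lp.norm_mono (zero_lt_one.trans_le hP.out).ne'
      intro i
      rw [hz, one_sub_QP_apply]
      split_ifs
      · exact le_rfl
      · simp
    rw [hMx]
    rcases eq_or_ne z 0 with h0 | h0
    · rw [h0, map_zero, norm_zero]
      positivity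
    · have hz0 : 0 < ‖z‖ := norm_pos_iff.2 h0
      have h2 : ((‖z‖⁻¹ : ℝ) : ℂ) • z ∈ K := by
        constructor
        · rw [map_smul, hz, _root_.sub_apply, one_apply_eq_self, map_sub, QP_QP le_rfl, sub_self,
            smul_zero]
        · rw [norm_smul, Complex.norm_real, Real.norm_of_nonneg (by positivity),
            inv_mul_cancel₀ hz0.ne']
      have h3 : ‖M (((‖z‖⁻¹ : ℝ) : ℂ) • z)‖ ≤ ‖M v‖ := hv h2
      rw [map_smul, norm_smul, Complex.norm_real, Real.norm_of_nonneg (by positivity),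
        inv_mul_le_iff₀ hz0] at h3
      refine h3.trans ?_
      rw [mul_comm]
      exact mul_le_mul_of_nonneg_left hzx (norm_nonneg _)
  rw [hn] at h1
  have h2 : ‖M v‖ ≤ ‖v‖ := by
    have := M.le_opNorm v
    rwa [hn, one_mul] at this
  have h3 := hvK.2
  exact ⟨v, hvK.1, le_antisymm h3 (h1.trans h2), le_antisymm (h2.trans h3) h1⟩

/-- Perturbation to a norm-attaining matrix. -/
lemma exists_pert (hPt : P ≠ ∞) {A : EP P →L[ℂ] EP P} {N : ℕ} {r : ℝ}
    (hA : cmp A N = A) (hr : ‖A‖ ≤ r) (hr1 : r < 1) {i m : ℕ} (hi : i < N) (hm : N ≤ m)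
    {δ : ℝ} (hδ0 : 0 < δ) (hδ : r + δ < 1) :
    ∃ b : ℝ, 0 ≤ b ∧ b ≤ 1 ∧ ∃ v : EP P, QP P (m + 1) v = 0 ∧
      ‖A + ((δ : ℂ) • (gP P m).smulRight (eP P i) + (b : ℂ) • (gP P m).smulRight (eP P m))‖ = 1 ∧
      ‖v‖ = 1 ∧
      ‖(A + ((δ : ℂ) • (gP P m).smulRight (eP P i) +
        (b : ℂ) • (gP P m).smulRight (eP P m))) v‖ = 1 ∧
      (((A + ((δ : ℂ) • (gP P m).smulRight (eP P i) +
        (b : ℂ) • (gP P m).smulRight (eP P m))) v : EP P)) i ≠ 0 := by
  have hp := toReal_pos' hPt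
  have hr0 : 0 ≤ r := (norm_nonneg _).trans hr
  set B : ℝ → EP P →L[ℂ] EP P := fun b =>
    A + ((δ : ℂ) • (gP P m).smulRight (eP P i) + (b : ℂ) • (gP P m).smulRight (eP P m)) with hB
  have hBc : Continuous B := by
    simp only [hB]
    exact continuous_const.add (continuous_const.add
      (Complex.continuous_ofReal.smul continuous_const))
  have hgn : ∀ l, ‖(gP P m).smulRight (eP P l)‖ ≤ 1 := by
    intro l
    refine ContinuousLinearMap.opNorm_le_bound _ zero_le_one fun x => ?_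
    rw [ContinuousLinearMap.smulRight_apply, norm_smul, norm_eP, mul_one, one_mul, gP_apply]
    exact norm_coord_le x m
  have hB0 : ‖B 0‖ < 1 := by
    simp only [hB, Complex.ofReal_zero, zero_smul, add_zero]
    refine (norm_add_le _ _).trans_lt ?_
    rw [norm_smul, Complex.norm_real, Real.norm_of_nonneg hδ0.le]
    have := mul_le_of_le_one_right hδ0.le (hgn i)
    linarith
  have hAm : A (eP P m) = 0 := by
    have : eP P m = QP P N (eP P m) := (QP_eP P N m hm).symm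
    rw [this]
    exact fin_QP hA _
  have hBem : ∀ b, B b (eP P m) = (δ : ℂ) • eP P i + (b : ℂ) • eP P m := by
    intro b
    simp only [hB, _root_.add_apply, _root_.smul_apply, ContinuousLinearMap.smulRight_apply,
      gP_eP, if_true, one_smul, hAm, zero_add]
  have hB1 : 1 < ‖B 1‖ := by
    have h1 : ‖B 1 (eP P m)‖ ^ P.toReal = 1 + δ ^ P.toReal := by
      rw [hBem, Complex.ofReal_one, one_smul, norm_split hPt i]
      have e1 : ((δ : ℂ) • eP P i + eP P m : EP P) i = δ := by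
        rw [lp.coeFn_add, Pi.add_apply, lp.coeFn_smul, Pi.smul_apply, eP_apply, eP_apply,
          if_pos rfl, if_neg (by omega), smul_eq_mul, mul_one, add_zero]
      have e2 : (1 - cpr P i) ((δ : ℂ) • eP P i + eP P m) = eP P m := by
        ext l
        rw [one_sub_cpr_apply, lp.coeFn_add, Pi.add_apply, lp.coeFn_smul, Pi.smul_apply,
          eP_apply, eP_apply]
        by_cases h : l = i
        · rw [if_pos h, if_neg (by omega)]
        · rw [if_neg h, if_neg h, smul_zero, zero_add]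
      rw [e1, e2, norm_eP, Complex.norm_real, Real.norm_of_nonneg hδ0.le, Real.one_rpow, add_comm]
    have h2 : ‖B 1 (eP P m)‖ ≤ ‖B 1‖ := by
      have := (B 1).le_opNorm (eP P m)
      rwa [norm_eP, mul_one] at this
    refine lt_of_lt_of_le ?_ h2
    by_contra hc
    rw [not_lt] at hc
    have h3 := Real.rpow_le_one (norm_nonneg _) hc hp.le
    rw [h1] at h3
    have : 0 < δ ^ P.toReal := by positivity
    linarith
  obtain ⟨b, ⟨hb0, hb1⟩, hbn⟩ : ∃ b ∈ Set.Icc (0 : ℝ) 1, ‖B b‖ = 1 :=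
    intermediate_value_Icc zero_le_one (hBc.norm.continuousOn) ⟨hB0.le, hB1.le⟩
  have hb1' : b < 1 := by
    rcases hb1.lt_or_eq with h | h
    · exact h
    · rw [h] at hbn
      rw [hbn] at hB1
      exact absurd hB1 (lt_irrefl _)
  have hBk : (B b).comp (1 - QP P (m + 1)) = B b := by
    have h1 := cmp_mono hA (show N ≤ m + 1 by omega)
    ext x : 1
    show B b ((1 - QP P (m + 1)) x) = B b x
    have e1 : A (QP P (m + 1) x) = 0 := fin_QP h1 x
    have e2 : gP P m (QP P (m + 1) x) = 0 := by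
      rw [gP_apply, QP_apply, if_neg (by omega)]
    rw [_root_.sub_apply, one_apply_eq_self, map_sub]
    have e3 : B b (QP P (m + 1) x) = 0 := by
      simp only [hB, _root_.add_apply, _root_.smul_apply, ContinuousLinearMap.smulRight_apply,
        e1, e2, zero_smul, smul_zero, add_zero]
    rw [e3, sub_zero]
  obtain ⟨v, hv0, hv1, hv2⟩ := exists_norming hBk hbn
  refine ⟨b, hb0, hb1, v, hv0, hbn, hv1, hv2, ?_⟩
  intro hzero
  -- the norm of `B b v`
  have e1 : B b v = A v + ((δ * v m : ℂ) • eP P i + (b * v m : ℂ) • eP P m) := by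
    simp only [hB, _root_.add_apply, _root_.smul_apply, ContinuousLinearMap.smulRight_apply,
      gP_apply, smul_smul]
  have hAs : ∀ l, N ≤ l → (A v) l = 0 := by
    intro l hl
    rw [← hA]
    show ((1 - QP P N) _) l = 0
    rw [one_sub_QP_apply, if_neg (by omega)]
  have h1 : ‖B b v‖ ^ P.toReal ≤ ‖A v‖ ^ P.toReal + ‖(b : ℂ) * v m‖ ^ P.toReal := by
    have hz : (B b v) i = 0 := hzero
    rw [norm_split hPt i (B b v), hz, norm_zero, Real.zero_rpow hp.ne', zero_add]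
    have e2 : (1 - cpr P i) (B b v) = (1 - cpr P i) (A v) + (b * v m : ℂ) • eP P m := by
      have e4 : (1 - cpr P i) (eP P i) = 0 := by
        ext l
        rw [one_sub_cpr_apply, eP_apply, lp.coeFn_zero, Pi.zero_apply]
        split_ifs <;> rfl
      have e5 : (1 - cpr P i) (eP P m) = eP P m := by
        ext l
        rw [one_sub_cpr_apply, eP_apply]
        split_ifs <;> first | rfl | omega
      rw [e1, map_add, map_add, map_smul, map_smul, e4, e5, smul_zero, zero_add]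
    have e3 : ‖(1 - cpr P i) (A v) + (b * v m : ℂ) • eP P m‖ ^ P.toReal =
        ‖(1 - cpr P i) (A v)‖ ^ P.toReal + ‖(b * v m : ℂ) • eP P m‖ ^ P.toReal := by
      apply norm_fin_add_tail hPt (M := N)
      · ext l
        rw [QP_apply, one_sub_cpr_apply, lp.coeFn_zero, Pi.zero_apply]
        split_ifs with h3 h4
        · rfl
        · exact hAs l h3
        · rfl
      · rw [map_smul, QP_eP _ _ _ hm]
    rw [e2, e3]
    refine add_le_add ?_ ?_
    · exact Real.rpow_le_rpow (norm_nonneg _) (norm_one_sub_cpr hPt i _) hp.le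
    · rw [norm_smul, norm_eP, mul_one]
  have h2 : ‖A v‖ ≤ r * ‖(1 - QP P N) v‖ := by
    have : A v = A ((1 - QP P N) v) := by
      rw [_root_.sub_apply, one_apply_eq_self, map_sub, fin_QP hA, sub_zero]
    rw [this]
    exact (A.le_opNorm _).trans (mul_le_mul_of_nonneg_right hr (norm_nonneg _))
  have h3 : ‖A v‖ ^ P.toReal ≤ r ^ P.toReal * ‖(1 - QP P N) v‖ ^ P.toReal := by
    rw [← Real.mul_rpow hr0 (norm_nonneg _)]
    exact Real.rpow_le_rpow (norm_nonneg _) h2 hp.le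
  have h4 : ‖(b : ℂ) * v m‖ ^ P.toReal ≤ b ^ P.toReal * ‖QP P N v‖ ^ P.toReal := by
    rw [norm_mul, Complex.norm_real, Real.norm_of_nonneg hb0,
      Real.mul_rpow hb0 (norm_nonneg _)]
    refine mul_le_mul_of_nonneg_left (Real.rpow_le_rpow (norm_nonneg _) ?_ hp.le) (by positivity)
    have := norm_coord_le (QP P N v) m
    rwa [QP_apply, if_pos hm] at this
  have h5 := norm_split_tail hPt N v
  rw [hv1, Real.one_rpow] at h5
  rw [hv2, Real.one_rpow] at h1
  have h6 : r ^ P.toReal < 1 := Real.rpow_lt_one hr0 hr1 hp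
  have h7 : b ^ P.toReal < 1 := Real.rpow_lt_one hb0 hb1' hp
  set α := ‖(1 - QP P N) v‖ ^ P.toReal with hα
  set β := ‖QP P N v‖ ^ P.toReal with hβ
  have hα0 : 0 ≤ α := by positivity
  have hβ0 : 0 ≤ β := by positivity
  have h8 : (1 - r ^ P.toReal) * α + (1 - b ^ P.toReal) * β ≤ 0 := by nlinarith
  have h9 : 0 ≤ (1 - r ^ P.toReal) * α := mul_nonneg (by linarith) hα0
  have h10 : 0 ≤ (1 - b ^ P.toReal) * β := mul_nonneg (by linarith) hβ0
  have h11 : α = 0 := by
    have : (1 - r ^ P.toReal) * α = 0 := by linarith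
    rcases mul_eq_zero.1 this with h | h
    · linarith
    · exact h
  have h12 : β = 0 := by
    have : (1 - b ^ P.toReal) * β = 0 := by linarith
    rcases mul_eq_zero.1 this with h | h
    · linarith
    · exact h
  rw [h11, h12] at h5
  norm_num at h5

end Pool.Agent.Y280
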