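import Pool.Agent.Y280.GRen

/-!
# Convergence of the diagonal coefficients in the dual norm of the disc algebra
-/

set_option autoImplicit false
open Finset Filter Topology
open scoped ENNReal ComplexConjugate

namespace Pool.Agent.Y280

lemma sq_sum_le {r κ : ℝ} (hr0 : 0 < r) (hr2 : r ≤ 2) (hκ : 0 ≤ κ) (M : ℕ) (a : ℕ → ℂ)
    (h : ∑ m ∈ range M, ‖a m‖ ^ r ≤ κ ^ r) : ∑ m ∈ range M, ‖a m‖ ^ 2 ≤ κ ^ 2 := by
  have e : ∀ x : ℝ, 0 ≤ x → x ^ 2 = x ^ r * x ^ (2 - r) := by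
    intro x hx
    rw [← Real.rpow_add_of_nonneg hx hr0.le (by linarith), add_sub_cancel]
    exact (Real.rpow_natCast x 2).symm
  have h1 : ∀ m ∈ range M, ‖a m‖ ≤ κ := by
    intro m hm
    have h2 : ‖a m‖ ^ r ≤ κ ^ r :=
      (single_le_sum (f := fun m => ‖a m‖ ^ r) (fun _ _ => by positivity) hm).trans h
    exact (Real.rpow_le_rpow_iff (norm_nonneg _) hκ hr0).1 h2
  calc ∑ m ∈ range M, ‖a m‖ ^ 2 ≤ ∑ m ∈ range M, ‖a m‖ ^ r * κ ^ (2 - r) := by
        refine sum_le_sum fun m hm => ?_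
        rw [e _ (norm_nonneg _)]
        refine mul_le_mul_of_nonneg_left ?_ (by positivity)
        exact Real.rpow_le_rpow (norm_nonneg _) (h1 m hm) (by linarith)
    _ = (∑ m ∈ range M, ‖a m‖ ^ r) * κ ^ (2 - r) := by rw [sum_mul]
    _ ≤ κ ^ r * κ ^ (2 - r) := mul_le_mul_of_nonneg_right h (by positivity)
    _ = κ ^ 2 := (e κ hκ).symm

lemma l2_conv {u : ℕ → ℕ → ℂ} {u1 : ℕ → ℂ}
    (hpt : ∀ l, Tendsto (fun k => u k l) atTop (𝓝 (u1 l)))
    (htail : ∀ η : ℝ, 0 < η → ∃ L, (∀ᶠ k in atTop, ∀ M, ∑ m ∈ range M, ‖u k (L + m)‖ ^ 2 ≤ η ^ 2)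
      ∧ ∀ M, ∑ m ∈ range M, ‖u1 (L + m)‖ ^ 2 ≤ η ^ 2) {δ : ℝ} (hδ : 0 < δ) :
    ∀ᶠ k in atTop, ∀ N, ∑ n ∈ range N, ‖u k n - u1 n‖ ^ 2 ≤ δ ^ 2 := by
  obtain ⟨L, hL1, hL2⟩ := htail (δ / 4) (by positivity)
  have h1 : Tendsto (fun k => ∑ n ∈ range L, ‖u k n - u1 n‖ ^ 2) atTop
      (𝓝 (∑ n ∈ range L, (0 : ℝ) ^ 2)) := by
    refine tendsto_finsetSum _ fun n _ => Tendsto.pow ?_ 2
    exact tendsto_iff_norm_sub_tendsto_zero.1 (hpt n)
  have h2 : ∑ n ∈ range L, (0 : ℝ) ^ 2 = 0 := by simp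
  rw [h2] at h1
  have h3 := h1.eventually (gt_mem_nhds (show (0 : ℝ) < δ ^ 2 / 2 by positivity))
  filter_upwards [h3, hL1] with k hk1 hk2
  intro N
  have h4 : ∑ n ∈ range N, ‖u k n - u1 n‖ ^ 2 ≤ ∑ n ∈ range (L + N), ‖u k n - u1 n‖ ^ 2 :=
    sum_le_sum_of_subset_of_nonneg (range_subset_range.2 (by omega)) fun _ _ _ => by positivity
  refine h4.trans ?_
  rw [sum_range_add]
  have h5 : ∑ m ∈ range N, ‖u k (L + m) - u1 (L + m)‖ ^ 2 ≤
      ∑ m ∈ range N, (2 * ‖u k (L + m)‖ ^ 2 + 2 * ‖u1 (L + m)‖ ^ 2) := by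
    refine sum_le_sum fun m _ => ?_
    have := norm_sub_le (u k (L + m)) (u1 (L + m))
    have h6 : ‖u k (L + m) - u1 (L + m)‖ ^ 2 ≤ (‖u k (L + m)‖ + ‖u1 (L + m)‖) ^ 2 :=
      pow_le_pow_left₀ (norm_nonneg _) this 2
    nlinarith [sq_nonneg (‖u k (L + m)‖ - ‖u1 (L + m)‖)]
  rw [sum_add_distrib, ← mul_sum, ← mul_sum] at h5
  have h6 := hk2 N
  have h7 := hL2 N
  nlinarith

variable {P : ℝ≥0∞} [hP : Fact (1 ≤ P)]

lemma tail_low (hPt : P ≠ ∞) {T : EP P →L[ℂ] EP P} (hT : ‖T‖ ≤ 1) (i : ℕ) (v : EP P) (M : ℕ) :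
    ∑ m ∈ range M, ‖(T ((rowless i T ^ m) v)) i‖ ^ P.toReal +
      ‖(rowless i T ^ M) v‖ ^ P.toReal ≤ ‖v‖ ^ P.toReal := by
  have hp := toReal_pos' hPt
  induction M with
  | zero => simp
  | succ M ih =>
    rw [sum_range_succ]
    have h1 : ‖(T ((rowless i T ^ M) v)) i‖ ^ P.toReal + ‖(rowless i T ^ (M + 1)) v‖ ^ P.toReal =
        ‖T ((rowless i T ^ M) v)‖ ^ P.toReal := by
      rw [norm_split hPt i (T ((rowless i T ^ M) v)), pow_succ', mul_apply_eq_comp,
        rowless_apply]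
    have h2 : ‖T ((rowless i T ^ M) v)‖ ^ P.toReal ≤ ‖(rowless i T ^ M) v‖ ^ P.toReal := by
      refine Real.rpow_le_rpow (norm_nonneg _) ?_ hp.le
      exact (T.le_opNorm _).trans (mul_le_of_le_one_left (norm_nonneg _) hT)
    linarith

lemma horner (hPt : P ≠ ∞) {T : EP P →L[ℂ] EP P} (hT : ‖T‖ ≤ 1) (i M : ℕ) (w : ℕ → ℂ) :
    ‖∑ m ∈ range M, w m • (rowless i T ^ m) (eP P i)‖ ^ P.toReal ≤
      ∑ m ∈ range M, ‖w m‖ ^ P.toReal := by
  have hp := toReal_pos' hPt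
  induction M generalizing w with
  | zero => simp [Real.zero_rpow hp.ne']
  | succ M ih =>
    set z := ∑ m ∈ range M, w (m + 1) • (rowless i T ^ m) (eP P i) with hz
    have e1 : ∑ m ∈ range (M + 1), w m • (rowless i T ^ m) (eP P i) =
        rowless i T z + w 0 • eP P i := by
      rw [sum_range_succ', hz, map_sum]
      congr 1
      · refine sum_congr rfl fun m _ => ?_
        rw [map_smul, pow_succ', mul_apply_eq_comp]
    rw [e1, norm_split hPt i]
    have e2 : (rowless i T z + w 0 • eP P i) i = w 0 := by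
      rw [lp.coeFn_add, Pi.add_apply, rowless_coord, lp.coeFn_smul, Pi.smul_apply, eP_apply,
        if_pos rfl, smul_eq_mul, mul_one, zero_add]
    have e3 : (1 - cpr P i) (rowless i T z + w 0 • eP P i) = rowless i T z := by
      ext j
      rw [one_sub_cpr_apply]
      split_ifs with hj
      · rw [hj, rowless_coord]
      · rw [lp.coeFn_add, Pi.add_apply, lp.coeFn_smul, Pi.smul_apply, eP_apply, if_neg hj,
          smul_zero, add_zero]
    rw [e2, e3, sum_range_succ', add_comm]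
    refine add_le_add ?_ le_rfl
    refine le_trans ?_ (ih (fun m => w (m + 1)))
    refine Real.rpow_le_rpow (norm_nonneg _) ?_ hp.le
    exact ((rowless i T).le_opNorm _).trans
      (mul_le_of_le_one_left (norm_nonneg _) (norm_rowless hPt i hT))

lemma tail_high (hPt : P ≠ ∞) {q : ℝ} (hq : P.toReal.HolderConjugate q)
    {T : EP P →L[ℂ] EP P} (hT : ‖T‖ ≤ 1) (i M : ℕ) (y : StrongDual ℂ (EP P)) :
    ∑ m ∈ range M, ‖y ((rowless i T ^ m) (eP P i))‖ ^ q ≤ ‖y‖ ^ q := by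
  have hp := toReal_pos' hPt
  have h1 := dual_bound hq.symm (norm_nonneg y) M (fun m => y ((rowless i T ^ m) (eP P i)))
    (fun w hw => by
      have e : ∑ m ∈ range M, y ((rowless i T ^ m) (eP P i)) * w m =
          y (∑ m ∈ range M, w m • (rowless i T ^ m) (eP P i)) := by
        rw [map_sum]
        refine sum_congr rfl fun m _ => ?_
        rw [map_smul, smul_eq_mul, mul_comm]
      rw [e]
      refine (y.le_opNorm _).trans (mul_le_of_le_one_right (norm_nonneg _) ?_)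
      have h2 := (horner hPt hT i M w).trans hw
      by_contra hc
      rw [not_le] at hc
      have := Real.one_lt_rpow hc hp
      linarith)
  have h2 := Real.rpow_le_rpow (by positivity) h1 hq.symm.nonneg
  rwa [← Real.rpow_mul (sum_nonneg fun _ _ => by positivity), one_div_mul_cancel hq.symm.ne_zero,
    Real.rpow_one] at h2

lemma uh_tail_low (hP2 : P.toReal ≤ 2) (hPt : P ≠ ∞) {T : EP P →L[ℂ] EP P} (hT : ‖T‖ ≤ 1)
    (i L M : ℕ) : ∑ m ∈ range M, ‖uh T i (L + 1 + m)‖ ^ 2 ≤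
      ‖(rowless i T ^ L) (eP P i)‖ ^ 2 := by
  have hp := toReal_pos' hPt
  refine sq_sum_le hp hP2 (norm_nonneg _) M (fun m => uh T i (L + 1 + m)) ?_
  have h1 := tail_low hPt hT i ((rowless i T ^ L) (eP P i)) M
  have h2 : 0 ≤ ‖(rowless i T ^ M) ((rowless i T ^ L) (eP P i))‖ ^ P.toReal := by positivity
  refine le_trans (le_of_eq (sum_congr rfl fun m _ => ?_)) (le_of_add_le_of_nonneg_left h1 h2)
  rw [show L + 1 + m = (m + L) + 1 by omega]
  simp only [uh]
  rw [pow_add, mul_apply_eq_comp]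

lemma uh_tail_high (hP2 : 2 ≤ P.toReal) (hP1 : 1 < P) (hPt : P ≠ ∞) {T : EP P →L[ℂ] EP P}
    (hT : ‖T‖ ≤ 1) (i L M : ℕ) : ∑ m ∈ range M, ‖uh T i (L + 1 + m)‖ ^ 2 ≤
      ‖((gP P i).comp T).comp (rowless i T ^ L)‖ ^ 2 := by
  have hp := toReal_pos' hPt
  have hp1 := one_lt_toReal hP1 hPt
  have hq := Real.HolderConjugate.conjExponent hp1
  have hq2 : P.toReal.conjExponent ≤ 2 := by
    unfold Real.conjExponent
    rw [div_le_iff₀ (by linarith)]
    linarith
  refine sq_sum_le hq.symm.pos hq2 (norm_nonneg _) M (fun m => uh T i (L + 1 + m)) ?_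
  have h1 := tail_high hPt hq hT i M (((gP P i).comp T).comp (rowless i T ^ L))
  refine le_trans (le_of_eq (sum_congr rfl fun m _ => ?_)) h1
  rw [show L + 1 + m = (L + m) + 1 by omega]
  simp only [uh, ContinuousLinearMap.comp_apply, gP_apply]
  rw [pow_add, mul_apply_eq_comp]

/-- **Convergence of the diagonal coefficients.** -/
theorem diag_tendsto (hP1 : 1 < P) (hPt : P ≠ ∞) {T : ℕ → EP P →L[ℂ] EP P}
    (hT : ∀ k, ‖T k‖ ≤ 1) {T1 : EP P →L[ℂ] EP P} {r : ℝ} (hr1 : r < 1) (hT1 : ‖T1‖ ≤ r)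
    (hsot : ∀ x, Tendsto (fun k => T k x) atTop (𝓝 (T1 x)))
    (hstar : 2 < P.toReal → ∀ y : StrongDual ℂ (EP P),
      Tendsto (fun k => y.comp (T k)) atTop (𝓝 (y.comp T1)))
    (i : ℕ) (D : ℕ → ℕ) (g : ℕ → ℕ → ℂ) (hg : ∀ k θ, ‖pg (D k) (g k) θ‖ ≤ 1) :
    Tendsto (fun k => ∑ n ∈ range (D k), g k n * (al (T k) i n - al T1 i n)) atTop (𝓝 0) := by
  have hr0 : 0 ≤ r := (norm_nonneg _).trans hT1
  have hT1' : ‖T1‖ ≤ 1 := hT1.trans hr1.le
  have hr : 0 < 1 - r := by linarith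
  -- convergence of the row-less operators
  have hrl : ∀ x, Tendsto (fun k => rowless i (T k) x) atTop (𝓝 (rowless i T1 x)) := fun x =>
    ((1 - cpr P i : EP P →L[ℂ] EP P).continuous.tendsto _).comp (hsot x)
  have hrln : ∀ k, ‖rowless i (T k)‖ ≤ 1 := fun k => norm_rowless hPt i (hT k)
  have hpw := tendsto_pow_apply hrln hrl
  have hpt : ∀ l, Tendsto (fun k => uh (T k) i l) atTop (𝓝 (uh T1 i l)) := by
    intro l
    cases l with
    | zero => exact tendsto_const_nhds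
    | succ l =>
      exact ((gP P i).continuous.tendsto _).comp (tendsto_comp_apply hT hsot (hpw l (eP P i)))
  have htail : ∀ η : ℝ, 0 < η → ∃ L, (∀ᶠ k in atTop, ∀ M,
      ∑ m ∈ range M, ‖uh (T k) i (L + m)‖ ^ 2 ≤ η ^ 2)
      ∧ ∀ M, ∑ m ∈ range M, ‖uh T1 i (L + m)‖ ^ 2 ≤ η ^ 2 := by
    intro η hη
    obtain ⟨L, hL⟩ := exists_pow_lt_of_lt_one hη hr1
    refine ⟨L + 1, ?_⟩
    have hpL : ∀ x, ‖(rowless i T1 ^ L) x‖ ≤ r ^ L * ‖x‖ :=
      norm_pow_le hr0 (norm_rowless hPt i hT1) L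
    rcases le_or_gt P.toReal 2 with h2 | h2
    · have h3 : ‖(rowless i T1 ^ L) (eP P i)‖ < η := by
        have := hpL (eP P i)
        rw [norm_eP, mul_one] at this
        exact this.trans_lt hL
      constructor
      · have h4 := ((hpw L (eP P i)).norm).eventually (gt_mem_nhds h3)
        filter_upwards [h4] with k hk M
        exact (uh_tail_low h2 hPt (hT k) i L M).trans
          (pow_le_pow_left₀ (norm_nonneg _) hk.le 2)
      · intro M
        exact (uh_tail_low h2 hPt hT1' i L M).trans (pow_le_pow_left₀ (norm_nonneg _) h3.le 2)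
    · have hst := hstar h2
      have hg1 : ‖gP P i‖ ≤ 1 := by
        refine ContinuousLinearMap.opNorm_le_bound _ zero_le_one fun x => ?_
        rw [one_mul, gP_apply]
        exact norm_coord_le x i
      have h3 : ‖((gP P i).comp T1).comp (rowless i T1 ^ L)‖ < η := by
        refine lt_of_le_of_lt (ContinuousLinearMap.opNorm_le_bound _ (by positivity)
          fun x => ?_) hL
        rw [ContinuousLinearMap.comp_apply, ContinuousLinearMap.comp_apply, gP_apply]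
        refine (norm_coord_le _ _).trans ((T1.le_opNorm _).trans ?_)
        exact (mul_le_of_le_one_left (norm_nonneg _) hT1').trans (hpL x)
      have hrs : ∀ y : StrongDual ℂ (EP P),
          Tendsto (fun k => y.comp (rowless i (T k))) atTop (𝓝 (y.comp (rowless i T1))) := by
        intro y
        have := hst (y.comp (1 - cpr P i : EP P →L[ℂ] EP P))
        exact this
      have h5 := tendsto_dual_pow hrln hrs L (hst (gP P i))
      constructor
      · have h4 := h5.norm.eventually (gt_mem_nhds h3)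
        filter_upwards [h4] with k hk M
        exact (uh_tail_high h2.le hP1 hPt (hT k) i L M).trans
          (pow_le_pow_left₀ (norm_nonneg _) hk.le 2)
      · intro M
        exact (uh_tail_high h2.le hP1 hPt hT1' i L M).trans
          (pow_le_pow_left₀ (norm_nonneg _) h3.le 2)
  rw [tendsto_zero_iff_norm_tendsto_zero, Metric.tendsto_atTop']
  intro ε hε
  have hδ : 0 < ε / 2 * ((1 - r) ^ 2 / 8) := by positivity
  obtain ⟨N, hN⟩ := eventually_atTop.1 (l2_conv hpt htail hδ)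
  refine ⟨N, fun k hk => ?_⟩
  rw [dist_zero_right, norm_norm]
  have h1 := herglotz_diff hr0 hr1 (norm_al_le (hT k) i) (norm_al_le hT1' i)
    (norm_uh_le hPt (hT k) i) (norm_uh_le hPt hT1' i) (by rw [al_zero, al_zero])
    (fun s hs0 hs1 θ => (renewal hPt le_rfl (hT k) i hs0 hs1 θ).1)
    (fun s hs0 hs1 θ => (renewal hPt hr1.le hT1 i hs0 hs1 θ).1)
    (fun s hs0 hs1 θ => (renewal hPt le_rfl (hT k) i hs0 hs1 θ).2)
    (fun s hs0 hs1 θ => (renewal hPt hr1.le hT1 i hs0 hs1 θ).2)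
    hδ (hN k hk.le) (D k) (g k) (hg k)
  refine h1.trans_lt ?_
  have e : 1 * (8 / (1 - r) ^ 2 * (ε / 2 * ((1 - r) ^ 2 / 8))) = ε / 2 := by
    field_simp
  rw [e]
  linarith

end Pool.Agent.Y280
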