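import Pool.Agent.Y280.GBaire

/-!
# Typical contractions of `ℓ_p`
-/

set_option autoImplicit false
open Finset Filter Topology TopologicalSpace
open scoped ENNReal

namespace Pool.Agent.Y280

variable {P : ℝ≥0∞} [hP : Fact (1 ≤ P)]
variable {W : Type*} [TopologicalSpace W] {Φ : W → EP P →L[ℂ] EP P}

lemma exists_rho' {p q : ℝ} (hpq : p.HolderConjugate q) {δ : ℝ} (hδ : 0 < δ) :
    ∃ a : ℕ, 1 / ((a : ℝ) + 1) ≤ δ ∧ (1 / ((a : ℝ) + 1)) ^ (1 / p) ≤ δ ∧
      (1 / ((a : ℝ) + 1)) ^ (1 / q) ≤ δ := by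
  obtain ⟨ρ, hρ, h1, h2, h3⟩ := exists_rho hpq 1 hδ
  obtain ⟨a, ha⟩ := exists_nat_one_div_lt hρ
  have hp := hpq.pos
  have hq := hpq.symm.pos
  refine ⟨a, ha.le.trans h1, ?_, ?_⟩
  · rw [one_mul] at h2
    refine le_trans (Real.rpow_le_rpow (by positivity) ?_ (by positivity)) h2
    linarith
  · rw [one_mul] at h3
    refine le_trans (Real.rpow_le_rpow (by positivity) ?_ (by positivity)) h3
    linarith

/-- **Typical contractions have dense noncyclic vectors.** -/
theorem typ_ball [FirstCountableTopology W] (hP1 : 1 < P) (hPt : P ≠ ∞) (h : BallTop P Φ) :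
    {w | Good (Φ w)} ∈ residual W := by
  classical
  haveI := sep_EP hPt
  haveI := sep_EP_dual hP1 hPt
  have hp := toReal_pos' hPt
  have hp1 := one_lt_toReal hP1 hPt
  obtain ⟨q, hq⟩ : ∃ q, P.toReal.HolderConjugate q := ⟨_, Real.HolderConjugate.conjExponent hp1⟩
  haveI : Nonempty (EP P) := ⟨0⟩
  haveI : Nonempty (StrongDual ℂ (EP P)) := ⟨0⟩
  set d := denseSeq (EP P) with hd_def
  set d' := denseSeq (StrongDual ℂ (EP P)) with hd'_def
  have hd : DenseRange d := denseRange_denseSeq _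
  have hd' : DenseRange d' := denseRange_denseSeq _
  set U : ℕ → ℕ → ℝ → Set W := fun i j ρ => interior (𝒜 Φ (d i) (d' j) ρ) with hU
  set rr : ℕ → ℝ := fun a => 1 / ((a : ℝ) + 1) with hrr
  have hrr0 : ∀ a, 0 < rr a := fun a => by simp only [hrr]; positivity
  set O : ℕ → ℕ → ℕ → ℕ → ℕ → Set W := fun i j a b l =>
    ⋃ (i' : ℕ) (j' : ℕ) (_ : ‖d i' - d i‖ ≤ rr a ^ (1 / P.toReal) + rr b ∧
      ‖d' j' - d' j‖ ≤ rr a ^ (1 / q) + rr b ∧ ‖d' j' (d l) - d' j (d l)‖ ≤ rr b),
      U i' j' (rr b) with hO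
  have hGmem : ∀ i j a b l, O i j a b l ∪ (closure (U i j (rr a)))ᶜ ∈ residual W := by
    intro i j a b l
    apply residual_of_dense_open
    · refine IsOpen.union ?_ isClosed_closure.isOpen_compl
      exact isOpen_iUnion fun i' => isOpen_iUnion fun j' => isOpen_iUnion fun _ =>
        isOpen_interior
    · rw [dense_iff_inter_open]
      intro V hV hVne
      by_cases hVU : (V ∩ U i j (rr a)).Nonempty
      · obtain ⟨w0, hw0V, hw0U⟩ := hVU
        obtain ⟨w2, hw2V, i', j', h1, h2, h3, h4⟩ := step_ball hP1 hPt hq h (hrr0 a) hw0U hV hw0V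
          hd hd' (hrr0 b) (d l)
        refine ⟨w2, hw2V, Or.inl ?_⟩
        simp only [hO, Set.mem_iUnion]
        exact ⟨i', j', ⟨h2, h3, h4⟩, h1⟩
      · obtain ⟨w0, hw0⟩ := hVne
        refine ⟨w0, hw0, Or.inr ?_⟩
        intro hcl
        exact hVU (mem_closure_iff.1 hcl V hV hw0)
  have hG : ∀ᶠ w in residual W, ∀ i j a b l, w ∈ O i j a b l ∪ (closure (U i j (rr a)))ᶜ := by
    rw [eventually_countable_forall]; intro i
    rw [eventually_countable_forall]; intro j
    rw [eventually_countable_forall]; intro a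
    rw [eventually_countable_forall]; intro b
    rw [eventually_countable_forall]; intro l
    exact hGmem i j a b l
  filter_upwards [hG] with w hw
  set T := Φ w with hT
  have hT1 : ‖T‖ ≤ 1 := h.norm w
  intro x₀ ε hε
  -- a nonzero vector of the dense sequence
  obtain ⟨l, hl0, hlx⟩ : ∃ l, d l ≠ 0 ∧ ‖d l - x₀‖ < ε / 2 := by
    have hop : IsOpen ({z : EP P | z ≠ 0} ∩ Metric.ball x₀ (ε / 2)) :=
      isOpen_ne.inter Metric.isOpen_ball
    have hne : ({z : EP P | z ≠ 0} ∩ Metric.ball x₀ (ε / 2)).Nonempty := by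
      by_cases hx : x₀ = 0
      · refine ⟨((ε / 4 : ℝ) : ℂ) • eP P 0, ?_, ?_⟩
        · have he : eP P 0 ≠ 0 := by
            intro h0
            have := norm_eP (P := P) 0
            rw [h0, norm_zero] at this
            exact zero_ne_one this
          exact smul_ne_zero (by rw [Ne, Complex.ofReal_eq_zero]; positivity) he
        · rw [Metric.mem_ball, hx, dist_zero_right, norm_smul, norm_eP, mul_one,
            Complex.norm_real, Real.norm_of_nonneg (by positivity)]
          linarith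
      · exact ⟨x₀, hx, Metric.mem_ball_self (by positivity)⟩
    obtain ⟨l, hl⟩ := hd.exists_mem_open hop hne
    refine ⟨l, hl.1, ?_⟩
    have := hl.2
    rwa [Metric.mem_ball, dist_eq_norm] at this
  have hX0 : 0 < ‖d l‖ := norm_pos_iff.2 hl0
  set ε' := min (ε / 2) (‖d l‖) with hε'
  have hε'0 : 0 < ε' := lt_min (by positivity) hX0
  set δ : ℕ → ℝ := fun k => ε' / 2 / 2 / 2 ^ k with hδ
  have hδ0 : ∀ k, 0 < δ k := fun k => by simp only [hδ]; positivity
  choose a ha1 ha2 ha3 using fun k => exists_rho' hq (δ := δ k / 2) (by have := hδ0 k; positivity)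
  -- the first functional
  obtain ⟨j0, hj0, hj0'⟩ : ∃ j0, ‖d' j0‖ * ‖d l‖ < rr (a 0) ∧ d' j0 (d l) ≠ 0 := by
    have hop : IsOpen ({y : StrongDual ℂ (EP P) | ‖y‖ * ‖d l‖ < rr (a 0)} ∩
        {y : StrongDual ℂ (EP P) | y (d l) ≠ 0}) := by
      refine IsOpen.inter (isOpen_lt (continuous_norm.mul continuous_const) continuous_const) ?_
      have hc : Continuous fun y : StrongDual ℂ (EP P) => y (d l) :=
        (ContinuousLinearMap.apply ℂ ℂ (d l)).continuous
      exact isOpen_ne.preimage hc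
    have hne : ({y : StrongDual ℂ (EP P) | ‖y‖ * ‖d l‖ < rr (a 0)} ∩
        {y : StrongDual ℂ (EP P) | y (d l) ≠ 0}).Nonempty := by
      obtain ⟨y1, hy1, hy1'⟩ := exists_dual_vector ℂ (d l) hX0.ne'
      set s : ℝ := rr (a 0) / (2 * ‖d l‖) with hs
      have hs0 : 0 < s := by have := hrr0 (a 0); positivity
      refine ⟨(s : ℂ) • y1, ?_, ?_⟩
      · show ‖(s : ℂ) • y1‖ * ‖d l‖ < rr (a 0)
        rw [norm_smul, hy1, mul_one, Complex.norm_real, Real.norm_of_nonneg hs0.le, hs]
        have := hrr0 (a 0)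
        rw [div_mul_eq_mul_div, div_lt_iff₀ (by positivity)]
        nlinarith
      · show ((s : ℂ) • y1) (d l) ≠ 0
        rw [_root_.smul_apply, hy1', smul_eq_mul]
        refine mul_ne_zero (by rw [Ne, Complex.ofReal_eq_zero]; exact hs0.ne') ?_
        exact Complex.ofReal_ne_zero.2 hX0.ne'
    obtain ⟨j0, h1, h2⟩ := hd'.exists_mem_open hop hne
    exact ⟨j0, h1, h2⟩
  set τ : ℝ := ‖d' j0 (d l)‖ / 2 with hτ
  have hτ0 : 0 < τ := by have := norm_pos_iff.2 hj0'; positivity
  have hinit : w ∈ U l j0 (rr (a 0)) := by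
    have : 𝒜 Φ (d l) (d' j0) (rr (a 0)) = Set.univ := by
      rw [Set.eq_univ_iff_forall]
      intro v
      exact (NdC.top hPt (h.norm v) (d l) (d' j0)).mono hj0.le
    simp only [hU]
    rw [this, interior_univ]
    trivial
  -- one step
  have hstep : ∀ k (v : {v : ℕ × ℕ // w ∈ U v.1 v.2 (rr (a k))}),
      ∃ v' : {v : ℕ × ℕ // w ∈ U v.1 v.2 (rr (a (k + 1)))},
        ‖d v'.1.1 - d v.1.1‖ ≤ δ k ∧ ‖d' v'.1.2 - d' v.1.2‖ ≤ δ k ∧
        ‖d' v'.1.2 (d l) - d' v.1.2 (d l)‖ ≤ τ / 2 / 2 ^ k := by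
    rintro k ⟨⟨i, j⟩, hij⟩
    obtain ⟨b, hb⟩ := exists_nat_one_div_lt (show 0 < min (min (rr (a (k + 1))) (δ k / 2))
      (τ / 2 / 2 ^ k) from lt_min (lt_min (hrr0 _) (by have := hδ0 k; positivity))
        (by positivity))
    have hb1 : rr b ≤ rr (a (k + 1)) := hb.le.trans ((min_le_left _ _).trans (min_le_left _ _))
    have hb2 : rr b ≤ δ k / 2 := hb.le.trans ((min_le_left _ _).trans (min_le_right _ _))
    have hb3 : rr b ≤ τ / 2 / 2 ^ k := hb.le.trans (min_le_right _ _)
    rcases hw i j (a k) b l with hwO | hwO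
    · simp only [hO, Set.mem_iUnion] at hwO
      obtain ⟨i', j', ⟨h1, h2, h3⟩, h4⟩ := hwO
      refine ⟨⟨(i', j'), ?_⟩, ?_, ?_, h3.trans hb3⟩
      · exact interior_mono (fun v hv => NdC.mono hv hb1) h4
      · have := ha2 k
        refine h1.trans ?_
        simp only [hrr] at this ⊢
        simp only [hrr] at hb2
        linarith
      · have := ha3 k
        refine h2.trans ?_
        simp only [hrr] at this ⊢
        simp only [hrr] at hb2
        linarith
    · exact absurd (subset_closure hij) hwO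
  choose F hF1 hF2 hF3 using hstep
  let S : (k : ℕ) → {v : ℕ × ℕ // w ∈ U v.1 v.2 (rr (a k))} := fun k =>
    Nat.rec (motive := fun k => {v : ℕ × ℕ // w ∈ U v.1 v.2 (rr (a k))})
      ⟨(l, j0), hinit⟩ (fun k v => F k v) k
  have hS0 : (S 0).1 = (l, j0) := rfl
  have hSs : ∀ k, S (k + 1) = F k (S k) := fun k => rfl
  have hx : ∀ k, dist (d (S k).1.1) (d (S (k + 1)).1.1) ≤ ε' / 2 / 2 / 2 ^ k := by
    intro k
    rw [dist_comm, dist_eq_norm, hSs]
    exact hF1 k (S k)
  have hy : ∀ k, dist (d' (S k).1.2) (d' (S (k + 1)).1.2) ≤ ε' / 2 / 2 / 2 ^ k := by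
    intro k
    rw [dist_comm, dist_eq_norm, hSs]
    exact hF2 k (S k)
  have hz : ∀ k, dist (d' (S k).1.2 (d l)) (d' (S (k + 1)).1.2 (d l)) ≤ τ / 2 / 2 ^ k := by
    intro k
    rw [dist_comm, dist_eq_norm, hSs]
    exact hF3 k (S k)
  obtain ⟨x, hxl⟩ := cauchySeq_tendsto_of_complete (cauchySeq_of_le_geometric_two hx)
  obtain ⟨y, hyl⟩ := cauchySeq_tendsto_of_complete (cauchySeq_of_le_geometric_two hy)
  have hyx₀ : Tendsto (fun k => d' (S k).1.2 (d l)) atTop (𝓝 (y (d l))) :=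
    ((ContinuousLinearMap.apply ℂ ℂ (d l)).continuous.tendsto y).comp hyl
  have h1 := dist_le_of_le_geometric_two_of_tendsto₀ hx hxl
  have h2 := dist_le_of_le_geometric_two_of_tendsto₀ hz hyx₀
  rw [hS0] at h1 h2
  simp only at h1 h2
  rw [dist_comm, dist_eq_norm] at h1
  rw [dist_comm, dist_eq_norm] at h2
  have h1a : ‖x - d l‖ ≤ ε / 4 := by
    have := min_le_left (ε / 2) ‖d l‖
    rw [← hε'] at this
    linarith
  have h1b : ‖x - d l‖ ≤ ‖d l‖ / 2 := by
    have := min_le_right (ε / 2) ‖d l‖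
    rw [← hε'] at this
    linarith
  refine ⟨x, y, ?_, ?_, ?_, ?_⟩
  · intro hx0
    rw [hx0, zero_sub, norm_neg] at h1b
    linarith
  · have e : x - x₀ = (x - d l) + (d l - x₀) := by abel
    rw [e]
    refine (norm_add_le _ _).trans_lt ?_
    linarith
  · intro hy0
    rw [hy0, _root_.zero_apply, zero_sub, norm_neg] at h2
    rw [hτ] at h2
    have := norm_pos_iff.2 hj0'
    linarith
  · intro n
    have h3 : Tendsto (fun k => d' (S k).1.2 ((T ^ n) (d (S k).1.1))) atTop
        (𝓝 (y ((T ^ n) x))) := by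
      have hc : Continuous fun v : StrongDual ℂ (EP P) × EP P => v.1 ((T ^ n) v.2) :=
        isBoundedBilinearMap_apply.continuous.comp
          (continuous_fst.prodMk ((T ^ n).continuous.comp continuous_snd))
      exact (hc.tendsto (y, x)).comp (hyl.prodMk_nhds hxl)
    have h4 : Tendsto (fun k => d' (S k).1.2 ((T ^ n) (d (S k).1.1))) atTop (𝓝 0) := by
      apply squeeze_zero_norm (a := δ)
      · intro k
        have h5 : w ∈ 𝒜 Φ (d (S k).1.1) (d' (S k).1.2) (rr (a k)) := interior_subset (S k).2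
        refine (NdC.coeff' h5 n).trans ((ha1 k).trans ?_)
        have := hδ0 k
        linarith
      · have := (tendsto_pow_atTop_nhds_zero_of_lt_one (r := (1 / 2 : ℝ)) (by norm_num)
          (by norm_num)).const_mul (ε' / 2 / 2)
        rw [mul_zero] at this
        refine this.congr fun k => ?_
        rw [hδ]
        simp only [one_div, inv_pow]
        rfl
    exact tendsto_nhds_unique h3 h4

end Pool.Agent.Y280
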