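import Pool.Agent.Y280.Seq

/-!
# Realisation of sequences by finite sums of truncated shifts
-/

set_option autoImplicit false
open Finset

namespace Pool.Agent.Y280

/-- `⟨S ^ n u, w⟩` for the truncated shift `S` of size `M`. -/
def sp (M : ℕ) (u w : ℕ → ℂ) (n : ℕ) : ℂ := ∑ j ∈ range (M - n), u j * w (j + n)

lemma sp_smul (M : ℕ) (a b : ℂ) (u w : ℕ → ℂ) (n : ℕ) :
    sp M (fun j => a * u j) (fun j => b * w j) n = a * b * sp M u w n := by
  unfold sp
  rw [mul_sum]
  exact sum_congr rfl fun k _ => by ring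

lemma pairing (M : ℕ) (d u w : ℕ → ℂ) :
    ∑ n ∈ range M, d n * sp M u w n = ∑ m ∈ range M, cv d u m * w m := by
  unfold sp cv
  simp only [mul_sum, sum_mul]
  rw [sum_sigma', sum_sigma']
  refine sum_nbij' (fun x => ⟨x.2 + x.1, x.2⟩) (fun x => ⟨x.1 - x.2, x.2⟩) ?_ ?_ ?_ ?_ ?_
  · rintro ⟨a, b⟩ h
    simp only [mem_sigma, mem_range] at h ⊢
    omega
  · rintro ⟨a, b⟩ h
    simp only [mem_sigma, mem_range] at h ⊢
    omega
  · rintro ⟨a, b⟩ h
    simp
  · rintro ⟨a, b⟩ h
    simp only [mem_sigma, mem_range] at h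
    simp only [Sigma.mk.injEq, heq_eq_eq, and_true]
    omega
  · rintro ⟨a, b⟩ h
    simp only [mem_sigma, mem_range] at h
    simp only [Nat.add_sub_cancel_left]
    ring

/-- Duality for finite sequences. -/
lemma dual_bound {p q : ℝ} (hpq : p.HolderConjugate q) {K : ℝ} (hK : 0 ≤ K) (M : ℕ) (v : ℕ → ℂ)
    (h : ∀ w : ℕ → ℂ, ∑ m ∈ range M, ‖w m‖ ^ q ≤ 1 → ‖∑ m ∈ range M, v m * w m‖ ≤ K) :
    (∑ m ∈ range M, ‖v m‖ ^ p) ^ (1 / p) ≤ K := by
  obtain ⟨g, hg, hg'⟩ := (NNReal.isGreatest_Lp (range M) (fun m => ‖v m‖₊) hpq).1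
  have h1 : (∑ m ∈ range M, ‖v m‖ ^ p) ^ (1 / p) = ∑ m ∈ range M, ‖v m‖ * (g m : ℝ) := by
    have := congrArg (fun x : NNReal => (x : ℝ)) hg'
    push_cast at this
    simpa using this.symm
  rw [h1]
  -- phases
  set w : ℕ → ℂ := fun m => (g m : ℂ) * ((starRingEnd ℂ) (v m) / ‖v m‖) with hw
  have hw1 : ∀ m, ‖w m‖ ≤ g m := by
    intro m
    rw [hw]
    simp only [norm_mul, norm_div, RCLike.norm_conj, Complex.norm_real, norm_norm]
    by_cases hv : ‖v m‖ = 0
    · rw [hv]; simp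
    · rw [div_self hv, mul_one]
      simp
  have hw2 : ∀ m, v m * w m = ((‖v m‖ * (g m : ℝ) : ℝ) : ℂ) := by
    intro m
    rw [hw]
    by_cases hv : v m = 0
    · simp [hv]
    · have hv' : (‖v m‖ : ℂ) ≠ 0 := by
        simpa using hv
      have e : v m * (starRingEnd ℂ) (v m) = (‖v m‖ : ℂ) ^ 2 := by
        rw [Complex.mul_conj, Complex.normSq_eq_norm_sq]; push_cast; ring
      have : v m * ((g m : ℂ) * ((starRingEnd ℂ) (v m) / ‖v m‖)) =
          (g m : ℂ) * (v m * (starRingEnd ℂ) (v m)) / ‖v m‖ := by ring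
      beta_reduce
      rw [this, e]
      push_cast
      field_simp
  have h2 := h w ?_
  · rw [sum_congr rfl fun m _ => hw2 m, ← Complex.ofReal_sum, Complex.norm_real] at h2
    exact (le_abs_self _).trans h2
  · have hg1 : ∑ m ∈ range M, (g m : ℝ) ^ q ≤ 1 := by
      have : (∑ m ∈ range M, (g m) ^ q) ≤ 1 := hg
      exact_mod_cast this
    refine le_trans (sum_le_sum fun m _ => ?_) hg1
    exact Real.rpow_le_rpow (norm_nonneg _) (hw1 m) hpq.symm.nonneg

/-- The absolutely convex set of the sequences `⟨S ^ n u, w⟩`. -/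
def WS (p q : ℝ) (M : ℕ) : Set (Fin M → ℂ) :=
  {a | ∃ (ι : Type) (_ : Fintype ι) (u w : ι → ℕ → ℂ), ∑ b, ∑ j ∈ range M, ‖u b j‖ ^ p ≤ 1 ∧
    ∑ b, ∑ j ∈ range M, ‖w b j‖ ^ q ≤ 1 ∧ ∀ n : Fin M, a n = ∑ b, sp M (u b) (w b) n}

lemma sum_scale {p s : ℝ} (hp : 0 < p) (hs : 0 ≤ s) {ι : Type} [Fintype ι] (M : ℕ)
    (u : ι → ℕ → ℂ) : ∑ b, ∑ j ∈ range M, ‖((s ^ (1 / p) : ℝ) : ℂ) * u b j‖ ^ p =
      s * ∑ b, ∑ j ∈ range M, ‖u b j‖ ^ p := by
  rw [mul_sum]
  refine sum_congr rfl fun b _ => ?_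
  rw [mul_sum]
  refine sum_congr rfl fun j _ => ?_
  rw [norm_mul, Complex.norm_real, Real.norm_of_nonneg (by positivity),
    Real.mul_rpow (by positivity) (norm_nonneg _), ← Real.rpow_mul hs,
    one_div_mul_cancel hp.ne', Real.rpow_one]

lemma scale_mul {p q s : ℝ} (hpq : p.HolderConjugate q) (hs : 0 ≤ s) :
    ((s ^ (1 / p) : ℝ) : ℂ) * ((s ^ (1 / q) : ℝ) : ℂ) = (s : ℂ) := by
  rw [← Complex.ofReal_mul]
  congr 1
  rcases hs.eq_or_lt with rfl | hs
  · rw [Real.zero_rpow (by have := hpq.pos; positivity)]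
    simp
  · rw [← Real.rpow_add hs, one_div, one_div, hpq.inv_add_inv_eq_one, Real.rpow_one]

lemma WS_convex {p q : ℝ} (hpq : p.HolderConjugate q) (M : ℕ) : Convex ℝ (WS p q M) := by
  rintro a ⟨ι, _, u, w, hu, hw, ha⟩ a' ⟨ι', _, u', w', hu', hw', ha'⟩ s t hs ht hst
  refine ⟨ι ⊕ ι', inferInstance,
    Sum.elim (fun b j => ((s ^ (1 / p) : ℝ) : ℂ) * u b j)
      (fun b j => ((t ^ (1 / p) : ℝ) : ℂ) * u' b j),
    Sum.elim (fun b j => ((s ^ (1 / q) : ℝ) : ℂ) * w b j)
      (fun b j => ((t ^ (1 / q) : ℝ) : ℂ) * w' b j), ?_, ?_, ?_⟩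
  · rw [Fintype.sum_sum_type]
    simp only [Sum.elim_inl, Sum.elim_inr]
    rw [sum_scale hpq.pos hs, sum_scale hpq.pos ht]
    nlinarith
  · rw [Fintype.sum_sum_type]
    simp only [Sum.elim_inl, Sum.elim_inr]
    rw [sum_scale hpq.symm.pos hs, sum_scale hpq.symm.pos ht]
    nlinarith
  · intro n
    rw [Fintype.sum_sum_type]
    simp only [Sum.elim_inl, Sum.elim_inr, sp_smul, scale_mul hpq hs, scale_mul hpq ht]
    rw [← mul_sum, ← mul_sum, ← ha, ← ha']
    simp

/-- **Realisation lemma.** -/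
lemma realise {p q : ℝ} (hpq : p.HolderConjugate q) {M : ℕ} {ρ : ℝ} (hρ : 0 < ρ) (c : ℕ → ℂ)
    (h : ∀ (d : ℕ → ℂ) (C : ℝ), 0 ≤ C → BM p M d C → ‖∑ n ∈ range M, d n * c n‖ ≤ ρ * C)
    {ε : ℝ} (hε : 0 < ε) :
    ∃ (ι : Type) (_ : Fintype ι) (u w : ι → ℕ → ℂ), ∑ b, ∑ j ∈ range M, ‖u b j‖ ^ p ≤ ρ ∧
      ∑ b, ∑ j ∈ range M, ‖w b j‖ ^ q ≤ ρ ∧
      ∀ n < M, ‖∑ b, sp M (u b) (w b) n - c n‖ < ε := by
  have hmem : (fun n : Fin M => c n / (ρ : ℂ)) ∈ closure (WS p q M) := by
    by_contra hc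
    obtain ⟨f, s, hf, hs⟩ := RCLike.geometric_hahn_banach_closed_point (𝕜 := ℂ)
      (WS_convex hpq M).closure isClosed_closure hc
    set d : ℕ → ℂ := fun n => if hn : n < M then f (Pi.single ⟨n, hn⟩ 1) else 0 with hd
    have hfd : ∀ a : ℕ → ℂ, f (fun n : Fin M => a n) = ∑ n ∈ range M, d n * a n := by
      intro a
      rw [← Fin.sum_univ_eq_sum_range (fun n => d n * a n) M]
      have : (fun n : Fin M => a n) = ∑ n : Fin M, a n • (Pi.single n (1 : ℂ) : Fin M → ℂ) := by
        ext i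
        simp [Finset.sum_apply, Pi.single_apply]
      rw [this, map_sum]
      refine sum_congr rfl fun n _ => ?_
      rw [map_smul, hd]
      simp [mul_comm]
    have hzero : (0 : Fin M → ℂ) ∈ closure (WS p q M) := by
      apply subset_closure
      exact ⟨Empty, inferInstance, fun b => b.elim, fun b => b.elim, by simp, by simp, by simp⟩
    have hs0 : 0 < s := by
      have := hf 0 hzero
      simpa using this
    -- single blocks
    have hsb : ∀ u w : ℕ → ℂ, ∑ j ∈ range M, ‖u j‖ ^ p ≤ 1 → ∑ j ∈ range M, ‖w j‖ ^ q ≤ 1 →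
        ‖∑ n ∈ range M, d n * sp M u w n‖ ≤ s := by
      intro u w hu hw
      obtain ⟨θ, hθ, hθ'⟩ : ∃ θ : ℂ, ‖θ‖ = 1 ∧ θ * (∑ n ∈ range M, d n * sp M u w n) =
          (‖∑ n ∈ range M, d n * sp M u w n‖ : ℂ) := by
        set z := ∑ n ∈ range M, d n * sp M u w n
        by_cases hz : z = 0
        · exact ⟨1, by simp, by simp [hz]⟩
        · refine ⟨(starRingEnd ℂ) z / ‖z‖, ?_, ?_⟩
          · simp [norm_div, hz]
          · have hz' : (‖z‖ : ℂ) ≠ 0 := by simpa using hz
            rw [div_mul_eq_mul_div, mul_comm, Complex.mul_conj, Complex.normSq_eq_norm_sq]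
            push_cast
            field_simp
      have h1 := hf (fun n : Fin M => sp M (fun j => θ * u j) (fun j => 1 * w j) n) (by
        apply subset_closure
        refine ⟨Unit, inferInstance, fun _ j => θ * u j, fun _ j => 1 * w j, ?_, ?_, ?_⟩
        · simpa [norm_mul, hθ] using hu
        · simpa using hw
        · intro n; simp)
      rw [hfd] at h1
      simp only [sp_smul, mul_one] at h1
      have h2 : ∑ n ∈ range M, d n * (θ * sp M u w n) =
          θ * ∑ n ∈ range M, d n * sp M u w n := by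
        rw [mul_sum]; exact sum_congr rfl fun _ _ => by ring
      rw [h2, hθ'] at h1
      simpa using h1.le
    have hBM : BM p M d s := by
      rw [BM_iff hpq.lt.le hs0.le]
      intro u
      set U := (∑ k ∈ range M, ‖u k‖ ^ p) ^ (1 / p) with hU
      have hSnn : 0 ≤ ∑ k ∈ range M, ‖u k‖ ^ p := sum_nonneg fun i _ => by positivity
      have hUnn : 0 ≤ U := by positivity
      rcases hUnn.eq_or_lt with hU0 | hU0
      · -- `u = 0`
        have h1 : ∑ k ∈ range M, ‖u k‖ ^ p = 0 := by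
          rw [hU] at hU0
          exact (Real.rpow_eq_zero hSnn (by have := hpq.pos; positivity)).1 hU0.symm
        have h2 : ∀ k ∈ range M, u k = 0 := by
          intro k hk
          have := (sum_eq_zero_iff_of_nonneg (fun i _ => by positivity)).1 h1 k hk
          rw [Real.rpow_eq_zero (norm_nonneg _) hpq.ne_zero] at this
          simpa using this
        have h3 : ∀ m ∈ range M, ‖cv d u m‖ ^ p = 0 := by
          intro m hm
          have : cv d u m = 0 := by
            unfold cv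
            apply sum_eq_zero
            intro k hk
            rw [mem_range] at hk hm
            rw [h2 k (mem_range.2 (by omega)), mul_zero]
          rw [this, norm_zero, Real.zero_rpow hpq.ne_zero]
        rw [sum_congr rfl h3, sum_const_zero, Real.zero_rpow (by have := hpq.pos; positivity)]
        positivity
      · set u' : ℕ → ℂ := fun k => ((U⁻¹ : ℝ) : ℂ) * u k with hu'
        have hUp : U ^ p = ∑ k ∈ range M, ‖u k‖ ^ p := by
          rw [hU, ← Real.rpow_mul hSnn, one_div_mul_cancel hpq.ne_zero, Real.rpow_one]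
        have h1 : ∑ j ∈ range M, ‖u' j‖ ^ p ≤ 1 := by
          have : ∀ j ∈ range M, ‖u' j‖ ^ p = (U ^ p)⁻¹ * ‖u j‖ ^ p := by
            intro j _
            rw [hu']
            simp only [norm_mul, Complex.norm_real]
            rw [Real.mul_rpow (norm_nonneg _) (norm_nonneg _), Real.norm_of_nonneg (by positivity),
              Real.inv_rpow hUnn]
          rw [sum_congr rfl this, ← mul_sum, ← hUp, inv_mul_cancel₀ (by positivity)]
        have h2 : (∑ m ∈ range M, ‖cv d u' m‖ ^ p) ^ (1 / p) ≤ s := by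
          apply dual_bound hpq hs0.le
          intro w hw
          rw [← pairing]
          exact hsb u' w h1 hw
        have h3 : ∀ m ∈ range M, ‖cv d u m‖ ^ p = U ^ p * ‖cv d u' m‖ ^ p := by
          intro m _
          have : cv d u m = (U : ℂ) * cv d u' m := by
            unfold cv
            rw [mul_sum]
            refine sum_congr rfl fun k _ => ?_
            rw [hu']
            have : (U : ℂ) ≠ 0 := by exact_mod_cast hU0.ne'
            push_cast
            field_simp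
          rw [this, norm_mul, Complex.norm_real, Real.norm_of_nonneg hUnn,
            Real.mul_rpow hUnn (norm_nonneg _)]
        rw [sum_congr rfl h3, ← mul_sum, Real.mul_rpow (by positivity)
          (sum_nonneg fun i _ => by positivity), ← Real.rpow_mul hUnn,
          mul_one_div_cancel hpq.ne_zero, Real.rpow_one, mul_comm]
        exact mul_le_mul_of_nonneg_right h2 hUnn
    have h1 := h d s hs0.le hBM
    have h2 : s < ‖(∑ n ∈ range M, d n * c n) / ρ‖ := by
      have e0 := hfd (fun n => c n / (ρ : ℂ))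
      beta_reduce at e0
      rw [e0] at hs
      have e : ∑ n ∈ range M, d n * (c n / (ρ : ℂ)) = (∑ n ∈ range M, d n * c n) / ρ := by
        rw [sum_div]; exact sum_congr rfl fun _ _ => by ring
      rw [e] at hs
      exact hs.trans_le (Complex.re_le_norm _)
    rw [norm_div, Complex.norm_real, Real.norm_of_nonneg hρ.le, lt_div_iff₀ hρ] at h2
    linarith
  obtain ⟨a, ⟨ι, hι, u, w, hu, hw, ha⟩, hdist⟩ := Metric.mem_closure_iff.1 hmem (ε / ρ)
    (by positivity)
  refine ⟨ι, hι, fun b j => ((ρ ^ (1 / p) : ℝ) : ℂ) * u b j,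
    fun b j => ((ρ ^ (1 / q) : ℝ) : ℂ) * w b j, ?_, ?_, ?_⟩
  · rw [sum_scale hpq.pos hρ.le]
    nlinarith
  · rw [sum_scale hpq.symm.pos hρ.le]
    nlinarith
  · intro n hn
    simp only [sp_smul, scale_mul hpq hρ.le]
    have h1 := (dist_pi_lt_iff (by positivity)).1 hdist ⟨n, hn⟩
    simp only [] at h1
    rw [ha, dist_eq_norm] at h1
    rw [← mul_sum]
    have h2 : (ρ : ℂ) * ∑ b, sp M (u b) (w b) n - c n =
        -(ρ * (c n / ρ - ∑ b, sp M (u b) (w b) n)) := by
      have : (ρ : ℂ) ≠ 0 := by exact_mod_cast hρ.ne'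
      field_simp
      ring
    rw [h2, norm_neg, norm_mul, Complex.norm_real, Real.norm_of_nonneg hρ.le]
    rw [lt_div_iff₀ hρ] at h1
    linarith

end Pool.Agent.Y280
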