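import Pool.Agent.Y280.HRep

/-!
# Copies of a matrix, coupled by a weighted shift
-/

set_option autoImplicit false
open Finset Filter Topology Polynomial

namespace Pool.Agent.Y280

section

variable {I : Type} [Fintype I]

lemma OpM.add {p : ℝ} (hp : 1 ≤ p) {A B : Matrix I I ℂ} {r s : ℝ} (hr : 0 ≤ r) (hs : 0 ≤ s)
    (hA : OpM p A r) (hB : OpM p B s) : OpM p (A + B) (r + s) := by
  have hp0 : 0 < p := by linarith
  intro x
  set X := (∑ j, ‖x j‖ ^ p) ^ (1 / p) with hX
  have hXn : 0 ≤ ∑ j, ‖x j‖ ^ p := sum_nonneg fun _ _ => by positivity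
  have hX0 : 0 ≤ X := by positivity
  have hXp : X ^ p = ∑ j, ‖x j‖ ^ p := by
    rw [hX, ← Real.rpow_mul hXn, one_div_mul_cancel hp0.ne', Real.rpow_one]
  have h1 : ∀ (C : Matrix I I ℂ) (t : ℝ), 0 ≤ t → OpM p C t →
      (∑ i, ‖∑ j, C i j * x j‖ ^ p) ^ (1 / p) ≤ t * X := by
    intro C t ht hC
    have h2 := Real.rpow_le_rpow (sum_nonneg fun _ _ => by positivity) (hC x)
      (show 0 ≤ 1 / p by positivity)
    rw [Real.mul_rpow (by positivity) hXn, ← Real.rpow_mul ht, mul_one_div_cancel hp0.ne',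
      Real.rpow_one] at h2
    exact h2
  have h2 := Real.Lp_add_le (s := (univ : Finset I)) (fun i => ‖∑ j, A i j * x j‖)
    (fun i => ‖∑ j, B i j * x j‖) hp
  have h3 : (∑ i, ‖∑ j, (A + B) i j * x j‖ ^ p) ^ (1 / p) ≤ (r + s) * X := by
    refine le_trans (Real.rpow_le_rpow (sum_nonneg fun _ _ => by positivity)
      (sum_le_sum fun i _ => ?_) (show 0 ≤ 1 / p by positivity))
      (h2.trans ?_)
    · refine Real.rpow_le_rpow (norm_nonneg _) ?_ hp0.le
      have e : ∑ j, (A + B) i j * x j = ∑ j, A i j * x j + ∑ j, B i j * x j := by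
        rw [← sum_add_distrib]
        exact sum_congr rfl fun j _ => by rw [Matrix.add_apply]; ring
      rw [e]
      exact (norm_add_le _ _).trans (le_abs_self _)
    · have a1 := h1 A r hr hA
      have a2 := h1 B s hs hB
      simp only [abs_norm]
      linarith
  have h4 := Real.rpow_le_rpow (by positivity) h3 hp0.le
  rw [← Real.rpow_mul (sum_nonneg fun _ _ => by positivity), one_div_mul_cancel hp0.ne',
    Real.rpow_one, Real.mul_rpow (by linarith) hX0, hXp] at h4
  exact h4

variable [DecidableEq I]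

/-- The block diagonal part. -/
def bigD (A : Matrix I I ℂ) (m : ℕ) : Matrix (I × Fin (m + 2)) (I × Fin (m + 2)) ℂ :=
  fun x y => if x.2 = y.2 then A x.1 y.1 else 0

/-- The shift part. -/
noncomputable def bigJ (I : Type) [DecidableEq I] (m : ℕ) (δ w : ℝ) :
    Matrix (I × Fin (m + 2)) (I × Fin (m + 2)) ℂ :=
  fun x y => if x.1 = y.1 ∧ (x.2 : ℕ) = y.2 + 1 then wt m δ w y.2 else 0

/-- `A ⊗ 1 + 1 ⊗ J` with the weighted shift `J`. -/
noncomputable def big (A : Matrix I I ℂ) (m : ℕ) (δ w : ℝ) :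
    Matrix (I × Fin (m + 2)) (I × Fin (m + 2)) ℂ := bigD A m + bigJ I m δ w

/-- The blocks of a matrix. -/
def Bk (m : ℕ) (B : Matrix (I × Fin (m + 2)) (I × Fin (m + 2)) ℂ) (a b : ℕ) : Matrix I I ℂ :=
  fun i j => if h : a < m + 2 ∧ b < m + 2 then B (i, ⟨a, h.1⟩) (j, ⟨b, h.2⟩) else 0

lemma Bk_fin (m : ℕ) (B : Matrix (I × Fin (m + 2)) (I × Fin (m + 2)) ℂ) (a b : Fin (m + 2))
    (i j : I) : Bk m B a b i j = B (i, a) (j, b) := by
  unfold Bk
  rw [dif_pos ⟨a.2, b.2⟩]

lemma bigD_apply (A : Matrix I I ℂ) (m : ℕ) (x : I × Fin (m + 2) → ℂ) (y : I × Fin (m + 2)) :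
    ∑ z, bigD A m y z * x z = ∑ j, A y.1 j * x (j, y.2) := by
  rw [Fintype.sum_prod_type]
  refine sum_congr rfl fun j _ => ?_
  rw [sum_eq_single y.2]
  · unfold bigD
    rw [if_pos rfl]
  · intro b _ hb
    unfold bigD
    rw [if_neg (fun h => hb h.symm), zero_mul]
  · intro h
    exact absurd (mem_univ _) h

lemma bigJ_apply (m : ℕ) (δ w : ℝ) (x : I × Fin (m + 2) → ℂ) (i : I) (a : Fin (m + 2)) :
    ∑ z, bigJ I m δ w (i, a) z * x z =
      ∑ b : Fin (m + 2), if (a : ℕ) = b + 1 then wt m δ w b * x (i, b) else 0 := by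
  rw [Fintype.sum_prod_type, sum_eq_single i]
  · refine sum_congr rfl fun b _ => ?_
    unfold bigJ
    simp only [true_and]
    split_ifs <;> simp
  · intro j _ hj
    refine sum_eq_zero fun b _ => ?_
    unfold bigJ
    simp only
    rw [if_neg (fun h => hj h.1.symm), zero_mul]
  · intro h
    exact absurd (mem_univ _) h

lemma sum_shift (m : ℕ) (f : ℕ → ℂ) (a : Fin (m + 2)) :
    (∑ b : Fin (m + 2), if (a : ℕ) = b + 1 then f b else 0) =
      if 0 < (a : ℕ) then f (a - 1) else 0 := by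
  split_ifs with h
  · rw [sum_eq_single (⟨a - 1, by have := a.2; omega⟩ : Fin (m + 2))]
    · rw [if_pos (by simp only; omega)]
    · intro b _ hb
      rw [if_neg]
      intro h'
      apply hb
      apply Fin.ext
      simp only
      omega
    · intro h'
      exact absurd (mem_univ _) h'
  · refine sum_eq_zero fun b _ => ?_
    rw [if_neg (by omega)]

lemma sum_shift' (m : ℕ) (f : ℕ → ℂ) (b : Fin (m + 2)) :
    (∑ a : Fin (m + 2), if (a : ℕ) = b + 1 then f a else 0) =
      if (b : ℕ) < m + 1 then f (b + 1) else 0 := by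
  split_ifs with h
  · rw [sum_eq_single (⟨b + 1, by omega⟩ : Fin (m + 2))]
    · rw [if_pos (by simp only)]
    · intro a _ ha
      rw [if_neg]
      intro h'
      apply ha
      apply Fin.ext
      simp only
      omega
    · intro h'
      exact absurd (mem_univ _) h'
  · refine sum_eq_zero fun a _ => ?_
    have := a.2
    rw [if_neg (by omega)]

lemma rel_of_comm {A : Matrix I I ℂ} {m : ℕ} {δ w : ℝ}
    {B : Matrix (I × Fin (m + 2)) (I × Fin (m + 2)) ℂ} (h : big A m δ w * B = B * big A m δ w) :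
    ∀ a ≤ m + 1, ∀ b ≤ m + 1, A * Bk m B a b - Bk m B a b * A =
      (if b < m + 1 then wt m δ w b • Bk m B a (b + 1) else 0) -
        (if 0 < a then wt m δ w (a - 1) • Bk m B (a - 1) b else 0) := by
  intro a ha b hb
  obtain ⟨a, rfl⟩ : ∃ a' : Fin (m + 2), a = a' := ⟨⟨a, by omega⟩, rfl⟩
  obtain ⟨b, rfl⟩ : ∃ b' : Fin (m + 2), b = b' := ⟨⟨b, by omega⟩, rfl⟩
  ext i j
  have h1 := congrFun (congrFun h (i, a)) (j, b)
  -- the left-hand side
  have e1 : (big A m δ w * B) (i, a) (j, b) = (A * Bk m B a b) i j +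
      (if 0 < (a : ℕ) then wt m δ w (a - 1) • Bk m B (a - 1) b else 0) i j := by
    rw [Matrix.mul_apply]
    have e2 : ∀ z, big A m δ w (i, a) z * B z (j, b) = bigD A m (i, a) z * B z (j, b) +
        bigJ I m δ w (i, a) z * B z (j, b) := fun z => by
      unfold big
      rw [Matrix.add_apply, add_mul]
    rw [sum_congr rfl fun z _ => e2 z, sum_add_distrib, bigD_apply A m (fun z => B z (j, b)),
      bigJ_apply m δ w (fun z => B z (j, b)), Matrix.mul_apply]
    congr 1
    · exact sum_congr rfl fun k _ => by rw [Bk_fin]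
    · have e3 := sum_shift m (fun c => wt m δ w c * Bk m B c b i j) a
      have e4 : ∀ c : Fin (m + 2), (if (a : ℕ) = c + 1 then wt m δ w c * B (i, c) (j, b) else 0) =
          if (a : ℕ) = c + 1 then wt m δ w c * Bk m B c b i j else 0 := fun c => by
        rw [Bk_fin]
      rw [sum_congr rfl fun c _ => e4 c, e3]
      split_ifs
      · rfl
      · rfl
  have e5 : (B * big A m δ w) (i, a) (j, b) = (Bk m B a b * A) i j +
      (if (b : ℕ) < m + 1 then wt m δ w b • Bk m B a (b + 1) else 0) i j := by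
    rw [Matrix.mul_apply]
    have e2 : ∀ z, B (i, a) z * big A m δ w z (j, b) = B (i, a) z * bigD A m z (j, b) +
        B (i, a) z * bigJ I m δ w z (j, b) := fun z => by
      unfold big
      rw [Matrix.add_apply, mul_add]
    rw [sum_congr rfl fun z _ => e2 z, sum_add_distrib, Matrix.mul_apply]
    congr 1
    · rw [Fintype.sum_prod_type]
      refine sum_congr rfl fun k _ => ?_
      rw [sum_eq_single b]
      · unfold bigD
        simp only [if_true]
        rw [Bk_fin]
      · intro c _ hc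
        unfold bigD
        simp only
        rw [if_neg hc, mul_zero]
      · intro h'
        exact absurd (mem_univ _) h'
    · rw [Fintype.sum_prod_type, sum_eq_single j]
      · have e3 := sum_shift' m (fun c => wt m δ w b * Bk m B a c i j) b
        have e4 : ∀ c : Fin (m + 2), B (i, a) (j, c) * bigJ I m δ w (j, c) (j, b) =
            if (c : ℕ) = b + 1 then wt m δ w b * Bk m B a c i j else 0 := fun c => by
          rw [Bk_fin]
          unfold bigJ
          simp only [true_and]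
          split_ifs
          · ring
          · ring
        rw [sum_congr rfl fun c _ => e4 c, e3]
        split_ifs
        · rfl
        · rfl
      · intro k _ hk
        refine sum_eq_zero fun c _ => ?_
        unfold bigJ
        simp only
        rw [if_neg (fun h => hk h.1), mul_zero]
      · intro h'
        exact absurd (mem_univ _) h'
  rw [e1, e5] at h1
  rw [Matrix.sub_apply, Matrix.sub_apply]
  linear_combination h1

lemma OpM.Bk {p : ℝ} (hp : 0 < p) {m : ℕ} {B : Matrix (I × Fin (m + 2)) (I × Fin (m + 2)) ℂ}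
    {r : ℝ} (hr : 0 ≤ r) (hB : OpM p B r) (a b : ℕ) : OpM p (Bk m B a b) r := by
  by_cases h : a < m + 2 ∧ b < m + 2
  · obtain ⟨a, rfl⟩ : ∃ a' : Fin (m + 2), a = a' := ⟨⟨a, h.1⟩, rfl⟩
    obtain ⟨b, rfl⟩ : ∃ b' : Fin (m + 2), b = b' := ⟨⟨b, h.2⟩, rfl⟩
    intro x
    have h1 := hB (fun z => if z.2 = b then x z.1 else 0)
    have e1 : ∀ y, ∑ z, B y z * (if z.2 = b then x z.1 else 0) = ∑ j, B y (j, b) * x j := by
      intro y
      rw [Fintype.sum_prod_type]
      refine sum_congr rfl fun j _ => ?_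
      rw [sum_eq_single b]
      · simp
      · intro c _ hc
        simp only
        rw [if_neg hc, mul_zero]
      · intro h'
        exact absurd (mem_univ _) h'
    have e2 : ∑ z : I × Fin (m + 2), ‖(if z.2 = b then x z.1 else 0)‖ ^ p = ∑ j, ‖x j‖ ^ p := by
      rw [Fintype.sum_prod_type]
      refine sum_congr rfl fun j _ => ?_
      rw [sum_eq_single b]
      · simp
      · intro c _ hc
        simp only
        rw [if_neg hc, norm_zero, Real.zero_rpow hp.ne']
      · intro h'
        exact absurd (mem_univ _) h'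
    rw [e2] at h1
    refine le_trans ?_ h1
    simp only [e1, Bk_fin]
    rw [Fintype.sum_prod_type]
    refine sum_le_sum fun i _ => ?_
    exact single_le_sum (f := fun c => ‖∑ j, B (i, c) (j, b) * x j‖ ^ p)
      (fun _ _ => by positivity) (mem_univ a)
  · intro x
    have e : ∀ i j, Y280.Bk m B a b i j = 0 := fun i j => by
      unfold Y280.Bk
      rw [dif_neg h]
    simp only [e, zero_mul, sum_const_zero, norm_zero, Real.zero_rpow hp.ne']
    exact mul_nonneg (by positivity) (sum_nonneg fun _ _ => by positivity)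

lemma OpM_bigD {p : ℝ} {A : Matrix I I ℂ} {r : ℝ} (hA : OpM p A r) (m : ℕ) :
    OpM p (bigD A m) r := by
  intro x
  simp only [bigD_apply]
  rw [Fintype.sum_prod_type_right, Fintype.sum_prod_type_right, mul_sum]
  exact sum_le_sum fun a _ => hA fun j => x (j, a)

lemma OpM_bigJ {p : ℝ} (hp : 0 < p) (m : ℕ) {δ w : ℝ} (hδ : 0 ≤ δ) (hδw : δ ≤ w) :
    OpM p (bigJ I m δ w) w := by
  have hw : 0 ≤ w := hδ.trans hδw
  intro x
  rw [Fintype.sum_prod_type, Fintype.sum_prod_type, mul_sum]
  refine sum_le_sum fun i _ => ?_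
  simp only [bigJ_apply]
  have hwt : ∀ j, ‖wt m δ w j‖ ≤ w := by
    intro j
    unfold wt
    split_ifs
    · rw [Complex.norm_real, Real.norm_of_nonneg hδ]; exact hδw
    · rw [Complex.norm_real, Real.norm_of_nonneg hw]
  -- each row has at most one entry
  have h1 : ∀ a : Fin (m + 2), ‖∑ b : Fin (m + 2), (if (a : ℕ) = b + 1 then
      wt m δ w b * x (i, b) else 0)‖ ^ p ≤
      ∑ b : Fin (m + 2), if (a : ℕ) = b + 1 then w ^ p * ‖x (i, b)‖ ^ p else 0 := by
    intro a
    by_cases h : 0 < (a : ℕ)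
    · set b0 : Fin (m + 2) := ⟨a - 1, by have := a.2; omega⟩ with hb0
      have hab : (a : ℕ) = b0 + 1 := by simp only [hb0]; omega
      rw [sum_eq_single b0, sum_eq_single b0]
      · rw [if_pos hab, if_pos hab, norm_mul, Real.mul_rpow (norm_nonneg _) (norm_nonneg _)]
        exact mul_le_mul_of_nonneg_right (Real.rpow_le_rpow (norm_nonneg _) (hwt _) hp.le)
          (by positivity)
      · intro b _ hb
        rw [if_neg]
        intro h'
        exact hb (Fin.ext (by simp only [hb0]; omega))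
      · intro h'
        exact absurd (mem_univ _) h'
      · intro b _ hb
        rw [if_neg]
        intro h'
        exact hb (Fin.ext (by simp only [hb0]; omega))
      · intro h'
        exact absurd (mem_univ _) h'
    · rw [sum_eq_zero, sum_eq_zero, norm_zero, Real.zero_rpow hp.ne']
      · intro b _
        rw [if_neg (by omega)]
      · intro b _
        rw [if_neg (by omega)]
  refine (sum_le_sum fun a _ => h1 a).trans ?_
  rw [sum_comm, mul_sum]
  refine sum_le_sum fun b _ => ?_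
  by_cases hb : (b : ℕ) < m + 1
  · rw [sum_eq_single (⟨b + 1, by omega⟩ : Fin (m + 2))]
    · rw [if_pos rfl]
    · intro a _ ha
      rw [if_neg]
      intro h'
      exact ha (Fin.ext (by simp only; omega))
    · intro h'
      exact absurd (mem_univ _) h'
  · rw [sum_eq_zero]
    · positivity
    · intro a _
      have := a.2
      rw [if_neg (by omega)]

lemma OpM_big {p : ℝ} (hp : 1 ≤ p) {A : Matrix I I ℂ} {r : ℝ} (hr : 0 ≤ r) (hA : OpM p A r)
    (m : ℕ) {δ w : ℝ} (hδ : 0 ≤ δ) (hδw : δ ≤ w) : OpM p (big A m δ w) (r + w) :=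
  OpM.add hp hr (hδ.trans hδw) (OpM_bigD hA m) (OpM_bigJ (by linarith) m hδ hδw)

/-- The vector on the copies. -/
def uc {m : ℕ} (u : I → ℂ) (U : Fin m → I → ℂ) : ℕ → I → ℂ
  | 0 => u
  | b + 1 => if h : b < m then U ⟨b, h⟩ else 0

/-- The vector on the copies as a vector. -/
def uu {m : ℕ} (u : I → ℂ) (U : Fin m → I → ℂ) : I × Fin (m + 2) → ℂ := fun z => uc u U z.2 z.1

lemma norm_bil_le {v : I → ℂ} {B : Matrix I I ℂ} {u : I → ℂ} (hB : ∀ i j, ‖B i j‖ ≤ 1) :
    ‖bil v B u‖ ≤ (∑ i, ‖v i‖) * ∑ j, ‖u j‖ := by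
  unfold bil
  rw [sum_mul]
  refine (norm_sum_le _ _).trans (sum_le_sum fun i _ => ?_)
  rw [mul_sum]
  refine (norm_sum_le _ _).trans (sum_le_sum fun j _ => ?_)
  rw [norm_mul, norm_mul]
  refine mul_le_mul_of_nonneg_left ?_ (norm_nonneg _)
  exact mul_le_of_le_one_left (norm_nonneg _) (hB i j)

lemma bil_neg (v : I → ℂ) (B : Matrix I I ℂ) (u : I → ℂ) :
    bil (fun i => -v i) B u = -bil v B u := by
  unfold bil
  rw [← sum_neg_distrib]
  refine sum_congr rfl fun i _ => ?_
  rw [← sum_neg_distrib]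
  exact sum_congr rfl fun j _ => by ring

/-- **The coupled copies kill the pair of vectors.** -/
theorem big_HM {p : ℝ} (hp : 0 < p) {A : Matrix I I ℂ} {χ : ℂ[X]} (hχ : aeval A χ = 0)
    (hs : χ.Separable) {u v : I → ℂ} {m : ℕ} {U V : Fin m → I → ℂ} {η : ℝ} (hη : 0 < η)
    (hrep : ∀ B : Matrix I I ℂ, A * B = B * A → OpM p B 1 →
      ‖bil v B u - ∑ b, bil (V b) B (U b)‖ ≤ η) {w : ℝ} (hw : 0 < w) :
    ∃ δ₀ > 0, ∀ δ, 0 < δ → δ ≤ δ₀ →
      HM p (big A m δ w) (uu u U) (uu v fun b i => -V b i) (2 * η) := by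
  set K : ℝ := (∑ a ∈ range (m + 1), ∑ i, ‖uc v (fun b i => -V b i) a i‖) *
    ∑ b ∈ range (m + 1), ∑ j, ‖uc u U b j‖ with hK
  have hK0 : 0 ≤ K := mul_nonneg (sum_nonneg fun _ _ => sum_nonneg fun _ _ => norm_nonneg _)
    (sum_nonneg fun _ _ => sum_nonneg fun _ _ => norm_nonneg _)
  refine ⟨η * w / (K + 1), by positivity, fun δ hδ hδ' => ?_⟩
  intro B hAB hB
  obtain ⟨h0, h1, h2⟩ := block_toeplitz hχ hs m hδ hw (Bk m B) (rel_of_comm hAB)
  have hent : ∀ a b i j, ‖Bk m B a b i j‖ ≤ 1 := fun a b =>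
    (OpM.Bk hp zero_le_one hB a b).entry hp zero_le_one
  set uC := uc u U with huC
  set vC := uc v (fun b i => -V b i) with hvC
  have hlast : ∀ (u : I → ℂ) (U : Fin m → I → ℂ), uc u U (m + 1) = 0 := by
    intro u U
    show (if h : m < m then U ⟨m, h⟩ else 0) = 0
    rw [dif_neg (lt_irrefl m)]
  have e1 : bil (uu v fun b i => -V b i) B (uu u U) =
      ∑ a ∈ range (m + 1), ∑ b ∈ range (m + 1), bil (vC a) (Bk m B a b) (uC b) := by
    have e2 : bil (uu v fun b i => -V b i) B (uu u U) =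
        ∑ a ∈ range (m + 2), ∑ b ∈ range (m + 2), bil (vC a) (Bk m B a b) (uC b) := by
      rw [← Fin.sum_univ_eq_sum_range (fun a => ∑ b ∈ range (m + 2),
        bil (vC a) (Bk m B a b) (uC b)) (m + 2)]
      have e3 : ∀ a : Fin (m + 2), ∑ b ∈ range (m + 2), bil (vC a) (Bk m B a b) (uC b) =
          ∑ b : Fin (m + 2), bil (vC a) (Bk m B a b) (uC b) := fun a =>
        (Fin.sum_univ_eq_sum_range (fun b => bil (vC a) (Bk m B a b) (uC b)) (m + 2)).symm
      rw [sum_congr rfl fun a _ => e3 a]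
      unfold bil
      rw [Fintype.sum_prod_type_right]
      refine sum_congr rfl fun a _ => ?_
      conv_rhs => rw [sum_comm]
      refine sum_congr rfl fun i _ => ?_
      rw [Fintype.sum_prod_type_right]
      refine sum_congr rfl fun b _ => ?_
      refine sum_congr rfl fun j _ => ?_
      rw [Bk_fin]
      rfl
    rw [e2, sum_range_succ (n := m + 1)]
    have e4 : ∑ b ∈ range (m + 2), bil (vC (m + 1)) (Bk m B (m + 1) b) (uC b) = 0 := by
      refine sum_eq_zero fun b _ => ?_
      rw [hvC, hlast]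
      unfold bil
      simp
    rw [e4, add_zero]
    refine sum_congr rfl fun a _ => ?_
    rw [sum_range_succ (n := m + 1)]
    have e5 : bil (vC a) (Bk m B a (m + 1)) (uC (m + 1)) = 0 := by
      rw [huC, hlast]
      unfold bil
      simp
    rw [e5, add_zero]
  have e6 : ∑ a ∈ range (m + 1), ∑ b ∈ range (m + 1), bil (vC a) (Bk m B a b) (uC b) =
      ∑ a ∈ range (m + 1), bil (vC a) (Bk m B 0 0) (uC a) +
      ∑ a ∈ range (m + 1), ∑ b ∈ range (m + 1),
        if a = b then 0 else bil (vC a) (Bk m B a b) (uC b) := by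
    rw [← sum_add_distrib]
    refine sum_congr rfl fun a ha => ?_
    rw [mem_range] at ha
    have e7 : ∀ b ∈ range (m + 1), bil (vC a) (Bk m B a b) (uC b) =
        (if a = b then bil (vC a) (Bk m B 0 0) (uC a) else 0) +
        (if a = b then 0 else bil (vC a) (Bk m B a b) (uC b)) := by
      intro b _
      by_cases hab : a = b
      · subst hab
        rw [if_pos rfl, if_pos rfl, add_zero, h1 a (by omega)]
      · rw [if_neg hab, if_neg hab, zero_add]
    rw [sum_congr rfl e7, sum_add_distrib, sum_ite_eq, if_pos (mem_range.2 ha)]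
  have e8 : ∑ a ∈ range (m + 1), bil (vC a) (Bk m B 0 0) (uC a) =
      bil v (Bk m B 0 0) u - ∑ b, bil (V b) (Bk m B 0 0) (U b) := by
    rw [sum_range_succ', add_comm, sub_eq_add_neg]
    congr 1
    rw [← Fin.sum_univ_eq_sum_range (fun a => bil (vC (a + 1)) (Bk m B 0 0) (uC (a + 1))) m,
      ← sum_neg_distrib]
    refine sum_congr rfl fun b _ => ?_
    rw [← bil_neg]
    simp only [huC, hvC, uc, b.2, dif_pos]
  have b1 := hrep (Bk m B 0 0) h0 (OpM.Bk hp zero_le_one hB 0 0)
  have b2 : ‖∑ a ∈ range (m + 1), ∑ b ∈ range (m + 1),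
      if a = b then 0 else bil (vC a) (Bk m B a b) (uC b)‖ ≤ η := by
    have b3 : ∀ a ∈ range (m + 1), ∀ b ∈ range (m + 1),
        ‖if a = b then 0 else bil (vC a) (Bk m B a b) (uC b)‖ ≤
          δ / w * ((∑ i, ‖vC a i‖) * ∑ j, ‖uC b j‖) := by
      intro a ha b hb
      rw [mem_range] at ha hb
      split_ifs with hab
      · rw [norm_zero]
        exact mul_nonneg (by positivity) (mul_nonneg (sum_nonneg fun _ _ => norm_nonneg _)
          (sum_nonneg fun _ _ => norm_nonneg _))
      · obtain ⟨a', _, b', _, c, hc, he⟩ := h2 a (by omega) b (by omega) hab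
        rw [he, bil_smul, norm_mul]
        exact mul_le_mul hc (norm_bil_le (hent a' b')) (norm_nonneg _) (by positivity)
    refine (norm_sum_le _ _).trans ((sum_le_sum fun a ha => (norm_sum_le _ _).trans
      (sum_le_sum fun b hb => b3 a ha b hb)).trans ?_)
    have e9 : ∑ a ∈ range (m + 1), ∑ b ∈ range (m + 1),
        δ / w * ((∑ i, ‖vC a i‖) * ∑ j, ‖uC b j‖) = δ / w * K := by
      rw [hK, sum_mul, mul_sum]
      refine sum_congr rfl fun a _ => ?_
      rw [mul_sum, mul_sum]
    rw [e9, div_mul_eq_mul_div, div_le_iff₀ hw]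
    rw [le_div_iff₀ (by positivity)] at hδ'
    nlinarith
  rw [e1, e6, e8]
  exact (norm_add_le _ _).trans (by linarith)

end

end Pool.Agent.Y280
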