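import Pool.Agent.Y280.HLp

/-!
# Hyperinvariant subspaces of typical contractions of `ℓ_p`, in coordinates
-/

set_option autoImplicit false
open Finset Filter Topology TopologicalSpace
open scoped ENNReal

namespace Pool.Agent.Y280

section transfer

variable {E F : Type} [NormedAddCommGroup E] [NormedSpace ℂ E]
  [NormedAddCommGroup F] [NormedSpace ℂ F]

/-- Transfer of the statement through an isometric isomorphism. -/
theorem transfer_hyp (Q : Prop) (e : E ≃ₗᵢ[ℂ] F) (C : Set (E →L[ℂ] E)) (C' : Set (F →L[ℂ] F))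
    (h : ∀ T, T ∈ C ↔ cj e T ∈ C') (t : TopologicalSpace C)
    (ht : t = SOTStar C ∨ (t = SOT C ∧ Q)) (P : (E →L[ℂ] E) → Prop) (P' : (F →L[ℂ] F) → Prop)
    (hP : ∀ T, P' (cj e T) → P T)
    (hC' : ∀ t' : TopologicalSpace C', (t' = SOTStar C' ∨ (t' = SOT C' ∧ Q)) →
      C'.Nonempty ∧ @IsCompletelyMetrizableSpace C' t' ∧ @BaireSpace C' t' ∧
        {T : C' | P' T} ∈ @residual C' t') :
    C.Nonempty ∧ @IsCompletelyMetrizableSpace C t ∧ @BaireSpace C t ∧
      {T : C | P T} ∈ @residual C t := by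
  have h' : ∀ T, T ∈ C' ↔ cj e.symm T ∈ C := fun T => by rw [h, cj_cj_symm]
  let f : C ≃ C' :=
    { toFun := fun T => ⟨cj e T, (h T).1 T.2⟩
      invFun := fun T => ⟨cj e.symm T, (h' T).1 T.2⟩
      left_inv := fun T => Subtype.ext (cj_symm_cj e T)
      right_inv := fun T => Subtype.ext (cj_cj_symm e T) }
  obtain ⟨t', ht', hc1, hc2⟩ : ∃ t' : TopologicalSpace C',
      (t' = SOTStar C' ∨ (t' = SOT C' ∧ Q)) ∧
      @Continuous C C' t t' f ∧ @Continuous C' C t' t f.symm := by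
    rcases ht with rfl | ⟨rfl, hQ⟩
    · exact ⟨SOTStar C', Or.inl rfl, continuous_cj_sotStar e C C' f fun _ => rfl,
        continuous_cj_sotStar e.symm C' C f.symm fun _ => rfl⟩
    · exact ⟨SOT C', Or.inr ⟨rfl, hQ⟩, continuous_cj_sot e C C' f fun _ => rfl,
        continuous_cj_sot e.symm C' C f.symm fun _ => rfl⟩
  obtain ⟨hne, hcm, hb, hr⟩ := hC' t' ht'
  letI := t
  letI := t'
  let φ : C ≃ₜ C' := ⟨f, hc1, hc2⟩
  haveI := hcm
  have hcmC : IsCompletelyMetrizableSpace C := φ.isClosedEmbedding.IsCompletelyMetrizableSpace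
  refine ⟨?_, hcmC, ?_, ?_⟩
  · obtain ⟨T, hT⟩ := hne
    exact ⟨cj e.symm T, (h' T).1 hT⟩
  · exact BaireSpace.of_completelyPseudoMetrizable
  · have : φ ⁻¹' {T : C' | P' T} ∈ residual C := by
      have h1 := φ.symm.residual_map_eq
      rw [← h1, Filter.mem_map, ← Set.preimage_comp]
      simpa using hr
    exact Filter.mem_of_superset this fun T hT => hP T hT

/-- The property to be `DenselyHyperinvariant` is invariant under conjugation. -/
lemma denselyHyperinvariant_cj (e : E ≃ₗᵢ[ℂ] F) (T : E →L[ℂ] E)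
    (h : DenselyHyperinvariant (cj e T)) : DenselyHyperinvariant T := by
  intro x₀ ε hε
  obtain ⟨M, hcl, hb, ht, hinv, x, hx, hxe⟩ := h (e x₀) ε hε
  refine ⟨M.comap (e.toLinearEquiv : E →ₗ[ℂ] F), ?_, ?_, ?_, ?_, e.symm x, ?_, ?_⟩
  · exact hcl.preimage e.continuous
  · intro hbot
    apply hb
    rw [Submodule.eq_bot_iff]
    intro v hv
    have : e.symm v ∈ M.comap (e.toLinearEquiv : E →ₗ[ℂ] F) := by
      show e (e.symm v) ∈ M
      rwa [e.apply_symm_apply]
    rw [hbot, Submodule.mem_bot] at this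
    simpa using this
  · intro htop
    apply ht
    rw [Submodule.eq_top_iff']
    intro v
    have : e.symm v ∈ M.comap (e.toLinearEquiv : E →ₗ[ℂ] F) := by
      rw [htop]
      trivial
    have h2 : e (e.symm v) ∈ M := this
    rwa [e.apply_symm_apply] at h2
  · intro S hS v hv
    have hcomm : cj e S * cj e T = cj e T * cj e S := by
      ext z
      simp only [mul_apply_eq_comp, cj_apply, e.symm_apply_apply]
      have := congrArg (fun R : E →L[ℂ] E => R (e.symm z)) hS
      simp only [mul_apply_eq_comp] at this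
      rw [this]
    have h1 := hinv (cj e S) hcomm (e v) hv
    rw [cj_apply, e.symm_apply_apply] at h1
    exact h1
  · show e (e.symm x) ∈ M
    rwa [e.apply_symm_apply]
  · rw [← e.norm_map, map_sub, e.apply_symm_apply]
    exact hxe

end transfer

variable {P : ℝ≥0∞} [hP : Fact (1 ≤ P)]

/-- **Typical contractions of `ℓ_p` and their commutants.** -/
theorem typ_hyp_all (hP1 : 1 < P) (hPt : P ≠ ∞) (t : TopologicalSpace (OpBall P))
    (ht : t = SOTStar (OpBall P) ∨ (t = SOT (OpBall P) ∧ 2 < P.toReal)) :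
    (OpBall P).Nonempty ∧ @IsCompletelyMetrizableSpace (OpBall P) t ∧
      @BaireSpace (OpBall P) t ∧
      {T : OpBall P | DenselyHyperinvariant (T : EP P →L[ℂ] EP P)} ∈ @residual (OpBall P) t := by
  have hcm1 := opBall_cm_sot hPt
  have hcm2 := opBall_cm_sotStar hP1 hPt
  haveI := sep_EP hPt
  haveI := sep_EP_dual hP1 hPt
  haveI : Nontrivial (EP P) := ⟨eP P 0, 0, fun h0 => by
    have := norm_eP (P := P) 0
    rw [h0, norm_zero] at this
    exact zero_ne_one this⟩
  have hp1 := one_lt_toReal hP1 hPt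
  have hstar : {w : OpBall P | GoodH (w : EP P →L[ℂ] EP P)} ∈
      @residual (OpBall P) (sotStar (OpBall P)) := by
    letI : TopologicalSpace (OpBall P) := sotStar (OpBall P)
    haveI := fc_of_cm _ hcm2
    exact typ_hyp (Real.HolderConjugate.conjExponent hp1) (blockSys_EP hP1 hPt)
      (ballS_sotStar (OpBall P) rfl)
  have hgood : ∀ T : OpBall P, GoodH (T : EP P →L[ℂ] EP P) →
      DenselyHyperinvariant (T : EP P →L[ℂ] EP P) := fun T hT => hyp_of_goodH hT
  have hb : ∀ t : TopologicalSpace (OpBall P), @IsCompletelyMetrizableSpace (OpBall P) t →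
      @BaireSpace (OpBall P) t := fun t hcm =>
    @BaireSpace.of_completelyPseudoMetrizable _ t
      (@IsCompletelyMetrizableSpace.toIsCompletelyPseudoMetrizableSpace _ t hcm)
  refine ⟨⟨0, by simp [OpBall]⟩, ?_⟩
  rcases ht with rfl | ⟨rfl, h2⟩
  · exact ⟨hcm2, hb _ hcm2, Filter.mem_of_superset hstar fun T hT => hgood T hT⟩
  · have hsot : {w : OpBall P | GoodH (w : EP P →L[ℂ] EP P)} ∈
        @residual (OpBall P) (sot (OpBall P)) :=
      residual_transfer _ _ (sotStar_le_sot _) (dense_points h2 hP1 hPt) hstar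
    exact ⟨hcm1, hb _ hcm1, Filter.mem_of_superset hsot fun T hT => hgood T hT⟩

/-- The same in coordinates. -/
theorem result_hyp {E : Type} [NormedAddCommGroup E] [NormedSpace ℂ E] (p : ℝ) (hp : 1 < p)
    (c : E →ₗ[ℂ] (ℕ → ℂ)) (hc : IsEllp p c) (C : Set (E →L[ℂ] E)) (hC : C = {T | ‖T‖ ≤ 1})
    (t : TopologicalSpace C) (ht : t = SOTStar C ∨ (t = SOT C ∧ 2 < p)) :
    C.Nonempty ∧ @IsCompletelyMetrizableSpace C t ∧ @BaireSpace C t ∧
      {T : C | DenselyHyperinvariant (T : E →L[ℂ] E)} ∈ @residual C t := by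
  have hp0 : 0 < p := zero_lt_one.trans hp
  obtain ⟨P, hP1, hPt, hPr⟩ : ∃ P : ℝ≥0∞, 1 < P ∧ P ≠ ∞ ∧ P.toReal = p := by
    refine ⟨ENNReal.ofReal p, ?_, ENNReal.ofReal_ne_top, ENNReal.toReal_ofReal hp0.le⟩
    rw [← ENNReal.ofReal_one]
    exact (ENNReal.ofReal_lt_ofReal_iff hp0).2 hp
  haveI : Fact (1 ≤ P) := ⟨hP1.le⟩
  have hc' : IsEllp P.toReal c := by rw [hPr]; exact hc
  obtain ⟨e, he⟩ := exists_isometry (by rw [hPr]; exact hp0) hc'
  refine transfer_hyp (2 < p) e C (OpBall P) ?_ t ht DenselyHyperinvariant DenselyHyperinvariant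
      (denselyHyperinvariant_cj e) fun t' ht' => typ_hyp_all hP1 hPt t' (by rw [hPr]; exact ht')
  intro T
  rw [hC]
  show ‖T‖ ≤ 1 ↔ ‖cj e T‖ ≤ 1
  rw [norm_cj]

end Pool.Agent.Y280
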