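import Pool.Agent.Y280.HTyp
import Pool.Agent.Y280.GFin

/-!
# Hyperinvariant subspaces of typical contractions of `ℓ_p`
-/

set_option autoImplicit false
open Finset Filter Topology TopologicalSpace
open scoped ENNReal

namespace Pool.Agent.Y280

section nhd

variable {E : Type*} [NormedAddCommGroup E] [NormedSpace ℂ E]

lemma fin_min {α : Type*} (I : Finset α) (g : α → ℝ) (hg : ∀ a ∈ I, 0 < g a) :
    ∃ ε > 0, ∀ a ∈ I, ε ≤ g a := by
  classical
  induction I using Finset.induction_on with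
  | empty => exact ⟨1, one_pos, fun a ha => absurd ha (notMem_empty a)⟩
  | insert b s _ ih =>
    obtain ⟨ε, hε, h⟩ := ih fun a ha => hg a (mem_insert_of_mem ha)
    refine ⟨min ε (g b), lt_min hε (hg b (mem_insert_self b s)), fun a ha => ?_⟩
    rcases mem_insert.1 ha with rfl | ha
    · exact min_le_right _ _
    · exact (min_le_left _ _).trans (h a ha)

lemma pi_nhd {α F : Type*} [SeminormedAddCommGroup F] {U : Set (α → F)} (hU : IsOpen U) {f : α → F}
    (hf : f ∈ U) : ∃ (I : Finset α) (ε : ℝ), 0 < ε ∧ ∀ g : α → F, (∀ a ∈ I, ‖g a - f a‖ < ε) →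
      g ∈ U := by
  obtain ⟨I, u, hu, hIu⟩ := isOpen_pi_iff.1 hU f hf
  have h1 : ∀ a : α, ∃ r > 0, a ∈ I → Metric.ball (f a) r ⊆ u a := by
    intro a
    by_cases ha : a ∈ I
    · obtain ⟨r, hr, hr'⟩ := Metric.isOpen_iff.1 (hu a ha).1 (f a) (hu a ha).2
      exact ⟨r, hr, fun _ => hr'⟩
    · exact ⟨1, one_pos, fun h => absurd h ha⟩
  choose r hr hr' using h1
  obtain ⟨ε, hε, hεr⟩ := fin_min I r fun a _ => hr a
  refine ⟨I, ε, hε, fun g hg => hIu ?_⟩
  intro a ha
  apply hr' a ha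
  rw [Metric.mem_ball, dist_eq_norm]
  exact (hg a ha).trans_le (hεr a ha)

lemma sotStar_nhd (C : Set (E →L[ℂ] E)) (w : C) (O : Set C) (hO : @IsOpen C (sotStar C) O)
    (hw : w ∈ O) : ∃ (X : Finset E) (Y : Finset (StrongDual ℂ E)) (ε : ℝ), 0 < ε ∧
      ∀ w' : C, (∀ x ∈ X, ‖(w' : E →L[ℂ] E) x - (w : E →L[ℂ] E) x‖ < ε) →
      (∀ y ∈ Y, ‖y.comp (w' : E →L[ℂ] E) - y.comp (w : E →L[ℂ] E)‖ < ε) → w' ∈ O := by
  obtain ⟨O', hO', rfl⟩ := isOpen_induced_iff.1 hO
  obtain ⟨U, V, hU, hV, hwU, hwV, hUV⟩ := isOpen_prod_iff.1 hO' _ _ hw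
  obtain ⟨X, ε1, hε1, h1⟩ := pi_nhd hU hwU
  obtain ⟨Y, ε2, hε2, h2⟩ := pi_nhd hV hwV
  refine ⟨X, Y, min ε1 ε2, lt_min hε1 hε2, fun w' hX hY => hUV ⟨?_, ?_⟩⟩
  · exact h1 _ fun x hx => (hX x hx).trans_le (min_le_left _ _)
  · exact h2 _ fun y hy => (hY y hy).trans_le (min_le_right _ _)

lemma ballS_sotStar (C : Set (E →L[ℂ] E)) (hC : C = {T | ‖T‖ ≤ 1}) :
    @BallS E _ _ C (sotStar C) (fun w => (w : E →L[ℂ] E)) := by
  subst hC
  letI : TopologicalSpace {T : E →L[ℂ] E | ‖T‖ ≤ 1} := sotStar {T : E →L[ℂ] E | ‖T‖ ≤ 1}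
  refine ⟨fun w => w.2, fun T hT => ⟨⟨T, hT⟩, rfl⟩, ?_, ?_⟩
  · intro v v0 hv
    have hd : Continuous (fun T : {T : E →L[ℂ] E | ‖T‖ ≤ 1} => ((fun x : E => (T : E →L[ℂ] E) x),
      (fun y : StrongDual ℂ E => y.comp (T : E →L[ℂ] E)))) := continuous_induced_dom
    have h1 := (hd.tendsto v0).comp hv
    refine ⟨fun x => ?_, fun y => ?_⟩
    · exact ((continuous_apply x).comp continuous_fst).continuousAt.tendsto.comp h1
    · exact ((continuous_apply y).comp continuous_snd).continuousAt.tendsto.comp h1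
  · intro w O hO hw
    exact sotStar_nhd _ w O hO hw

end nhd

variable {P : ℝ≥0∞} [hP : Fact (1 ≤ P)]

lemma blk_EP (hPt : P ≠ ∞) {I : Type} [Fintype I] {κ : I → ℕ} (hκ : Function.Injective κ) :
    Blk P.toReal (fun i => eP P (κ i)) (fun i => gP P (κ i)) := by
  refine ⟨fun u => ?_, fun x => ?_, fun u i => ?_⟩
  · exact (norm_vec (P := P) hPt hκ u).le
  · exact sum_coord_le hPt hκ x
  · exact vec_coord (P := P) hκ u i

lemma blockSys_EP (hP1 : 1 < P) (hPt : P ≠ ∞) : BlockSys P.toReal (EP P) := by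
  classical
  have hp1 := one_lt_toReal hP1 hPt
  have hF := frame_lp hP1 hPt (Real.HolderConjugate.conjExponent hp1)
  intro X Y ε hε
  obtain ⟨N, hN1, hN2⟩ : ∃ N, (∀ x ∈ X, ‖QP P N x‖ < ε) ∧ ∀ y ∈ Y, ‖y.comp (QP P N)‖ < ε := by
    have h1 : ∀ᶠ N in atTop, ∀ x ∈ X, ‖QP P N x‖ < ε := by
      rw [eventually_all_finset]
      intro x _
      exact (tendsto_zero_iff_norm_tendsto_zero.1 (QP_tendsto hPt x)).eventually (gt_mem_nhds hε)
    have h2 : ∀ᶠ N in atTop, ∀ y ∈ Y, ‖y.comp (QP P N)‖ < ε := by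
      rw [eventually_all_finset]
      intro y _
      exact (tendsto_zero_iff_norm_tendsto_zero.1 (QPdual_tendsto hP1 hPt y)).eventually
        (gt_mem_nhds hε)
    exact (h1.and h2).exists
  have hR : ∀ x : EP P, vecB (fun i : Fin N => eP P i) (fun i => gP P i x) = (1 - QP P N) x := by
    intro x
    unfold vecB
    rw [one_sub_QP, ← sum_smul_eP, ← Fin.sum_univ_eq_sum_range (fun i => x i • eP P i) N]
    rfl
  refine ⟨N, fun i => eP P i, fun i => gP P i, blk_EP hPt Fin.val_injective, ?_, ?_, ?_⟩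
  · intro n X' Y' ε' hε'
    obtain ⟨K, hKN, hK1, hK2⟩ : ∃ K, N ≤ K ∧ (∀ l, K ≤ l → ∀ x ∈ X', ‖gP P l x‖ < ε') ∧
        ∀ l, K ≤ l → ∀ y ∈ Y', ‖y (eP P l)‖ < ε' := by
      have h1 : ∀ᶠ l in atTop, ∀ x ∈ X', ‖gP P l x‖ < ε' := by
        rw [eventually_all_finset]
        intro x _
        exact (tendsto_zero_iff_norm_tendsto_zero.1 (hF.hgx x)).eventually (gt_mem_nhds hε')
      have h2 : ∀ᶠ l in atTop, ∀ y ∈ Y', ‖y (eP P l)‖ < ε' := by
        rw [eventually_all_finset]
        intro y _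
        exact (tendsto_zero_iff_norm_tendsto_zero.1 (hF.hyf y)).eventually (gt_mem_nhds hε')
      obtain ⟨K1, hK1⟩ := eventually_atTop.1 h1
      obtain ⟨K2, hK2⟩ := eventually_atTop.1 h2
      refine ⟨max N (max K1 K2), le_max_left _ _, fun l hl => hK1 l ?_, fun l hl => hK2 l ?_⟩
      · exact (le_max_left _ _).trans ((le_max_right _ _).trans hl)
      · exact (le_max_right _ _).trans ((le_max_right _ _).trans hl)
    set κ : Fin N × Fin (n + 1) → ℕ := fun z =>
      if z.2 = 0 then (z.1 : ℕ) else K + ((z.2 : ℕ) * N + z.1) with hκ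
    have hκi : Function.Injective κ := by
      rintro ⟨i, a⟩ ⟨j, b⟩ hab
      simp only [hκ] at hab
      have hi := i.2
      have hj := j.2
      by_cases ha : a = 0
      · by_cases hb : b = 0
        · rw [if_pos ha, if_pos hb] at hab
          rw [ha, hb, Fin.ext hab]
        · rw [if_pos ha, if_neg hb] at hab
          omega
      · by_cases hb : b = 0
        · rw [if_neg ha, if_pos hb] at hab
          omega
        · rw [if_neg ha, if_neg hb] at hab
          have h1 : (a : ℕ) * N + i = b * N + j := by omega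
          have hN : 0 < N := by omega
          have h2 : (a : ℕ) = b := by
            have e1 : ((a : ℕ) * N + i) / N = a := by
              rw [mul_comm, Nat.mul_add_div hN, Nat.div_eq_of_lt hi, add_zero]
            have e2 : ((b : ℕ) * N + j) / N = b := by
              rw [mul_comm, Nat.mul_add_div hN, Nat.div_eq_of_lt hj, add_zero]
            rw [← e1, ← e2, h1]
          have h3 : (i : ℕ) = j := by
            rw [h2] at h1
            omega
          rw [Fin.ext h2, Fin.ext h3]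
    have hκ0 : ∀ i, κ (i, 0) = i := fun i => by simp [hκ]
    have hκa : ∀ i a, a ≠ 0 → K ≤ κ (i, a) := by
      intro i a ha
      simp only [hκ]
      rw [if_neg ha]
      exact Nat.le_add_right _ _
    refine ⟨fun z => eP P (κ z), fun z => gP P (κ z), blk_EP hPt hκi, ?_, ?_, ?_, ?_⟩
    · intro i
      simp only [hκ0, sub_self, norm_zero]
      exact hε'.le
    · intro i
      simp only [hκ0, sub_self, norm_zero]
      exact hε'.le
    · intro i a ha x hx
      exact (hK1 _ (hκa i a ha) x hx).le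
    · intro i a ha y hy
      exact (hK2 _ (hκa i a ha) y hy).le
  · intro x hx
    rw [hR, _root_.sub_apply, one_apply_eq_self, sub_sub_cancel_left, norm_neg]
    exact (hN1 x hx).le
  · intro y hy
    have e : fnlB (fun i : Fin N => gP P i) (fun i => y (eP P i)) - y = -(y.comp (QP P N)) := by
      ext x
      rw [_root_.sub_apply, fnlB_comp, hR, _root_.sub_apply, one_apply_eq_self, map_sub,
        _root_.neg_apply, ContinuousLinearMap.comp_apply]
      ring
    rw [e, norm_neg]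
    exact (hN2 y hy).le

end Pool.Agent.Y280
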