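import Pool.Agent.Y280.GReal

/-!
# Matrices which commute with a sum of a diagonalisable and a nilpotent matrix
-/

set_option autoImplicit false
open Finset Filter Topology Polynomial

namespace Pool.Agent.Y280

section ring

variable {R : Type*} [Ring R] [Algebra ℂ R]

lemma comm_pow {A B : R} (h : A * (A * B - B * A) = (A * B - B * A) * A) (n : ℕ) :
    A ^ n * B - B * A ^ n = (n : ℂ) • (A ^ (n - 1) * (A * B - B * A)) := by
  induction n with
  | zero => simp
  | succ n ih =>
    have e1 : A ^ (n + 1) * B - B * A ^ (n + 1) =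
        A * (A ^ n * B - B * A ^ n) + (A * B - B * A) * A ^ n := by
      rw [pow_succ']
      noncomm_ring
    have e2 : (A * B - B * A) * A ^ n = A ^ n * (A * B - B * A) :=
      ((show Commute A (A * B - B * A) from h).pow_left n).eq.symm
    rw [e1, ih, e2, Nat.add_sub_cancel, mul_smul_comm, ← mul_assoc]
    rcases Nat.eq_zero_or_pos n with h0 | h0
    · subst h0; simp
    · have e3 : A * A ^ (n - 1) = A ^ n := by
        rw [← pow_succ', Nat.sub_add_cancel h0]
      rw [e3]
      push_cast
      rw [add_smul, one_smul]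

lemma comm_poly {A B : R} (h : A * (A * B - B * A) = (A * B - B * A) * A) (f : ℂ[X]) :
    aeval A f * B - B * aeval A f = aeval A (derivative f) * (A * B - B * A) := by
  induction f using Polynomial.induction_on' with
  | add f g hf hg =>
    rw [map_add, map_add, map_add, add_mul, mul_add, add_mul, ← hf, ← hg]
    abel
  | monomial n a =>
    rw [aeval_monomial, derivative_monomial, aeval_monomial, map_mul, map_natCast]
    have h1 := comm_pow h n
    have e1 : algebraMap ℂ R a * A ^ n * B - B * (algebraMap ℂ R a * A ^ n) =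
        algebraMap ℂ R a * (A ^ n * B - B * A ^ n) := by
      have e0 : B * (algebraMap ℂ R a * A ^ n) = algebraMap ℂ R a * (B * A ^ n) := by
        rw [← mul_assoc, ← Algebra.commutes a B, mul_assoc]
      rw [e0, mul_sub, mul_assoc]
    rw [e1, h1]
    have e2 : ((n : ℂ) • (A ^ (n - 1) * (A * B - B * A)) : R) =
        (n : R) * (A ^ (n - 1) * (A * B - B * A)) := by
      rw [Nat.cast_smul_eq_nsmul, nsmul_eq_mul]
    rw [e2]
    simp only [mul_assoc]

/-- The derivation of a diagonalisable element is semisimple. -/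
lemma ad_sq {A B : R} {χ : ℂ[X]} (hχ : aeval A χ = 0) (hs : χ.Separable)
    (h : A * (A * B - B * A) = (A * B - B * A) * A) : A * B - B * A = 0 := by
  have h1 := comm_poly h χ
  rw [hχ, zero_mul, mul_zero, sub_zero] at h1
  obtain ⟨a, b, hab⟩ := hs
  have h2 : aeval A b * aeval A (derivative χ) = 1 := by
    have h3 := congrArg (aeval A) hab
    rw [map_add, map_mul, map_mul, hχ, mul_zero, zero_add, map_one] at h3
    exact h3
  calc A * B - B * A = aeval A b * aeval A (derivative χ) * (A * B - B * A) := by
        rw [h2, one_mul]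
    _ = aeval A b * (aeval A (derivative χ) * (A * B - B * A)) := mul_assoc _ _ _
    _ = 0 := by rw [← h1, mul_zero]

/-- The blocks of an element which commutes with `A ⊗ 1 + 1 ⊗ J`. -/
lemma block_struct {A : R} {χ : ℂ[X]} (hχ : aeval A χ = 0) (hs : χ.Separable) (n : ℕ)
    (w : ℕ → ℂ) (Bk : ℕ → ℕ → R)
    (hrel : ∀ a ≤ n, ∀ b ≤ n, A * Bk a b - Bk a b * A =
      (if b < n then w b • Bk a (b + 1) else 0) - (if 0 < a then w (a - 1) • Bk (a - 1) b else 0)) :
    ∀ a ≤ n, ∀ b ≤ n, A * Bk a b - Bk a b * A = 0 := by
  intro a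
  induction a with
  | zero =>
    intro ha
    have key : ∀ c b, b + c = n → A * Bk 0 b - Bk 0 b * A = 0 := by
      intro c
      induction c with
      | zero =>
        intro b hb
        have h1 := hrel 0 ha b (by omega)
        rw [if_neg (by omega), if_neg (by omega), sub_zero] at h1
        exact h1
      | succ c ih =>
        intro b hb
        have h1 := hrel 0 ha b (by omega)
        rw [if_pos (by omega), if_neg (by omega), sub_zero] at h1
        apply ad_sq hχ hs
        have h2 := ih (b + 1) (by omega)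
        rw [h1, mul_smul_comm, smul_mul_assoc, sub_eq_zero.1 h2]
    intro b hb
    exact key (n - b) b (by omega)
  | succ a iha =>
    intro ha
    have hprev := iha (by omega)
    have key : ∀ c b, b + c = n → A * Bk (a + 1) b - Bk (a + 1) b * A = 0 := by
      intro c
      induction c with
      | zero =>
        intro b hb
        have h1 := hrel (a + 1) ha b (by omega)
        rw [if_neg (by omega), if_pos (by omega), zero_sub, Nat.add_sub_cancel] at h1
        apply ad_sq hχ hs
        rw [h1, mul_neg, neg_mul, mul_smul_comm, smul_mul_assoc,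
          sub_eq_zero.1 (hprev b (by omega))]
      | succ c ih =>
        intro b hb
        have h1 := hrel (a + 1) ha b (by omega)
        rw [if_pos (by omega), if_pos (by omega), Nat.add_sub_cancel] at h1
        apply ad_sq hχ hs
        rw [h1, mul_sub, sub_mul, mul_smul_comm, smul_mul_assoc, mul_smul_comm, smul_mul_assoc,
          sub_eq_zero.1 (hprev b (by omega)), sub_eq_zero.1 (ih (b + 1) (by omega))]
    intro b hb
    exact key (n - b) b (by omega)

/-- The weights. -/
noncomputable def wt (m : ℕ) (δ w : ℝ) (j : ℕ) : ℂ := if j < m then (δ : ℂ) else (w : ℂ)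

lemma wt_ne {m : ℕ} {δ w : ℝ} (hδ : 0 < δ) (hw : 0 < w) (j : ℕ) : wt m δ w j ≠ 0 := by
  unfold wt
  split_ifs
  · exact_mod_cast hδ.ne'
  · exact_mod_cast hw.ne'

/-- The structure of the blocks for the weights `δ, …, δ, w`. -/
lemma block_toeplitz {A : R} {χ : ℂ[X]} (hχ : aeval A χ = 0) (hs : χ.Separable) (m : ℕ)
    {δ w : ℝ} (hδ : 0 < δ) (hw : 0 < w) (Bk : ℕ → ℕ → R)
    (hrel : ∀ a ≤ m + 1, ∀ b ≤ m + 1, A * Bk a b - Bk a b * A =
      (if b < m + 1 then wt m δ w b • Bk a (b + 1) else 0) -
        (if 0 < a then wt m δ w (a - 1) • Bk (a - 1) b else 0)) :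
    A * Bk 0 0 = Bk 0 0 * A ∧ (∀ a ≤ m, Bk a a = Bk 0 0) ∧
      (∀ a ≤ m, ∀ b ≤ m, a ≠ b → ∃ a' ≤ m + 1, ∃ b' ≤ m + 1, ∃ c : ℂ, ‖c‖ ≤ δ / w ∧
        Bk a b = c • Bk a' b') := by
  have hD := block_struct hχ hs (m + 1) (wt m δ w) Bk hrel
  have hc1 : ∀ a ≤ m, ∀ b ≤ m, wt m δ w b • Bk (a + 1) (b + 1) = wt m δ w a • Bk a b := by
    intro a ha b hb
    have h1 := hrel (a + 1) (by omega) b (by omega)
    rw [hD (a + 1) (by omega) b (by omega), if_pos (by omega), if_pos (by omega),
      Nat.add_sub_cancel] at h1
    exact sub_eq_zero.1 h1.symm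
  have hc2 : ∀ b ≤ m, Bk 0 (b + 1) = 0 := by
    intro b hb
    have h1 := hrel 0 (by omega) b (by omega)
    rw [hD 0 (by omega) b (by omega), if_pos (by omega), if_neg (by omega), sub_zero] at h1
    exact (smul_eq_zero.1 h1.symm).resolve_left (wt_ne hδ hw b)
  have hstep : ∀ a < m, ∀ b < m, Bk (a + 1) (b + 1) = Bk a b := by
    intro a ha b hb
    have h1 := hc1 a ha.le b hb.le
    have e : wt m δ w a = wt m δ w b := by
      unfold wt
      rw [if_pos ha, if_pos hb]
    rw [e] at h1
    exact smul_right_injective _ (wt_ne hδ hw b) h1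
  have hup : ∀ a ≤ m, ∀ b ≤ m, a < b → Bk a b = 0 := by
    intro a
    induction a with
    | zero =>
      intro _ b hb hab
      obtain ⟨c, rfl⟩ : ∃ c, b = c + 1 := ⟨b - 1, by omega⟩
      exact hc2 c (by omega)
    | succ a ih =>
      intro ha b hb hab
      obtain ⟨c, rfl⟩ : ∃ c, b = c + 1 := ⟨b - 1, by omega⟩
      rw [hstep a (by omega) c (by omega)]
      exact ih (by omega) c (by omega) (by omega)
  refine ⟨sub_eq_zero.1 (hD 0 (by omega) 0 (by omega)), ?_, ?_⟩
  · intro a
    induction a with
    | zero => intro _; rfl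
    | succ a ih =>
      intro ha
      rw [hstep a (by omega) a (by omega)]
      exact ih (by omega)
  · intro a ha b hb hab
    rcases Nat.lt_or_ge a b with h | h
    · refine ⟨0, by omega, 0, by omega, 0, ?_, ?_⟩
      · rw [norm_zero]; positivity
      · rw [zero_smul]; exact hup a ha b hb h
    · -- shift down to the last row
      have hsh : ∀ c, a + c ≤ m → Bk (a + c) (b + c) = Bk a b := by
        intro c
        induction c with
        | zero => intro _; rfl
        | succ c ih =>
          intro hc
          rw [← ih (by omega)]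
          exact hstep (a + c) (by omega) (b + c) (by omega)
      have h1 := hsh (m - a) (by omega)
      rw [show a + (m - a) = m by omega] at h1
      have h2 := hc1 m le_rfl (b + (m - a)) (by omega)
      rw [h1] at h2
      have e1 : wt m δ w m = (w : ℂ) := by unfold wt; rw [if_neg (lt_irrefl m)]
      have e2 : wt m δ w (b + (m - a)) = (δ : ℂ) := by unfold wt; rw [if_pos (by omega)]
      rw [e1, e2] at h2
      have hwC : (w : ℂ) ≠ 0 := by exact_mod_cast hw.ne'
      refine ⟨m + 1, le_rfl, b + (m - a) + 1, by omega, (δ : ℂ) / w, ?_, ?_⟩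
      · rw [norm_div, Complex.norm_real, Complex.norm_real, Real.norm_of_nonneg hδ.le,
          Real.norm_of_nonneg hw.le]
      · rw [div_eq_inv_mul, mul_smul, h2, smul_smul, inv_mul_cancel₀ hwC, one_smul]

end ring

section sep

/-- Near every matrix there is one with a separable annihilating polynomial. -/
lemma exists_large_sep {N : ℕ} (A : Matrix (Fin N) (Fin N) ℂ) (R : ℝ) :
    ∃ s : ℝ, R < s ∧ ((Matrix.diagonal fun i : Fin N => ((i : ℕ) : ℂ)) + (s : ℂ) • A).charpoly.Separable
    := by
  classical
  set B : Matrix (Fin N) (Fin N) ℂ := Matrix.diagonal fun i : Fin N => ((i : ℕ) : ℂ) with hB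
  set M : Matrix (Fin N) (Fin N) ℂ[X] := B.map C + (X : ℂ[X]) • A.map C with hM
  have hMs : ∀ s : ℂ, (evalRingHom s).mapMatrix M = B + s • A := by
    intro s
    ext a b
    simp only [hM, RingHom.mapMatrix_apply, Matrix.map_apply, Matrix.add_apply,
      Matrix.smul_apply, smul_eq_mul, coe_evalRingHom, eval_add, eval_mul, eval_C, eval_X]
  have hcp : ∀ s : ℂ, M.charpoly.map (evalRingHom s) = (B + s • A).charpoly := by
    intro s
    rw [← Matrix.charpoly_map]
    congr 1
    exact hMs s
  have hres : ∀ s : ℂ, (resultant M.charpoly (derivative M.charpoly) N (N - 1)).eval s =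
      resultant (B + s • A).charpoly (derivative (B + s • A).charpoly) N (N - 1) := by
    intro s
    rw [← coe_evalRingHom, ← resultant_map_map, ← derivative_map, hcp]
  have hdeg : ∀ s : ℂ, (B + s • A).charpoly.natDegree = N := by
    intro s
    rw [Matrix.charpoly_natDegree_eq_dim, Fintype.card_fin]
  have hdegd : ∀ s : ℂ, (derivative (B + s • A).charpoly).natDegree = N - 1 := by
    intro s
    rw [natDegree_derivative, hdeg]
  have hiff : ∀ s : ℂ, (resultant M.charpoly (derivative M.charpoly) N (N - 1)).eval s ≠ 0 ↔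
      (B + s • A).charpoly.Separable := by
    intro s
    rw [hres]
    have h1 := isUnit_resultant_iff_isCoprime (f := (B + s • A).charpoly)
      (g := derivative (B + s • A).charpoly) (Matrix.charpoly_monic _)
    rw [hdeg, hdegd, isUnit_iff_ne_zero] at h1
    exact h1
  have h0 : (B + (0 : ℂ) • A).charpoly.Separable := by
    rw [zero_smul, add_zero, hB, Matrix.charpoly_diagonal]
    rw [separable_prod_X_sub_C_iff]
    intro i j hij
    have : ((i : ℕ) : ℂ) = ((j : ℕ) : ℂ) := hij
    exact Fin.ext (by exact_mod_cast this)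
  have hne : resultant M.charpoly (derivative M.charpoly) N (N - 1) ≠ 0 := by
    intro h
    have := (hiff 0).2 h0
    rw [h, eval_zero] at this
    exact this rfl
  by_contra hcon
  push Not at hcon
  apply hne
  apply Polynomial.eq_zero_of_infinite_isRoot
  refine Set.infinite_of_injective_forall_mem (f := fun n : ℕ => ((R + 1 + n : ℝ) : ℂ)) ?_ ?_
  · intro a b hab
    have h1 : (R + 1 + a : ℝ) = R + 1 + b := Complex.ofReal_injective hab
    have h2 : (a : ℝ) = b := by linarith
    exact_mod_cast h2
  · intro n
    have h1 := hcon (R + 1 + n) (by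
      have : (0 : ℝ) ≤ n := Nat.cast_nonneg n
      linarith)
    by_contra h2
    exact h1 ((hiff _).1 h2)

end sep

end Pool.Agent.Y280
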