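import Pool.Agent.Y280.HBig

/-!
# Operators given by matrices in a Banach space
-/

set_option autoImplicit false
open Finset Filter Topology Polynomial

namespace Pool.Agent.Y280

section

variable {E : Type*} [NormedAddCommGroup E] [NormedSpace ℂ E]
variable {I : Type} [Fintype I]

/-- The functional `S ↦ y (S x)` has norm at most `ρ` on the commutant of `T`. -/
def HC (T : E →L[ℂ] E) (x : E) (y : StrongDual ℂ E) (ρ : ℝ) : Prop :=
  ∀ S : E →L[ℂ] E, S * T = T * S → ‖S‖ ≤ 1 → ‖y (S x)‖ ≤ ρ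

lemma HC.mono {T : E →L[ℂ] E} {x : E} {y : StrongDual ℂ E} {ρ ρ' : ℝ} (h : HC T x y ρ)
    (hr : ρ ≤ ρ') : HC T x y ρ' := fun S hS hn => (h S hS hn).trans hr

lemma norm_pair_le {S : E →L[ℂ] E} (hS : ‖S‖ ≤ 1) (x : E) (y : StrongDual ℂ E) :
    ‖y (S x)‖ ≤ ‖y‖ * ‖x‖ :=
  (y.le_opNorm _).trans (mul_le_mul_of_nonneg_left
    ((S.le_opNorm _).trans (mul_le_of_le_one_left (norm_nonneg _) hS)) (norm_nonneg _))

lemma HC.top (T : E →L[ℂ] E) (x : E) (y : StrongDual ℂ E) : HC T x y (‖y‖ * ‖x‖) :=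
  fun _ _ hn => norm_pair_le hn x y

lemma pair_diff {S : E →L[ℂ] E} (hS : ‖S‖ ≤ 1) (x x' : E) (y y' : StrongDual ℂ E) :
    ‖y' (S x') - y (S x)‖ ≤ ‖y' - y‖ * ‖x'‖ + ‖y‖ * ‖x' - x‖ := by
  have e : y' (S x') - y (S x) = (y' - y) (S x') + y (S (x' - x)) := by
    rw [_root_.sub_apply, map_sub, map_sub]; ring
  rw [e]
  exact (norm_add_le _ _).trans (add_le_add (norm_pair_le hS _ _) (norm_pair_le hS _ _))

lemma HC.lip {T : E →L[ℂ] E} {x x' : E} {y y' : StrongDual ℂ E} {ρ : ℝ} (h : HC T x y ρ) :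
    HC T x' y' (ρ + (‖y' - y‖ * ‖x'‖ + ‖y‖ * ‖x' - x‖)) := by
  intro S hS hn
  have e : y' (S x') = y (S x) + (y' (S x') - y (S x)) := by ring
  rw [e]
  exact (norm_add_le _ _).trans (add_le_add (h S hS hn) (pair_diff hn _ _ _ _))

/-- A copy of `ℓ_p^I` in `E` with a projection. -/
structure Blk (p : ℝ) (e : I → E) (k : I → StrongDual ℂ E) : Prop where
  he : ∀ u : I → ℂ, ‖∑ i, u i • e i‖ ^ p ≤ ∑ i, ‖u i‖ ^ p
  hk : ∀ x, ∑ i, ‖k i x‖ ^ p ≤ ‖x‖ ^ p
  hkv : ∀ (u : I → ℂ) (i : I), k i (∑ j, u j • e j) = u i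

/-- The operator with the matrix `A`. -/
noncomputable def opB (e : I → E) (k : I → StrongDual ℂ E) (A : Matrix I I ℂ) : E →L[ℂ] E :=
  ∑ i, ∑ j, A i j • (k j).smulRight (e i)

/-- The matrix of an operator. -/
noncomputable def mat (e : I → E) (k : I → StrongDual ℂ E) (S : E →L[ℂ] E) : Matrix I I ℂ :=
  fun i j => k i (S (e j))

/-- The vector with coordinates `u`. -/
def vecB (e : I → E) (u : I → ℂ) : E := ∑ i, u i • e i

/-- The functional with coordinates `v`. -/
noncomputable def fnlB (k : I → StrongDual ℂ E) (v : I → ℂ) : StrongDual ℂ E := ∑ i, v i • k i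

lemma opB_apply (e : I → E) (k : I → StrongDual ℂ E) (A : Matrix I I ℂ) (x : E) :
    opB e k A x = ∑ i, (∑ j, A i j * k j x) • e i := by
  unfold opB
  rw [_root_.sum_apply]
  refine sum_congr rfl fun i _ => ?_
  rw [_root_.sum_apply, sum_smul]
  refine sum_congr rfl fun j _ => ?_
  rw [_root_.smul_apply, ContinuousLinearMap.smulRight_apply, smul_smul]

lemma fnlB_apply (k : I → StrongDual ℂ E) (v : I → ℂ) (x : E) :
    fnlB k v x = ∑ i, v i * k i x := by
  unfold fnlB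
  rw [_root_.sum_apply]
  rfl

lemma opB_add (e : I → E) (k : I → StrongDual ℂ E) (A B : Matrix I I ℂ) :
    opB e k (A + B) = opB e k A + opB e k B := by
  unfold opB
  simp only [Matrix.add_apply, add_smul, sum_add_distrib]

lemma comp_opB (e : I → E) (k : I → StrongDual ℂ E) (A : Matrix I I ℂ) (y : StrongDual ℂ E) :
    y.comp (opB e k A) = ∑ i, ∑ j, (A i j * y (e i)) • k j := by
  ext x
  rw [ContinuousLinearMap.comp_apply, opB_apply, map_sum, _root_.sum_apply]
  refine sum_congr rfl fun i _ => ?_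
  rw [map_smul, smul_eq_mul, sum_mul, _root_.sum_apply]
  refine sum_congr rfl fun j _ => ?_
  rw [_root_.smul_apply, smul_eq_mul]
  ring

lemma exists_lim {p : ℝ} (hp : 0 < p) (BM : ℕ → Matrix I I ℂ) (h : ∀ n, OpM p (BM n) 1) :
    ∃ (B : Matrix I I ℂ) (φ : ℕ → ℕ), StrictMono φ ∧
      ∀ i j, Tendsto (fun n => BM (φ n) i j) atTop (𝓝 (B i j)) := by
  have hb : ∀ n, (fun i j => BM n i j) ∈ Metric.closedBall (0 : I → I → ℂ) 1 := by
    intro n
    rw [mem_closedBall_zero_iff, pi_norm_le_iff_of_nonneg zero_le_one]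
    intro i
    rw [pi_norm_le_iff_of_nonneg zero_le_one]
    intro j
    exact (h n).entry hp zero_le_one i j
  obtain ⟨B, _, φ, hφ, hlim⟩ := tendsto_subseq_of_bounded Metric.isBounded_closedBall hb
  exact ⟨B, φ, hφ, fun i j => (tendsto_pi_nhds.1 ((tendsto_pi_nhds.1 hlim) i)) j⟩

namespace Blk

variable {p q : ℝ} {e : I → E} {k : I → StrongDual ℂ E}

lemma hke [DecidableEq I] (h : Blk p e k) (i j : I) : k i (e j) = if i = j then 1 else 0 := by
  have h1 := h.hkv (Pi.single j 1) i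
  have e1 : ∑ l, (Pi.single j (1 : ℂ) : I → ℂ) l • e l = e j := by
    rw [sum_eq_single j]
    · rw [Pi.single_eq_same, one_smul]
    · intro b _ hb
      rw [Pi.single_eq_of_ne hb, zero_smul]
    · intro h'; exact absurd (mem_univ _) h'
  rw [e1, Pi.single_apply] at h1
  exact h1

lemma norm_e_le (h : Blk p e k) (hp : 0 < p) (i : I) : ‖e i‖ ≤ 1 := by
  classical
  have h1 := h.he (Pi.single i 1)
  have e1 : ∑ j, (Pi.single i (1 : ℂ) : I → ℂ) j • e j = e i := by
    rw [sum_eq_single i]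
    · rw [Pi.single_eq_same, one_smul]
    · intro b _ hb
      rw [Pi.single_eq_of_ne hb, zero_smul]
    · intro h'; exact absurd (mem_univ _) h'
  have e2 : ∑ j, ‖(Pi.single i (1 : ℂ) : I → ℂ) j‖ ^ p = 1 := by
    rw [sum_eq_single i]
    · rw [Pi.single_eq_same, norm_one, Real.one_rpow]
    · intro b _ hb
      rw [Pi.single_eq_of_ne hb, norm_zero, Real.zero_rpow hp.ne']
    · intro h'; exact absurd (mem_univ _) h'
  rw [e1, e2] at h1
  have h2 : ‖e i‖ ^ p ≤ (1 : ℝ) ^ p := by rwa [Real.one_rpow]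
  exact (Real.rpow_le_rpow_iff (norm_nonneg _) zero_le_one hp).1 h2

lemma norm_kx_le (h : Blk p e k) (hp : 0 < p) (i : I) (x : E) : ‖k i x‖ ≤ ‖x‖ := by
  have h1 : ‖k i x‖ ^ p ≤ ‖x‖ ^ p :=
    (single_le_sum (f := fun i => ‖k i x‖ ^ p) (fun _ _ => by positivity) (mem_univ i)).trans
      (h.hk x)
  exact (Real.rpow_le_rpow_iff (norm_nonneg _) (norm_nonneg _) hp).1 h1

lemma norm_k_le (h : Blk p e k) (hp : 0 < p) (i : I) : ‖k i‖ ≤ 1 :=
  ContinuousLinearMap.opNorm_le_bound _ zero_le_one fun x => by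
    rw [one_mul]; exact h.norm_kx_le hp i x

lemma norm_opB (h : Blk p e k) (hp : 0 < p) {A : Matrix I I ℂ} {r : ℝ} (hr : 0 ≤ r)
    (hA : OpM p A r) : ‖opB e k A‖ ≤ r := by
  refine ContinuousLinearMap.opNorm_le_bound _ hr fun x => ?_
  rw [opB_apply]
  have h1 := (h.he fun i => ∑ j, A i j * k j x).trans (hA fun j => k j x)
  have h2 := h1.trans (mul_le_mul_of_nonneg_left (h.hk x) (show 0 ≤ r ^ p by positivity))
  rw [← Real.mul_rpow hr (norm_nonneg _)] at h2
  exact (Real.rpow_le_rpow_iff (norm_nonneg _) (by positivity) hp).1 h2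

lemma k_vecB (h : Blk p e k) (u : I → ℂ) (i : I) : k i (vecB e u) = u i := h.hkv u i

lemma k_opB (h : Blk p e k) (A : Matrix I I ℂ) (x : E) (i : I) :
    k i (opB e k A x) = ∑ j, A i j * k j x := by
  rw [opB_apply]
  exact h.k_vecB _ i

lemma opB_vecB (h : Blk p e k) (A : Matrix I I ℂ) (u : I → ℂ) :
    opB e k A (vecB e u) = vecB e fun i => ∑ j, A i j * u j := by
  rw [opB_apply]
  unfold vecB
  refine sum_congr rfl fun i _ => ?_
  congr 1
  exact sum_congr rfl fun j _ => by rw [← h.k_vecB u j]; rfl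

lemma opB_mul (h : Blk p e k) (A B : Matrix I I ℂ) :
    opB e k A * opB e k B = opB e k (A * B) := by
  ext x
  rw [mul_apply_eq_comp, opB_apply e k B, opB_apply e k (A * B)]
  have h1 := h.opB_vecB A (fun i => ∑ j, B i j * k j x)
  unfold vecB at h1
  rw [h1]
  refine sum_congr rfl fun i _ => ?_
  congr 1
  simp only [Matrix.mul_apply, mul_sum, sum_mul]
  rw [sum_comm]
  exact sum_congr rfl fun j _ => sum_congr rfl fun l _ => by ring

lemma OpM_mat (h : Blk p e k) (hp : 0 < p) {S : E →L[ℂ] E} {r : ℝ} (hr : 0 ≤ r) (hS : ‖S‖ ≤ r) :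
    OpM p (mat e k S) r := by
  intro x
  have e1 : ∀ i, ∑ j, mat e k S i j * x j = k i (S (vecB e x)) := by
    intro i
    unfold vecB mat
    rw [map_sum, map_sum]
    refine sum_congr rfl fun j _ => ?_
    rw [map_smul, map_smul, smul_eq_mul, mul_comm]
  simp only [e1]
  refine (h.hk _).trans ?_
  have h1 : ‖S (vecB e x)‖ ≤ r * ‖vecB e x‖ :=
    (S.le_opNorm _).trans (mul_le_mul_of_nonneg_right hS (norm_nonneg _))
  refine (Real.rpow_le_rpow (norm_nonneg _) h1 hp.le).trans ?_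
  rw [Real.mul_rpow hr (norm_nonneg _)]
  exact mul_le_mul_of_nonneg_left (h.he x) (by positivity)

lemma bil_mat (v u : I → ℂ) (S : E →L[ℂ] E) :
    bil v (mat e k S) u = fnlB k v (S (vecB e u)) := by
  rw [fnlB_apply]
  unfold bil
  refine sum_congr rfl fun i _ => ?_
  unfold vecB mat
  rw [map_sum, map_sum, mul_sum]
  refine sum_congr rfl fun j _ => ?_
  rw [map_smul, map_smul, smul_eq_mul]
  ring

lemma mat_opB [DecidableEq I] (h : Blk p e k) (B : Matrix I I ℂ) : mat e k (opB e k B) = B := by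
  ext i j
  show k i (opB e k B (e j)) = B i j
  rw [h.k_opB, sum_eq_single j]
  · rw [h.hke, if_pos rfl, mul_one]
  · intro b _ hb
    rw [h.hke, if_neg hb, mul_zero]
  · intro h'; exact absurd (mem_univ _) h'

/-- From the operator to the matrix. -/
lemma HM_of_HC (h : Blk p e k) (hp : 0 < p) {A : Matrix I I ℂ} {u v : I → ℂ} {ρ : ℝ}
    (hH : HC (opB e k A) (vecB e u) (fnlB k v) ρ) : HM p A u v ρ := by
  classical
  intro B hAB hB
  have h1 := hH (opB e k B) (by rw [h.opB_mul, h.opB_mul, hAB])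
    (h.norm_opB hp zero_le_one hB)
  rw [← bil_mat, h.mat_opB] at h1
  exact h1

lemma norm_vecB_le (h : Blk p e k) (hp : 0 < p) {u : I → ℂ} {ρ : ℝ}
    (hu : ∑ i, ‖u i‖ ^ p ≤ ρ) : ‖vecB e u‖ ≤ ρ ^ (1 / p) := by
  have h1 := (h.he u).trans hu
  have h2 : ‖vecB e u‖ = (‖vecB e u‖ ^ p) ^ (1 / p) := by
    rw [← Real.rpow_mul (norm_nonneg _), mul_one_div_cancel hp.ne', Real.rpow_one]
  rw [h2]
  exact Real.rpow_le_rpow (by positivity) h1 (by positivity)

lemma norm_fnlB_le (h : Blk p e k) (hpq : p.HolderConjugate q) {v : I → ℂ} {ρ : ℝ}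
    (hv : ∑ i, ‖v i‖ ^ q ≤ ρ) : ‖fnlB k v‖ ≤ ρ ^ (1 / q) := by
  have hp := hpq.pos
  have hq := hpq.symm.pos
  have hρ : 0 ≤ ρ := (sum_nonneg fun _ _ => by positivity).trans hv
  refine ContinuousLinearMap.opNorm_le_bound _ (by positivity) fun x => ?_
  rw [fnlB_apply]
  have h1 : ‖∑ i, v i * k i x‖ ≤ ∑ i, ‖v i‖ * ‖k i x‖ :=
    (norm_sum_le _ _).trans (le_of_eq (sum_congr rfl fun i _ => norm_mul _ _))
  refine h1.trans ?_
  have h2 := Real.inner_le_Lp_mul_Lq univ (fun i => ‖v i‖) (fun i => ‖k i x‖) hpq.symm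
  simp only [abs_norm] at h2
  refine h2.trans (mul_le_mul ?_ ?_ (by positivity) (by positivity))
  · exact Real.rpow_le_rpow (sum_nonneg fun _ _ => by positivity) hv (by positivity)
  · have h4 := Real.rpow_le_rpow (sum_nonneg fun i _ => by positivity) (h.hk x)
      (show 0 ≤ 1 / p by positivity)
    rwa [← Real.rpow_mul (norm_nonneg _), mul_one_div_cancel hp.ne', Real.rpow_one] at h4

end Blk

/-- The properties of the strong* topology on the unit ball which are used. -/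
structure BallS {W : Type*} [TopologicalSpace W] (Φ : W → E →L[ℂ] E) : Prop where
  norm : ∀ w, ‖Φ w‖ ≤ 1
  surj : ∀ T : E →L[ℂ] E, ‖T‖ ≤ 1 → ∃ w, Φ w = T
  conv : ∀ (v : ℕ → W) (v0 : W), Tendsto v atTop (𝓝 v0) →
    (∀ x, Tendsto (fun k => Φ (v k) x) atTop (𝓝 (Φ v0 x))) ∧
      ∀ y : StrongDual ℂ E, Tendsto (fun k => y.comp (Φ (v k))) atTop (𝓝 (y.comp (Φ v0)))
  nhd : ∀ (w : W) (O : Set W), IsOpen O → w ∈ O → ∃ (X : Finset E) (Y : Finset (StrongDual ℂ E))
    (ε : ℝ), 0 < ε ∧ ∀ w', (∀ x ∈ X, ‖Φ w' x - Φ w x‖ < ε) →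
      (∀ y ∈ Y, ‖y.comp (Φ w') - y.comp (Φ w)‖ < ε) → w' ∈ O

/-- The set of the operators where the functional has norm at most `ρ`. -/
def HS {W : Type*} (Φ : W → E →L[ℂ] E) (x : E) (y : StrongDual ℂ E) (ρ : ℝ) : Set W :=
  {w | HC (Φ w) x y ρ}

/-- **Semicontinuity at operators given by matrices.** -/
theorem mem_interior_HS {W : Type*} [TopologicalSpace W] [FirstCountableTopology W]
    {Φ : W → E →L[ℂ] E} (h : BallS Φ) {p : ℝ} (hp : 0 < p) {e : I → E}
    {k : I → StrongDual ℂ E} (hb : Blk p e k) {A : Matrix I I ℂ} {w : W} (hw : Φ w = opB e k A)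
    {u v : I → ℂ} {ρ : ℝ} (hM : HM p A u v ρ) {x : E} {y : StrongDual ℂ E} {η : ℝ} (hη : 0 < η)
    (hxy : ‖fnlB k v - y‖ * ‖vecB e u‖ + ‖y‖ * ‖vecB e u - x‖ ≤ η) :
    w ∈ interior (HS Φ x y (ρ + 2 * η)) := by
  classical
  rw [mem_interior_iff_mem_nhds]
  by_contra hcon
  have h1 : ∃ᶠ v in 𝓝 w, ¬ HC (Φ v) x y (ρ + 2 * η) := by
    intro hc
    exact hcon (hc.mono fun v hv => not_not.1 hv)
  obtain ⟨z, hz, hz'⟩ := exists_seq_forall_of_frequently h1
  obtain ⟨hc1, hc2⟩ := h.conv z w hz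
  have hS : ∀ n, ∃ S : E →L[ℂ] E, S * Φ (z n) = Φ (z n) * S ∧ ‖S‖ ≤ 1 ∧
      ρ + 2 * η < ‖y (S x)‖ := by
    intro n
    have := hz' n
    unfold HC at this
    push Not at this
    exact this
  choose S hS1 hS2 hS3 using hS
  set Bn : ℕ → Matrix I I ℂ := fun n => mat e k (S n) with hBn
  have hBn1 : ∀ n, OpM p (Bn n) 1 := fun n => hb.OpM_mat hp zero_le_one (hS2 n)
  obtain ⟨B, φ, hφ, hent⟩ := exists_lim hp Bn hBn1
  have hB1 : OpM p B 1 := by
    intro a
    refine le_of_tendsto (f := fun n => ∑ i, ‖∑ j, Bn (φ n) i j * a j‖ ^ p) (x := atTop) ?_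
      (Eventually.of_forall fun n => hBn1 (φ n) a)
    refine tendsto_finsetSum _ fun i _ => Tendsto.rpow_const ?_ (Or.inr hp.le)
    exact (tendsto_finsetSum _ fun j _ => (hent i j).mul_const _).norm
  have hAB : A * B = B * A := by
    rw [← sub_eq_zero]
    ext i j
    -- entries
    set T := opB e k A with hT
    have e1 : ∀ n, (A * Bn n - Bn n * A) i j = k i ((T * S n - S n * T) (e j)) := by
      intro n
      rw [Matrix.sub_apply, _root_.sub_apply, map_sub, mul_apply_eq_comp, mul_apply_eq_comp]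
      congr 1
      · rw [Matrix.mul_apply, hT, hb.k_opB]
        rfl
      · have h2 : T (e j) = ∑ l, A l j • e l := by
          rw [hT, opB_apply]
          refine sum_congr rfl fun l _ => ?_
          congr 1
          rw [sum_eq_single j]
          · rw [hb.hke, if_pos rfl, mul_one]
          · intro b _ hb'
            rw [hb.hke, if_neg hb', mul_zero]
          · intro h'; exact absurd (mem_univ _) h'
        rw [h2, Matrix.mul_apply, map_sum, map_sum]
        refine sum_congr rfl fun l _ => ?_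
        rw [map_smul, map_smul, smul_eq_mul, mul_comm]
        rfl
    have e2 : ∀ n, T * S n - S n * T =
        (T - Φ (z n)) * S n - S n * (T - Φ (z n)) := by
      intro n
      rw [sub_mul, mul_sub, hS1 n]
      abel
    have hl1 : Tendsto (fun n => (A * Bn (φ n) - Bn (φ n) * A) i j) atTop
        (𝓝 ((A * B - B * A) i j)) := by
      simp only [Matrix.sub_apply, Matrix.mul_apply]
      refine Tendsto.sub ?_ ?_
      · exact tendsto_finsetSum _ fun l _ => (hent l j).const_mul _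
      · exact tendsto_finsetSum _ fun l _ => (hent i l).mul_const _
    have hl2 : Tendsto (fun n => (A * Bn (φ n) - Bn (φ n) * A) i j) atTop (𝓝 0) := by
      rw [tendsto_zero_iff_norm_tendsto_zero]
      have b1 : Tendsto (fun n => ‖(k i).comp (Φ (z (φ n))) - (k i).comp (Φ w)‖ * ‖e j‖ +
          ‖k i‖ * ‖Φ (z (φ n)) (e j) - Φ w (e j)‖) atTop (𝓝 (0 * ‖e j‖ + ‖k i‖ * 0)) :=
        (((tendsto_iff_norm_sub_tendsto_zero.1 (hc2 (k i))).comp hφ.tendsto_atTop).mul_const
          _).add (((tendsto_iff_norm_sub_tendsto_zero.1 (hc1 (e j))).comp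
            hφ.tendsto_atTop).const_mul _)
      rw [zero_mul, mul_zero, add_zero] at b1
      refine squeeze_zero (fun _ => norm_nonneg _) (fun n => ?_) b1
      rw [e1, e2, _root_.sub_apply, map_sub, mul_apply_eq_comp, mul_apply_eq_comp]
      refine (norm_sub_le _ _).trans (add_le_add ?_ ?_)
      · have e3 : k i ((T - Φ (z (φ n))) (S (φ n) (e j))) =
            -(((k i).comp (Φ (z (φ n))) - (k i).comp (Φ w)) (S (φ n) (e j))) := by
          rw [hw, _root_.sub_apply, _root_.sub_apply, map_sub, ContinuousLinearMap.comp_apply,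
            ContinuousLinearMap.comp_apply]
          ring
        rw [e3, norm_neg]
        refine (ContinuousLinearMap.le_opNorm _ _).trans
          (mul_le_mul_of_nonneg_left ?_ (norm_nonneg _))
        exact ((S (φ n)).le_opNorm _).trans (mul_le_of_le_one_left (norm_nonneg _) (hS2 _))
      · refine (norm_pair_le (hS2 (φ n)) _ _).trans_eq ?_
        rw [hw, _root_.sub_apply, norm_sub_rev]
    rw [tendsto_nhds_unique hl1 hl2]
    rfl
  have h2 := hM B hAB hB1
  have h3 : Tendsto (fun n => ‖bil v (Bn (φ n)) u‖) atTop (𝓝 ‖bil v B u‖) := by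
    unfold bil
    exact (tendsto_finsetSum _ fun i _ => tendsto_finsetSum _ fun j _ =>
      ((hent i j).mul_const _).const_mul _).norm
  have h4 : ρ + η ≤ ‖bil v B u‖ := by
    refine ge_of_tendsto' h3 fun n => ?_
    have e1 : bil v (Bn (φ n)) u = fnlB k v (S (φ n) (vecB e u)) := Blk.bil_mat v u (S (φ n))
    rw [e1]
    have h5 := hS3 (φ n)
    have h6 := pair_diff (hS2 (φ n)) x (vecB e u) y (fnlB k v)
    have h7 := norm_sub_norm_le (y (S (φ n) x)) (fnlB k v (S (φ n) (vecB e u)))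
    rw [norm_sub_rev] at h7
    linarith
  linarith

end

end Pool.Agent.Y280
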