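import Pool.Agent.Y280.HMat

/-!
# Functionals on the commutant of a matrix
-/

set_option autoImplicit false
open Finset Filter Topology
open scoped ComplexOrder

namespace Pool.Agent.Y280

/-- The matrix `B` has norm at most `r` on `ℓ_p^I`. -/
def OpM (p : ℝ) {I : Type} [Fintype I] (B : Matrix I I ℂ) (r : ℝ) : Prop :=
  ∀ x : I → ℂ, ∑ i, ‖∑ j, B i j * x j‖ ^ p ≤ r ^ p * ∑ j, ‖x j‖ ^ p

/-- The bilinear form of a matrix. -/
def bil {I : Type} [Fintype I] (v : I → ℂ) (B : Matrix I I ℂ) (u : I → ℂ) : ℂ :=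
  ∑ i, ∑ j, v i * (B i j * u j)

/-- The functional `B ↦ v B u` has norm at most `ρ` on the commutant of `A`. -/
def HM (p : ℝ) {I : Type} [Fintype I] (A : Matrix I I ℂ) (u v : I → ℂ) (ρ : ℝ) : Prop :=
  ∀ B : Matrix I I ℂ, A * B = B * A → OpM p B 1 → ‖bil v B u‖ ≤ ρ

section

variable {I : Type} [Fintype I]

lemma bil_eq (v : I → ℂ) (B : Matrix I I ℂ) (u : I → ℂ) :
    bil v B u = ∑ i, v i * ∑ j, B i j * u j := by
  unfold bil
  exact sum_congr rfl fun i _ => by rw [mul_sum]

lemma bil_scale (v : I → ℂ) (B : Matrix I I ℂ) (u : I → ℂ) (a b : ℂ) :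
    bil (fun i => a * v i) B (fun i => b * u i) = a * b * bil v B u := by
  unfold bil
  rw [mul_sum]
  refine sum_congr rfl fun i _ => ?_
  rw [mul_sum]
  exact sum_congr rfl fun j _ => by ring

lemma bil_smul (v : I → ℂ) (B : Matrix I I ℂ) (u : I → ℂ) (c : ℂ) :
    bil v (c • B) u = c * bil v B u := by
  unfold bil
  rw [mul_sum]
  refine sum_congr rfl fun i _ => ?_
  rw [mul_sum]
  refine sum_congr rfl fun j _ => ?_
  rw [Matrix.smul_apply, smul_eq_mul]
  ring

lemma OpM.smul {p : ℝ} {B : Matrix I I ℂ} {r : ℝ} (hr : 0 ≤ r) (h : OpM p B r) (c : ℂ) :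
    OpM p (c • B) (‖c‖ * r) := by
  intro x
  have e : ∀ i, ∑ j, (c • B) i j * x j = c * ∑ j, B i j * x j := by
    intro i
    rw [mul_sum]
    refine sum_congr rfl fun j _ => ?_
    rw [Matrix.smul_apply, smul_eq_mul]
    ring
  simp only [e, norm_mul]
  rw [sum_congr rfl fun i _ => Real.mul_rpow (norm_nonneg c) (norm_nonneg _), ← mul_sum,
    Real.mul_rpow (norm_nonneg _) hr, mul_assoc]
  exact mul_le_mul_of_nonneg_left (h x) (by positivity)

lemma OpM.mono {p : ℝ} (hp : 0 < p) {B : Matrix I I ℂ} {r s : ℝ} (hr : 0 ≤ r) (hrs : r ≤ s)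
    (h : OpM p B r) : OpM p B s := by
  intro x
  refine (h x).trans (mul_le_mul_of_nonneg_right (Real.rpow_le_rpow hr hrs hp.le) ?_)
  exact sum_nonneg fun _ _ => by positivity

lemma OpM.entry {p : ℝ} (hp : 0 < p) {B : Matrix I I ℂ} {r : ℝ} (hr : 0 ≤ r) (h : OpM p B r)
    (i j : I) : ‖B i j‖ ≤ r := by
  classical
  have h1 := h (Pi.single j 1)
  have e1 : ∀ i, ∑ k, B i k * (Pi.single j (1 : ℂ) : I → ℂ) k = B i j := by
    intro i
    rw [sum_eq_single j]
    · rw [Pi.single_eq_same, mul_one]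
    · intro b _ hb
      rw [Pi.single_eq_of_ne hb, mul_zero]
    · intro h'
      exact absurd (mem_univ j) h'
  have e2 : ∑ k, ‖(Pi.single j (1 : ℂ) : I → ℂ) k‖ ^ p = 1 := by
    rw [sum_eq_single j]
    · rw [Pi.single_eq_same, norm_one, Real.one_rpow]
    · intro b _ hb
      rw [Pi.single_eq_of_ne hb, norm_zero, Real.zero_rpow hp.ne']
    · intro h'
      exact absurd (mem_univ j) h'
  simp only [e1] at h1
  rw [e2, mul_one] at h1
  have h2 : ‖B i j‖ ^ p ≤ r ^ p :=
    (single_le_sum (f := fun i => ‖B i j‖ ^ p) (fun _ _ => by positivity) (mem_univ i)).trans h1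
  exact (Real.rpow_le_rpow_iff (norm_nonneg _) hr hp).1 h2

lemma HM.scale {p : ℝ} {A : Matrix I I ℂ} {u v : I → ℂ} {ρ : ℝ} (h : HM p A u v ρ) {s : ℝ}
    (hs : 0 < s) {B : Matrix I I ℂ} (hAB : A * B = B * A) (hB : OpM p B s) :
    ‖bil v B u‖ ≤ ρ * s := by
  have h1 := h (((s⁻¹ : ℝ) : ℂ) • B) (by
    rw [mul_smul_comm, smul_mul_assoc, hAB]) (by
    have h2 := hB.smul hs.le ((s⁻¹ : ℝ) : ℂ)
    rwa [Complex.norm_real, Real.norm_of_nonneg (by positivity), inv_mul_cancel₀ hs.ne'] at h2)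
  rw [bil_smul, norm_mul, Complex.norm_real, Real.norm_of_nonneg (by positivity),
    inv_mul_le_iff₀ hs] at h1
  linarith

lemma OpM_of_bil {p q : ℝ} (hpq : p.HolderConjugate q) {B : Matrix I I ℂ} {s : ℝ} (hs : 0 ≤ s)
    (h : ∀ u v : I → ℂ, ∑ i, ‖u i‖ ^ p ≤ 1 → ∑ i, ‖v i‖ ^ q ≤ 1 → ‖bil v B u‖ ≤ s) :
    OpM p B s := by
  intro u
  set U := (∑ k, ‖u k‖ ^ p) ^ (1 / p) with hU
  have hSnn : 0 ≤ ∑ k, ‖u k‖ ^ p := sum_nonneg fun i _ => by positivity
  have hUnn : 0 ≤ U := by positivity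
  have hUp : U ^ p = ∑ k, ‖u k‖ ^ p := by
    rw [hU, ← Real.rpow_mul hSnn, one_div_mul_cancel hpq.ne_zero, Real.rpow_one]
  rcases hUnn.eq_or_lt with hU0 | hU0
  · have h1 : ∑ k, ‖u k‖ ^ p = 0 := by
      rw [← hUp, ← hU0, Real.zero_rpow hpq.ne_zero]
    have h2 : ∀ k, u k = 0 := by
      intro k
      have := (sum_eq_zero_iff_of_nonneg (fun i _ => by positivity)).1 h1 k (mem_univ k)
      rw [Real.rpow_eq_zero (norm_nonneg _) hpq.ne_zero] at this
      simpa using this
    rw [h1, mul_zero]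
    refine le_of_eq (sum_eq_zero fun i _ => ?_)
    rw [sum_eq_zero, norm_zero, Real.zero_rpow hpq.ne_zero]
    intro n _
    rw [h2, mul_zero]
  · set u' : I → ℂ := fun k => ((U⁻¹ : ℝ) : ℂ) * u k with hu'
    have h1 : ∑ j, ‖u' j‖ ^ p ≤ 1 := by
      have : ∀ j ∈ univ, ‖u' j‖ ^ p = (U ^ p)⁻¹ * ‖u j‖ ^ p := by
        intro j _
        rw [hu']
        simp only [norm_mul, Complex.norm_real]
        rw [Real.mul_rpow (norm_nonneg _) (norm_nonneg _), Real.norm_of_nonneg (by positivity),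
          Real.inv_rpow hUnn]
      rw [sum_congr rfl this, ← mul_sum, ← hUp, inv_mul_cancel₀ (by positivity)]
    have h2 : (∑ i, ‖∑ j, B i j * u' j‖ ^ p) ^ (1 / p) ≤ s := by
      apply dual_boundF hpq
      intro w hw
      have h3 := h u' w h1 hw
      rw [bil_eq] at h3
      rwa [sum_congr rfl fun i _ => mul_comm (∑ j, B i j * u' j) (w i)]
    have h3 : ∀ i ∈ univ, ‖∑ j, B i j * u j‖ ^ p = U ^ p * ‖∑ j, B i j * u' j‖ ^ p := by
      intro i _
      have : ∑ j, B i j * u j = (U : ℂ) * ∑ j, B i j * u' j := by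
        rw [mul_sum]
        refine sum_congr rfl fun k _ => ?_
        rw [hu']
        have : (U : ℂ) ≠ 0 := by exact_mod_cast hU0.ne'
        push_cast
        field_simp
      rw [this, norm_mul, Complex.norm_real, Real.norm_of_nonneg hUnn,
        Real.mul_rpow hUnn (norm_nonneg _)]
    have h4 : ∑ i, ‖∑ j, B i j * u' j‖ ^ p ≤ s ^ p := by
      have h5 := Real.rpow_le_rpow (by positivity) h2 hpq.nonneg
      rwa [← Real.rpow_mul (sum_nonneg fun _ _ => by positivity),
        one_div_mul_cancel hpq.ne_zero, Real.rpow_one] at h5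
    rw [sum_congr rfl h3, ← mul_sum, hUp, mul_comm]
    exact mul_le_mul_of_nonneg_right h4 hSnn

/-- The convex set of the functionals. -/
def CS (p q : ℝ) (A : Matrix I I ℂ) : Set (I → I → ℂ) :=
  {F | ∃ (L : Type) (_ : Fintype L) (U V : L → I → ℂ) (H : Matrix I I ℂ),
    ∑ b, ∑ i, ‖U b i‖ ^ p ≤ 1 ∧ ∑ b, ∑ i, ‖V b i‖ ^ q ≤ 1 ∧
    ∀ k l, F k l = ∑ b, V b k * U b l + (H * A - A * H) l k}

lemma sum_scale2 {p s : ℝ} (hp : 0 < p) (hs : 0 ≤ s) {L : Type} [Fintype L] (u : L → I → ℂ) :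
    ∑ b, ∑ i, ‖((s ^ (1 / p) : ℝ) : ℂ) * u b i‖ ^ p = s * ∑ b, ∑ i, ‖u b i‖ ^ p := by
  rw [mul_sum]
  exact sum_congr rfl fun b _ => sum_scaleF hp hs (u b)

lemma CS_convex {p q : ℝ} (hpq : p.HolderConjugate q) (A : Matrix I I ℂ) :
    Convex ℝ (CS p q A) := by
  rintro F ⟨L, _, U, V, H, hU, hV, hF⟩ F' ⟨L', _, U', V', H', hU', hV', hF'⟩ s t hs ht hst
  refine ⟨L ⊕ L', inferInstance,
    Sum.elim (fun b i => ((s ^ (1 / p) : ℝ) : ℂ) * U b i)
      (fun b i => ((t ^ (1 / p) : ℝ) : ℂ) * U' b i),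
    Sum.elim (fun b i => ((s ^ (1 / q) : ℝ) : ℂ) * V b i)
      (fun b i => ((t ^ (1 / q) : ℝ) : ℂ) * V' b i),
    (s : ℂ) • H + (t : ℂ) • H', ?_, ?_, ?_⟩
  · rw [Fintype.sum_sum_type]
    simp only [Sum.elim_inl, Sum.elim_inr]
    rw [sum_scale2 hpq.pos hs, sum_scale2 hpq.pos ht]
    nlinarith
  · rw [Fintype.sum_sum_type]
    simp only [Sum.elim_inl, Sum.elim_inr]
    rw [sum_scale2 hpq.symm.pos hs, sum_scale2 hpq.symm.pos ht]
    nlinarith
  · intro k l
    rw [Fintype.sum_sum_type]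
    simp only [Sum.elim_inl, Sum.elim_inr]
    have e1 : ∀ b, ((s ^ (1 / q) : ℝ) : ℂ) * V b k * (((s ^ (1 / p) : ℝ) : ℂ) * U b l) =
        (s : ℂ) * (V b k * U b l) := by
      intro b
      rw [← scale_mul hpq hs]
      ring
    have e2 : ∀ b, ((t ^ (1 / q) : ℝ) : ℂ) * V' b k * (((t ^ (1 / p) : ℝ) : ℂ) * U' b l) =
        (t : ℂ) * (V' b k * U' b l) := by
      intro b
      rw [← scale_mul hpq ht]
      ring
    rw [sum_congr rfl fun b _ => e1 b, sum_congr rfl fun b _ => e2 b, ← mul_sum, ← mul_sum]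
    have e3 : (((s : ℂ) • H + (t : ℂ) • H') * A - A * ((s : ℂ) • H + (t : ℂ) • H')) l k =
        (s : ℂ) * (H * A - A * H) l k + (t : ℂ) * (H' * A - A * H') l k := by
      simp only [add_mul, mul_add, smul_mul_assoc, mul_smul_comm, Matrix.sub_apply,
        Matrix.add_apply, Matrix.smul_apply, smul_eq_mul]
      ring
    rw [e3]
    show (s • F + t • F') k l = _
    rw [Pi.add_apply, Pi.add_apply, Pi.smul_apply, Pi.smul_apply, Pi.smul_apply, Pi.smul_apply,
      hF, hF', Complex.real_smul, Complex.real_smul]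
    ring

lemma sum_tr [DecidableEq I] (M B : Matrix I I ℂ) : ∑ k, ∑ l, M l k * B k l = (M * B).trace := by
  unfold Matrix.trace
  simp only [Matrix.diag_apply, Matrix.mul_apply]
  rw [sum_comm]

lemma tr_comm [DecidableEq I] (A B H : Matrix I I ℂ) :
    ((H * A - A * H) * B).trace = (H * (A * B - B * A)).trace := by
  rw [sub_mul, mul_sub, Matrix.trace_sub, Matrix.trace_sub, mul_assoc, Matrix.mul_assoc A H B,
    Matrix.trace_mul_comm A (H * B), Matrix.mul_assoc H B A]

/-- **Representation of functionals on the commutant.** -/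
theorem exists_rep {p q : ℝ} (hpq : p.HolderConjugate q) {A : Matrix I I ℂ} {u v : I → ℂ}
    {ρ : ℝ} (hρ : 0 < ρ) (h : HM p A u v ρ) {η : ℝ} (hη : 0 < η) :
    ∃ (m : ℕ) (U V : Fin m → I → ℂ), ∑ b, ∑ i, ‖U b i‖ ^ p ≤ ρ ∧ ∑ b, ∑ i, ‖V b i‖ ^ q ≤ ρ ∧
      ∀ B : Matrix I I ℂ, A * B = B * A → OpM p B 1 →
        ‖bil v B u - ∑ b, bil (V b) B (U b)‖ ≤ η := by
  classical
  have hmem : (fun k l => v k * u l / (ρ : ℂ)) ∈ closure (CS p q A) := by
    by_contra hc
    obtain ⟨f, s, hf, hs⟩ := RCLike.geometric_hahn_banach_closed_point (𝕜 := ℂ)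
      (CS_convex hpq A).closure isClosed_closure hc
    set B : Matrix I I ℂ := fun i j => f (Pi.single i (Pi.single j 1)) with hB
    have hfB : ∀ F : I → I → ℂ, f F = ∑ k, ∑ l, F k l * B k l := by
      intro F
      have e : F = ∑ k, ∑ l, F k l • (Pi.single k (Pi.single l (1 : ℂ)) : I → I → ℂ) := by
        ext k l
        rw [Finset.sum_apply, Finset.sum_apply, sum_eq_single k]
        · rw [Finset.sum_apply, Finset.sum_apply, sum_eq_single l]
          · rw [Pi.smul_apply, Pi.smul_apply, Pi.single_eq_same, Pi.single_eq_same, smul_eq_mul,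
              mul_one]
          · intro b _ hb
            rw [Pi.smul_apply, Pi.smul_apply, Pi.single_eq_same, Pi.single_eq_of_ne hb.symm,
              smul_zero]
          · intro h'; exact absurd (mem_univ l) h'
        · intro b _ hb
          rw [Finset.sum_apply, Finset.sum_apply]
          refine sum_eq_zero fun c _ => ?_
          rw [Pi.smul_apply, Pi.smul_apply, Pi.single_eq_of_ne hb.symm, Pi.zero_apply, smul_zero]
        · intro h'; exact absurd (mem_univ k) h'
      conv_lhs => rw [e]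
      rw [map_sum]
      refine sum_congr rfl fun k _ => ?_
      rw [map_sum]
      exact sum_congr rfl fun l _ => by rw [map_smul, smul_eq_mul]
    have hzero : (0 : I → I → ℂ) ∈ closure (CS p q A) := by
      apply subset_closure
      exact ⟨Empty, inferInstance, fun b => b.elim, fun b => b.elim, 0, by simp, by simp,
        by simp⟩
    have hs0 : 0 < s := by
      have := hf 0 hzero
      simpa using this
    -- `B` commutes with `A`
    have hAB : A * B = B * A := by
      have h0 : ∀ H : Matrix I I ℂ, (H * (A * B - B * A)).trace = 0 := by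
        intro H
        rw [← tr_comm, ← sum_tr]
        by_contra hz
        set z := ∑ k, ∑ l, (H * A - A * H) l k * B k l with hz'
        have h1 := hf (fun k l => (((s : ℂ) / z) • H * A - A * (((s : ℂ) / z) • H)) l k) (by
          apply subset_closure
          exact ⟨Empty, inferInstance, fun b => b.elim, fun b => b.elim, ((s : ℂ) / z) • H,
            by simp, by simp, by simp⟩)
        rw [hfB] at h1
        have e : ∑ k, ∑ l, (((s : ℂ) / z) • H * A - A * (((s : ℂ) / z) • H)) l k * B k l =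
            (s : ℂ) / z * z := by
          rw [hz', mul_sum]
          refine sum_congr rfl fun k _ => ?_
          rw [mul_sum]
          refine sum_congr rfl fun l _ => ?_
          simp only [smul_mul_assoc, mul_smul_comm, Matrix.sub_apply, Matrix.smul_apply,
            smul_eq_mul]
          ring
        rw [e, div_mul_cancel₀ _ hz] at h1
        simp at h1
      have h1 := h0 (A * B - B * A).conjTranspose
      rw [Matrix.trace_conjTranspose_mul_self_eq_zero_iff] at h1
      exact sub_eq_zero.1 h1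
    have hBn : OpM p B s := by
      apply OpM_of_bil hpq hs0.le
      intro u' v' hu' hv'
      obtain ⟨θ, hθ, hθ'⟩ : ∃ θ : ℂ, ‖θ‖ = 1 ∧ θ * bil v' B u' = (‖bil v' B u'‖ : ℂ) := by
        set z := bil v' B u'
        by_cases hz : z = 0
        · exact ⟨1, by simp, by simp [hz]⟩
        · refine ⟨(starRingEnd ℂ) z / ‖z‖, ?_, ?_⟩
          · simp [norm_div, hz]
          · have hz' : (‖z‖ : ℂ) ≠ 0 := by simpa using hz
            rw [div_mul_eq_mul_div, mul_comm, Complex.mul_conj, Complex.normSq_eq_norm_sq]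
            push_cast
            field_simp
      have h1 := hf (fun k l => (θ * v' k) * u' l) (by
        apply subset_closure
        refine ⟨Unit, inferInstance, fun _ => u', fun _ k => θ * v' k, 0, by simpa using hu',
          ?_, by simp⟩
        simpa [norm_mul, hθ] using hv')
      rw [hfB] at h1
      have h2 : ∑ k, ∑ l, (θ * v' k) * u' l * B k l = θ * bil v' B u' := by
        unfold bil
        rw [mul_sum]
        refine sum_congr rfl fun k _ => ?_
        rw [mul_sum]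
        exact sum_congr rfl fun l _ => by ring
      rw [h2, hθ'] at h1
      simpa using h1.le
    have h1 := h.scale hs0 hAB hBn
    have h2 : f (fun k l => v k * u l / (ρ : ℂ)) = bil v B u / ρ := by
      rw [hfB]
      unfold bil
      rw [sum_div]
      refine sum_congr rfl fun k _ => ?_
      rw [sum_div]
      exact sum_congr rfl fun l _ => by ring
    rw [h2] at hs
    have h3 : s < ‖bil v B u / ρ‖ := hs.trans_le (Complex.re_le_norm _)
    rw [norm_div, Complex.norm_real, Real.norm_of_nonneg hρ.le, lt_div_iff₀ hρ] at h3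
    linarith
  set n := Fintype.card I with hn
  set ε : ℝ := η / (ρ * ((n : ℝ) * n + 1)) with hε
  have hε0 : 0 < ε := by positivity
  obtain ⟨F, ⟨L, hL, U, V, H, hU, hV, hF⟩, hdist⟩ := Metric.mem_closure_iff.1 hmem ε hε0
  set e := Fintype.equivFin L with he
  refine ⟨Fintype.card L, fun b i => ((ρ ^ (1 / p) : ℝ) : ℂ) * U (e.symm b) i,
    fun b i => ((ρ ^ (1 / q) : ℝ) : ℂ) * V (e.symm b) i, ?_, ?_, ?_⟩
  · rw [sum_scale2 hpq.pos hρ.le, e.symm.sum_comp (fun b => ∑ i, ‖U b i‖ ^ p)]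
    nlinarith
  · rw [sum_scale2 hpq.symm.pos hρ.le, e.symm.sum_comp (fun b => ∑ i, ‖V b i‖ ^ q)]
    nlinarith
  · intro B hAB hB
    have e1 : ∑ b, bil (fun i => ((ρ ^ (1 / q) : ℝ) : ℂ) * V (e.symm b) i) B
        (fun i => ((ρ ^ (1 / p) : ℝ) : ℂ) * U (e.symm b) i) = (ρ : ℂ) * ∑ b, bil (V b) B (U b) := by
      rw [e.symm.sum_comp (fun b => bil (fun i => ((ρ ^ (1 / q) : ℝ) : ℂ) * V b i) B
        (fun i => ((ρ ^ (1 / p) : ℝ) : ℂ) * U b i)), mul_sum]
      refine sum_congr rfl fun b _ => ?_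
      rw [bil_scale, mul_comm ((ρ ^ (1 / q) : ℝ) : ℂ), scale_mul hpq hρ.le]
    rw [e1]
    have hρC : (ρ : ℂ) ≠ 0 := by exact_mod_cast hρ.ne'
    have h0 : ∑ k, ∑ l, (H * A - A * H) l k * B k l = 0 := by
      rw [sum_tr, tr_comm, hAB, sub_self, mul_zero, Matrix.trace_zero]
    have e2 : bil v B u - (ρ : ℂ) * ∑ b, bil (V b) B (U b) =
        (ρ : ℂ) * ∑ k, ∑ l, (v k * u l / (ρ : ℂ) - F k l) * B k l := by
      have e3 : ∑ k, ∑ l, F k l * B k l = ∑ b, bil (V b) B (U b) := by
        have e4 : ∑ b, bil (V b) B (U b) = ∑ k, ∑ l, (∑ b, V b k * U b l) * B k l := by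
          unfold bil
          rw [sum_comm]
          refine sum_congr rfl fun k _ => ?_
          rw [sum_comm]
          refine sum_congr rfl fun l _ => ?_
          rw [sum_mul]
          exact sum_congr rfl fun b _ => by ring
        rw [e4, ← sub_eq_zero, ← sum_sub_distrib]
        rw [← h0]
        refine sum_congr rfl fun k _ => ?_
        rw [← sum_sub_distrib]
        refine sum_congr rfl fun l _ => ?_
        rw [hF]
        ring
      have e5 : ∑ k, ∑ l, v k * u l / (ρ : ℂ) * B k l = bil v B u / ρ := by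
        unfold bil
        rw [sum_div]
        refine sum_congr rfl fun k _ => ?_
        rw [sum_div]
        exact sum_congr rfl fun l _ => by ring
      have e6 : ∑ k, ∑ l, (v k * u l / (ρ : ℂ) - F k l) * B k l =
          ∑ k, ∑ l, v k * u l / (ρ : ℂ) * B k l - ∑ k, ∑ l, F k l * B k l := by
        rw [← sum_sub_distrib]
        refine sum_congr rfl fun k _ => ?_
        rw [← sum_sub_distrib]
        exact sum_congr rfl fun l _ => by ring
      rw [e6, e5, e3]
      field_simp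
    rw [e2, norm_mul, Complex.norm_real, Real.norm_of_nonneg hρ.le]
    have hentry : ∀ k l, ‖(v k * u l / (ρ : ℂ) - F k l) * B k l‖ ≤ ε := by
      intro k l
      rw [norm_mul]
      have h3 : ‖v k * u l / (ρ : ℂ) - F k l‖ ≤ ε := by
        have h4 := (dist_pi_lt_iff hε0).1 hdist k
        have h5 := (dist_pi_lt_iff hε0).1 h4 l
        rw [dist_eq_norm] at h5
        exact h5.le
      have h4 := hB.entry hpq.pos zero_le_one k l
      calc ‖v k * u l / (ρ : ℂ) - F k l‖ * ‖B k l‖ ≤ ε * 1 :=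
            mul_le_mul h3 h4 (norm_nonneg _) hε0.le
        _ = ε := mul_one _
    have h3 : ‖∑ k, ∑ l, (v k * u l / (ρ : ℂ) - F k l) * B k l‖ ≤ (n : ℝ) * n * ε := by
      refine (norm_sum_le _ _).trans ?_
      refine (sum_le_sum fun k _ => (norm_sum_le _ _).trans
        (sum_le_sum fun l _ => hentry k l)).trans ?_
      rw [sum_const, sum_const, card_univ, nsmul_eq_mul, nsmul_eq_mul, ← hn, mul_assoc]
    calc ρ * ‖∑ k, ∑ l, (v k * u l / (ρ : ℂ) - F k l) * B k l‖ ≤ ρ * ((n : ℝ) * n * ε) :=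
          mul_le_mul_of_nonneg_left h3 hρ.le
      _ ≤ ρ * (((n : ℝ) * n + 1) * ε) := by
          refine mul_le_mul_of_nonneg_left ?_ hρ.le
          exact mul_le_mul_of_nonneg_right (by linarith) hε0.le
      _ = η := by
          rw [hε]
          field_simp

end

end Pool.Agent.Y280
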