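import Pool.Agent.Y280.HOp

/-!
# The density step for the commutant
-/

set_option autoImplicit false
open Finset Filter Topology Polynomial

namespace Pool.Agent.Y280

section sep

lemma sep_comp {f : ℂ[X]} (hf : f.Separable) {s : ℂ} (hs : s ≠ 0) :
    (f.comp (C s * X)).Separable := by
  obtain ⟨a, b, hab⟩ := hf
  refine ⟨a.comp (C s * X), C s⁻¹ * b.comp (C s * X), ?_⟩
  have h1 := congrArg (fun g : ℂ[X] => g.comp (C s * X)) hab
  simp only [add_comp, mul_comp, one_comp] at h1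
  rw [← h1, derivative_comp]
  congr 1
  have e : derivative (C s * X) = C s := by simp
  have e2 : C s⁻¹ * C s = 1 := by rw [← C_mul, inv_mul_cancel₀ hs, C_1]
  rw [e]
  linear_combination (comp b (C s * X) * comp (derivative f) (C s * X)) * e2

lemma exists_sep_near {N : ℕ} (A : Matrix (Fin N) (Fin N) ℂ) {p : ℝ} (hp : 0 < p) {ε : ℝ}
    (hε : 0 < ε) : ∃ (D : Matrix (Fin N) (Fin N) ℂ) (χ : ℂ[X]), OpM p D ε ∧
      aeval (A + D) χ = 0 ∧ χ.Separable := by
  obtain ⟨s, hs, hs'⟩ := exists_large_sep A (((N : ℝ) + 1) / ε)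
  have hs0 : 0 < s := lt_trans (by positivity) hs
  have hsC : (s : ℂ) ≠ 0 := by exact_mod_cast hs0.ne'
  set B : Matrix (Fin N) (Fin N) ℂ := Matrix.diagonal fun i : Fin N => ((i : ℕ) : ℂ) with hB
  have hBn : OpM p B N := by
    intro x
    rw [mul_sum]
    refine sum_le_sum fun i _ => ?_
    have e : ∑ j, B i j * x j = ((i : ℕ) : ℂ) * x i := by
      rw [sum_eq_single i]
      · rw [hB, Matrix.diagonal_apply_eq]
      · intro b _ hb
        rw [hB, Matrix.diagonal_apply_ne _ hb.symm, zero_mul]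
      · intro h'; exact absurd (mem_univ _) h'
    rw [e, norm_mul, Real.mul_rpow (norm_nonneg _) (norm_nonneg _)]
    refine mul_le_mul_of_nonneg_right (Real.rpow_le_rpow (norm_nonneg _) ?_ hp.le) (by positivity)
    rw [Complex.norm_natCast]
    exact_mod_cast i.2.le
  refine ⟨((s⁻¹ : ℝ) : ℂ) • B, (B + (s : ℂ) • A).charpoly.comp (C (s : ℂ) * X), ?_, ?_,
    sep_comp hs' hsC⟩
  · refine (hBn.smul (Nat.cast_nonneg N) _).mono hp ?_ ?_
    · positivity
    · rw [Complex.norm_real, Real.norm_of_nonneg (by positivity), inv_mul_le_iff₀ hs0]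
      rw [div_lt_iff₀ hε] at hs
      linarith
  · rw [aeval_comp]
    have e : aeval (A + ((s⁻¹ : ℝ) : ℂ) • B) (C (s : ℂ) * X) = B + (s : ℂ) • A := by
      rw [map_mul, aeval_X, aeval_C, Algebra.algebraMap_eq_smul_one, smul_mul_assoc, one_mul,
        smul_add, smul_smul]
      rw [Complex.ofReal_inv, mul_inv_cancel₀ hsC, one_smul, add_comm]
    rw [e]
    exact Matrix.aeval_self_charpoly _

end sep

variable {E : Type*} [NormedAddCommGroup E] [NormedSpace ℂ E]

/-- The block can be moved a little to make room for many copies of it far away. -/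
def Ext (p : ℝ) {N : ℕ} (e : Fin N → E) (k : Fin N → StrongDual ℂ E) : Prop :=
  ∀ (n : ℕ) (X : Finset E) (Y : Finset (StrongDual ℂ E)) (ε : ℝ), 0 < ε →
    ∃ (e' : Fin N × Fin (n + 1) → E) (k' : Fin N × Fin (n + 1) → StrongDual ℂ E), Blk p e' k' ∧
      (∀ i, ‖e' (i, 0) - e i‖ ≤ ε) ∧ (∀ i, ‖k' (i, 0) - k i‖ ≤ ε) ∧
      (∀ i a, a ≠ 0 → ∀ x ∈ X, ‖k' (i, a) x‖ ≤ ε) ∧ ∀ i a, a ≠ 0 → ∀ y ∈ Y, ‖y (e' (i, a))‖ ≤ ε

/-- The space is approximated by blocks with room for copies. -/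
def BlockSys (p : ℝ) (E : Type*) [NormedAddCommGroup E] [NormedSpace ℂ E] : Prop :=
  ∀ (X : Finset E) (Y : Finset (StrongDual ℂ E)) (ε : ℝ), 0 < ε →
    ∃ (N : ℕ) (e : Fin N → E) (k : Fin N → StrongDual ℂ E), Blk p e k ∧ Ext p e k ∧
      (∀ x ∈ X, ‖vecB e (fun i => k i x) - x‖ ≤ ε) ∧
      ∀ y ∈ Y, ‖fnlB k (fun i => y (e i)) - y‖ ≤ ε

section

variable {I : Type} [Fintype I] {e : I → E} {k : I → StrongDual ℂ E} {p : ℝ}

lemma Blk.norm_R (h : Blk p e k) (hp : 0 < p) (x : E) : ‖vecB e fun i => k i x‖ ≤ ‖x‖ := by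
  have h1 := (h.he fun i => k i x).trans (h.hk x)
  exact (Real.rpow_le_rpow_iff (norm_nonneg _) (norm_nonneg _) hp).1 h1

lemma vecB_eq (x : E) : vecB e (fun i => k i x) = vecB e fun i => k i x := rfl

lemma fnlB_comp (y : StrongDual ℂ E) (x : E) :
    fnlB k (fun i => y (e i)) x = y (vecB e fun i => k i x) := by
  rw [fnlB_apply]
  unfold vecB
  rw [map_sum]
  refine sum_congr rfl fun i _ => ?_
  rw [map_smul, smul_eq_mul, mul_comm]

lemma Blk.norm_dR (h : Blk p e k) (hp : 0 < p) (y : StrongDual ℂ E) :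
    ‖fnlB k fun i => y (e i)‖ ≤ ‖y‖ := by
  refine ContinuousLinearMap.opNorm_le_bound _ (norm_nonneg _) fun x => ?_
  rw [fnlB_comp]
  exact (y.le_opNorm _).trans (mul_le_mul_of_nonneg_left (h.norm_R hp x) (norm_nonneg _))

lemma opB_mat (S : E →L[ℂ] E) (x : E) :
    opB e k (mat e k S) x = vecB e fun i => k i (S (vecB e fun i => k i x)) := by
  rw [opB_apply]
  unfold vecB mat
  refine sum_congr rfl fun i _ => ?_
  congr 1
  beta_reduce
  rw [map_sum, map_sum]
  refine sum_congr rfl fun j _ => ?_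
  rw [map_smul, map_smul, smul_eq_mul, mul_comm]

lemma opB_smul (A : Matrix I I ℂ) (c : ℂ) : opB e k (c • A) = c • opB e k A := by
  unfold opB
  simp only [Matrix.smul_apply, smul_eq_mul, mul_smul, smul_sum]

/-- The compression is close to the operator. -/
lemma compr_x (h : Blk p e k) (hp : 0 < p) {T : E →L[ℂ] E} (hT : ‖T‖ ≤ 1) {x : E} {ε : ℝ}
    (h1 : ‖vecB e (fun i => k i x) - x‖ ≤ ε) (h2 : ‖vecB e (fun i => k i (T x)) - T x‖ ≤ ε) :
    ‖opB e k (mat e k T) x - T x‖ ≤ 2 * ε := by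
  rw [opB_mat]
  have e1 : (vecB e fun i => k i (T (vecB e fun i => k i x))) - T x =
      (vecB e fun i => k i (T ((vecB e fun i => k i x) - x))) +
        ((vecB e fun i => k i (T x)) - T x) := by
    have : (vecB e fun i => k i (T ((vecB e fun i => k i x) - x))) =
        (vecB e fun i => k i (T (vecB e fun i => k i x))) - vecB e fun i => k i (T x) := by
      unfold vecB
      rw [← sum_sub_distrib]
      refine sum_congr rfl fun i _ => ?_
      beta_reduce
      rw [map_sub, map_sub, sub_smul]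
    rw [this]
    abel
  rw [e1, two_mul]
  refine (norm_add_le _ _).trans (add_le_add ?_ h2)
  refine (h.norm_R hp _).trans ((T.le_opNorm _).trans ?_)
  exact (mul_le_of_le_one_left (norm_nonneg _) hT).trans h1

lemma compr_y (h : Blk p e k) (hp : 0 < p) {T : E →L[ℂ] E} (hT : ‖T‖ ≤ 1) {y : StrongDual ℂ E}
    {ε : ℝ} (hε : 0 ≤ ε) (h1 : ‖fnlB k (fun i => y (e i)) - y‖ ≤ ε)
    (h2 : ‖fnlB k (fun i => (y.comp T) (e i)) - y.comp T‖ ≤ ε) :
    ‖y.comp (opB e k (mat e k T)) - y.comp T‖ ≤ 2 * ε := by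
  refine ContinuousLinearMap.opNorm_le_bound _ (by positivity) fun x => ?_
  rw [_root_.sub_apply, ContinuousLinearMap.comp_apply, opB_mat, ← fnlB_comp]
  have e1 : fnlB k (fun i => y (e i)) (T (vecB e fun i => k i x)) - (y.comp T) x =
      (fnlB k (fun i => y (e i)) - y) (T (vecB e fun i => k i x)) +
        (fnlB k (fun i => (y.comp T) (e i)) - y.comp T) x := by
    rw [_root_.sub_apply, _root_.sub_apply, fnlB_comp (k := k) (y.comp T),
      ContinuousLinearMap.comp_apply, ContinuousLinearMap.comp_apply]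
    ring
  rw [e1]
  refine (norm_add_le _ _).trans ?_
  have b1 : ‖(fnlB k (fun i => y (e i)) - y) (T (vecB e fun i => k i x))‖ ≤ ε * ‖x‖ := by
    refine (ContinuousLinearMap.le_opNorm _ _).trans (mul_le_mul h1 ?_ (norm_nonneg _) hε)
    refine (T.le_opNorm _).trans ((mul_le_of_le_one_left (norm_nonneg _) hT).trans ?_)
    exact h.norm_R hp x
  have b2 : ‖(fnlB k (fun i => (y.comp T) (e i)) - y.comp T) x‖ ≤ ε * ‖x‖ :=
    (ContinuousLinearMap.le_opNorm _ _).trans (mul_le_mul_of_nonneg_right h2 (norm_nonneg _))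
  linarith

end

variable {W : Type*} [TopologicalSpace W] {Φ : W → E →L[ℂ] E}

/-- Operators with a diagonalisable block matrix are dense. -/
lemma exists_blk_op {p : ℝ} (hp1 : 1 ≤ p) (hE : BlockSys p E) (h : BallS Φ) {O : Set W}
    (hO : IsOpen O) {w0 : W} (hw0 : w0 ∈ O) (x : E) (y : StrongDual ℂ E) {ε : ℝ} (hε : 0 < ε) :
    ∃ w1 ∈ O, ∃ (N : ℕ) (e : Fin N → E) (k : Fin N → StrongDual ℂ E), Blk p e k ∧ Ext p e k ∧
      ‖vecB e (fun i => k i x) - x‖ ≤ ε ∧ ‖fnlB k (fun i => y (e i)) - y‖ ≤ ε ∧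
      ∃ (A : Matrix (Fin N) (Fin N) ℂ) (r : ℝ) (χ : ℂ[X]), 0 ≤ r ∧ r < 1 ∧ OpM p A r ∧
        aeval A χ = 0 ∧ χ.Separable ∧ Φ w1 = opB e k A := by
  classical
  have hp : 0 < p := by linarith
  obtain ⟨X, Y, ε1, hε1, hnear⟩ := h.nhd w0 O hO hw0
  set T := Φ w0 with hT
  have hT1 : ‖T‖ ≤ 1 := h.norm w0
  set M : ℝ := ∑ x ∈ X, ‖x‖ + ∑ y ∈ Y, ‖y‖ + 1 with hM
  have hMX : ∀ x ∈ X, ‖x‖ ≤ M := by
    intro x hx
    have h1 := single_le_sum (f := fun x : E => ‖x‖) (fun _ _ => norm_nonneg _) hx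
    have h2 : 0 ≤ ∑ y ∈ Y, ‖y‖ := sum_nonneg fun _ _ => norm_nonneg _
    rw [hM]
    linarith
  have hMY : ∀ y ∈ Y, ‖y‖ ≤ M := by
    intro y hy
    have h1 := single_le_sum (f := fun y : StrongDual ℂ E => ‖y‖) (fun _ _ => norm_nonneg _) hy
    have h2 : 0 ≤ ∑ x ∈ X, ‖x‖ := sum_nonneg fun _ _ => norm_nonneg _
    rw [hM]
    linarith
  have hM0 : 0 < M := by
    have h1 : 0 ≤ ∑ x ∈ X, ‖x‖ := sum_nonneg fun _ _ => norm_nonneg _
    have h2 : 0 ≤ ∑ y ∈ Y, ‖y‖ := sum_nonneg fun _ _ => norm_nonneg _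
    rw [hM]
    linarith
  set τ : ℝ := min (1 / 2) (ε1 / (8 * M)) with hτ
  have hτ0 : 0 < τ := lt_min (by norm_num) (by positivity)
  have hτ1 : τ ≤ 1 / 2 := min_le_left _ _
  have hτM : τ * M ≤ ε1 / 8 := by
    have : τ ≤ ε1 / (8 * M) := min_le_right _ _
    rw [le_div_iff₀ (by positivity)] at this
    linarith
  set ε2 : ℝ := min ε (ε1 / 8) with hε2
  have hε20 : 0 < ε2 := lt_min hε (by positivity)
  obtain ⟨N, e, k, hb, hext, hX, hY⟩ := hE (insert x (X ∪ X.image fun x => T x))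
    (insert y (Y ∪ Y.image fun y => y.comp T)) ε2 hε20
  set A0 : Matrix (Fin N) (Fin N) ℂ := (((1 - τ : ℝ)) : ℂ) • mat e k T with hA0
  obtain ⟨D, χ, hD, hχ, hs⟩ := exists_sep_near A0 hp (show 0 < τ / 2 by positivity)
  have hA0n : OpM p A0 (1 - τ) := by
    have h1 := (hb.OpM_mat hp zero_le_one hT1).smul zero_le_one (((1 - τ : ℝ)) : ℂ)
    rwa [Complex.norm_real, Real.norm_of_nonneg (by linarith), mul_one] at h1
  have hAn : OpM p (A0 + D) (1 - τ / 2) := by
    have h1 := OpM.add hp1 (by linarith) (by positivity) hA0n hD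
    have e1 : 1 - τ + τ / 2 = 1 - τ / 2 := by ring
    rwa [e1] at h1
  have hnorm : ‖opB e k (A0 + D)‖ ≤ 1 - τ / 2 := hb.norm_opB hp (by linarith) hAn
  obtain ⟨w1, hw1⟩ := h.surj (opB e k (A0 + D)) (hnorm.trans (by linarith))
  have hDn : ‖opB e k D‖ ≤ τ / 2 := hb.norm_opB hp (by positivity) hD
  have hsm : opB e k (A0 + D) = (((1 - τ : ℝ)) : ℂ) • opB e k (mat e k T) + opB e k D := by
    rw [opB_add, hA0, opB_smul]
  have hτn : ‖((((1 - τ : ℝ)) : ℂ) - 1)‖ = τ := by
    have e1 : (((1 - τ : ℝ)) : ℂ) - 1 = ((-τ : ℝ) : ℂ) := by push_cast; ring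
    rw [e1, Complex.norm_real, norm_neg, Real.norm_of_nonneg hτ0.le]
  have hcn : ‖opB e k (mat e k T)‖ ≤ 1 := hb.norm_opB hp zero_le_one
    (hb.OpM_mat hp zero_le_one hT1)
  refine ⟨w1, ?_, N, e, k, hb, hext, ?_, ?_, A0 + D, 1 - τ / 2, χ, by linarith, by linarith,
    hAn, hχ, hs, hw1⟩
  · apply hnear
    · intro z hz
      rw [hw1, hsm]
      have h1 := compr_x hb hp hT1 (hX z (by simp [hz]))
        (hX (T z) (mem_insert_of_mem (mem_union_right _ (mem_image_of_mem _ hz))))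
      have e1 : ((((1 - τ : ℝ)) : ℂ) • opB e k (mat e k T) + opB e k D) z - T z =
          ((((1 - τ : ℝ)) : ℂ) - 1) • opB e k (mat e k T) z + opB e k D z +
            (opB e k (mat e k T) z - T z) := by
        rw [_root_.add_apply, _root_.smul_apply, sub_smul, one_smul]
        abel
      rw [e1]
      refine (norm_add₃_le).trans_lt ?_
      rw [norm_smul, hτn]
      have b1 : ‖opB e k (mat e k T) z‖ ≤ M :=
        ((opB e k (mat e k T)).le_opNorm z).trans
          ((mul_le_of_le_one_left (norm_nonneg _) hcn).trans (hMX z hz))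
      have b2 : ‖opB e k D z‖ ≤ τ / 2 * M :=
        ((opB e k D).le_opNorm z).trans (mul_le_mul hDn (hMX z hz) (norm_nonneg _)
          (by positivity))
      have b3 : τ * ‖opB e k (mat e k T) z‖ ≤ τ * M := mul_le_mul_of_nonneg_left b1 hτ0.le
      have b4 : ε2 ≤ ε1 / 8 := min_le_right _ _
      linarith
    · intro z hz
      rw [hw1, hsm]
      have h1 := compr_y hb hp hT1 hε20.le (hY z (by simp [hz]))
        (hY (z.comp T) (mem_insert_of_mem (mem_union_right _ (mem_image_of_mem _ hz))))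
      have e1 : z.comp ((((1 - τ : ℝ)) : ℂ) • opB e k (mat e k T) + opB e k D) - z.comp T =
          ((((1 - τ : ℝ)) : ℂ) - 1) • z.comp (opB e k (mat e k T)) + z.comp (opB e k D) +
            (z.comp (opB e k (mat e k T)) - z.comp T) := by
        ext a
        simp only [ContinuousLinearMap.comp_apply, _root_.add_apply, _root_.sub_apply,
          _root_.smul_apply, map_add, map_smul, smul_eq_mul]
        ring
      rw [e1]
      refine (norm_add₃_le).trans_lt ?_
      rw [norm_smul, hτn]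
      have b1 : ‖z.comp (opB e k (mat e k T))‖ ≤ M :=
        (ContinuousLinearMap.opNorm_comp_le _ _).trans
          ((mul_le_of_le_one_right (norm_nonneg _) hcn).trans (hMY z hz))
      have b2 : ‖z.comp (opB e k D)‖ ≤ M * (τ / 2) :=
        (ContinuousLinearMap.opNorm_comp_le _ _).trans (mul_le_mul (hMY z hz) hDn (norm_nonneg _)
          hM0.le)
      have b3 : τ * ‖z.comp (opB e k (mat e k T))‖ ≤ τ * M :=
        mul_le_mul_of_nonneg_left b1 hτ0.le
      have b4 : ε2 ≤ ε1 / 8 := min_le_right _ _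
      linarith
  · exact (hX x (mem_insert_self _ _)).trans (min_le_left _ _)
  · exact (hY y (mem_insert_self _ _)).trans (min_le_left _ _)

end Pool.Agent.Y280
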