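import Pool.Agent.Y280.HStep

/-!
# The density step for the commutant, II
-/

set_option autoImplicit false
open Finset Filter Topology Polynomial

namespace Pool.Agent.Y280

variable {E : Type*} [NormedAddCommGroup E] [NormedSpace ℂ E]

section close

variable {N m : ℕ} {p : ℝ} {e : Fin N → E} {k : Fin N → StrongDual ℂ E}
  {e' : Fin N × Fin (m + 1 + 1) → E} {k' : Fin N × Fin (m + 1 + 1) → StrongDual ℂ E}
  {A : Matrix (Fin N) (Fin N) ℂ} {δ w ε : ℝ}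

lemma big_00 (i j : Fin N) : big A m δ w (i, 0) (j, 0) = A i j := by
  unfold big bigD bigJ
  rw [Matrix.add_apply]
  simp

lemma big_0a (i j : Fin N) (a : Fin (m + 2)) (ha : a ≠ 0) : big A m δ w (i, 0) (j, a) = 0 := by
  unfold big bigD bigJ
  rw [Matrix.add_apply]
  have : ¬ (0 = a) := fun h => ha h.symm
  simp [this]

lemma big_a0 (hm : 0 < m) (hδ : 0 ≤ δ) (i j : Fin N) (a : Fin (m + 2)) (ha : a ≠ 0) :
    ‖big A m δ w (i, a) (j, 0)‖ ≤ δ := by
  unfold big bigD bigJ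
  rw [Matrix.add_apply]
  simp only
  rw [if_neg ha, zero_add]
  split_ifs with h
  · unfold wt
    rw [if_pos (by simpa using hm), Complex.norm_real, Real.norm_of_nonneg hδ]
  · rw [norm_zero]; exact hδ

lemma sum_00 {F : Type*} [AddCommMonoid F] (f : Fin N → Fin N → F) :
    ∑ y : Fin N × Fin (m + 1 + 1), ∑ z : Fin N × Fin (m + 1 + 1),
      (if y.2 = 0 ∧ z.2 = 0 then f y.1 z.1 else 0) = ∑ i, ∑ j, f i j := by
  rw [Fintype.sum_prod_type]
  refine sum_congr rfl fun i _ => ?_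
  rw [sum_eq_single 0]
  · rw [Fintype.sum_prod_type]
    refine sum_congr rfl fun j _ => ?_
    rw [sum_eq_single 0]
    · simp
    · intro b _ hb
      simp [hb]
    · intro h; exact absurd (mem_univ _) h
  · intro b _ hb
    refine sum_eq_zero fun z _ => ?_
    simp [hb]
  · intro h; exact absurd (mem_univ _) h

lemma norm_sum_sum_le {F : Type*} [SeminormedAddCommGroup F]
    (f : Fin N × Fin (m + 1 + 1) → Fin N × Fin (m + 1 + 1) → F) {c : ℝ}
    (h : ∀ y z, ‖f y z‖ ≤ c) : ‖∑ y, ∑ z, f y z‖ ≤ ((N * (m + 2) : ℕ) : ℝ) ^ 2 * c := by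
  refine (norm_sum_le _ _).trans ((sum_le_sum fun y _ => (norm_sum_le _ _).trans
    (sum_le_sum fun z _ => h y z)).trans ?_)
  rw [sum_const, sum_const, card_univ, Fintype.card_prod, Fintype.card_fin, Fintype.card_fin,
    nsmul_eq_mul, nsmul_eq_mul, ← mul_assoc, sq]

lemma close_x (hp : 0 < p) (hb : Blk p e k) (hb' : Blk p e' k') (hm : 0 < m) (hδ : 0 ≤ δ)
    (hε : 0 ≤ ε) (hA : ∀ y z, ‖big A m δ w y z‖ ≤ 1) (he : ∀ i, ‖e' (i, 0) - e i‖ ≤ ε)
    (hk : ∀ i, ‖k' (i, 0) - k i‖ ≤ ε) {x : E} (hx : ∀ i a, a ≠ 0 → ‖k' (i, a) x‖ ≤ ε) :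
    ‖opB e' k' (big A m δ w) x - opB e k A x‖ ≤
      ((N * (m + 2) : ℕ) : ℝ) ^ 2 * (ε + (δ + 2 * ε) * ‖x‖) := by
  have e1 : opB e' k' (big A m δ w) x - opB e k A x =
      ∑ y, ∑ z, ((big A m δ w y z * k' z x) • e' y -
        (if y.2 = 0 ∧ z.2 = 0 then (A y.1 z.1 * k z.1 x) • e y.1 else 0)) := by
    have e2 : opB e k A x = ∑ y : Fin N × Fin (m + 1 + 1), ∑ z : Fin N × Fin (m + 1 + 1),
        (if y.2 = 0 ∧ z.2 = 0 then (A y.1 z.1 * k z.1 x) • e y.1 else 0) := by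
      rw [sum_00 (fun i j => (A i j * k j x) • e i), opB_apply]
      exact sum_congr rfl fun i _ => by rw [sum_smul]
    rw [e2, opB_apply, ← sum_sub_distrib]
    refine sum_congr rfl fun y _ => ?_
    rw [sum_smul, ← sum_sub_distrib]
  rw [e1]
  apply norm_sum_sum_le
  rintro ⟨i, a⟩ ⟨j, b⟩
  have hkx : ∀ z, ‖k' z x‖ ≤ ‖x‖ := fun z => hb'.norm_kx_le hp z x
  have hex : 0 ≤ ε * ‖x‖ := by positivity
  have hdx : 0 ≤ δ * ‖x‖ := by positivity
  by_cases hb0 : b = 0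
  · subst hb0
    by_cases ha0 : a = 0
    · subst ha0
      rw [if_pos ⟨rfl, rfl⟩]
      have hAe := hA (i, 0) (j, 0)
      rw [big_00] at hAe ⊢
      have e3 : (A i j * k' (j, 0) x) • e' (i, 0) - (A i j * k j x) • e i =
          A i j • (((k' (j, 0) - k j) x) • e' (i, 0) + (k j x) • (e' (i, 0) - e i)) := by
        rw [_root_.sub_apply, mul_smul, mul_smul, ← smul_sub]
        congr 1
        rw [sub_smul, smul_sub]
        abel
      rw [e3, norm_smul]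
      have b1 : ‖((k' (j, 0) - k j) x) • e' (i, 0) + (k j x) • (e' (i, 0) - e i)‖ ≤
          2 * ε * ‖x‖ := by
        refine (norm_add_le _ _).trans ?_
        rw [norm_smul, norm_smul]
        have b2 : ‖(k' (j, 0) - k j) x‖ ≤ ε * ‖x‖ :=
          ((k' (j, 0) - k j).le_opNorm x).trans (mul_le_mul_of_nonneg_right (hk j)
            (norm_nonneg _))
        have b3 : ‖(k' (j, 0) - k j) x‖ * ‖e' (i, 0)‖ ≤ ε * ‖x‖ * 1 :=
          mul_le_mul b2 (hb'.norm_e_le hp _) (norm_nonneg _) hex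
        have b4 : ‖k j x‖ * ‖e' (i, 0) - e i‖ ≤ ‖x‖ * ε :=
          mul_le_mul (hb.norm_kx_le hp j x) (he i) (norm_nonneg _) (norm_nonneg _)
        linarith
      have b5 := mul_le_mul hAe b1 (norm_nonneg _) zero_le_one
      linarith
    · rw [if_neg (fun h => ha0 h.1), sub_zero, norm_smul, norm_mul]
      have b1 := big_a0 (A := A) (w := w) hm hδ i j a ha0
      have b2 : ‖big A m δ w (i, a) (j, 0)‖ * ‖k' (j, 0) x‖ ≤ δ * ‖x‖ :=
        mul_le_mul b1 (hkx _) (norm_nonneg _) hδ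
      have b3 := mul_le_mul b2 (hb'.norm_e_le hp (i, a)) (norm_nonneg _) hdx
      linarith
  · rw [if_neg (fun h => hb0 h.2), sub_zero, norm_smul, norm_mul]
    have b2 : ‖big A m δ w (i, a) (j, b)‖ * ‖k' (j, b) x‖ ≤ 1 * ε :=
      mul_le_mul (hA _ _) (hx j b hb0) (norm_nonneg _) zero_le_one
    have b3 := mul_le_mul b2 (hb'.norm_e_le hp (i, a)) (norm_nonneg _) (by positivity)
    linarith

lemma close_y (hp : 0 < p) (hb : Blk p e k) (hb' : Blk p e' k')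
    (hε : 0 ≤ ε) (hA : ∀ y z, ‖big A m δ w y z‖ ≤ 1) (he : ∀ i, ‖e' (i, 0) - e i‖ ≤ ε)
    (hk : ∀ i, ‖k' (i, 0) - k i‖ ≤ ε) {f : StrongDual ℂ E}
    (hf : ∀ i a, a ≠ 0 → ‖f (e' (i, a))‖ ≤ ε) :
    ‖f.comp (opB e' k' (big A m δ w)) - f.comp (opB e k A)‖ ≤
      ((N * (m + 2) : ℕ) : ℝ) ^ 2 * (ε + 2 * ε * ‖f‖) := by
  have e1 : f.comp (opB e' k' (big A m δ w)) - f.comp (opB e k A) =
      ∑ y, ∑ z, ((big A m δ w y z * f (e' y)) • k' z -
        (if y.2 = 0 ∧ z.2 = 0 then (A y.1 z.1 * f (e y.1)) • k z.1 else 0)) := by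
    have e2 : f.comp (opB e k A) = ∑ y : Fin N × Fin (m + 1 + 1),
        ∑ z : Fin N × Fin (m + 1 + 1),
        (if y.2 = 0 ∧ z.2 = 0 then (A y.1 z.1 * f (e y.1)) • k z.1 else 0) := by
      rw [sum_00 (fun i j => (A i j * f (e i)) • k j), comp_opB]
    rw [e2, comp_opB, ← sum_sub_distrib]
    refine sum_congr rfl fun y _ => ?_
    rw [← sum_sub_distrib]
  rw [e1]
  apply norm_sum_sum_le
  rintro ⟨i, a⟩ ⟨j, b⟩
  have hfx : ∀ z, ‖f (e' z)‖ ≤ ‖f‖ := fun z =>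
    (f.le_opNorm _).trans (mul_le_of_le_one_right (norm_nonneg _) (hb'.norm_e_le hp z))
  have hex : 0 ≤ ε * ‖f‖ := by positivity
  by_cases ha0 : a = 0
  · subst ha0
    by_cases hb0 : b = 0
    · subst hb0
      rw [if_pos ⟨rfl, rfl⟩]
      have hAe := hA (i, 0) (j, 0)
      rw [big_00] at hAe ⊢
      have e3 : (A i j * f (e' (i, 0))) • k' (j, 0) - (A i j * f (e i)) • k j =
          A i j • (f (e' (i, 0) - e i) • k' (j, 0) + f (e i) • (k' (j, 0) - k j)) := by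
        ext a
        simp only [_root_.sub_apply, _root_.smul_apply, _root_.add_apply, smul_eq_mul, map_sub]
        ring
      rw [e3, norm_smul]
      have b1 : ‖f (e' (i, 0) - e i) • k' (j, 0) + f (e i) • (k' (j, 0) - k j)‖ ≤
          2 * ε * ‖f‖ := by
        refine (norm_add_le _ _).trans ?_
        rw [norm_smul, norm_smul]
        have b2 : ‖f (e' (i, 0) - e i)‖ ≤ ‖f‖ * ε :=
          (f.le_opNorm _).trans (mul_le_mul_of_nonneg_left (he i) (norm_nonneg _))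
        have b3 : ‖f (e' (i, 0) - e i)‖ * ‖k' (j, 0)‖ ≤ ‖f‖ * ε * 1 :=
          mul_le_mul b2 (hb'.norm_k_le hp _) (norm_nonneg _) (by positivity)
        have b6 : ‖f (e i)‖ ≤ ‖f‖ :=
          (f.le_opNorm _).trans (mul_le_of_le_one_right (norm_nonneg _) (hb.norm_e_le hp i))
        have b4 : ‖f (e i)‖ * ‖k' (j, 0) - k j‖ ≤ ‖f‖ * ε :=
          mul_le_mul b6 (hk j) (norm_nonneg _) (norm_nonneg _)
        linarith
      have b5 := mul_le_mul hAe b1 (norm_nonneg _) zero_le_one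
      linarith
    · have e4 : (0 : ℂ) • k' (j, b) = 0 := by
        ext a
        simp
      rw [if_neg (fun h => hb0 h.2), sub_zero, big_0a i j b hb0, zero_mul, e4, norm_zero]
      linarith
  · rw [if_neg (fun h => ha0 h.1), sub_zero, norm_smul, norm_mul]
    have b2 : ‖big A m δ w (i, a) (j, b)‖ * ‖f (e' (i, a))‖ ≤ 1 * ε :=
      mul_le_mul (hA _ _) (hf i a ha0) (norm_nonneg _) zero_le_one
    have b3 := mul_le_mul b2 (hb'.norm_k_le hp (j, b)) (norm_nonneg _) (by positivity)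
    linarith

lemma uu_split (u : Fin N → ℂ) (U : Fin m → Fin N → ℂ) (z : Fin N × Fin (m + 2)) :
    uu u U z = (if z.2 = 0 then u z.1 else 0) + uu 0 U z := by
  obtain ⟨i, a⟩ := z
  unfold uu
  by_cases ha : a = 0
  · subst ha
    simp [uc]
  · obtain ⟨b, hb⟩ : ∃ b, (a : ℕ) = b + 1 := ⟨a - 1, by
      have : (a : ℕ) ≠ 0 := fun h => ha (Fin.ext h)
      omega⟩
    simp only
    rw [if_neg ha, hb, zero_add]
    rfl

lemma sum_uu (hp : 0 < p) (U : Fin m → Fin N → ℂ) :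
    ∑ z, ‖uu 0 U z‖ ^ p = ∑ b, ∑ i, ‖U b i‖ ^ p := by
  rw [Fintype.sum_prod_type_right]
  have e1 : ∀ a : Fin (m + 2), ∑ i, ‖uu 0 U (i, a)‖ ^ p =
      (fun a : ℕ => ∑ i, ‖uc 0 U a i‖ ^ p) a := fun a => rfl
  rw [sum_congr rfl fun a _ => e1 a, Fin.sum_univ_eq_sum_range
    (fun a : ℕ => ∑ i, ‖uc 0 U a i‖ ^ p) (m + 2), sum_range_succ, sum_range_succ']
  have e2 : ∑ i, ‖uc 0 U 0 i‖ ^ p = 0 := by
    refine sum_eq_zero fun i _ => ?_
    show ‖(0 : ℂ)‖ ^ p = 0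
    rw [norm_zero, Real.zero_rpow hp.ne']
  have e3 : ∑ i, ‖uc 0 U (m + 1) i‖ ^ p = 0 := by
    refine sum_eq_zero fun i _ => ?_
    have : uc 0 U (m + 1) = 0 := by
      show (if h : m < m then U ⟨m, h⟩ else 0) = 0
      rw [dif_neg (lt_irrefl m)]
    rw [this, Pi.zero_apply, norm_zero, Real.zero_rpow hp.ne']
  rw [e2, e3, add_zero, add_zero, ← Fin.sum_univ_eq_sum_range
    (fun a : ℕ => ∑ i, ‖uc 0 U (a + 1) i‖ ^ p) m]
  refine sum_congr rfl fun b _ => sum_congr rfl fun i _ => ?_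
  have : uc 0 U ((b : ℕ) + 1) = U b := by
    show (if h : (b : ℕ) < m then U ⟨b, h⟩ else 0) = U b
    rw [dif_pos b.2]
  rw [this]

lemma vec_split (u : Fin N → ℂ) (U : Fin m → Fin N → ℂ) :
    vecB e' (uu u U) = ∑ i, u i • e' (i, 0) + vecB e' (uu 0 U) := by
  unfold vecB
  rw [sum_congr rfl fun z _ => by rw [uu_split u U z, add_smul], sum_add_distrib]
  congr 1
  rw [Fintype.sum_prod_type]
  refine sum_congr rfl fun i _ => ?_
  rw [sum_eq_single 0]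
  · simp
  · intro b _ hb
    simp [hb]
  · intro h; exact absurd (mem_univ _) h

lemma fnl_split (u : Fin N → ℂ) (U : Fin m → Fin N → ℂ) :
    fnlB k' (uu u U) = ∑ i, u i • k' (i, 0) + fnlB k' (uu 0 U) := vec_split u U

lemma near_x (hp : 0 < p) (hb' : Blk p e' k') (he : ∀ i, ‖e' (i, 0) - e i‖ ≤ ε)
    (u : Fin N → ℂ) (U : Fin m → Fin N → ℂ) {ρ : ℝ} (hU : ∑ b, ∑ i, ‖U b i‖ ^ p ≤ ρ) :
    ‖vecB e' (uu u U) - vecB e u‖ ≤ (∑ i, ‖u i‖) * ε + ρ ^ (1 / p) := by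
  have e1 : vecB e' (uu u U) - vecB e u =
      ∑ i, u i • (e' (i, 0) - e i) + vecB e' (uu 0 U) := by
    rw [vec_split]
    have : ∑ i, u i • (e' (i, 0) - e i) = ∑ i, u i • e' (i, 0) - vecB e u := by
      unfold vecB
      rw [← sum_sub_distrib]
      exact sum_congr rfl fun i _ => smul_sub _ _ _
    rw [this]
    abel
  rw [e1]
  refine (norm_add_le _ _).trans (add_le_add ?_ ?_)
  · refine (norm_sum_le _ _).trans ?_
    rw [sum_mul]
    refine sum_le_sum fun i _ => ?_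
    rw [norm_smul]
    exact mul_le_mul_of_nonneg_left (he i) (norm_nonneg _)
  · exact hb'.norm_vecB_le hp (by rw [sum_uu hp]; exact hU)

lemma near_y {q : ℝ} (hpq : p.HolderConjugate q) (hb' : Blk p e' k')
    (hk : ∀ i, ‖k' (i, 0) - k i‖ ≤ ε)
    (v : Fin N → ℂ) (V : Fin m → Fin N → ℂ) {ρ : ℝ} (hV : ∑ b, ∑ i, ‖V b i‖ ^ q ≤ ρ) :
    ‖fnlB k' (uu v V) - fnlB k v‖ ≤ (∑ i, ‖v i‖) * ε + ρ ^ (1 / q) := by
  have e1 : fnlB k' (uu v V) - fnlB k v =
      ∑ i, v i • (k' (i, 0) - k i) + fnlB k' (uu 0 V) := by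
    rw [fnl_split]
    have : ∑ i, v i • (k' (i, 0) - k i) = ∑ i, v i • k' (i, 0) - fnlB k v := by
      unfold fnlB
      rw [← sum_sub_distrib]
      exact sum_congr rfl fun i _ => smul_sub _ _ _
    rw [this]
    abel
  rw [e1]
  refine (norm_add_le _ _).trans (add_le_add ?_ ?_)
  · refine (norm_sum_le _ _).trans ?_
    rw [sum_mul]
    refine sum_le_sum fun i _ => ?_
    rw [norm_smul]
    exact mul_le_mul_of_nonneg_left (hk i) (norm_nonneg _)
  · exact hb'.norm_fnlB_le hpq (by rw [sum_uu hpq.symm.pos]; exact hV)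

lemma near_yx (hk : ∀ i, ‖k' (i, 0) - k i‖ ≤ ε) {x : E}
    (hx : ∀ i a, a ≠ 0 → ‖k' (i, a) x‖ ≤ ε)
    (v : Fin N → ℂ) (V : Fin m → Fin N → ℂ) :
    ‖fnlB k' (uu v V) x - fnlB k v x‖ ≤
      (∑ i, ‖v i‖) * ε * ‖x‖ + (∑ b, ∑ i, ‖V b i‖) * ε := by
  have e1 : fnlB k' (uu v V) x - fnlB k v x =
      (∑ i, v i * ((k' (i, 0) - k i) x)) + fnlB k' (uu 0 V) x := by
    rw [fnl_split, _root_.add_apply, _root_.sum_apply, fnlB_apply k v x]
    have : ∑ i, v i * ((k' (i, 0) - k i) x) =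
        ∑ i, (v i • k' (i, 0)) x - ∑ i, v i * k i x := by
      rw [← sum_sub_distrib]
      refine sum_congr rfl fun i _ => ?_
      rw [_root_.sub_apply, _root_.smul_apply, smul_eq_mul]
      ring
    rw [this]
    ring
  rw [e1]
  refine (norm_add_le _ _).trans (add_le_add ?_ ?_)
  · refine (norm_sum_le _ _).trans ?_
    rw [mul_assoc, sum_mul]
    refine sum_le_sum fun i _ => ?_
    rw [norm_mul]
    refine mul_le_mul_of_nonneg_left ?_ (norm_nonneg _)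
    exact ((k' (i, 0) - k i).le_opNorm x).trans (mul_le_mul_of_nonneg_right (hk i)
      (norm_nonneg _))
  · rw [fnlB_apply]
    have h1 := sum_uu (p := 1) one_pos V
    simp only [Real.rpow_one] at h1
    rw [← h1, sum_mul]
    refine (norm_sum_le _ _).trans (sum_le_sum fun z _ => ?_)
    rw [norm_mul]
    by_cases hz : z.2 = 0
    · have : uu 0 V z = 0 := by
        unfold uu
        rw [hz]
        rfl
      rw [this, norm_zero, zero_mul, zero_mul]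
    · exact mul_le_mul_of_nonneg_left (hx z.1 z.2 hz) (norm_nonneg _)

end close

lemma rep_pos {p q : ℝ} (hp : 0 < p) (hq : 0 < q) {I : Type} [Fintype I] {A : Matrix I I ℂ}
    {u v : I → ℂ} {ρ η : ℝ}
    (h : ∃ (m : ℕ) (U V : Fin m → I → ℂ), ∑ b, ∑ i, ‖U b i‖ ^ p ≤ ρ ∧
      ∑ b, ∑ i, ‖V b i‖ ^ q ≤ ρ ∧ ∀ B : Matrix I I ℂ, A * B = B * A → OpM p B 1 →
        ‖bil v B u - ∑ b, bil (V b) B (U b)‖ ≤ η) :
    ∃ (m : ℕ) (U V : Fin m → I → ℂ), 0 < m ∧ ∑ b, ∑ i, ‖U b i‖ ^ p ≤ ρ ∧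
      ∑ b, ∑ i, ‖V b i‖ ^ q ≤ ρ ∧ ∀ B : Matrix I I ℂ, A * B = B * A → OpM p B 1 →
        ‖bil v B u - ∑ b, bil (V b) B (U b)‖ ≤ η := by
  obtain ⟨m, U, V, h1, h2, h3⟩ := h
  refine ⟨m + 1, Fin.cons 0 U, Fin.cons 0 V, Nat.succ_pos m, ?_, ?_, ?_⟩
  · rw [Fin.sum_univ_succ]
    simp only [Fin.cons_zero, Fin.cons_succ, Pi.zero_apply, norm_zero, Real.zero_rpow hp.ne',
      sum_const_zero, zero_add]
    exact h1
  · rw [Fin.sum_univ_succ]
    simp only [Fin.cons_zero, Fin.cons_succ, Pi.zero_apply, norm_zero, Real.zero_rpow hq.ne',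
      sum_const_zero, zero_add]
    exact h2
  · intro B hAB hB
    rw [Fin.sum_univ_succ]
    have e : bil ((Fin.cons 0 V : Fin (m + 1) → I → ℂ) 0) B
        ((Fin.cons 0 U : Fin (m + 1) → I → ℂ) 0) = 0 := by
      unfold bil
      simp
    simp only [Fin.cons_succ]
    rw [e, zero_add]
    exact h3 B hAB hB

end Pool.Agent.Y280
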