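import Pool.Agent.Y280.HStep2

/-!
# The density step for the commutant, III
-/

set_option autoImplicit false
open Finset Filter Topology Polynomial

namespace Pool.Agent.Y280

variable {E : Type*} [NormedAddCommGroup E] [NormedSpace ℂ E]
variable {W : Type*} [TopologicalSpace W] {Φ : W → E →L[ℂ] E}

/-- Choice of a small number. -/
lemma exists_small {a b : ℝ} (ha : 0 ≤ a) (hb : 0 < b) : ∃ t > 0, t * a ≤ b ∧ t ≤ b :=
  ⟨b / (a + 1), by positivity, by
    rw [div_mul_eq_mul_div, div_le_iff₀ (by positivity)]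
    nlinarith, by
    rw [div_le_iff₀ (by positivity)]
    nlinarith⟩

theorem step_hyp [FirstCountableTopology W] {p q : ℝ} (hpq : p.HolderConjugate q)
    (hE : BlockSys p E) (h : BallS Φ) {x : E} {y : StrongDual ℂ E}
    {ρ : ℝ} (hρ : 0 < ρ) {w0 : W} (hw0 : w0 ∈ interior (HS Φ x y ρ)) {V : Set W} (hV : IsOpen V)
    (hwV : w0 ∈ V) {d : ℕ → E} (hd : DenseRange d) {d' : ℕ → StrongDual ℂ E}
    (hd' : DenseRange d') {ε : ℝ} (hε : 0 < ε) (x0 : E) :
    ∃ w2 ∈ V, ∃ i j : ℕ, w2 ∈ interior (HS Φ (d i) (d' j) ε) ∧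
      ‖d i - x‖ ≤ (2 * ρ) ^ (1 / p) + ε ∧ ‖d' j - y‖ ≤ (2 * ρ) ^ (1 / q) + ε ∧
      ‖d' j x0 - y x0‖ ≤ ε := by
  classical
  have hp := hpq.pos
  have hp1 : 1 ≤ p := hpq.lt.le
  -- a block operator
  set ε1 : ℝ := min (ε / 8 / (1 + ‖x0‖)) (ρ / (1 + ‖x‖ + ‖y‖)) with hε1
  have hε10 : 0 < ε1 := lt_min (by positivity) (by positivity)
  have hε1a : ε1 * (1 + ‖x0‖) ≤ ε / 8 := by
    have : ε1 ≤ ε / 8 / (1 + ‖x0‖) := min_le_left _ _
    rwa [le_div_iff₀ (by positivity)] at this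
  have hε1b : ε1 * (1 + ‖x‖ + ‖y‖) ≤ ρ := by
    have : ε1 ≤ ρ / (1 + ‖x‖ + ‖y‖) := min_le_right _ _
    rwa [le_div_iff₀ (by positivity)] at this
  have hε1c : ε1 ≤ ε / 8 := by
    have := norm_nonneg x0
    nlinarith
  have hOo : IsOpen (interior (HS Φ x y ρ) ∩ V) := isOpen_interior.inter hV
  obtain ⟨w1, hw1, N, e, k, hb, hext, hx, hy, A, r, χ, hr0, hr1, hA, hχ, hs, hwA⟩ :=
    exists_blk_op hp1 hE h hOo (show w0 ∈ _ from ⟨hw0, hwV⟩) x y hε10
  set u : Fin N → ℂ := fun i => k i x with hu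
  set v : Fin N → ℂ := fun i => y (e i) with hv
  have hHM : HM p A u v (2 * ρ) := by
    apply hb.HM_of_HC hp
    have h1 : HC (Φ w1) x y ρ := interior_subset hw1.1
    rw [hwA] at h1
    refine (h1.lip (x' := vecB e u) (y' := fnlB k v)).mono ?_
    have h2 : ‖vecB e u‖ ≤ ‖x‖ := hb.norm_R hp x
    have h3 : ‖fnlB k v - y‖ * ‖vecB e u‖ ≤ ε1 * ‖x‖ :=
      mul_le_mul hy h2 (norm_nonneg _) hε10.le
    have h4 : ‖y‖ * ‖vecB e u - x‖ ≤ ‖y‖ * ε1 := mul_le_mul_of_nonneg_left hx (norm_nonneg _)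
    nlinarith
  -- the functional on the commutant
  obtain ⟨m, U, Vv, hm, hU, hVv, hrep⟩ := rep_pos hp hpq.symm.pos
    (exists_rep hpq (show 0 < 2 * ρ by positivity) hHM (show 0 < ε / 32 by positivity))
  set w : ℝ := (1 - r) / 2 with hw
  have hwp : 0 < w := by rw [hw]; linarith
  obtain ⟨δ₀, hδ₀, hbig⟩ := big_HM hp hχ hs (show 0 < ε / 32 by positivity) hrep hwp
  -- the neighbourhood of `w1`
  obtain ⟨X, Y, ε4, hε4, hnear⟩ := h.nhd w1 _ hOo hw1
  set c : ℝ := ((N * (m + 2) : ℕ) : ℝ) ^ 2 with hc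
  have hc0 : 0 ≤ c := by positivity
  set M : ℝ := ∑ x ∈ X, ‖x‖ + ∑ y ∈ Y, ‖y‖ + 1 with hM
  have hMX : ∀ x ∈ X, ‖x‖ ≤ M := by
    intro x hx
    have h1 := single_le_sum (f := fun x : E => ‖x‖) (fun _ _ => norm_nonneg _) hx
    have h2 : 0 ≤ ∑ y ∈ Y, ‖y‖ := sum_nonneg fun _ _ => norm_nonneg _
    rw [hM]
    linarith
  have hMY : ∀ y ∈ Y, ‖y‖ ≤ M := by
    intro y hy
    have h1 := single_le_sum (f := fun y : StrongDual ℂ E => ‖y‖) (fun _ _ => norm_nonneg _) hy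
    have h2 : 0 ≤ ∑ x ∈ X, ‖x‖ := sum_nonneg fun _ _ => norm_nonneg _
    rw [hM]
    linarith
  have hM0 : 0 ≤ M := by
    have h1 : 0 ≤ ∑ x ∈ X, ‖x‖ := sum_nonneg fun _ _ => norm_nonneg _
    have h2 : 0 ≤ ∑ y ∈ Y, ‖y‖ := sum_nonneg fun _ _ => norm_nonneg _
    rw [hM]
    linarith
  -- the small weight
  obtain ⟨δ1, hδ10, hδ1, _⟩ := exists_small (a := c * M) (b := ε4 / 4) (by positivity)
    (by positivity)
  set δ : ℝ := min δ1 (min δ₀ w) with hδ
  have hδ0 : 0 < δ := lt_min hδ10 (lt_min hδ₀ hwp)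
  have hδa : δ * (c * M) ≤ ε4 / 4 :=
    (mul_le_mul_of_nonneg_right (min_le_left _ _) (by positivity)).trans hδ1
  have hδb : δ ≤ δ₀ := (min_le_right _ _).trans (min_le_left _ _)
  have hδc : δ ≤ w := (min_le_right _ _).trans (min_le_right _ _)
  have hHB := hbig δ hδ0 hδb
  have hOpB : OpM p (big A m δ w) (r + w) := OpM_big hp1 hr0 hA m hδ0.le hδc
  have hrw : r + w ≤ 1 := by rw [hw]; linarith
  have hOpB1 : OpM p (big A m δ w) 1 := hOpB.mono hp (by linarith) hrw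
  -- the small number
  set K : ℝ := c * (1 + 2 * M) + ∑ i, ‖u i‖ + (∑ i, ‖v i‖) * (1 + ‖x0‖) +
    ∑ b, ∑ i, ‖Vv b i‖ with hK
  have hK0 : 0 ≤ K := by
    have h1 : 0 ≤ ∑ i, ‖u i‖ := sum_nonneg fun _ _ => norm_nonneg _
    have h2 : 0 ≤ ∑ i, ‖v i‖ := sum_nonneg fun _ _ => norm_nonneg _
    have h3 : 0 ≤ ∑ b, ∑ i, ‖Vv b i‖ := sum_nonneg fun _ _ => sum_nonneg fun _ _ => norm_nonneg _
    positivity
  obtain ⟨ε', hε'0, hε'1, _⟩ := exists_small (a := K) (b := min (ε4 / 4) (ε / 16)) hK0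
    (lt_min (by positivity) (by positivity))
  have hε'2 : ε' * K ≤ ε4 / 4 := hε'1.trans (min_le_left _ _)
  have hε'3 : ε' * K ≤ ε / 16 := hε'1.trans (min_le_right _ _)
  have hsu : 0 ≤ ∑ i, ‖u i‖ := sum_nonneg fun _ _ => norm_nonneg _
  have hsv : 0 ≤ ∑ i, ‖v i‖ := sum_nonneg fun _ _ => norm_nonneg _
  have hsV : 0 ≤ ∑ b, ∑ i, ‖Vv b i‖ := sum_nonneg fun _ _ => sum_nonneg fun _ _ => norm_nonneg _
  have hsvx : 0 ≤ (∑ i, ‖v i‖) * ‖x0‖ := by positivity
  have hcM : 0 ≤ c * (1 + 2 * M) := by positivity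
  obtain ⟨e', k', hb', he', hk', hfx, hfy⟩ := hext (m + 1) (insert x0 X) Y ε' hε'0
  set T3 := opB e' k' (big A m δ w) with hT3
  have hT3n : ‖T3‖ ≤ 1 := hb'.norm_opB hp zero_le_one hOpB1
  obtain ⟨w3, hw3⟩ := h.surj T3 hT3n
  have hent : ∀ y z, ‖big A m δ w y z‖ ≤ 1 := fun y z => hOpB1.entry hp zero_le_one y z
  have hw3O : w3 ∈ interior (HS Φ x y ρ) ∩ V := by
    apply hnear
    · intro z hz
      rw [hw3, hwA]
      have h1 := close_x hp hb hb' hm hδ0.le hε'0.le hent he' hk' (x := z)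
        (fun i a ha => hfx i a ha z (mem_insert_of_mem hz))
      refine h1.trans_lt ?_
      rw [← hc]
      have h2 : c * (ε' + (δ + 2 * ε') * ‖z‖) ≤ c * (ε' + (δ + 2 * ε') * M) := by
        refine mul_le_mul_of_nonneg_left ?_ hc0
        have := mul_le_mul_of_nonneg_left (hMX z hz) (show 0 ≤ δ + 2 * ε' by positivity)
        linarith
      have h3 : c * (ε' + (δ + 2 * ε') * M) = δ * (c * M) + ε' * (c * (1 + 2 * M)) := by ring
      have h4 : ε' * (c * (1 + 2 * M)) ≤ ε' * K := by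
        refine mul_le_mul_of_nonneg_left ?_ hε'0.le
        rw [hK]
        nlinarith
      linarith
    · intro z hz
      rw [hw3, hwA]
      have h1 := close_y (δ := δ) (w := w) hp hb hb' hε'0.le hent he' hk' (f := z)
        (fun i a ha => hfy i a ha z hz)
      refine h1.trans_lt ?_
      rw [← hc]
      have h2 : c * (ε' + 2 * ε' * ‖z‖) ≤ c * (ε' + 2 * ε' * M) := by
        refine mul_le_mul_of_nonneg_left ?_ hc0
        have := mul_le_mul_of_nonneg_left (hMY z hz) (show 0 ≤ 2 * ε' by positivity)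
        linarith
      have h3 : c * (ε' + 2 * ε' * M) = ε' * (c * (1 + 2 * M)) := by ring
      have h4 : ε' * (c * (1 + 2 * M)) ≤ ε' * K := by
        refine mul_le_mul_of_nonneg_left ?_ hε'0.le
        rw [hK]
        nlinarith
      linarith
  -- the new pair
  set x' := vecB e' (uu u U) with hx'
  set y' := fnlB k' (uu v fun b i => -Vv b i) with hy'
  have hVn : ∑ b, ∑ i, ‖-Vv b i‖ ^ q ≤ 2 * ρ := by simpa using hVv
  have b1 : ‖x' - x‖ ≤ (2 * ρ) ^ (1 / p) + ε / 4 := by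
    have h1 := near_x hp hb' he' u U hU
    have h2 : (∑ i, ‖u i‖) * ε' ≤ ε / 16 := by
      refine le_trans ?_ hε'3
      rw [mul_comm]
      refine mul_le_mul_of_nonneg_left ?_ hε'0.le
      rw [hK]
      nlinarith
    have e1 : x' - x = (x' - vecB e u) + (vecB e u - x) := by abel
    rw [e1]
    refine (norm_add_le _ _).trans ?_
    linarith
  have b2 : ‖y' - y‖ ≤ (2 * ρ) ^ (1 / q) + ε / 4 := by
    have h1 := near_y hpq hb' hk' v (fun b i => -Vv b i) hVn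
    have h2 : (∑ i, ‖v i‖) * ε' ≤ ε / 16 := by
      refine le_trans ?_ hε'3
      rw [mul_comm]
      refine mul_le_mul_of_nonneg_left ?_ hε'0.le
      rw [hK]
      nlinarith
    have e1 : y' - y = (y' - fnlB k v) + (fnlB k v - y) := by abel
    rw [e1]
    refine (norm_add_le _ _).trans ?_
    linarith
  have b3 : ‖y' x0 - y x0‖ ≤ ε / 4 := by
    have h1 := near_yx hk' (x := x0) (fun i a ha => hfx i a ha x0 (mem_insert_self _ _)) v
      (fun b i => -Vv b i)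
    simp only [norm_neg] at h1
    have h2 : (∑ i, ‖v i‖) * ε' * ‖x0‖ + (∑ b, ∑ i, ‖Vv b i‖) * ε' ≤ ε / 16 := by
      refine le_trans ?_ hε'3
      have h3 : (∑ i, ‖v i‖) * ε' * ‖x0‖ + (∑ b, ∑ i, ‖Vv b i‖) * ε' =
          ε' * ((∑ i, ‖v i‖) * ‖x0‖ + ∑ b, ∑ i, ‖Vv b i‖) := by ring
      rw [h3]
      refine mul_le_mul_of_nonneg_left ?_ hε'0.le
      rw [hK]
      nlinarith
    have h4 : ‖(fnlB k v - y) x0‖ ≤ ε1 * (1 + ‖x0‖) := by
      refine ((fnlB k v - y).le_opNorm x0).trans ?_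
      refine mul_le_mul hy (by linarith) (norm_nonneg _) hε10.le
    have e1 : y' x0 - y x0 = (y' x0 - fnlB k v x0) + (fnlB k v - y) x0 := by
      rw [_root_.sub_apply]; ring
    rw [e1]
    refine (norm_add_le _ _).trans ?_
    linarith
  -- the dense sets
  set δ' : ℝ := min (min (ε / 4) (ε / 4 / (‖x0‖ + 1))) (min 1 (ε / 8 / (‖y'‖ + ‖x'‖ + 1))) with hδ'
  have hδ'0 : 0 < δ' := by
    rw [hδ']
    exact lt_min (lt_min (by positivity) (by positivity)) (lt_min one_pos (by positivity))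
  have hδ'1 : δ' ≤ ε / 4 := (min_le_left _ _).trans (min_le_left _ _)
  have hδ'2 : δ' * (‖x0‖ + 1) ≤ ε / 4 := by
    have : δ' ≤ ε / 4 / (‖x0‖ + 1) := (min_le_left _ _).trans (min_le_right _ _)
    rwa [le_div_iff₀ (by positivity)] at this
  have hδ'3 : δ' ≤ 1 := (min_le_right _ _).trans (min_le_left _ _)
  have hδ'4 : δ' * (‖y'‖ + ‖x'‖ + 1) ≤ ε / 8 := by
    have : δ' ≤ ε / 8 / (‖y'‖ + ‖x'‖ + 1) := (min_le_right _ _).trans (min_le_right _ _)
    rwa [le_div_iff₀ (by positivity)] at this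
  obtain ⟨i, hi⟩ := hd.exists_dist_lt x' hδ'0
  obtain ⟨j, hj⟩ := hd'.exists_dist_lt y' hδ'0
  rw [dist_eq_norm] at hi hj
  have hi' : ‖d i - x'‖ < δ' := by rwa [norm_sub_rev] at hi
  have hj' : ‖d' j - y'‖ < δ' := by rwa [norm_sub_rev] at hj
  refine ⟨w3, hw3O.2, i, j, ?_, ?_, ?_, ?_⟩
  · have h1 : w3 ∈ interior (HS Φ (d i) (d' j) (2 * (ε / 32) + 2 * (ε / 4))) := by
      refine mem_interior_HS h hp hb' hw3 hHB (by positivity) ?_
      rw [← hx', ← hy']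
      have h2 : ‖d' j‖ ≤ ‖y'‖ + 1 := by
        have : d' j = y' + (d' j - y') := by abel
        rw [this]
        exact (norm_add_le _ _).trans (by linarith)
      have h3 : ‖y' - d' j‖ * ‖x'‖ ≤ δ' * ‖x'‖ := mul_le_mul_of_nonneg_right hj.le (norm_nonneg _)
      have h4 : ‖d' j‖ * ‖x' - d i‖ ≤ (‖y'‖ + 1) * δ' :=
        mul_le_mul h2 hi.le (norm_nonneg _) (by positivity)
      linarith
    refine interior_mono ?_ h1
    intro w' hw'
    exact HC.mono hw' (by linarith)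
  · have e1 : d i - x = (x' - x) + (d i - x') := by abel
    rw [e1]
    exact (norm_add_le _ _).trans (by linarith)
  · have e1 : d' j - y = (y' - y) + (d' j - y') := by abel
    rw [e1]
    exact (norm_add_le _ _).trans (by linarith)
  · have e1 : d' j x0 - y x0 = (y' x0 - y x0) + (d' j - y') x0 := by
      rw [_root_.sub_apply]
      ring
    rw [e1]
    refine (norm_add_le _ _).trans ?_
    have h1 : ‖(d' j - y') x0‖ ≤ δ' * (‖x0‖ + 1) := by
      refine ((d' j - y').le_opNorm _).trans ?_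
      exact mul_le_mul hj'.le (by linarith) (norm_nonneg _) hδ'0.le
    linarith

end Pool.Agent.Y280
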