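import Pool.Agent.Y280.HStep3
import Pool.Agent.Y280.GTyp

/-!
# Typical contractions have many hyperinvariant subspaces
-/

set_option autoImplicit false
open Finset Filter Topology TopologicalSpace

namespace Pool.Agent.Y280

variable {E : Type*} [NormedAddCommGroup E] [NormedSpace ℂ E]
variable {W : Type*} [TopologicalSpace W] {Φ : W → E →L[ℂ] E}

/-- The vectors which are not cyclic for the commutant are dense. -/
def GoodH (T : E →L[ℂ] E) : Prop :=
  ∀ (x₀ : E) (ε : ℝ), 0 < ε → ∃ (x : E) (y : StrongDual ℂ E), x ≠ 0 ∧ ‖x - x₀‖ < ε ∧ y ≠ 0 ∧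
    ∀ S : E →L[ℂ] E, S * T = T * S → y (S x) = 0

lemma exists_rho'' {p q : ℝ} (hpq : p.HolderConjugate q) {δ : ℝ} (hδ : 0 < δ) :
    ∃ a : ℕ, 1 / ((a : ℝ) + 1) ≤ δ ∧ (2 * (1 / ((a : ℝ) + 1))) ^ (1 / p) ≤ δ ∧
      (2 * (1 / ((a : ℝ) + 1))) ^ (1 / q) ≤ δ := by
  have hp := hpq.pos
  have hq := hpq.symm.pos
  set ρ : ℝ := min δ (min (δ ^ p / 2) (δ ^ q / 2)) with hρ
  have hρ0 : 0 < ρ := lt_min hδ (lt_min (by positivity) (by positivity))
  obtain ⟨a, ha⟩ := exists_nat_one_div_lt hρ0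
  have h1 : 1 / ((a : ℝ) + 1) ≤ δ := ha.le.trans (min_le_left _ _)
  have h2 : 1 / ((a : ℝ) + 1) ≤ δ ^ p / 2 :=
    ha.le.trans ((min_le_right _ _).trans (min_le_left _ _))
  have h3 : 1 / ((a : ℝ) + 1) ≤ δ ^ q / 2 :=
    ha.le.trans ((min_le_right _ _).trans (min_le_right _ _))
  refine ⟨a, h1, ?_, ?_⟩
  · have h4 := Real.rpow_le_rpow (by positivity) (show 2 * (1 / ((a : ℝ) + 1)) ≤ δ ^ p by linarith)
      (show 0 ≤ 1 / p by positivity)
    rwa [← Real.rpow_mul hδ.le, mul_one_div_cancel hp.ne', Real.rpow_one] at h4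
  · have h4 := Real.rpow_le_rpow (by positivity) (show 2 * (1 / ((a : ℝ) + 1)) ≤ δ ^ q by linarith)
      (show 0 ≤ 1 / q by positivity)
    rwa [← Real.rpow_mul hδ.le, mul_one_div_cancel hq.ne', Real.rpow_one] at h4

/-- **Typical contractions have dense vectors which are not cyclic for the commutant.** -/
theorem typ_hyp [CompleteSpace E] [Nontrivial E] [SeparableSpace E]
    [SeparableSpace (StrongDual ℂ E)] [FirstCountableTopology W] {p q : ℝ}
    (hq : p.HolderConjugate q) (hE : BlockSys p E) (h : BallS Φ) :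
    {w | GoodH (Φ w)} ∈ residual W := by
  classical
  have hp := hq.pos
  haveI : Nonempty E := ⟨0⟩
  haveI : Nonempty (StrongDual ℂ E) := ⟨0⟩
  set d := denseSeq E with hd_def
  set d' := denseSeq (StrongDual ℂ E) with hd'_def
  have hd : DenseRange d := denseRange_denseSeq _
  have hd' : DenseRange d' := denseRange_denseSeq _
  set U : ℕ → ℕ → ℝ → Set W := fun i j ρ => interior (HS Φ (d i) (d' j) ρ) with hU
  set rr : ℕ → ℝ := fun a => 1 / ((a : ℝ) + 1) with hrr
  have hrr0 : ∀ a, 0 < rr a := fun a => by simp only [hrr]; positivity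
  set O : ℕ → ℕ → ℕ → ℕ → ℕ → Set W := fun i j a b l =>
    ⋃ (i' : ℕ) (j' : ℕ) (_ : ‖d i' - d i‖ ≤ (2 * rr a) ^ (1 / p) + rr b ∧
      ‖d' j' - d' j‖ ≤ (2 * rr a) ^ (1 / q) + rr b ∧ ‖d' j' (d l) - d' j (d l)‖ ≤ rr b),
      U i' j' (rr b) with hO
  have hGmem : ∀ i j a b l, O i j a b l ∪ (closure (U i j (rr a)))ᶜ ∈ residual W := by
    intro i j a b l
    apply residual_of_dense_open
    · refine IsOpen.union ?_ isClosed_closure.isOpen_compl
      exact isOpen_iUnion fun i' => isOpen_iUnion fun j' => isOpen_iUnion fun _ =>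
        isOpen_interior
    · rw [dense_iff_inter_open]
      intro V hV hVne
      by_cases hVU : (V ∩ U i j (rr a)).Nonempty
      · obtain ⟨w0, hw0V, hw0U⟩ := hVU
        obtain ⟨w2, hw2V, i', j', h1, h2, h3, h4⟩ := step_hyp hq hE h (hrr0 a) hw0U hV hw0V
          hd hd' (hrr0 b) (d l)
        refine ⟨w2, hw2V, Or.inl ?_⟩
        simp only [hO, Set.mem_iUnion]
        exact ⟨i', j', ⟨h2, h3, h4⟩, h1⟩
      · obtain ⟨w0, hw0⟩ := hVne
        refine ⟨w0, hw0, Or.inr ?_⟩
        intro hcl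
        exact hVU (mem_closure_iff.1 hcl V hV hw0)
  have hG : ∀ᶠ w in residual W, ∀ i j a b l, w ∈ O i j a b l ∪ (closure (U i j (rr a)))ᶜ := by
    rw [eventually_countable_forall]; intro i
    rw [eventually_countable_forall]; intro j
    rw [eventually_countable_forall]; intro a
    rw [eventually_countable_forall]; intro b
    rw [eventually_countable_forall]; intro l
    exact hGmem i j a b l
  filter_upwards [hG] with w hw
  set T := Φ w with hT
  intro x₀ ε hε
  -- a nonzero vector of the dense sequence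
  obtain ⟨l, hl0, hlx⟩ : ∃ l, d l ≠ 0 ∧ ‖d l - x₀‖ < ε / 2 := by
    have hop : IsOpen ({z : E | z ≠ 0} ∩ Metric.ball x₀ (ε / 2)) :=
      isOpen_ne.inter Metric.isOpen_ball
    have hne : ({z : E | z ≠ 0} ∩ Metric.ball x₀ (ε / 2)).Nonempty := by
      by_cases hx : x₀ = 0
      · obtain ⟨z, hz⟩ := exists_ne (0 : E)
        have hz0 : 0 < ‖z‖ := norm_pos_iff.2 hz
        refine ⟨((ε / 4 / ‖z‖ : ℝ) : ℂ) • z, ?_, ?_⟩
        · exact smul_ne_zero (by rw [Ne, Complex.ofReal_eq_zero]; positivity) hz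
        · rw [Metric.mem_ball, hx, dist_zero_right, norm_smul,
            Complex.norm_real, Real.norm_of_nonneg (by positivity), div_mul_cancel₀ _ hz0.ne']
          linarith
      · exact ⟨x₀, hx, Metric.mem_ball_self (by positivity)⟩
    obtain ⟨l, hl⟩ := hd.exists_mem_open hop hne
    refine ⟨l, hl.1, ?_⟩
    have := hl.2
    rwa [Metric.mem_ball, dist_eq_norm] at this
  have hX0 : 0 < ‖d l‖ := norm_pos_iff.2 hl0
  set ε' := min (ε / 2) (‖d l‖) with hε'
  have hε'0 : 0 < ε' := lt_min (by positivity) hX0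
  set δ : ℕ → ℝ := fun k => ε' / 2 / 2 / 2 ^ k with hδ
  have hδ0 : ∀ k, 0 < δ k := fun k => by simp only [hδ]; positivity
  choose a ha1 ha2 ha3 using fun k => exists_rho'' hq (δ := δ k / 2) (by have := hδ0 k; positivity)
  -- the first functional
  obtain ⟨j0, hj0, hj0'⟩ : ∃ j0, ‖d' j0‖ * ‖d l‖ < rr (a 0) ∧ d' j0 (d l) ≠ 0 := by
    have hop : IsOpen ({y : StrongDual ℂ E | ‖y‖ * ‖d l‖ < rr (a 0)} ∩
        {y : StrongDual ℂ E | y (d l) ≠ 0}) := by
      refine IsOpen.inter (isOpen_lt (continuous_norm.mul continuous_const) continuous_const) ?_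
      have hc : Continuous fun y : StrongDual ℂ E => y (d l) :=
        (ContinuousLinearMap.apply ℂ ℂ (d l)).continuous
      exact isOpen_ne.preimage hc
    have hne : ({y : StrongDual ℂ E | ‖y‖ * ‖d l‖ < rr (a 0)} ∩
        {y : StrongDual ℂ E | y (d l) ≠ 0}).Nonempty := by
      obtain ⟨y1, hy1, hy1'⟩ := exists_dual_vector ℂ (d l) hX0.ne'
      set s : ℝ := rr (a 0) / (2 * ‖d l‖) with hs
      have hs0 : 0 < s := by have := hrr0 (a 0); positivity
      refine ⟨(s : ℂ) • y1, ?_, ?_⟩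
      · show ‖(s : ℂ) • y1‖ * ‖d l‖ < rr (a 0)
        rw [norm_smul, hy1, mul_one, Complex.norm_real, Real.norm_of_nonneg hs0.le, hs]
        have := hrr0 (a 0)
        rw [div_mul_eq_mul_div, div_lt_iff₀ (by positivity)]
        nlinarith
      · show ((s : ℂ) • y1) (d l) ≠ 0
        rw [_root_.smul_apply, hy1', smul_eq_mul]
        refine mul_ne_zero (by rw [Ne, Complex.ofReal_eq_zero]; exact hs0.ne') ?_
        exact Complex.ofReal_ne_zero.2 hX0.ne'
    obtain ⟨j0, h1, h2⟩ := hd'.exists_mem_open hop hne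
    exact ⟨j0, h1, h2⟩
  set τ : ℝ := ‖d' j0 (d l)‖ / 2 with hτ
  have hτ0 : 0 < τ := by have := norm_pos_iff.2 hj0'; positivity
  have hinit : w ∈ U l j0 (rr (a 0)) := by
    have : HS Φ (d l) (d' j0) (rr (a 0)) = Set.univ := by
      rw [Set.eq_univ_iff_forall]
      intro v
      exact (HC.top (Φ v) (d l) (d' j0)).mono hj0.le
    simp only [hU]
    rw [this, interior_univ]
    trivial
  -- one step
  have hstep : ∀ k (v : {v : ℕ × ℕ // w ∈ U v.1 v.2 (rr (a k))}),
      ∃ v' : {v : ℕ × ℕ // w ∈ U v.1 v.2 (rr (a (k + 1)))},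
        ‖d v'.1.1 - d v.1.1‖ ≤ δ k ∧ ‖d' v'.1.2 - d' v.1.2‖ ≤ δ k ∧
        ‖d' v'.1.2 (d l) - d' v.1.2 (d l)‖ ≤ τ / 2 / 2 ^ k := by
    rintro k ⟨⟨i, j⟩, hij⟩
    obtain ⟨b, hb⟩ := exists_nat_one_div_lt (show 0 < min (min (rr (a (k + 1))) (δ k / 2))
      (τ / 2 / 2 ^ k) from lt_min (lt_min (hrr0 _) (by have := hδ0 k; positivity))
        (by positivity))
    have hb1 : rr b ≤ rr (a (k + 1)) := hb.le.trans ((min_le_left _ _).trans (min_le_left _ _))
    have hb2 : rr b ≤ δ k / 2 := hb.le.trans ((min_le_left _ _).trans (min_le_right _ _))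
    have hb3 : rr b ≤ τ / 2 / 2 ^ k := hb.le.trans (min_le_right _ _)
    rcases hw i j (a k) b l with hwO | hwO
    · simp only [hO, Set.mem_iUnion] at hwO
      obtain ⟨i', j', ⟨h1, h2, h3⟩, h4⟩ := hwO
      refine ⟨⟨(i', j'), ?_⟩, ?_, ?_, h3.trans hb3⟩
      · exact interior_mono (fun v hv => HC.mono hv hb1) h4
      · have := ha2 k
        refine h1.trans ?_
        simp only [hrr] at this ⊢
        simp only [hrr] at hb2
        linarith
      · have := ha3 k
        refine h2.trans ?_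
        simp only [hrr] at this ⊢
        simp only [hrr] at hb2
        linarith
    · exact absurd (subset_closure hij) hwO
  choose F hF1 hF2 hF3 using hstep
  let S : (k : ℕ) → {v : ℕ × ℕ // w ∈ U v.1 v.2 (rr (a k))} := fun k =>
    Nat.rec (motive := fun k => {v : ℕ × ℕ // w ∈ U v.1 v.2 (rr (a k))})
      ⟨(l, j0), hinit⟩ (fun k v => F k v) k
  have hS0 : (S 0).1 = (l, j0) := rfl
  have hSs : ∀ k, S (k + 1) = F k (S k) := fun k => rfl
  have hx : ∀ k, dist (d (S k).1.1) (d (S (k + 1)).1.1) ≤ ε' / 2 / 2 / 2 ^ k := by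
    intro k
    rw [dist_comm, dist_eq_norm, hSs]
    exact hF1 k (S k)
  have hy : ∀ k, dist (d' (S k).1.2) (d' (S (k + 1)).1.2) ≤ ε' / 2 / 2 / 2 ^ k := by
    intro k
    rw [dist_comm, dist_eq_norm, hSs]
    exact hF2 k (S k)
  have hz : ∀ k, dist (d' (S k).1.2 (d l)) (d' (S (k + 1)).1.2 (d l)) ≤ τ / 2 / 2 ^ k := by
    intro k
    rw [dist_comm, dist_eq_norm, hSs]
    exact hF3 k (S k)
  obtain ⟨x, hxl⟩ := cauchySeq_tendsto_of_complete (cauchySeq_of_le_geometric_two hx)
  obtain ⟨y, hyl⟩ := cauchySeq_tendsto_of_complete (cauchySeq_of_le_geometric_two hy)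
  have hyx₀ : Tendsto (fun k => d' (S k).1.2 (d l)) atTop (𝓝 (y (d l))) :=
    ((ContinuousLinearMap.apply ℂ ℂ (d l)).continuous.tendsto y).comp hyl
  have h1 := dist_le_of_le_geometric_two_of_tendsto₀ hx hxl
  have h2 := dist_le_of_le_geometric_two_of_tendsto₀ hz hyx₀
  rw [hS0] at h1 h2
  simp only at h1 h2
  rw [dist_comm, dist_eq_norm] at h1
  rw [dist_comm, dist_eq_norm] at h2
  have h1a : ‖x - d l‖ ≤ ε / 4 := by
    have := min_le_left (ε / 2) ‖d l‖
    rw [← hε'] at this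
    linarith
  have h1b : ‖x - d l‖ ≤ ‖d l‖ / 2 := by
    have := min_le_right (ε / 2) ‖d l‖
    rw [← hε'] at this
    linarith
  refine ⟨x, y, ?_, ?_, ?_, ?_⟩
  · intro hx0
    rw [hx0, zero_sub, norm_neg] at h1b
    linarith
  · have e : x - x₀ = (x - d l) + (d l - x₀) := by abel
    rw [e]
    refine (norm_add_le _ _).trans_lt ?_
    linarith
  · intro hy0
    rw [hy0, _root_.zero_apply, zero_sub, norm_neg] at h2
    rw [hτ] at h2
    have := norm_pos_iff.2 hj0'
    linarith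
  · -- contractions in the commutant
    have hcontr : ∀ R : E →L[ℂ] E, R * T = T * R → ‖R‖ ≤ 1 → y (R x) = 0 := by
      intro R hR hR1
      have h3 : Tendsto (fun k => d' (S k).1.2 (R (d (S k).1.1))) atTop (𝓝 (y (R x))) := by
        have hc : Continuous fun v : StrongDual ℂ E × E => v.1 (R v.2) :=
          isBoundedBilinearMap_apply.continuous.comp
            (continuous_fst.prodMk (R.continuous.comp continuous_snd))
        exact (hc.tendsto (y, x)).comp (hyl.prodMk_nhds hxl)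
      have h4 : Tendsto (fun k => d' (S k).1.2 (R (d (S k).1.1))) atTop (𝓝 0) := by
        apply squeeze_zero_norm (a := δ)
        · intro k
          have h5 : w ∈ HS Φ (d (S k).1.1) (d' (S k).1.2) (rr (a k)) := interior_subset (S k).2
          refine (h5 R hR hR1).trans ((ha1 k).trans ?_)
          have := hδ0 k
          linarith
        · have := (tendsto_pow_atTop_nhds_zero_of_lt_one (r := (1 / 2 : ℝ)) (by norm_num)
            (by norm_num)).const_mul (ε' / 2 / 2)
          rw [mul_zero] at this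
          refine this.congr fun k => ?_
          rw [hδ]
          simp only [one_div, inv_pow]
          rfl
      exact tendsto_nhds_unique h3 h4
    intro R hR
    set c : ℝ := (‖R‖ + 1)⁻¹ with hc
    have hc0 : 0 < c := by positivity
    have h5 := hcontr ((c : ℂ) • R) (by rw [smul_mul_assoc, mul_smul_comm, hR]) (by
      rw [norm_smul, Complex.norm_real, Real.norm_of_nonneg hc0.le, hc, inv_mul_le_iff₀
        (by positivity)]
      linarith)
    rw [_root_.smul_apply, map_smul, smul_eq_mul] at h5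
    rcases mul_eq_zero.1 h5 with h6 | h6
    · exact absurd (Complex.ofReal_eq_zero.1 h6) hc0.ne'
    · exact h6

/-- Arbitrarily close to every vector there is a vector which lies in a nontrivial closed
hyperinvariant subspace of `T`. -/
def DenselyHyperinvariant (T : E →L[ℂ] E) : Prop :=
  ∀ (x₀ : E) (ε : ℝ), 0 < ε → ∃ M : Submodule ℂ E, IsClosed (M : Set E) ∧ M ≠ ⊥ ∧ M ≠ ⊤ ∧
    (∀ S : E →L[ℂ] E, S * T = T * S → ∀ v ∈ M, S v ∈ M) ∧ ∃ x ∈ M, ‖x - x₀‖ < ε

lemma hyp_of_goodH {T : E →L[ℂ] E} (h : GoodH T) : DenselyHyperinvariant T := by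
  intro x₀ ε hε
  obtain ⟨x, y, hx, hxx, hy, hxy⟩ := h x₀ ε hε
  -- the orbit of the commutant
  set M0 : Submodule ℂ E :=
    { carrier := {z | ∃ S : E →L[ℂ] E, S * T = T * S ∧ z = S x}
      add_mem' := by
        rintro _ _ ⟨S, hS, rfl⟩ ⟨S', hS', rfl⟩
        exact ⟨S + S', by rw [add_mul, mul_add, hS, hS'], rfl⟩
      zero_mem' := ⟨0, by simp, rfl⟩
      smul_mem' := by
        rintro c _ ⟨S, hS, rfl⟩
        exact ⟨c • S, by rw [smul_mul_assoc, mul_smul_comm, hS], rfl⟩ } with hM0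
  have hSM : ∀ S : E →L[ℂ] E, S * T = T * S → ∀ v ∈ M0, S v ∈ M0 := by
    rintro S hS _ ⟨S', hS', rfl⟩
    refine ⟨S * S', ?_, rfl⟩
    rw [mul_assoc, hS', ← mul_assoc, hS, mul_assoc]
  have hxM : x ∈ M0.topologicalClosure := by
    apply M0.le_topologicalClosure
    exact ⟨1, by rw [one_mul, mul_one], rfl⟩
  refine ⟨M0.topologicalClosure, M0.isClosed_topologicalClosure, ?_, ?_, ?_, x, hxM, hxx⟩
  · intro hb
    rw [hb, Submodule.mem_bot] at hxM
    exact hx hxM
  · intro ht
    apply hy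
    ext v
    have hv : v ∈ M0.topologicalClosure := by rw [ht]; trivial
    have h2 : (M0.topologicalClosure : Set E) ⊆ {v | y v = 0} := by
      have hcl : IsClosed {v | y v = 0} := isClosed_eq y.continuous continuous_const
      apply closure_minimal _ hcl
      rintro _ ⟨S, hS, rfl⟩
      exact hxy S hS
    simpa using h2 hv
  · intro S hS v hv
    have hmaps : Set.MapsTo S (closure (M0 : Set E)) (closure (M0 : Set E)) :=
      Set.MapsTo.closure (fun v hv => hSM S hS v hv) S.continuous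
    exact hmaps hv

end Pool.Agent.Y280
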