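import Pool.Agent.Y280.Seq

/-!
# Transference for finite matrices with a Perron pair
-/

set_option autoImplicit false
open Finset

namespace Pool.Agent.Y280

section Ex

variable {I : Type} [Fintype I] {V : Type*} [AddCommGroup V] [Module ℝ V]

/-- Prepend a state. -/
def cons (i : I) (ω : ℕ → I) : ℕ → I
  | 0 => i
  | n + 1 => ω n

/-- Expectation over the paths of length `L` of the Markov chain started at `i`. -/
def Ex (π : I → I → ℝ) : ℕ → I → ((ℕ → I) → V) → V
  | 0, i, G => G (fun _ => i)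
  | L + 1, i, G => ∑ j, π i j • Ex π L j (fun ω => G (cons i ω))

lemma Ex_smul (π : I → I → ℝ) (L : ℕ) (i : I) (a : ℝ) (G : (ℕ → I) → V) :
    Ex π L i (fun ω => a • G ω) = a • Ex π L i G := by
  induction L generalizing i G with
  | zero => rfl
  | succ L ih =>
    simp only [Ex]
    rw [smul_sum]
    refine sum_congr rfl fun j _ => ?_
    rw [ih, smul_comm]

lemma Ex_sum (π : I → I → ℝ) (L : ℕ) (i : I) {κ : Type*} (s : Finset κ)
    (G : κ → (ℕ → I) → V) :
    Ex π L i (fun ω => ∑ k ∈ s, G k ω) = ∑ k ∈ s, Ex π L i (G k) := by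
  induction L generalizing i G with
  | zero => rfl
  | succ L ih =>
    simp only [Ex]
    rw [sum_comm]
    refine sum_congr rfl fun j _ => ?_
    rw [← smul_sum, ← ih]

lemma Ex_cmul (π : I → I → ℝ) (L : ℕ) (i : I) (a : ℂ) (G : (ℕ → I) → ℂ) :
    Ex π L i (fun ω => a * G ω) = a * Ex π L i G := by
  induction L generalizing i G with
  | zero => rfl
  | succ L ih =>
    simp only [Ex]
    rw [mul_sum]
    refine sum_congr rfl fun j _ => ?_
    rw [ih, mul_smul_comm]

lemma Ex_head (π : I → I → ℝ) (L : ℕ) (i : I) (s : I → ℝ) (G : (ℕ → I) → V) :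
    Ex π L i (fun ω => s (ω 0) • G ω) = s i • Ex π L i G := by
  cases L with
  | zero => rfl
  | succ L =>
    simp only [Ex, cons]
    rw [smul_sum]
    refine sum_congr rfl fun j _ => ?_
    rw [Ex_smul, smul_comm]

lemma Ex_head' (π : I → I → ℝ) (L : ℕ) (i : I) (s : I → ℂ) (G : (ℕ → I) → ℂ) :
    Ex π L i (fun ω => s (ω 0) * G ω) = s i * Ex π L i G := by
  cases L with
  | zero => rfl
  | succ L =>
    simp only [Ex, cons]
    rw [mul_sum]
    refine sum_congr rfl fun j _ => ?_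
    rw [Ex_cmul, mul_smul_comm]

lemma Ex_const (π : I → I → ℝ) (hπ : ∀ i, ∑ j, π i j = 1) (L : ℕ) (i : I) (a : V) :
    Ex π L i (fun _ => a) = a := by
  induction L generalizing i with
  | zero => rfl
  | succ L ih =>
    simp only [Ex]
    rw [sum_congr rfl fun j _ => by rw [ih], ← sum_smul, hπ, one_smul]

lemma Ex_fst (π : I → I → ℝ) (hπ : ∀ i, ∑ j, π i j = 1) (L : ℕ) (i : I) (s : I → V) :
    Ex π L i (fun ω => s (ω 0)) = s i := by
  cases L with
  | zero => rfl
  | succ L =>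
    simp only [Ex, cons]
    rw [sum_congr rfl fun j _ => by rw [Ex_const π hπ], ← sum_smul, hπ, one_smul]

lemma Ex_mono (π : I → I → ℝ) (hπ : ∀ i j, 0 ≤ π i j) (L : ℕ) (i : I) {G G' : (ℕ → I) → ℝ}
    (h : ∀ ω, G ω ≤ G' ω) : Ex π L i G ≤ Ex π L i G' := by
  induction L generalizing i G G' with
  | zero => exact h _
  | succ L ih =>
    simp only [Ex]
    refine sum_le_sum fun j _ => ?_
    exact mul_le_mul_of_nonneg_left (ih j fun ω => h _) (hπ i j)

lemma Ex_jensen (π : I → I → ℝ) (hπ0 : ∀ i j, 0 ≤ π i j) (hπ : ∀ i, ∑ j, π i j = 1) {p : ℝ}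
    (hp : 1 ≤ p) (L : ℕ) (i : I) (G : (ℕ → I) → ℂ) :
    ‖Ex π L i G‖ ^ p ≤ Ex π L i (fun ω => ‖G ω‖ ^ p) := by
  induction L generalizing i G with
  | zero => exact le_rfl
  | succ L ih =>
    simp only [Ex]
    have h1 : ‖∑ j, π i j • Ex π L j (fun ω => G (cons i ω))‖ ≤
        ∑ j, π i j * ‖Ex π L j (fun ω => G (cons i ω))‖ := by
      refine (norm_sum_le _ _).trans (le_of_eq (sum_congr rfl fun j _ => ?_))
      rw [norm_smul, Real.norm_of_nonneg (hπ0 i j)]
    refine (Real.rpow_le_rpow (norm_nonneg _) h1 (by linarith)).trans ?_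
    refine (Real.rpow_arith_mean_le_arith_mean_rpow _ _ _ (fun j _ => hπ0 i j) (hπ i)
      (fun j _ => norm_nonneg _) hp).trans ?_
    refine sum_le_sum fun j _ => ?_
    exact mul_le_mul_of_nonneg_left (ih j fun ω => G (cons i ω)) (hπ0 i j)

end Ex

section Transf

variable {I : Type} [Fintype I]

/-- Iterates of a matrix on a vector. -/
def itv (A : I → I → ℂ) (x : I → ℂ) : ℕ → I → ℂ
  | 0 => x
  | n + 1 => fun i => ∑ j, A i j * itv A x n j

/-- Orbit weights. -/
def ow (θ : I → I → ℂ) (x : I → ℂ) : ℕ → (ℕ → I) → ℂ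
  | 0, ω => x (ω 0)
  | n + 1, ω => θ (ω 0) (ω 1) * ow θ x n (fun k => ω (k + 1))

lemma Ex_ow (π : I → I → ℝ) (hπ : ∀ i, ∑ j, π i j = 1) (θ A : I → I → ℂ)
    (hA : ∀ i j, (π i j : ℂ) * θ i j = A i j) (x : I → ℂ) (n L : ℕ) (h : n ≤ L) (i : I) :
    Ex π L i (ow θ x n) = itv A x n i := by
  induction n generalizing L i with
  | zero => exact Ex_fst π hπ L i x
  | succ n ih =>
    obtain ⟨L, rfl⟩ : ∃ L', L = L' + 1 := ⟨L - 1, by omega⟩
    simp only [Ex, itv]
    refine sum_congr rfl fun j _ => ?_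
    have e : (fun ω => ow θ x (n + 1) (cons i ω)) = fun ω => θ i (ω 0) * ow θ x n ω := by
      funext ω
      simp only [ow, cons]
    rw [e, Ex_head' π L j (fun j => θ i j) (ow θ x n), ih L (by omega) j, ← hA i j,
      Complex.real_smul, mul_assoc]

/-- The isometry property. -/
lemma Tot_shift (π r : I → I → ℝ) (hr : ∀ j, ∑ i, π i j * r i j = 1) (L : ℕ)
    (G : (ℕ → I) → ℝ) :
    ∑ i, Ex π (L + 1) i (fun ω => r (ω 0) (ω 1) * G (fun k => ω (k + 1))) =
      ∑ i, Ex π L i G := by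
  have h1 : ∀ i, Ex π (L + 1) i (fun ω => r (ω 0) (ω 1) * G (fun k => ω (k + 1))) =
      ∑ j, (π i j * r i j) * Ex π L j G := by
    intro i
    simp only [Ex]
    refine sum_congr rfl fun j _ => ?_
    have e : (fun ω => r (cons i ω 0) (cons i ω 1) * G (fun k => cons i ω (k + 1))) =
        fun ω => r i (ω 0) • G ω := by
      funext ω
      simp only [cons, smul_eq_mul]
    rw [e, Ex_head π L j (fun j => r i j) G]
    simp only [smul_eq_mul]
    ring
  rw [sum_congr rfl fun i _ => h1 i, sum_comm]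
  refine sum_congr rfl fun j _ => ?_
  rw [← sum_mul, hr, one_mul]

/-- Partial sums of the polynomial along the orbit weights. -/
def Qk (θ : I → I → ℂ) (x : I → ℂ) (D : ℕ) (c : ℕ → ℂ) (k : ℕ) (ω : ℕ → I) : ℂ :=
  ∑ n ∈ range D, c n * ow θ x (k + n) ω

lemma Qk_succ (θ : I → I → ℂ) (x : I → ℂ) (D : ℕ) (c : ℕ → ℂ) (k : ℕ) (ω : ℕ → I) :
    Qk θ x D c (k + 1) ω = θ (ω 0) (ω 1) * Qk θ x D c k (fun k => ω (k + 1)) := by
  unfold Qk
  rw [mul_sum]
  refine sum_congr rfl fun n _ => ?_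
  rw [show k + 1 + n = (k + n) + 1 by omega, ow]
  ring

lemma pointwise_bound {p C : ℝ} {c : ℕ → ℂ} (hN : NB p c C) (D : ℕ) (hc : ∀ n, D ≤ n → c n = 0)
    (v : ℕ → ℂ) (K : ℕ) :
    ∑ k ∈ range K, ‖∑ n ∈ range D, c n * v (k + n)‖ ^ p ≤
      C ^ p * ∑ m ∈ range (K + D), ‖v m‖ ^ p := by
  have h1 := hN (K + D) (fun j => v (K + D - 1 - j))
  have h2 : ∑ j ∈ range (K + D), ‖v (K + D - 1 - j)‖ ^ p = ∑ m ∈ range (K + D), ‖v m‖ ^ p :=
    sum_range_reflect (fun m => ‖v m‖ ^ p) (K + D)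
  rw [h2] at h1
  refine le_trans ?_ h1
  have h3 : ∑ m ∈ range (K + D), ‖cv c (fun j => v (K + D - 1 - j)) m‖ ^ p =
      ∑ k ∈ range (K + D), ‖cv c (fun j => v (K + D - 1 - j)) (K + D - 1 - k)‖ ^ p :=
    (sum_range_reflect (fun m => ‖cv c (fun j => v (K + D - 1 - j)) m‖ ^ p) (K + D)).symm
  rw [h3]
  have h4 : ∀ k ∈ range K, ‖∑ n ∈ range D, c n * v (k + n)‖ ^ p =
      ‖cv c (fun j => v (K + D - 1 - j)) (K + D - 1 - k)‖ ^ p := by
    intro k hk
    rw [mem_range] at hk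
    congr 2
    unfold cv
    rw [show K + D - 1 - k + 1 = K + D - k by omega]
    have e : range D ⊆ range (K + D - k) := range_subset_range.2 (by omega)
    rw [sum_subset e (f := fun n => c n * v (k + n))]
    · rw [← sum_range_reflect (fun n => c n * v (k + n))]
      refine sum_congr rfl fun n hn => ?_
      rw [mem_range] at hn
      beta_reduce
      rw [show K + D - k - 1 - n = K + D - 1 - k - n by omega,
        show k + (K + D - 1 - k - n) = K + D - 1 - n by omega]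
    · intro n _ hn
      rw [mem_range] at hn
      rw [hc n (by omega), zero_mul]
  rw [sum_congr rfl h4]
  exact sum_le_sum_of_subset_of_nonneg (range_subset_range.2 (by omega)) fun i _ _ => by positivity

/-- **Transference**, for a matrix with a Perron pair. -/
lemma transfer_perron {p : ℝ} (hp : 1 ≤ p) (A : I → I → ℂ) (hA0 : ∀ i j, A i j ≠ 0)
    (u v : I → ℝ) (hu : ∀ i, 0 < u i) (hv : ∀ i, 0 < v i)
    (h1 : ∀ i, ∑ j, ‖A i j‖ * u j = v i)
    (h2 : ∀ j, ∑ i, ‖A i j‖ * v i ^ (p - 1) = u j ^ (p - 1))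
    {D : ℕ} {c : ℕ → ℂ} {C : ℝ} (hC : 0 ≤ C) (hc : ∀ n, D ≤ n → c n = 0) (hN : NB p c C)
    (x : I → ℂ) :
    ∑ i, ‖∑ n ∈ range D, c n * itv A x n i‖ ^ p ≤ C ^ p * ∑ i, ‖x i‖ ^ p := by
  have hp0 : (0 : ℝ) < p := by linarith
  set π : I → I → ℝ := fun i j => ‖A i j‖ * u j / v i with hπdef
  set θ : I → I → ℂ := fun i j => (A i j / ‖A i j‖) * ((v i / u j : ℝ) : ℂ) with hθdef
  have hπ0 : ∀ i j, 0 ≤ π i j := fun i j => by
    have := hu j; have := hv i
    rw [hπdef]; positivity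
  have hπ : ∀ i, ∑ j, π i j = 1 := by
    intro i
    rw [hπdef]
    beta_reduce
    rw [← sum_div, h1 i, div_self (hv i).ne']
  have hA : ∀ i j, (π i j : ℂ) * θ i j = A i j := by
    intro i j
    rw [hπdef, hθdef]
    beta_reduce
    have e1 : (‖A i j‖ : ℂ) ≠ 0 := by
      rw [Ne, Complex.ofReal_eq_zero, norm_eq_zero]; exact hA0 i j
    have e2 : (u j : ℂ) ≠ 0 := by exact_mod_cast (hu j).ne'
    have e3 : (v i : ℂ) ≠ 0 := by exact_mod_cast (hv i).ne'
    push_cast
    field_simp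
  have hθ : ∀ i j, ‖θ i j‖ = v i / u j := by
    intro i j
    rw [hθdef]
    beta_reduce
    have := hu j; have := hv i
    rw [norm_mul, norm_div, Complex.norm_real, Complex.norm_real, norm_norm,
      div_self (norm_ne_zero_iff.2 (hA0 i j)), one_mul, Real.norm_of_nonneg (by positivity)]
  have hr : ∀ j, ∑ i, π i j * ‖θ i j‖ ^ p = 1 := by
    intro j
    have : ∀ i, π i j * ‖θ i j‖ ^ p = ‖A i j‖ * v i ^ (p - 1) * (u j ^ (p - 1))⁻¹ := by
      intro i
      have hu' := hu j; have hv' := hv i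
      rw [hθ, hπdef]
      beta_reduce
      rw [Real.div_rpow hv'.le hu'.le, Real.rpow_sub_one hv'.ne', Real.rpow_sub_one hu'.ne']
      have e1 : u j ^ p ≠ 0 := (Real.rpow_pos_of_pos hu' p).ne'
      field_simp
    rw [sum_congr rfl fun i _ => this i, ← sum_mul, h2, mul_inv_cancel₀
      (Real.rpow_pos_of_pos (hu j) _).ne']
  -- the norm of the orbit weights
  have hF2 : ∀ m L, m ≤ L → ∑ i, Ex π L i (fun ω => ‖ow θ x m ω‖ ^ p) = ∑ i, ‖x i‖ ^ p := by
    intro m
    induction m with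
    | zero =>
      intro L _
      refine sum_congr rfl fun i _ => ?_
      exact Ex_fst π hπ L i (fun i => ‖x i‖ ^ p)
    | succ m ih =>
      intro L hL
      obtain ⟨L, rfl⟩ : ∃ L', L = L' + 1 := ⟨L - 1, by omega⟩
      rw [← ih L (by omega), ← Tot_shift π (fun i j => ‖θ i j‖ ^ p) hr L]
      refine sum_congr rfl fun i _ => ?_
      congr 1
      funext ω
      rw [ow, norm_mul, Real.mul_rpow (norm_nonneg _) (norm_nonneg _)]
  have hF3 : ∀ k L, D + k ≤ L → ∑ i, ‖∑ n ∈ range D, c n * itv A x n i‖ ^ p ≤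
      ∑ i, Ex π L i (fun ω => ‖Qk θ x D c k ω‖ ^ p) := by
    intro k
    induction k with
    | zero =>
      intro L hL
      refine sum_le_sum fun i _ => ?_
      refine le_trans (le_of_eq ?_) (Ex_jensen π hπ0 hπ hp L i _)
      congr 2
      unfold Qk
      rw [Ex_sum]
      refine sum_congr rfl fun n hn => ?_
      rw [mem_range] at hn
      rw [Ex_cmul, zero_add, Ex_ow π hπ θ A hA x n L (by omega) i]
    | succ k ih =>
      intro L hL
      obtain ⟨L, rfl⟩ : ∃ L', L = L' + 1 := ⟨L - 1, by omega⟩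
      refine (ih L (by omega)).trans (le_of_eq ?_)
      rw [← Tot_shift π (fun i j => ‖θ i j‖ ^ p) hr L]
      refine sum_congr rfl fun i _ => ?_
      congr 1
      funext ω
      rw [Qk_succ, norm_mul (θ (ω 0) (ω 1)), Real.mul_rpow (norm_nonneg _) (norm_nonneg _)]
  set S1 := ∑ i, ‖∑ n ∈ range D, c n * itv A x n i‖ ^ p with hS1
  set S0 := ∑ i, ‖x i‖ ^ p with hS0
  have hS0nn : 0 ≤ S0 := sum_nonneg fun i _ => by positivity
  have main : ∀ K : ℕ, (K : ℝ) * S1 ≤ C ^ p * ((K + D) * S0) := by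
    intro K
    have e1 : (K : ℝ) * S1 ≤ ∑ k ∈ range K, ∑ i, Ex π (D + K) i
        (fun ω => ‖Qk θ x D c k ω‖ ^ p) := by
      have : (K : ℝ) * S1 = ∑ k ∈ range K, S1 := by rw [sum_const, card_range, nsmul_eq_mul]
      rw [this]
      refine sum_le_sum fun k hk => hF3 k (D + K) ?_
      rw [mem_range] at hk
      omega
    have e2 : ∑ k ∈ range K, ∑ i, Ex π (D + K) i (fun ω => ‖Qk θ x D c k ω‖ ^ p) ≤
        ∑ i, Ex π (D + K) i (fun ω => C ^ p * ∑ m ∈ range (K + D), ‖ow θ x m ω‖ ^ p) := by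
      rw [sum_comm]
      refine sum_le_sum fun i _ => ?_
      rw [← Ex_sum]
      refine Ex_mono π hπ0 _ i fun ω => ?_
      exact pointwise_bound hN D hc (fun m => ow θ x m ω) K
    have e3 : ∑ i, Ex π (D + K) i (fun ω => C ^ p * ∑ m ∈ range (K + D), ‖ow θ x m ω‖ ^ p) =
        C ^ p * ((K + D) * S0) := by
      have : ∀ i, Ex π (D + K) i (fun ω => C ^ p * ∑ m ∈ range (K + D), ‖ow θ x m ω‖ ^ p) =
          C ^ p * ∑ m ∈ range (K + D), Ex π (D + K) i (fun ω => ‖ow θ x m ω‖ ^ p) := by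
        intro i
        rw [← Ex_sum]
        exact Ex_smul π (D + K) i (C ^ p) _
      rw [sum_congr rfl fun i _ => this i, ← mul_sum, sum_comm]
      congr 1
      rw [sum_congr rfl fun m hm => hF2 m (D + K) (by rw [mem_range] at hm; omega)]
      rw [sum_const, card_range, nsmul_eq_mul]
      push_cast
      ring
    linarith
  -- let `K → ∞`
  by_contra hcon
  push Not at hcon
  have hdpos : 0 < S1 - C ^ p * S0 := by linarith
  obtain ⟨K, hK⟩ := exists_nat_gt (C ^ p * (D * S0) / (S1 - C ^ p * S0))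
  rw [div_lt_iff₀ hdpos] at hK
  have := main K
  nlinarith

end Transf

end Pool.Agent.Y280
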