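import Mathlib

/-!
# Truncated shifts: norms of polynomials in the truncated shifts on `ℓ_p^M`

`BM p M c C`: the polynomial with coefficients `c` in the truncated shift of `ℓ_p^M` has norm at
most `C`.  `NB p c C`: the same for every `M`.
-/

set_option autoImplicit false
open Finset

namespace Pool.Agent.Y280

/-- Convolution of two sequences. -/
def cv (c u : ℕ → ℂ) (m : ℕ) : ℂ := ∑ k ∈ range (m + 1), c (m - k) * u k

/-- The polynomial `∑ c n z ^ n` in the truncated shift of `ℓ_p^M` has norm at most `C`. -/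
def BM (p : ℝ) (M : ℕ) (c : ℕ → ℂ) (C : ℝ) : Prop :=
  ∀ u : ℕ → ℂ, ∑ m ∈ range M, ‖cv c u m‖ ^ p ≤ C ^ p * ∑ k ∈ range M, ‖u k‖ ^ p

/-- The polynomial `∑ c n z ^ n` in the shift of `ℓ_p` has norm at most `C`. -/
def NB (p : ℝ) (c : ℕ → ℂ) (C : ℝ) : Prop := ∀ M, BM p M c C

/-- Fejér multiplier. -/
noncomputable def kap (M n : ℕ) : ℂ := ((M - n : ℕ) : ℂ) / M

/-- de la Vallée-Poussin multiplier. -/
noncomputable def vlp (L n : ℕ) : ℂ := 2 * kap (2 * L) n - kap L n

lemma NB.coeff {p C : ℝ} (hp : 1 ≤ p) (hC : 0 ≤ C) {c : ℕ → ℂ} (h : NB p c C) (n : ℕ) :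
    ‖c n‖ ≤ C := by
  have hp0 : (0 : ℝ) < p := by linarith
  have h1 := h (n + 1) (fun k => if k = 0 then 1 else 0)
  have h2 : ∀ m, cv c (fun k => if k = 0 then 1 else 0) m = c m := by
    intro m
    unfold cv
    rw [sum_eq_single 0]
    · simp
    · intro b _ hb; simp [hb]
    · intro h; simp at h
  have h3 : ∑ k ∈ range (n + 1), ‖(if k = 0 then (1 : ℂ) else 0)‖ ^ p = 1 := by
    rw [sum_eq_single 0]
    · simp
    · intro b _ hb; simp [hb, hp0.ne']
    · intro h; simp at h
  simp only [h2, h3, mul_one] at h1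
  have h4 : ‖c n‖ ^ p ≤ C ^ p :=
    (single_le_sum (f := fun m => ‖c m‖ ^ p) (fun i _ => by positivity)
      (self_mem_range_succ n)).trans h1
  exact (Real.rpow_le_rpow_iff (norm_nonneg _) hC hp0).1 h4

lemma BM_iff {p C : ℝ} (hp : 1 ≤ p) (hC : 0 ≤ C) {M : ℕ} {c : ℕ → ℂ} :
    BM p M c C ↔ ∀ u : ℕ → ℂ, (∑ m ∈ range M, ‖cv c u m‖ ^ p) ^ (1 / p) ≤
      C * (∑ k ∈ range M, ‖u k‖ ^ p) ^ (1 / p) := by
  have hp0 : (0 : ℝ) < p := by linarith
  have key : ∀ u : ℕ → ℂ, (C ^ p * ∑ k ∈ range M, ‖u k‖ ^ p) ^ (1 / p) =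
      C * (∑ k ∈ range M, ‖u k‖ ^ p) ^ (1 / p) := by
    intro u
    rw [Real.mul_rpow (by positivity) (sum_nonneg fun i _ => by positivity),
      ← Real.rpow_mul hC, mul_one_div_cancel hp0.ne', Real.rpow_one]
  constructor
  · intro h u
    rw [← key]
    exact Real.rpow_le_rpow (sum_nonneg fun i _ => by positivity) (h u) (by positivity)
  · intro h u
    have := h u
    rw [← key] at this
    exact (Real.rpow_le_rpow_iff (sum_nonneg fun i _ => by positivity)
      (mul_nonneg (by positivity) (sum_nonneg fun i _ => by positivity)) (by positivity)).1 this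

lemma cv_add (c d u : ℕ → ℂ) (m : ℕ) : cv (fun n => c n + d n) u m = cv c u m + cv d u m := by
  unfold cv
  rw [← sum_add_distrib]
  exact sum_congr rfl fun k _ => by ring

lemma cv_smul (a : ℂ) (c u : ℕ → ℂ) (m : ℕ) : cv (fun n => a * c n) u m = a * cv c u m := by
  unfold cv
  rw [mul_sum]
  exact sum_congr rfl fun k _ => by ring

lemma BM.add {p C D : ℝ} (hp : 1 ≤ p) (hC : 0 ≤ C) (hD : 0 ≤ D) {M : ℕ} {c d : ℕ → ℂ}
    (h : BM p M c C) (h' : BM p M d D) : BM p M (fun n => c n + d n) (C + D) := by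
  rw [BM_iff hp (by positivity)]
  rw [BM_iff hp (by positivity)] at h h'
  intro u
  have hp0 : (0 : ℝ) < p := by linarith
  have h1 := Real.Lp_add_le (range M) (fun m => ‖cv c u m‖) (fun m => ‖cv d u m‖) hp
  simp only [abs_norm] at h1
  have h2 : (∑ m ∈ range M, ‖cv (fun n => c n + d n) u m‖ ^ p) ^ (1 / p) ≤
      (∑ m ∈ range M, |‖cv c u m‖ + ‖cv d u m‖| ^ p) ^ (1 / p) := by
    apply Real.rpow_le_rpow (sum_nonneg fun i _ => by positivity) _ (by positivity)
    apply sum_le_sum
    intro m _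
    apply Real.rpow_le_rpow (norm_nonneg _) _ hp0.le
    rw [cv_add, abs_of_nonneg (by positivity)]
    exact norm_add_le _ _
  calc _ ≤ _ := h2
    _ ≤ _ := h1
    _ ≤ _ := add_le_add (h u) (h' u)
    _ = _ := by ring

lemma NB.add {p C D : ℝ} (hp : 1 ≤ p) (hC : 0 ≤ C) (hD : 0 ≤ D) {c d : ℕ → ℂ}
    (h : NB p c C) (h' : NB p d D) : NB p (fun n => c n + d n) (C + D) :=
  fun M => (h M).add hp hC hD (h' M)

lemma BM.smul {p C : ℝ} (hC : 0 ≤ C) {M : ℕ} {c : ℕ → ℂ} (a : ℂ)
    (h : BM p M c C) : BM p M (fun n => a * c n) (‖a‖ * C) := by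
  intro u
  have h1 := h u
  simp only [cv_smul, norm_mul]
  have : ∀ m ∈ range M, (‖a‖ * ‖cv c u m‖) ^ p = ‖a‖ ^ p * ‖cv c u m‖ ^ p := fun m _ =>
    Real.mul_rpow (norm_nonneg _) (norm_nonneg _)
  rw [sum_congr rfl this, ← mul_sum, Real.mul_rpow (norm_nonneg _) hC, mul_assoc]
  exact mul_le_mul_of_nonneg_left h1 (by positivity)

lemma NB.smul {p C : ℝ} (hC : 0 ≤ C) {c : ℕ → ℂ} (a : ℂ)
    (h : NB p c C) : NB p (fun n => a * c n) (‖a‖ * C) := fun M => (h M).smul hC a

lemma BM.mono {p C D : ℝ} (hp : 1 ≤ p) (hC : 0 ≤ C) (hCD : C ≤ D) {M : ℕ} {c : ℕ → ℂ}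
    (h : BM p M c C) : BM p M c D := fun u =>
  (h u).trans (mul_le_mul_of_nonneg_right (Real.rpow_le_rpow hC hCD (by linarith))
    (sum_nonneg fun i _ => by positivity))

lemma NB.mono {p C D : ℝ} (hp : 1 ≤ p) (hC : 0 ≤ C) (hCD : C ≤ D) {c : ℕ → ℂ}
    (h : NB p c C) : NB p c D := fun M => (h M).mono hp hC hCD

/-- Division by `z ^ L`. -/
lemma NB.div {p C : ℝ} (hp : 1 ≤ p) {c : ℕ → ℂ} {L : ℕ} (h0 : ∀ n < L, c n = 0)
    (h : NB p c C) : NB p (fun n => c (n + L)) C := by
  have hp0 : (0 : ℝ) < p := by linarith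
  intro M u
  have h1 := h (M + L) (fun k => if k < M then u k else 0)
  have h2 : ∀ m < M, cv c (fun k => if k < M then u k else 0) (m + L) =
      cv (fun n => c (n + L)) u m := by
    intro m hm
    unfold cv
    have e : range (m + 1) ⊆ range (m + L + 1) := range_subset_range.2 (by omega)
    rw [← sum_subset e]
    · apply sum_congr rfl
      intro k hk
      rw [mem_range] at hk
      beta_reduce
      rw [if_pos (by omega), show m + L - k = m - k + L by omega]
    · intro k hk hk'
      rw [mem_range] at hk hk'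
      rw [h0 _ (by omega), zero_mul]
  have h3 : ∑ m ∈ range M, ‖cv (fun n => c (n + L)) u m‖ ^ p ≤
      ∑ m ∈ range (M + L), ‖cv c (fun k => if k < M then u k else 0) m‖ ^ p := by
    have e : ∑ m ∈ range M, ‖cv (fun n => c (n + L)) u m‖ ^ p =
        ∑ m ∈ range M, ‖cv c (fun k => if k < M then u k else 0) (m + L)‖ ^ p :=
      sum_congr rfl fun m hm => by rw [h2 m (mem_range.1 hm)]
    rw [e, add_comm M L, sum_range_add]
    simp only [add_comm L]
    have : 0 ≤ ∑ x ∈ range L, ‖cv c (fun k => if k < M then u k else 0) x‖ ^ p :=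
      sum_nonneg fun i _ => by positivity
    linarith
  have h4 : ∑ k ∈ range (M + L), ‖(if k < M then u k else 0)‖ ^ p = ∑ k ∈ range M, ‖u k‖ ^ p := by
    have e : range M ⊆ range (M + L) := range_subset_range.2 (by omega)
    rw [← sum_subset e]
    · exact sum_congr rfl fun k hk => by rw [if_pos (mem_range.1 hk)]
    · intro k _ hk'
      rw [mem_range] at hk'
      rw [if_neg hk', norm_zero, Real.zero_rpow hp0.ne']
  rw [h4] at h1
  exact h3.trans h1

/-- The part of the convolution which comes from the window `(t - M, t]`. -/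
def wd (M : ℕ) (c u : ℕ → ℂ) (t m : ℕ) : ℂ :=
  ∑ k ∈ (range (m + 1)).filter (fun k => t < k + M), c (m - k) * u k

lemma card_window {M m k : ℕ} (hk : k ≤ m) :
    ((range M).filter (fun s => m + s < k + M)).card = M - (m - k) := by
  have : (range M).filter (fun s => m + s < k + M) = range (M - (m - k)) := by
    ext s
    simp only [mem_filter, mem_range]
    omega
  rw [this, card_range]

lemma cv_kap {M : ℕ} (c u : ℕ → ℂ) (m : ℕ) :
    cv (fun n => kap M n * c n) u m = (1 / (M : ℂ)) * ∑ s ∈ range M, wd M c u (m + s) m := by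
  unfold cv wd kap
  simp only [sum_filter]
  rw [sum_comm, mul_sum]
  apply sum_congr rfl
  intro k hk
  rw [mem_range] at hk
  rw [← sum_filter, sum_const, card_window (by omega), nsmul_eq_mul]
  ring

/-- The window as a block of size `M`. -/
lemma wd_eq {M : ℕ} (c u : ℕ → ℂ) (t m : ℕ) (h1 : m ≤ t) (h2 : t < m + M) :
    cv c (fun j => if M ≤ j + t + 1 then u (j + t + 1 - M) else 0) (m + M - t - 1) =
      wd M c u t m := by
  unfold cv wd
  rw [← sum_filter_add_sum_filter_not (range (m + M - t - 1 + 1)) (fun j => M ≤ j + t + 1)]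
  have e2 : ∑ x ∈ range (m + M - t - 1 + 1) with ¬ (M ≤ x + t + 1),
      c (m + M - t - 1 - x) * (if M ≤ x + t + 1 then u (x + t + 1 - M) else 0) = 0 := by
    apply sum_eq_zero
    intro x hx
    rw [mem_filter] at hx
    rw [if_neg hx.2, mul_zero]
  rw [e2, add_zero]
  refine sum_nbij' (fun j => j + t + 1 - M) (fun k => k + M - t - 1) ?_ ?_ ?_ ?_ ?_
  · intro j hj
    simp only [mem_filter, mem_range] at hj ⊢
    omega
  · intro j hj
    simp only [mem_filter, mem_range] at hj ⊢
    omega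
  · intro j hj
    simp only [mem_filter, mem_range] at hj
    omega
  · intro j hj
    simp only [mem_filter, mem_range] at hj
    omega
  · intro j hj
    simp only [mem_filter, mem_range] at hj
    beta_reduce
    rw [if_pos hj.2]
    congr 2
    omega

lemma window_bound {p C : ℝ} (hp : 1 ≤ p) {M : ℕ} {c : ℕ → ℂ} (h : BM p M c C) (u : ℕ → ℂ)
    (t : ℕ) : ∑ m ∈ (range (t + 1)).filter (fun m => t < m + M), ‖wd M c u t m‖ ^ p ≤
      C ^ p * ∑ k ∈ (range (t + 1)).filter (fun k => t < k + M), ‖u k‖ ^ p := by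
  have hp0 : (0 : ℝ) < p := by linarith
  have h1 := h (fun j => if M ≤ j + t + 1 then u (j + t + 1 - M) else 0)
  have h2 : ∑ j ∈ range M, ‖(if M ≤ j + t + 1 then u (j + t + 1 - M) else 0)‖ ^ p =
      ∑ k ∈ (range (t + 1)).filter (fun k => t < k + M), ‖u k‖ ^ p := by
    rw [← sum_filter_add_sum_filter_not (range M) (fun j => M ≤ j + t + 1)]
    have e2 : ∑ x ∈ range M with ¬ (M ≤ x + t + 1),
        ‖(if M ≤ x + t + 1 then u (x + t + 1 - M) else 0)‖ ^ p = 0 := by
      apply sum_eq_zero
      intro x hx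
      rw [mem_filter] at hx
      rw [if_neg hx.2, norm_zero, Real.zero_rpow hp0.ne']
    rw [e2, add_zero]
    refine sum_nbij' (fun j => j + t + 1 - M) (fun k => k + M - t - 1) ?_ ?_ ?_ ?_ ?_
    · intro j hj
      simp only [mem_filter, mem_range] at hj ⊢
      omega
    · intro j hj
      simp only [mem_filter, mem_range] at hj ⊢
      omega
    · intro j hj
      simp only [mem_filter, mem_range] at hj
      omega
    · intro j hj
      simp only [mem_filter, mem_range] at hj
      omega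
    · intro j hj
      simp only [mem_filter, mem_range] at hj
      rw [if_pos hj.2]
  have h3 : ∑ m ∈ (range (t + 1)).filter (fun m => t < m + M), ‖wd M c u t m‖ ^ p ≤
      ∑ m ∈ range M, ‖cv c (fun j => if M ≤ j + t + 1 then u (j + t + 1 - M) else 0) m‖ ^ p := by
    have e : ∑ m ∈ (range (t + 1)).filter (fun m => t < m + M), ‖wd M c u t m‖ ^ p =
        ∑ m ∈ (range M).filter (fun j => M ≤ j + t + 1),
          ‖cv c (fun j => if M ≤ j + t + 1 then u (j + t + 1 - M) else 0) m‖ ^ p := by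
      refine sum_nbij' (fun k => k + M - t - 1) (fun j => j + t + 1 - M) ?_ ?_ ?_ ?_ ?_
      · intro j hj
        simp only [mem_filter, mem_range] at hj ⊢
        omega
      · intro j hj
        simp only [mem_filter, mem_range] at hj ⊢
        omega
      · intro j hj
        simp only [mem_filter, mem_range] at hj
        omega
      · intro j hj
        simp only [mem_filter, mem_range] at hj
        omega
      · intro j hj
        simp only [mem_filter, mem_range] at hj
        rw [wd_eq c u t j (by omega) (by omega)]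
    rw [e]
    exact sum_le_sum_of_subset_of_nonneg (filter_subset _ _) fun i _ _ => by positivity
  rw [h2] at h1
  exact h3.trans h1

/-- **Window lemma**: Fejér multiplication by `(1 - n / M)_+` turns a bound for the truncated shift
of size `M` into a bound for all truncated shifts. -/
lemma window {p C : ℝ} (hp : 1 ≤ p) {M : ℕ} (hM : 0 < M) {c : ℕ → ℂ} (h : BM p M c C) :
    NB p (fun n => kap M n * c n) C := by
  have hp0 : (0 : ℝ) < p := by linarith
  have hM' : (0 : ℝ) < M := by exact_mod_cast hM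
  intro N u'
  -- replace `u'` by its truncation
  set u : ℕ → ℂ := fun k => if k < N then u' k else 0 with hu
  have e0 : ∀ m ∈ range N, ‖cv (fun n => kap M n * c n) u' m‖ ^ p =
      ‖cv (fun n => kap M n * c n) u m‖ ^ p := by
    intro m hm
    congr 2
    unfold cv
    apply sum_congr rfl
    intro k hk
    rw [mem_range] at hk hm
    rw [hu]
    beta_reduce
    rw [if_pos (by omega)]
  have e1 : ∑ k ∈ range N, ‖u' k‖ ^ p = ∑ k ∈ range N, ‖u k‖ ^ p :=
    sum_congr rfl fun k hk => by rw [hu]; beta_reduce; rw [if_pos (mem_range.1 hk)]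
  rw [sum_congr rfl e0, e1]
  -- Jensen
  have h1 : ∀ m, ‖cv (fun n => kap M n * c n) u m‖ ^ p ≤
      ∑ s ∈ range M, (1 / (M : ℝ)) * ‖wd M c u (m + s) m‖ ^ p := by
    intro m
    rw [cv_kap, mul_sum]
    have h2 : ‖∑ s ∈ range M, 1 / (M : ℂ) * wd M c u (m + s) m‖ ≤
        ∑ s ∈ range M, (1 / (M : ℝ)) * ‖wd M c u (m + s) m‖ := by
      refine (norm_sum_le _ _).trans (le_of_eq (sum_congr rfl fun s _ => ?_))
      rw [norm_mul]
      simp
    refine (Real.rpow_le_rpow (norm_nonneg _) h2 hp0.le).trans ?_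
    apply Real.rpow_arith_mean_le_arith_mean_rpow
    · intro i _; positivity
    · rw [sum_const, card_range, nsmul_eq_mul]; field_simp
    · intro i _; positivity
    · exact hp
  have h2 : ∑ m ∈ range N, ‖cv (fun n => kap M n * c n) u m‖ ^ p ≤
      (1 / (M : ℝ)) * ∑ m ∈ range N, ∑ s ∈ range M, ‖wd M c u (m + s) m‖ ^ p := by
    rw [mul_sum]
    refine sum_le_sum fun m _ => (h1 m).trans (le_of_eq ?_)
    rw [mul_sum]
  -- reindex by `t = m + s`
  have h3 : ∀ m ∈ range N, ∑ s ∈ range M, ‖wd M c u (m + s) m‖ ^ p =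
      ∑ t ∈ range (N + M), if m ≤ t ∧ t < m + M then ‖wd M c u t m‖ ^ p else 0 := by
    intro m hm
    rw [mem_range] at hm
    rw [← sum_filter]
    refine sum_nbij' (fun s => m + s) (fun t => t - m) ?_ ?_ ?_ ?_ ?_
    · intro j hj
      simp only [mem_filter, mem_range] at hj ⊢
      omega
    · intro j hj
      simp only [mem_filter, mem_range] at hj ⊢
      omega
    · intro j hj
      simp only [mem_filter, mem_range] at hj
      omega
    · intro j hj
      simp only [mem_filter, mem_range] at hj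
      omega
    · intro j hj
      rfl
  have h4 : ∑ m ∈ range N, ∑ s ∈ range M, ‖wd M c u (m + s) m‖ ^ p ≤
      ∑ t ∈ range (N + M), C ^ p *
        ∑ k ∈ (range (t + 1)).filter (fun k => t < k + M), ‖u k‖ ^ p := by
    rw [sum_congr rfl h3, sum_comm]
    refine sum_le_sum fun t _ => ?_
    refine le_trans ?_ (window_bound hp h u t)
    rw [← sum_filter]
    apply sum_le_sum_of_subset_of_nonneg
    · intro m hm
      simp only [mem_filter, mem_range] at hm ⊢
      omega
    · intro i _ _; positivity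
  have h5 : ∑ t ∈ range (N + M), ∑ k ∈ (range (t + 1)).filter (fun k => t < k + M), ‖u k‖ ^ p =
      M * ∑ k ∈ range N, ‖u k‖ ^ p := by
    have : ∀ t ∈ range (N + M), ∑ k ∈ (range (t + 1)).filter (fun k => t < k + M), ‖u k‖ ^ p =
        ∑ k ∈ range N, if k ≤ t ∧ t < k + M then ‖u k‖ ^ p else 0 := by
      intro t _
      rw [← sum_filter]
      rw [← sum_filter_add_sum_filter_not ((range (t + 1)).filter (fun k => t < k + M))
        (fun k => k < N)]
      have e2 : ∑ x ∈ (range (t + 1)).filter (fun k => t < k + M) with ¬ (x < N),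
          ‖u x‖ ^ p = 0 := by
        apply sum_eq_zero
        intro x hx
        rw [mem_filter] at hx
        rw [hu]
        beta_reduce
        rw [if_neg hx.2, norm_zero, Real.zero_rpow hp0.ne']
      rw [e2, add_zero]
      apply sum_congr _ fun _ _ => rfl
      ext k
      simp only [mem_filter, mem_range]
      omega
    rw [sum_congr rfl this, sum_comm, mul_sum]
    refine sum_congr rfl fun k hk => ?_
    rw [← sum_filter, sum_const, nsmul_eq_mul]
    congr 2
    have : (range (N + M)).filter (fun t => k ≤ t ∧ t < k + M) = Ico k (k + M) := by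
      ext t
      rw [mem_range] at hk
      simp only [mem_filter, mem_range, mem_Ico]
      omega
    rw [this, Nat.card_Ico]
    omega
  calc _ ≤ _ := h2
    _ ≤ (1 / (M : ℝ)) * ∑ t ∈ range (N + M), C ^ p *
        ∑ k ∈ (range (t + 1)).filter (fun k => t < k + M), ‖u k‖ ^ p :=
        mul_le_mul_of_nonneg_left h4 (by positivity)
    _ = _ := by rw [← mul_sum, h5]; field_simp

lemma NB.kap {p C : ℝ} (hp : 1 ≤ p) {M : ℕ} (hM : 0 < M) {c : ℕ → ℂ} (h : NB p c C) :
    NB p (fun n => kap M n * c n) C := window hp hM (h M)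

lemma NB.vlp {p C : ℝ} (hp : 1 ≤ p) (hC : 0 ≤ C) {L : ℕ} (hL : 0 < L) {c : ℕ → ℂ}
    (h : NB p c C) : NB p (fun n => vlp L n * c n) (3 * C) := by
  have h1 := (NB.kap hp (M := 2 * L) (by omega) h).smul hC 2
  have h2 := (NB.kap hp hL h).smul hC (-1)
  have h3 := NB.add hp (by positivity) (by positivity) h1 h2
  have e : (fun n => 2 * (Y280.kap (2 * L) n * c n) + -1 * (Y280.kap L n * c n)) =
      fun n => Y280.vlp L n * c n := by
    funext n
    unfold Y280.vlp
    ring
  rw [e] at h3
  refine h3.mono hp (by positivity) (le_of_eq ?_)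
  norm_num
  ring

lemma kap_zero {M n : ℕ} (h : M ≤ n) : kap M n = 0 := by
  unfold kap
  rw [show M - n = 0 by omega]
  simp

lemma vlp_zero {L n : ℕ} (h : 2 * L ≤ n) : vlp L n = 0 := by
  unfold vlp
  rw [kap_zero h, kap_zero (show L ≤ n by omega)]
  simp

lemma vlp_one {L n : ℕ} (hL : 0 < L) (h : n ≤ L) : vlp L n = 1 := by
  unfold vlp kap
  have h1 : (L : ℂ) ≠ 0 := by exact_mod_cast hL.ne'
  rw [Nat.cast_sub h, Nat.cast_sub (by omega)]
  push_cast
  field_simp
  ring

lemma norm_one_sub_kap {M n : ℕ} (hM : 0 < M) : ‖1 - kap M n‖ ≤ (n : ℝ) / M := by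
  have h1 : (M : ℂ) ≠ 0 := by exact_mod_cast hM.ne'
  have h1' : (0 : ℝ) < M := by exact_mod_cast hM
  rcases le_total n M with h | h
  · have : 1 - kap M n = ((n / M : ℝ) : ℂ) := by
      unfold kap
      rw [Nat.cast_sub h]
      push_cast
      field_simp
      ring
    rw [this, Complex.norm_real, Real.norm_of_nonneg (by positivity)]
  · rw [kap_zero h, sub_zero, norm_one, le_div_iff₀ h1', one_mul]
    exact_mod_cast h

lemma norm_kap_le {M n : ℕ} : ‖kap M n‖ ≤ 1 := by
  rcases Nat.eq_zero_or_pos M with rfl | hM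
  · simp [kap]
  have h1' : (0 : ℝ) < M := by exact_mod_cast hM
  unfold kap
  rw [norm_div, Complex.norm_natCast, Complex.norm_natCast, div_le_one h1']
  exact_mod_cast Nat.sub_le _ _

lemma norm_vlp_le {L n : ℕ} : ‖vlp L n‖ ≤ 3 := by
  unfold vlp
  refine (norm_sub_le _ _).trans ?_
  rw [norm_mul]
  have h1 := norm_kap_le (M := 2 * L) (n := n)
  have h2 := norm_kap_le (M := L) (n := n)
  norm_num
  linarith

end Pool.Agent.Y280
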