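import Pool.Agent.Y280.HB

/-!
# One step of the construction
-/

set_option autoImplicit false
open Finset Filter Topology

namespace Pool.Agent.Y280

variable {X : Type*} [NormedAddCommGroup X] [NormedSpace ℂ X]

/-- `‖q(T)‖ ≤ C0 ‖q(S)‖` for every polynomial `q`, `S` the shift of `ℓ_p`. -/
def TR (p : ℝ) (T : X →L[ℂ] X) (C0 : ℝ) : Prop :=
  ∀ (D : ℕ) (c : ℕ → ℂ) (C : ℝ), 0 ≤ C → (∀ n, D ≤ n → c n = 0) → NB p c C →
    ∀ x, ‖∑ n ∈ range D, c n • (T ^ n) x‖ ≤ C0 * C * ‖x‖

/-- Finite direct sums of truncated shifts of `ℓ_p^M` are approximately contained in `T`. -/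
def BL (p q : ℝ) (T : X →L[ℂ] X) (C1 : ℝ) : Prop :=
  ∀ (ι : Type) [Fintype ι] [DecidableEq ι] (M : ℕ) (F : Finset X) (G : Finset (StrongDual ℂ X))
    (ε : ℝ), 0 < ε →
    ∃ (f : ι → ℕ → X) (g : ι → ℕ → StrongDual ℂ X),
      (∀ u : ι → ℕ → ℂ, ‖∑ b, ∑ j ∈ range M, u b j • f b j‖ ≤
        C1 * (∑ b, ∑ j ∈ range M, ‖u b j‖ ^ p) ^ (1 / p)) ∧
      (∀ w : ι → ℕ → ℂ, ‖∑ b, ∑ j ∈ range M, w b j • g b j‖ ≤
        C1 * (∑ b, ∑ j ∈ range M, ‖w b j‖ ^ q) ^ (1 / q)) ∧
      (∀ b, ∀ j < M, ‖T (f b j) - (if j + 1 < M then f b (j + 1) else 0)‖ ≤ ε) ∧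
      (∀ b b', ∀ j < M, ∀ j' < M, ‖g b' j' (f b j) - (if b = b' ∧ j = j' then 1 else 0)‖ ≤ ε) ∧
      (∀ x ∈ F, ∀ b, ∀ j < M, ‖g b j x‖ ≤ ε) ∧ (∀ y ∈ G, ∀ b, ∀ j < M, ‖y (f b j)‖ ≤ ε)

/-- The sequence `y (T ^ n x)` has norm at most `ρ` in the dual of the polynomials. -/
def Nd (p : ℝ) (T : X →L[ℂ] X) (x : X) (y : StrongDual ℂ X) (ρ : ℝ) : Prop :=
  ∀ (D : ℕ) (c : ℕ → ℂ) (C : ℝ), 0 ≤ C → (∀ n, D ≤ n → c n = 0) → NB p c C →
    ‖∑ n ∈ range D, c n * y ((T ^ n) x)‖ ≤ ρ * C

lemma TR.nd {p C0 : ℝ} {T : X →L[ℂ] X} (h : TR p T C0) (x : X) (y : StrongDual ℂ X) :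
    Nd p T x y (C0 * ‖x‖ * ‖y‖) := by
  intro D c C hC hc hN
  have e : ∑ n ∈ range D, c n * y ((T ^ n) x) = y (∑ n ∈ range D, c n • (T ^ n) x) := by
    rw [map_sum]
    exact sum_congr rfl fun n _ => by rw [map_smul, smul_eq_mul]
  rw [e]
  refine (y.le_opNorm _).trans ?_
  have := mul_le_mul_of_nonneg_left (h D c C hC hc hN x) (norm_nonneg y)
  refine this.trans (le_of_eq ?_)
  ring

lemma NB_delta {p : ℝ} (hp : 1 ≤ p) (n : ℕ) : NB p (fun k => if k = n then 1 else 0) 1 := by
  have hp0 : (0 : ℝ) < p := by linarith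
  intro M u
  have h1 : ∀ m, cv (fun k => if k = n then 1 else 0) u m = if n ≤ m then u (m - n) else 0 := by
    intro m
    unfold cv
    beta_reduce
    split_ifs with h
    · rw [sum_eq_single (m - n)]
      · rw [if_pos (by omega), one_mul]
      · intro b hb hb'
        rw [mem_range] at hb
        rw [if_neg (by omega), zero_mul]
      · intro h'
        rw [mem_range] at h'
        omega
    · apply sum_eq_zero
      intro k hk
      rw [mem_range] at hk
      rw [if_neg (by omega), zero_mul]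
  simp only [h1, Real.one_rpow, one_mul]
  have h2 : ∀ m ∈ range M, ‖(if n ≤ m then u (m - n) else 0)‖ ^ p =
      if n ≤ m then ‖u (m - n)‖ ^ p else 0 := by
    intro m _
    split_ifs
    · rfl
    · rw [norm_zero, Real.zero_rpow hp0.ne']
  rw [sum_congr rfl h2, ← sum_filter]
  have h3 : ∑ m ∈ (range M).filter (fun m => n ≤ m), ‖u (m - n)‖ ^ p =
      ∑ k ∈ range (M - n), ‖u k‖ ^ p := by
    refine sum_nbij' (fun m => m - n) (fun k => k + n) ?_ ?_ ?_ ?_ ?_
    · intro j hj
      simp only [mem_filter, mem_range] at hj ⊢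
      omega
    · intro j hj
      simp only [mem_filter, mem_range] at hj ⊢
      omega
    · intro j hj
      simp only [mem_filter, mem_range] at hj
      omega
    · intro j hj
      omega
    · intro j hj
      rfl
  rw [h3]
  exact sum_le_sum_of_subset_of_nonneg (range_subset_range.2 (by omega)) fun i _ _ => by positivity

lemma TR.pow {p C0 : ℝ} (hp : 1 ≤ p) {T : X →L[ℂ] X} (h : TR p T C0) (n : ℕ) (x : X) :
    ‖(T ^ n) x‖ ≤ C0 * ‖x‖ := by
  have h1 := h (n + 1) (fun k => if k = n then 1 else 0) 1 zero_le_one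
    (fun k hk => by rw [if_neg (by omega)]) (NB_delta hp n) x
  rw [sum_eq_single n] at h1
  · simpa using h1
  · intro b _ hb
    rw [if_neg hb, zero_smul]
  · intro h'
    rw [mem_range] at h'
    omega

/-- The tail of the sequence `y (T ^ n x)` is small if `T ^ L x` is small. -/
lemma tail {p C0 : ℝ} (hp : 1 ≤ p) {T : X →L[ℂ] X} (h : TR p T C0)
    {L : ℕ} (hL : 0 < L) (x : X) (y : StrongDual ℂ X) {D : ℕ} {c : ℕ → ℂ} {C : ℝ} (hC : 0 ≤ C)
    (hc : ∀ n, D ≤ n → c n = 0) (hN : NB p c C) :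
    ‖∑ n ∈ range D, c n * y ((T ^ n) x) -
      ∑ n ∈ range (2 * L), vlp L n * c n * y ((T ^ n) x)‖ ≤
      4 * C0 * C * ‖(T ^ L) x‖ * ‖y‖ := by
  have e1 : ∑ n ∈ range D, c n * y ((T ^ n) x) =
      ∑ n ∈ range (L + (D + 2 * L)), c n * y ((T ^ n) x) := by
    apply sum_subset (range_subset_range.2 (by omega))
    intro n _ hn
    rw [mem_range] at hn
    rw [hc n (by omega), zero_mul]
  have e2 : ∑ n ∈ range (2 * L), vlp L n * c n * y ((T ^ n) x) =
      ∑ n ∈ range (L + (D + 2 * L)), vlp L n * c n * y ((T ^ n) x) := by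
    apply sum_subset (range_subset_range.2 (by omega))
    intro n _ hn
    rw [mem_range] at hn
    rw [vlp_zero (by omega), zero_mul, zero_mul]
  rw [e1, e2, ← sum_sub_distrib, sum_range_add]
  have e3 : ∑ n ∈ range L, (c n * y ((T ^ n) x) - vlp L n * c n * y ((T ^ n) x)) = 0 := by
    apply sum_eq_zero
    intro n hn
    rw [mem_range] at hn
    rw [vlp_one hL hn.le]
    ring
  rw [e3, zero_add]
  set e : ℕ → ℂ := fun n => c n + -1 * (vlp L n * c n) with he
  have hNe : NB p e (4 * C) := by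
    have := NB.add hp hC (by positivity) hN ((NB.vlp hp hC hL hN).smul (by positivity) (-1))
    refine this.mono hp (by positivity) (le_of_eq ?_)
    norm_num
    ring
  have he0 : ∀ n < L, e n = 0 := by
    intro n hn
    rw [he]
    beta_reduce
    rw [vlp_one hL hn.le]
    ring
  have h1 := h (D + 2 * L) (fun n => e (n + L)) (4 * C) (by positivity)
    (by
      intro n hn
      rw [he]
      beta_reduce
      rw [hc _ (by omega)]
      ring) (NB.div hp he0 hNe) ((T ^ L) x)
  have e4 : ∑ n ∈ range (D + 2 * L), (c (L + n) * y ((T ^ (L + n)) x) -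
      vlp L (L + n) * c (L + n) * y ((T ^ (L + n)) x)) =
      y (∑ n ∈ range (D + 2 * L), e (n + L) • (T ^ n) ((T ^ L) x)) := by
    rw [map_sum]
    apply sum_congr rfl
    intro n _
    rw [map_smul, smul_eq_mul, he]
    beta_reduce
    rw [add_comm L n, pow_add]
    rw [mul_apply_eq_comp]
    ring
  rw [e4]
  refine (y.le_opNorm _).trans ?_
  refine (mul_le_mul_of_nonneg_left h1 (norm_nonneg y)).trans (le_of_eq ?_)
  ring

/-- Powers of `T` on an approximate chain. -/
lemma chain {p C0 : ℝ} (hp : 1 ≤ p) (hC0 : 0 ≤ C0) {T : X →L[ℂ] X} (h : TR p T C0) (f : ℕ → X)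
    {η : ℝ} (hf : ∀ j, ‖T (f j) - f (j + 1)‖ ≤ η) (n j : ℕ) :
    ‖(T ^ n) (f j) - f (j + n)‖ ≤ n * (C0 * η) := by
  induction n generalizing j with
  | zero => simp
  | succ n ih =>
    have e : (T ^ (n + 1)) (f j) - f (j + (n + 1)) =
        (T ^ n) (T (f j) - f (j + 1)) + ((T ^ n) (f (j + 1)) - f (j + 1 + n)) := by
      rw [map_sub, pow_succ, mul_apply_eq_comp, show j + (n + 1) = j + 1 + n by omega]
      abel
    rw [e]
    refine (norm_add_le _ _).trans ?_
    have h1 := TR.pow hp h n (T (f j) - f (j + 1))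
    have h2 : C0 * ‖T (f j) - f (j + 1)‖ ≤ C0 * η := mul_le_mul_of_nonneg_left (hf j) hC0
    have h3 := ih (j + 1)
    rw [Nat.cast_succ]
    linarith

/-- Bilinear expansion over the blocks. -/
lemma norm_sum_le_card {ι : Type} [Fintype ι] {V : Type*} [NormedAddCommGroup V] [NormedSpace ℂ V]
    (M : ℕ) (u : ι → ℕ → ℂ) (v : ι → ℕ → V) {δ : ℝ} (h : ∀ b, ∀ j < M, ‖v b j‖ ≤ δ) :
    ‖∑ b, ∑ j ∈ range M, u b j • v b j‖ ≤ (∑ b, ∑ j ∈ range M, ‖u b j‖) * δ := by
  refine (norm_sum_le _ _).trans ?_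
  rw [sum_mul]
  refine sum_le_sum fun b _ => (norm_sum_le _ _).trans ?_
  rw [sum_mul]
  refine sum_le_sum fun j hj => ?_
  rw [norm_smul]
  exact mul_le_mul_of_nonneg_left (h b j (mem_range.1 hj)) (norm_nonneg _)

lemma sum_smul_if {ι : Type} [Fintype ι] [DecidableEq ι] (M : ℕ) (w : ι → ℕ → ℂ) (b : ι) (k : ℕ) :
    ∑ b', ∑ j' ∈ range M, w b' j' * (if b = b' ∧ k = j' then (1 : ℂ) else 0) =
      if k < M then w b k else 0 := by
  rw [sum_eq_single b]
  · by_cases hk : k < M
    · rw [if_pos hk, sum_eq_single k]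
      · simp
      · intro j' _ hj'
        rw [if_neg (fun h => hj' h.2.symm), mul_zero]
      · intro h
        exact absurd (mem_range.2 hk) h
    · rw [if_neg hk]
      apply sum_eq_zero
      intro j' hj'
      rw [mem_range] at hj'
      rw [if_neg (fun h => by omega), mul_zero]
  · intro b' _ hb'
    apply sum_eq_zero
    intro j' _
    rw [if_neg (fun h => hb' h.1.symm), mul_zero]
  · intro h
    exact absurd (mem_univ b) h

lemma sum_sp {ι : Type} [Fintype ι] (M : ℕ) (u w : ι → ℕ → ℂ) (n : ℕ) :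
    ∑ b, ∑ j ∈ range M, u b j * (if j + n < M then w b (j + n) else 0) =
      ∑ b, sp M (u b) (w b) n := by
  refine sum_congr rfl fun b _ => ?_
  unfold sp
  have : ∀ j ∈ range M, u b j * (if j + n < M then w b (j + n) else 0) =
      if j + n < M then u b j * w b (j + n) else 0 := by
    intro j _
    split_ifs <;> simp
  rw [sum_congr rfl this, ← sum_filter]
  apply sum_congr _ fun _ _ => rfl
  ext j
  simp only [mem_filter, mem_range]
  omega

/-- **One step.** -/
lemma step {p q : ℝ} (hpq : p.HolderConjugate q) {C0 C1 : ℝ} (hC0 : 0 ≤ C0) (hC1 : 0 ≤ C1)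
    {T : X →L[ℂ] X} (hTR : TR p T C0) (hBL : BL p q T C1) {x : X} {y : StrongDual ℂ X} {ρ : ℝ}
    (hρ : 0 < ρ) (hN : Nd p T x y ρ) (hst : Tendsto (fun n => (T ^ n) x) atTop (𝓝 0))
    {ε : ℝ} (hε : 0 < ε) (Z : Finset X) :
    ∃ (x' : X) (y' : StrongDual ℂ X), ‖x' - x‖ ≤ C1 * (3 * ρ) ^ (1 / p) ∧
      ‖y' - y‖ ≤ C1 * (3 * ρ) ^ (1 / q) ∧ Nd p T x' y' ε ∧ ∀ z ∈ Z, ‖y' z - y z‖ ≤ ε := by
  classical
  have hp : 1 ≤ p := hpq.lt.le
  set W0 : ℝ := C1 * (3 * ρ) ^ (1 / q) with hW0
  have hW0nn : 0 ≤ W0 := by positivity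
  -- choice of `L`
  obtain ⟨L, hL, hLx⟩ : ∃ L : ℕ, 0 < L ∧ 4 * C0 * ‖(T ^ L) x‖ * (‖y‖ + W0) ≤ ε / 8 := by
    have h1 : Tendsto (fun n => 4 * C0 * ‖(T ^ n) x‖ * (‖y‖ + W0)) atTop (𝓝 0) := by
      have := ((hst.norm).const_mul (4 * C0)).mul_const (‖y‖ + W0)
      simpa using this
    have h2 := (h1.eventually (gt_mem_nhds (show (0 : ℝ) < ε / 8 by positivity))).and
      (eventually_gt_atTop 0)
    obtain ⟨L, h3, h4⟩ := h2.exists
    exact ⟨L, h4, h3.le⟩
  set a : ℕ → ℂ := fun n => y ((T ^ n) x) with ha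
  -- choice of `M`
  obtain ⟨M, hM0, hML, hMa⟩ : ∃ M : ℕ, 0 < M ∧ 2 * L ≤ M ∧
      (∑ n ∈ range (2 * L), 3 * (n : ℝ) * ‖a n‖) / M ≤ ε / 8 := by
    have h1 : Tendsto (fun M : ℕ => (∑ n ∈ range (2 * L), 3 * (n : ℝ) * ‖a n‖) / (M : ℝ)) atTop
        (𝓝 0) := tendsto_const_div_atTop_nhds_zero_nat _
    have h2 := (h1.eventually (gt_mem_nhds (show (0 : ℝ) < ε / 8 by positivity))).and
      ((eventually_ge_atTop (2 * L)).and (eventually_gt_atTop 0))
    obtain ⟨M, h3, h4, h5⟩ := h2.exists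
    exact ⟨M, h5, h4, h3.le⟩
  have hM0' : (0 : ℝ) < M := by exact_mod_cast hM0
  -- realisation
  obtain ⟨ι, hι, u, w, hu, hw, huw⟩ := realise hpq (M := M) (ρ := 3 * ρ) (by positivity)
    (fun n => vlp L n * kap M n * a n) (by
      intro d C hC hd
      have h1 := NB.vlp hp hC hL (window hp hM0 hd)
      have h2 := hN M (fun n => vlp L n * (kap M n * d n)) (3 * C) (by positivity)
        (fun n hn => by beta_reduce; rw [kap_zero hn]; ring) h1
      have e : ∑ n ∈ range M, d n * (vlp L n * kap M n * a n) =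
          ∑ n ∈ range M, vlp L n * (kap M n * d n) * y ((T ^ n) x) :=
        sum_congr rfl fun n _ => by rw [ha]; ring
      rw [e]
      refine h2.trans (le_of_eq (by ring))) (ε := ε / (8 * M)) (by positivity)
  set A : ℝ := ∑ b, ∑ j ∈ range M, ‖u b j‖ with hA
  set A' : ℝ := ∑ b, ∑ j ∈ range M, ‖w b j‖ with hA'
  have hAnn : 0 ≤ A := sum_nonneg fun _ _ => sum_nonneg fun _ _ => norm_nonneg _
  have hA'nn : 0 ≤ A' := sum_nonneg fun _ _ => sum_nonneg fun _ _ => norm_nonneg _
  -- choice of `η`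
  set K : ℝ := 4 * C0 * (A * (M * C0)) * (‖y‖ + W0) + 6 * L * A' + 6 * M * A +
    6 * M * (W0 * (A * (2 * M * C0)) + A * A') + A' with hK
  have hKnn : 0 ≤ K := by positivity
  obtain ⟨η, hη, hηK⟩ : ∃ η : ℝ, 0 < η ∧ K * η ≤ ε / 2 := by
    refine ⟨ε / (2 * (K + 1)), by positivity, ?_⟩
    rw [mul_div_assoc', div_le_div_iff₀ (by positivity) (by positivity)]
    nlinarith
  obtain ⟨f, g, hf, hg, hTf, hgf, hgx, hyf⟩ := hBL ι M
    ((range (2 * L)).image (fun n => (T ^ n) x) ∪ Z)
    ((range (2 * M)).image (fun n => y.comp (T ^ n))) η hη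
  set ut : X := ∑ b, ∑ j ∈ range M, u b j • f b j with hut
  set wt : StrongDual ℂ X := ∑ b, ∑ j ∈ range M, w b j • g b j with hwt
  have hutn : ‖ut‖ ≤ C1 * (3 * ρ) ^ (1 / p) := by
    refine (hf u).trans (mul_le_mul_of_nonneg_left ?_ hC1)
    exact Real.rpow_le_rpow (sum_nonneg fun _ _ => sum_nonneg fun _ _ => by positivity) hu
      (by have := hpq.pos; positivity)
  have hwtn : ‖wt‖ ≤ W0 := by
    refine (hg w).trans (mul_le_mul_of_nonneg_left ?_ hC1)
    exact Real.rpow_le_rpow (sum_nonneg fun _ _ => sum_nonneg fun _ _ => by positivity) hw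
      (by have := hpq.symm.pos; positivity)
  have hwtapp : ∀ v, wt v = ∑ b, ∑ j ∈ range M, w b j • g b j v := by
    intro v
    rw [hwt]
    simp only [ContinuousLinearMap.sum_apply, ContinuousLinearMap.smul_apply]
  -- `(e3)`
  have e3 : ∀ v ∈ (range (2 * L)).image (fun n => (T ^ n) x) ∪ Z, ‖wt v‖ ≤ A' * η := by
    intro v hv
    rw [hwtapp]
    exact norm_sum_le_card M w (fun b j => g b j v) (fun b j hj => hgx v hv b j hj)
  have hTut : ∀ n, (T ^ n) ut = ∑ b, ∑ j ∈ range M, u b j • (T ^ n) (f b j) := by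
    intro n
    rw [hut]
    simp only [map_sum, map_smul]
  -- `(e4)`
  have e4 : ∀ n < 2 * M, ‖y ((T ^ n) ut)‖ ≤ A * η := by
    intro n hn
    rw [hTut]
    simp only [map_sum, map_smul]
    apply norm_sum_le_card M u (fun b j => y ((T ^ n) (f b j)))
    intro b j hj
    exact hyf (y.comp (T ^ n)) (mem_image.2 ⟨n, mem_range.2 hn, rfl⟩) b j hj
  -- chains
  set fh : ι → ℕ → X := fun b j => if j < M then f b j else 0 with hfh
  have hfh1 : ∀ b j, ‖T (fh b j) - fh b (j + 1)‖ ≤ η := by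
    intro b j
    rw [hfh]
    beta_reduce
    by_cases hj : j < M
    · rw [if_pos hj]
      exact hTf b j hj
    · rw [if_neg hj, if_neg (by omega)]
      simpa using hη.le
  have hch : ∀ b n j, ‖(T ^ n) (fh b j) - fh b (j + n)‖ ≤ n * (C0 * η) := fun b n j =>
    chain hp hC0 hTR (fh b) (hfh1 b) n j
  -- `(e2)`
  have e2 : ‖(T ^ M) ut‖ ≤ A * (M * (C0 * η)) := by
    rw [hTut]
    apply norm_sum_le_card M u (fun b j => (T ^ M) (f b j))
    intro b j hj
    have h1 := hch b M j
    rw [hfh] at h1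
    beta_reduce at h1
    rw [if_pos hj, if_neg (by omega), sub_zero] at h1
    exact h1
  -- `(e1)`
  have e1 : ∀ n < 2 * M, ‖wt ((T ^ n) ut) - ∑ b, sp M (u b) (w b) n‖ ≤
      W0 * (A * (2 * M * (C0 * η))) + A * (A' * η) := by
    intro n hn
    have h1 : (T ^ n) ut = ∑ b, ∑ j ∈ range M, u b j • ((T ^ n) (fh b j) - fh b (j + n)) +
        ∑ b, ∑ j ∈ range M, u b j • fh b (j + n) := by
      rw [hTut, ← sum_add_distrib]
      refine sum_congr rfl fun b _ => ?_
      rw [← sum_add_distrib]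
      refine sum_congr rfl fun j hj => ?_
      rw [← smul_add, sub_add_cancel, hfh]
      beta_reduce
      rw [if_pos (mem_range.1 hj)]
    have h2 : ‖wt (∑ b, ∑ j ∈ range M, u b j • ((T ^ n) (fh b j) - fh b (j + n)))‖ ≤
        W0 * (A * (2 * M * (C0 * η))) := by
      refine (wt.le_opNorm _).trans (mul_le_mul hwtn ?_ (norm_nonneg _) hW0nn)
      apply norm_sum_le_card M u
      intro b j _
      refine (hch b n j).trans (mul_le_mul_of_nonneg_right ?_ (by positivity))
      have : (n : ℝ) < 2 * M := by exact_mod_cast hn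
      exact this.le
    have h3 : wt (∑ b, ∑ j ∈ range M, u b j • fh b (j + n)) - ∑ b, sp M (u b) (w b) n =
        ∑ b, ∑ j ∈ range M, u b j • (∑ b', ∑ j' ∈ range M, w b' j' •
          (if j + n < M then g b' j' (f b (j + n)) -
            (if b = b' ∧ j + n = j' then (1 : ℂ) else 0) else 0)) := by
      rw [← sum_sp, map_sum, ← sum_sub_distrib]
      refine sum_congr rfl fun b _ => ?_
      rw [map_sum, ← sum_sub_distrib]
      refine sum_congr rfl fun j _ => ?_
      rw [map_smul, smul_eq_mul, smul_eq_mul, ← mul_sub]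
      congr 1
      rw [← sum_smul_if M w b (j + n), hwtapp]
      rw [← sum_sub_distrib]
      refine sum_congr rfl fun b' _ => ?_
      rw [← sum_sub_distrib]
      refine sum_congr rfl fun j' hj' => ?_
      rw [mem_range] at hj'
      rw [smul_eq_mul, smul_eq_mul, ← mul_sub]
      congr 1
      rw [hfh]
      beta_reduce
      by_cases hjn : j + n < M
      · rw [if_pos hjn, if_pos hjn]
      · rw [if_neg hjn, if_neg hjn, map_zero, if_neg (fun h => by omega), sub_zero]
    have h4 : ‖wt (∑ b, ∑ j ∈ range M, u b j • fh b (j + n)) - ∑ b, sp M (u b) (w b) n‖ ≤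
        A * (A' * η) := by
      rw [h3]
      apply norm_sum_le_card M u
      intro b j _
      apply norm_sum_le_card M w
      intro b' j' hj'
      by_cases hjn : j + n < M
      · rw [if_pos hjn]
        exact hgf b b' (j + n) hjn j' hj'
      · rw [if_neg hjn, norm_zero]
        exact hη.le
    rw [h1, map_add, add_sub_assoc]
    exact (norm_add_le _ _).trans (add_le_add h2 h4)
  refine ⟨x + ut, y - wt, by simpa using hutn, ?_, ?_, ?_⟩
  · rw [sub_sub_cancel_left, norm_neg]
    exact hwtn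
  · -- main estimate
    intro D c C hC hc hNc
    have hcn : ∀ n, ‖c n‖ ≤ C := fun n => NB.coeff hp hC hNc n
    have t1 := tail hp hTR hL x y hC hc hNc
    have t2 := tail hp hTR hM0 ut wt hC hc hNc
    have t3 := tail hp hTR hL x wt hC hc hNc
    have t4 := tail hp hTR hM0 ut y hC hc hNc
    -- main parts
    have m3 : ‖∑ n ∈ range (2 * L), vlp L n * c n * wt ((T ^ n) x)‖ ≤ 6 * L * A' * η * C := by
      refine (norm_sum_le _ _).trans ?_
      have : ∀ n ∈ range (2 * L), ‖vlp L n * c n * wt ((T ^ n) x)‖ ≤ 3 * C * (A' * η) := by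
        intro n hn
        rw [norm_mul, norm_mul]
        refine mul_le_mul (mul_le_mul norm_vlp_le (hcn n) (norm_nonneg _) (by norm_num))
          (e3 _ ?_) (norm_nonneg _) (by positivity)
        exact mem_union_left _ (mem_image.2 ⟨n, hn, rfl⟩)
      refine (sum_le_sum this).trans (le_of_eq ?_)
      rw [sum_const, card_range, nsmul_eq_mul]
      push_cast
      ring
    have m4 : ‖∑ n ∈ range (2 * M), vlp M n * c n * y ((T ^ n) ut)‖ ≤ 6 * M * A * η * C := by
      refine (norm_sum_le _ _).trans ?_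
      have : ∀ n ∈ range (2 * M), ‖vlp M n * c n * y ((T ^ n) ut)‖ ≤ 3 * C * (A * η) := by
        intro n hn
        rw [norm_mul, norm_mul]
        exact mul_le_mul (mul_le_mul norm_vlp_le (hcn n) (norm_nonneg _) (by norm_num))
          (e4 n (mem_range.1 hn)) (norm_nonneg _) (by positivity)
      refine (sum_le_sum this).trans (le_of_eq ?_)
      rw [sum_const, card_range, nsmul_eq_mul]
      push_cast
      ring
    -- the difference of the two principal parts
    have m12 : ‖∑ n ∈ range (2 * L), vlp L n * c n * y ((T ^ n) x) -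
        ∑ n ∈ range (2 * M), vlp M n * c n * wt ((T ^ n) ut)‖ ≤
        (ε / 8 + ε / 8 + 6 * M * (W0 * (A * (2 * M * (C0 * η))) + A * (A' * η))) * C := by
      have s1 : ∑ n ∈ range (2 * M), vlp M n * c n * wt ((T ^ n) ut) =
          ∑ n ∈ range (2 * M), vlp M n * c n * (wt ((T ^ n) ut) - ∑ b, sp M (u b) (w b) n) +
          ∑ n ∈ range M, c n * ∑ b, sp M (u b) (w b) n := by
        have : ∑ n ∈ range M, c n * ∑ b, sp M (u b) (w b) n =
            ∑ n ∈ range (2 * M), vlp M n * c n * ∑ b, sp M (u b) (w b) n := by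
          have h1 : ∑ n ∈ range M, c n * ∑ b, sp M (u b) (w b) n =
              ∑ n ∈ range M, vlp M n * c n * ∑ b, sp M (u b) (w b) n :=
            sum_congr rfl fun n hn => by
              rw [mem_range] at hn
              rw [vlp_one hM0 hn.le, one_mul]
          rw [h1]
          apply sum_subset (range_subset_range.2 (by omega))
          intro n _ hn
          rw [mem_range] at hn
          have : ∑ b, sp M (u b) (w b) n = 0 := by
            apply sum_eq_zero
            intro b _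
            unfold sp
            rw [show M - n = 0 by omega, range_zero, sum_empty]
          rw [this, mul_zero]
        rw [this, ← sum_add_distrib]
        exact sum_congr rfl fun n _ => by ring
      have s2 : ∑ n ∈ range M, c n * ∑ b, sp M (u b) (w b) n =
          ∑ n ∈ range M, c n * (∑ b, sp M (u b) (w b) n - vlp L n * kap M n * a n) +
          ∑ n ∈ range (2 * L), c n * (vlp L n * kap M n * a n) := by
        have : ∑ n ∈ range (2 * L), c n * (vlp L n * kap M n * a n) =
            ∑ n ∈ range M, c n * (vlp L n * kap M n * a n) := by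
          apply sum_subset (range_subset_range.2 hML)
          intro n _ hn
          rw [mem_range] at hn
          rw [vlp_zero (by omega)]
          ring
        rw [this, ← sum_add_distrib]
        exact sum_congr rfl fun n _ => by ring
      have s3 : ∑ n ∈ range (2 * L), vlp L n * c n * y ((T ^ n) x) =
          ∑ n ∈ range (2 * L), vlp L n * c n * ((1 - kap M n) * a n) +
          ∑ n ∈ range (2 * L), c n * (vlp L n * kap M n * a n) := by
        rw [← sum_add_distrib]
        exact sum_congr rfl fun n _ => by rw [ha]; ring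
      have b1 : ‖∑ n ∈ range (2 * M), vlp M n * c n *
          (wt ((T ^ n) ut) - ∑ b, sp M (u b) (w b) n)‖ ≤
          6 * M * (W0 * (A * (2 * M * (C0 * η))) + A * (A' * η)) * C := by
        refine (norm_sum_le _ _).trans ?_
        have : ∀ n ∈ range (2 * M), ‖vlp M n * c n *
            (wt ((T ^ n) ut) - ∑ b, sp M (u b) (w b) n)‖ ≤
            3 * C * (W0 * (A * (2 * M * (C0 * η))) + A * (A' * η)) := by
          intro n hn
          rw [norm_mul, norm_mul]
          exact mul_le_mul (mul_le_mul norm_vlp_le (hcn n) (norm_nonneg _) (by norm_num))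
            (e1 n (mem_range.1 hn)) (norm_nonneg _) (by positivity)
        refine (sum_le_sum this).trans (le_of_eq ?_)
        rw [sum_const, card_range, nsmul_eq_mul]
        push_cast
        ring
      have b2 : ‖∑ n ∈ range M, c n *
          (∑ b, sp M (u b) (w b) n - vlp L n * kap M n * a n)‖ ≤ ε / 8 * C := by
        refine (norm_sum_le _ _).trans ?_
        have : ∀ n ∈ range M, ‖c n * (∑ b, sp M (u b) (w b) n - vlp L n * kap M n * a n)‖ ≤
            C * (ε / (8 * M)) := by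
          intro n hn
          rw [norm_mul]
          exact mul_le_mul (hcn n) (huw n (mem_range.1 hn)).le (norm_nonneg _) hC
        refine (sum_le_sum this).trans (le_of_eq ?_)
        rw [sum_const, card_range, nsmul_eq_mul]
        field_simp
      have b3 : ‖∑ n ∈ range (2 * L), vlp L n * c n * ((1 - kap M n) * a n)‖ ≤ ε / 8 * C := by
        refine (norm_sum_le _ _).trans ?_
        have : ∀ n ∈ range (2 * L), ‖vlp L n * c n * ((1 - kap M n) * a n)‖ ≤
            3 * (n : ℝ) * ‖a n‖ / M * C := by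
          intro n _
          rw [norm_mul, norm_mul, norm_mul]
          have h1 := mul_le_mul (norm_vlp_le (L := L) (n := n)) (hcn n) (norm_nonneg _)
            (by norm_num : (0 : ℝ) ≤ 3)
          have h2 := mul_le_mul_of_nonneg_right (norm_one_sub_kap (n := n) hM0) (norm_nonneg (a n))
          refine (mul_le_mul h1 h2 (by positivity) (by positivity)).trans (le_of_eq ?_)
          ring
        refine (sum_le_sum this).trans ?_
        rw [← sum_mul, ← sum_div]
        exact mul_le_mul_of_nonneg_right hMa hC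
      rw [s1, s2, s3]
      have e : ∀ P Q R S : ℂ, P + Q - (R + (S + Q)) = P - R - S := fun P Q R S => by ring
      rw [e]
      refine (norm_sub_le _ _).trans ?_
      have h1 := norm_sub_le (∑ n ∈ range (2 * L), vlp L n * c n * ((1 - kap M n) * a n))
        (∑ n ∈ range (2 * M), vlp M n * c n * (wt ((T ^ n) ut) - ∑ b, sp M (u b) (w b) n))
      linarith
    have e : ∑ n ∈ range D, c n * (y - wt) ((T ^ n) (x + ut)) =
        (∑ n ∈ range D, c n * y ((T ^ n) x) -
          ∑ n ∈ range (2 * L), vlp L n * c n * y ((T ^ n) x)) -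
        (∑ n ∈ range D, c n * wt ((T ^ n) ut) -
          ∑ n ∈ range (2 * M), vlp M n * c n * wt ((T ^ n) ut)) -
        (∑ n ∈ range D, c n * wt ((T ^ n) x) -
          ∑ n ∈ range (2 * L), vlp L n * c n * wt ((T ^ n) x)) +
        (∑ n ∈ range D, c n * y ((T ^ n) ut) -
          ∑ n ∈ range (2 * M), vlp M n * c n * y ((T ^ n) ut)) -
        ∑ n ∈ range (2 * L), vlp L n * c n * wt ((T ^ n) x) +
        ∑ n ∈ range (2 * M), vlp M n * c n * y ((T ^ n) ut) +
        (∑ n ∈ range (2 * L), vlp L n * c n * y ((T ^ n) x) -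
        ∑ n ∈ range (2 * M), vlp M n * c n * wt ((T ^ n) ut)) := by
      have : ∑ n ∈ range D, c n * (y - wt) ((T ^ n) (x + ut)) =
          ∑ n ∈ range D, c n * y ((T ^ n) x) - ∑ n ∈ range D, c n * wt ((T ^ n) ut) -
          ∑ n ∈ range D, c n * wt ((T ^ n) x) + ∑ n ∈ range D, c n * y ((T ^ n) ut) := by
        rw [← sum_sub_distrib, ← sum_sub_distrib, ← sum_add_distrib]
        refine sum_congr rfl fun n _ => ?_
        rw [ContinuousLinearMap.sub_apply, map_add, map_add, map_add]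
        ring
      rw [this]
      ring
    rw [e]
    have hx1 : 4 * C0 * C * ‖(T ^ L) x‖ * ‖y‖ + 4 * C0 * C * ‖(T ^ L) x‖ * ‖wt‖ ≤ ε / 8 * C := by
      have h1 : 4 * C0 * ‖(T ^ L) x‖ * (‖y‖ + ‖wt‖) ≤ ε / 8 :=
        (mul_le_mul_of_nonneg_left (by linarith) (by positivity)).trans hLx
      have h2 := mul_le_mul_of_nonneg_right h1 hC
      linarith
    have hx2 : 4 * C0 * C * ‖(T ^ M) ut‖ * ‖y‖ + 4 * C0 * C * ‖(T ^ M) ut‖ * ‖wt‖ ≤
        4 * C0 * (A * (M * C0)) * (‖y‖ + W0) * η * C := by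
      have h1 : 4 * C0 * ‖(T ^ M) ut‖ * (‖y‖ + ‖wt‖) ≤
          4 * C0 * (A * (M * (C0 * η))) * (‖y‖ + W0) :=
        mul_le_mul (mul_le_mul_of_nonneg_left e2 (by positivity)) (by linarith) (by positivity)
          (by positivity)
      have h2 := mul_le_mul_of_nonneg_right h1 hC
      linarith
    have hK1 : K * η * C ≤ ε / 2 * C := mul_le_mul_of_nonneg_right hηK hC
    have hK2 : 0 ≤ A' * η * C := by positivity
    have hεC : 0 ≤ ε * C := by positivity
    rw [hK] at hK1
    generalize (∑ n ∈ range D, c n * y ((T ^ n) x) -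
          ∑ n ∈ range (2 * L), vlp L n * c n * y ((T ^ n) x)) = P1 at *
    generalize (∑ n ∈ range D, c n * wt ((T ^ n) ut) -
          ∑ n ∈ range (2 * M), vlp M n * c n * wt ((T ^ n) ut)) = P2 at *
    generalize (∑ n ∈ range D, c n * wt ((T ^ n) x) -
          ∑ n ∈ range (2 * L), vlp L n * c n * wt ((T ^ n) x)) = P3 at *
    generalize (∑ n ∈ range D, c n * y ((T ^ n) ut) -
          ∑ n ∈ range (2 * M), vlp M n * c n * y ((T ^ n) ut)) = P4 at *
    generalize ∑ n ∈ range (2 * L), vlp L n * c n * wt ((T ^ n) x) = P5 at *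
    generalize ∑ n ∈ range (2 * M), vlp M n * c n * y ((T ^ n) ut) = P6 at *
    generalize (∑ n ∈ range (2 * L), vlp L n * c n * y ((T ^ n) x) -
        ∑ n ∈ range (2 * M), vlp M n * c n * wt ((T ^ n) ut)) = P7 at *
    have n1 : ‖P1 - P2 - P3 + P4 - P5 + P6 + P7‖ ≤
        ‖P1‖ + ‖P2‖ + ‖P3‖ + ‖P4‖ + ‖P5‖ + ‖P6‖ + ‖P7‖ := by
      have a1 := norm_add_le (P1 - P2 - P3 + P4 - P5 + P6) P7
      have a2 := norm_add_le (P1 - P2 - P3 + P4 - P5) P6
      have a3 := norm_sub_le (P1 - P2 - P3 + P4) P5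
      have a4 := norm_add_le (P1 - P2 - P3) P4
      have a5 := norm_sub_le (P1 - P2) P3
      have a6 := norm_sub_le P1 P2
      linarith
    nlinarith
  · intro z hz
    have h1 := e3 z (mem_union_right _ hz)
    rw [ContinuousLinearMap.sub_apply, sub_sub_cancel_left, norm_neg]
    refine h1.trans ?_
    have h2 : A' * η ≤ K * η := by
      apply mul_le_mul_of_nonneg_right _ hη.le
      rw [hK]
      have : 0 ≤ 4 * C0 * (A * (M * C0)) * (‖y‖ + W0) + 6 * L * A' + 6 * M * A +
        6 * M * (W0 * (A * (2 * M * C0)) + A * A') := by positivity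
      linarith
    linarith

end Pool.Agent.Y280
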