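import Pool.Agent.Y280.Crit

/-!
# Typical operators: the abstract theorem
-/

set_option autoImplicit false
open Finset Filter Topology

namespace Pool.Agent.Y280

variable {E : Type*} [NormedAddCommGroup E] [NormedSpace ℂ E]

/-- The strong operator topology on a set of operators. -/
@[reducible] noncomputable def sot (C : Set (E →L[ℂ] E)) : TopologicalSpace C :=
  TopologicalSpace.induced (fun (T : C) (x : E) => (T : E →L[ℂ] E) x) Pi.topologicalSpace

/-- The strong* operator topology on a set of operators. -/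
@[reducible] noncomputable def sotStar (C : Set (E →L[ℂ] E)) : TopologicalSpace C :=
  TopologicalSpace.induced (fun T : C => ((fun x : E => (T : E →L[ℂ] E) x),
    (fun y : StrongDual ℂ E => y.comp (T : E →L[ℂ] E)))) instTopologicalSpaceProd

lemma sotStar_le_sot (C : Set (E →L[ℂ] E)) : sotStar C ≤ sot C := by
  unfold sotStar sot instTopologicalSpaceProd
  rw [induced_inf, induced_compose]
  exact inf_le_left

/-- The noncyclic vectors are dense. -/
def Good (T : E →L[ℂ] E) : Prop :=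
  ∀ (x₀ : E) (ε : ℝ), 0 < ε → ∃ (x : E) (y : StrongDual ℂ E), x ≠ 0 ∧ ‖x - x₀‖ < ε ∧ y ≠ 0 ∧
    ∀ n, y ((T ^ n) x) = 0

/-- The data which replace the basis of `ℓ_p`. -/
structure Frame (p q : ℝ) (f : ℕ → E) (g : ℕ → StrongDual ℂ E) (Q : ℕ → E →L[ℂ] E) : Prop where
  hf : ∀ (s : Finset ℕ) (u : ℕ → ℂ), ‖∑ i ∈ s, u i • f i‖ ≤ (∑ i ∈ s, ‖u i‖ ^ p) ^ (1 / p)
  hg : ∀ (s : Finset ℕ) (w : ℕ → ℂ), ‖∑ i ∈ s, w i • g i‖ ≤ (∑ i ∈ s, ‖w i‖ ^ q) ^ (1 / q)
  hfg : ∀ i j, g i (f j) = if i = j then 1 else 0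
  hgx : ∀ x, Tendsto (fun i => g i x) atTop (𝓝 0)
  hyf : ∀ y : StrongDual ℂ E, Tendsto (fun i => y (f i)) atTop (𝓝 0)
  hQ : ∀ x, Tendsto (fun k => Q k x) atTop (𝓝 0)
  hQy : ∀ y : StrongDual ℂ E, Tendsto (fun k => y.comp (Q k)) atTop (𝓝 0)
  hQf : ∀ k i, k ≤ i → Q k (f i) = f i
  hQn : ∀ k, ‖Q k‖ ≤ 1

/-- The position of the block vector `(b, j)`. -/
def pos (k M b j : ℕ) : ℕ := k + b * M + j

lemma pos_inj {k M b j b' j' : ℕ} (hj : j < M) (hj' : j' < M) (h : pos k M b j = pos k M b' j') :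
    b = b' ∧ j = j' := by
  unfold pos at h
  have h1 : b * M + j = b' * M + j' := by omega
  have hb : b = b' := by
    have e1 : (b * M + j) / M = b := by
      rw [mul_comm, Nat.mul_add_div (by omega), Nat.div_eq_of_lt hj, add_zero]
    have e2 : (b' * M + j') / M = b' := by
      rw [mul_comm, Nat.mul_add_div (by omega), Nat.div_eq_of_lt hj', add_zero]
    rw [← e1, ← e2, h1]
  subst hb
  exact ⟨rfl, by omega⟩

/-- The block shift. -/
noncomputable def blk (f : ℕ → E) (g : ℕ → StrongDual ℂ E) (k B M : ℕ) : E →L[ℂ] E :=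
  ∑ b ∈ range B, ∑ j ∈ range (M - 1), (g (pos k M b j)).smulRight (f (pos k M b (j + 1)))

lemma blk_apply (f : ℕ → E) (g : ℕ → StrongDual ℂ E) (k B M : ℕ) (x : E) :
    blk f g k B M x =
      ∑ b ∈ range B, ∑ j ∈ range (M - 1), g (pos k M b j) x • f (pos k M b (j + 1)) := by
  unfold blk
  simp only [_root_.sum_apply, ContinuousLinearMap.smulRight_apply]

section
variable {p q : ℝ} {f : ℕ → E} {g : ℕ → StrongDual ℂ E} {Q : ℕ → E →L[ℂ] E}

lemma Frame.blk_f (h : Frame p q f g Q) {k B M b j : ℕ} (hb : b < B) (hj : j < M) :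
    blk f g k B M (f (pos k M b j)) = if j + 1 < M then f (pos k M b (j + 1)) else 0 := by
  rw [blk_apply]
  have e : ∀ b' ∈ range B, ∀ j' ∈ range (M - 1),
      g (pos k M b' j') (f (pos k M b j)) • f (pos k M b' (j' + 1)) =
        if b' = b ∧ j' = j then f (pos k M b (j + 1)) else 0 := by
    intro b' _ j' hj'
    rw [mem_range] at hj'
    rw [h.hfg]
    by_cases hc : b' = b ∧ j' = j
    · rw [if_pos hc, hc.1, hc.2, if_pos rfl, one_smul]
    · rw [if_neg hc, if_neg, zero_smul]
      intro hc'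
      exact hc (pos_inj (by omega) hj hc')
  rw [sum_congr rfl fun b' hb' => sum_congr rfl fun j' hj' => e b' hb' j' hj']
  rw [sum_eq_single b]
  · split_ifs with hjM
    · rw [sum_eq_single j]
      · simp
      · intro j' _ hj'
        rw [if_neg (fun h => hj' h.2)]
      · intro h'
        rw [mem_range] at h'
        omega
    · apply sum_eq_zero
      intro j' hj'
      rw [mem_range] at hj'
      rw [if_neg (fun h => by omega)]
  · intro b' _ hb'
    apply sum_eq_zero
    intro j' _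
    rw [if_neg (fun h => hb' h.1)]
  · intro h'
    rw [mem_range] at h'
    omega

lemma tendsto_pos (M b j : ℕ) : Tendsto (fun k => pos k M b j) atTop atTop := by
  apply tendsto_atTop_mono (f := fun k => k) _ tendsto_id
  intro k
  unfold pos
  omega

lemma Frame.norm_f_le (h : Frame p q f g Q) (i : ℕ) : ‖f i‖ ≤ 1 := by
  have := h.hf {i} (fun _ => 1)
  simpa using this

lemma Frame.norm_g_le (h : Frame p q f g Q) (i : ℕ) : ‖g i‖ ≤ 1 := by
  have := h.hg {i} (fun _ => 1)
  simpa using this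

lemma Frame.blk_tendsto (h : Frame p q f g Q) (B M : ℕ) (x : E) :
    Tendsto (fun k => blk f g k B M x) atTop (𝓝 0) := by
  simp only [blk_apply]
  rw [show (0 : E) = ∑ b ∈ range B, ∑ j ∈ range (M - 1), 0 by simp]
  refine tendsto_finsetSum _ fun b _ => tendsto_finsetSum _ fun j _ => ?_
  rw [tendsto_zero_iff_norm_tendsto_zero]
  have h1 : Tendsto (fun k => ‖g (pos k M b j) x‖) atTop (𝓝 0) := by
    have := ((h.hgx x).comp (tendsto_pos M b j)).norm
    simpa using this
  refine squeeze_zero (fun k => norm_nonneg _) (fun k => ?_) h1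
  rw [norm_smul]
  exact mul_le_of_le_one_right (norm_nonneg _) (h.norm_f_le _)

lemma Frame.comp_blk_tendsto (h : Frame p q f g Q) (B M : ℕ) (y : StrongDual ℂ E) :
    Tendsto (fun k => y.comp (blk f g k B M)) atTop (𝓝 0) := by
  have e : ∀ k, y.comp (blk f g k B M) =
      ∑ b ∈ range B, ∑ j ∈ range (M - 1), y (f (pos k M b (j + 1))) • g (pos k M b j) := by
    intro k
    ext x
    simp only [ContinuousLinearMap.comp_apply, blk_apply, map_sum, map_smul, _root_.sum_apply,
      _root_.smul_apply, smul_eq_mul]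
    exact sum_congr rfl fun b _ => sum_congr rfl fun j _ => mul_comm _ _
  simp only [e]
  rw [show (0 : StrongDual ℂ E) = ∑ b ∈ range B, ∑ j ∈ range (M - 1), 0 by simp]
  refine tendsto_finsetSum _ fun b _ => tendsto_finsetSum _ fun j _ => ?_
  rw [tendsto_zero_iff_norm_tendsto_zero]
  have h1 : Tendsto (fun k => ‖y (f (pos k M b (j + 1)))‖) atTop (𝓝 0) := by
    have := ((h.hyf y).comp (tendsto_pos M b (j + 1))).norm
    simpa using this
  refine squeeze_zero (fun k => norm_nonneg _) (fun k => ?_) h1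
  rw [norm_smul]
  exact mul_le_of_le_one_right (norm_nonneg _) (h.norm_g_le _)

end

/-- Operators containing approximate blocks. -/
def D2 (f : ℕ → E) (B M K : ℕ) (ε : ℝ) : Set (E →L[ℂ] E) :=
  {T | ∃ κ : Fin B → ℕ → ℕ, (∀ b j, K ≤ κ b j) ∧
    (∀ b b', ∀ j < M, ∀ j' < M, κ b j = κ b' j' → b = b' ∧ j = j') ∧
    ∀ b, ∀ j < M, ‖T (f (κ b j)) - (if j + 1 < M then f (κ b (j + 1)) else 0)‖ < ε}

/-- Verification of `BL`. -/
lemma BL_of_D2 {p q : ℝ} {f : ℕ → E} {g : ℕ → StrongDual ℂ E}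
    {Q : ℕ → E →L[ℂ] E} (h : Frame p q f g Q) {T : E →L[ℂ] E}
    (hT : ∀ B M K m : ℕ, T ∈ D2 f B M K (1 / ((m : ℝ) + 1))) : BL p q T 1 := by
  classical
  intro ι _ _ M F G ε hε
  obtain ⟨K1, hK1⟩ : ∃ K, ∀ i, K ≤ i → ∀ x ∈ F, ‖g i x‖ ≤ ε := by
    have h1 : ∀ᶠ i in atTop, ∀ x ∈ F, ‖g i x‖ ≤ ε := by
      rw [eventually_all_finset]
      intro x _
      have := (h.hgx x).norm
      rw [norm_zero] at this
      exact (this.eventually (gt_mem_nhds hε)).mono fun _ h => h.le
    exact eventually_atTop.1 h1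
  obtain ⟨K2, hK2⟩ : ∃ K, ∀ i, K ≤ i → ∀ y ∈ G, ‖y (f i)‖ ≤ ε := by
    have h1 : ∀ᶠ i in atTop, ∀ y ∈ G, ‖y (f i)‖ ≤ ε := by
      rw [eventually_all_finset]
      intro y _
      have := (h.hyf y).norm
      rw [norm_zero] at this
      exact (this.eventually (gt_mem_nhds hε)).mono fun _ h => h.le
    exact eventually_atTop.1 h1
  obtain ⟨m, hm⟩ := exists_nat_one_div_lt hε
  obtain ⟨κ, hκK, hκi, hκ⟩ := hT (Fintype.card ι) M (max K1 K2) m
  set e := Fintype.equivFin ι
  set k' : ι → ℕ → ℕ := fun b j => κ (e b) j with hk'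
  have hinj : ∀ b b', ∀ j < M, ∀ j' < M, k' b j = k' b' j' → b = b' ∧ j = j' := by
    intro b b' j hj j' hj' hh
    obtain ⟨h1, h2⟩ := hκi (e b) (e b') j hj j' hj' hh
    exact ⟨e.injective h1, h2⟩
  -- reindexing of sums
  have hinj2 : Set.InjOn (fun x : ι × ℕ => k' x.1 x.2)
      ((univ ×ˢ range M : Finset (ι × ℕ)) : Set (ι × ℕ)) := by
    rintro ⟨b, j⟩ hx ⟨b', j'⟩ hx' hh
    simp only [coe_product, coe_univ, coe_range, Set.mem_prod, Set.mem_univ, Set.mem_Iio,
      true_and] at hx hx'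
    obtain ⟨h1, h2⟩ := hinj b b' j hx j' hx' hh
    rw [h1, h2]
  set s : Finset ℕ := (univ ×ˢ range M : Finset (ι × ℕ)).image (fun x => k' x.1 x.2) with hs
  -- coordinates of a family
  have hco : ∀ u : ι → ℕ → ℂ, ∃ v : ℕ → ℂ, ∀ b, ∀ j < M, v (k' b j) = u b j := by
    intro u
    refine ⟨fun i => ∑ x ∈ (univ ×ˢ range M : Finset (ι × ℕ)), if k' x.1 x.2 = i then
      u x.1 x.2 else 0, ?_⟩
    intro b j hj
    beta_reduce
    rw [sum_eq_single (b, j)]
    · simp
    · rintro ⟨b', j'⟩ hx hne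
      rw [mem_product, mem_range] at hx
      rw [if_neg]
      intro hh
      obtain ⟨h1, h2⟩ := hinj b' b j' hx.2 j hj hh
      exact hne (by rw [h1, h2])
    · intro hx
      exact absurd (mem_product.2 ⟨mem_univ _, mem_range.2 hj⟩) hx
  have hre1 : ∀ u : ι → ℕ → ℂ, ∀ v : ℕ → ℂ, (∀ b, ∀ j < M, v (k' b j) = u b j) →
      (∑ b : ι, ∑ j ∈ range M, u b j • f (k' b j) = ∑ i ∈ s, v i • f i) ∧
      (∑ b : ι, ∑ j ∈ range M, u b j • g (k' b j) = ∑ i ∈ s, v i • g i) ∧
      (∀ r : ℝ, ∑ b : ι, ∑ j ∈ range M, ‖u b j‖ ^ r = ∑ i ∈ s, ‖v i‖ ^ r) := by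
    intro u v huv
    refine ⟨?_, ?_, fun r => ?_⟩
    · rw [hs, sum_image hinj2, sum_product]
      exact sum_congr rfl fun b _ => sum_congr rfl fun j hj => by
        rw [huv b j (mem_range.1 hj)]
    · rw [hs, sum_image hinj2, sum_product]
      exact sum_congr rfl fun b _ => sum_congr rfl fun j hj => by
        rw [huv b j (mem_range.1 hj)]
    · rw [hs, sum_image hinj2, sum_product]
      exact sum_congr rfl fun b _ => sum_congr rfl fun j hj => by
        rw [huv b j (mem_range.1 hj)]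
  refine ⟨fun b j => f (k' b j), fun b j => g (k' b j), ?_, ?_, ?_, ?_, ?_, ?_⟩
  · intro u
    obtain ⟨v, hv⟩ := hco u
    obtain ⟨e1, _, e3⟩ := hre1 u v hv
    rw [e1, e3, one_mul]
    exact h.hf s v
  · intro w
    obtain ⟨v, hv⟩ := hco w
    obtain ⟨_, e2, e3⟩ := hre1 w v hv
    rw [e2, e3, one_mul]
    exact h.hg s v
  · intro b j hj
    exact (hκ (e b) j hj).le.trans hm.le
  · intro b b' j hj j' hj'
    rw [h.hfg]
    by_cases hc : b = b' ∧ j = j'
    · rw [if_pos hc, if_pos (by rw [hc.1, hc.2])]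
      simpa using hε.le
    · rw [if_neg hc, if_neg]
      · simpa using hε.le
      · intro hh
        obtain ⟨h1, h2⟩ := hinj b' b j' hj' j hj hh
        exact hc ⟨h1.symm, h2.symm⟩
  · intro x hx b j hj
    exact hK1 _ ((le_max_left _ _).trans (hκK _ _)) x hx
  · intro y hy b j hj
    exact hK2 _ ((le_max_right _ _).trans (hκK _ _)) y hy

section typical

variable {W : Type*} [TopologicalSpace W]

lemma cont_pow (Φ : W → E →L[ℂ] E) (hc : ∀ x, Continuous fun w => Φ w x) (hn : ∀ w, ‖Φ w‖ ≤ 1)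
    (n : ℕ) (x : E) : Continuous fun w => (Φ w ^ n) x := by
  induction n with
  | zero => simpa using continuous_const
  | succ n ih =>
    rw [continuous_iff_continuousAt]
    intro w0
    have e : ∀ w, (Φ w ^ (n + 1)) x = Φ w ((Φ w ^ n) x) := fun w => by
      rw [pow_succ', mul_apply_eq_comp]
    unfold ContinuousAt
    simp only [e]
    rw [tendsto_iff_norm_sub_tendsto_zero]
    have h1 : Tendsto (fun w => ‖(Φ w ^ n) x - (Φ w0 ^ n) x‖ +
        ‖Φ w ((Φ w0 ^ n) x) - Φ w0 ((Φ w0 ^ n) x)‖) (𝓝 w0) (𝓝 (0 + 0)) := by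
      apply Tendsto.add
      · rw [← tendsto_iff_norm_sub_tendsto_zero]
        exact ih.tendsto w0
      · rw [← tendsto_iff_norm_sub_tendsto_zero]
        exact (hc ((Φ w0 ^ n) x)).tendsto w0
    rw [add_zero] at h1
    refine squeeze_zero (fun w => norm_nonneg _) (fun w => ?_) h1
    have e2 : Φ w ((Φ w ^ n) x) - Φ w0 ((Φ w0 ^ n) x) =
        Φ w ((Φ w ^ n) x - (Φ w0 ^ n) x) + (Φ w ((Φ w0 ^ n) x) - Φ w0 ((Φ w0 ^ n) x)) := by
      rw [map_sub]; abel
    rw [e2]
    refine (norm_add_le _ _).trans (add_le_add ?_ le_rfl)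
    exact ((Φ w).le_opNorm _).trans (mul_le_of_le_one_left (norm_nonneg _) (hn w))

lemma norm_pow_le {T : E →L[ℂ] E} {r : ℝ} (hr : 0 ≤ r) (h : ‖T‖ ≤ r) (n : ℕ) (x : E) :
    ‖(T ^ n) x‖ ≤ r ^ n * ‖x‖ := by
  induction n with
  | zero => simp
  | succ n ih =>
    rw [pow_succ', mul_apply_eq_comp, pow_succ']
    calc ‖T ((T ^ n) x)‖ ≤ ‖T‖ * ‖(T ^ n) x‖ := T.le_opNorm _
      _ ≤ r * (r ^ n * ‖x‖) := mul_le_mul h ih (norm_nonneg _) hr
      _ = _ := by ring

lemma dense_of_seq (U : Set W) (h : ∀ w0, ∃ w : ℕ → W, Tendsto w atTop (𝓝 w0) ∧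
    ∀ᶠ m in atTop, w m ∈ U) : Dense U := by
  intro w0
  obtain ⟨w, h1, h2⟩ := h w0
  exact mem_closure_of_tendsto h1 h2

/-- **The abstract theorem on typical operators.** -/
theorem typical_abs [CompleteSpace E] [TopologicalSpace.SeparableSpace E] {p q : ℝ}
    (hpq : p.HolderConjugate q) {f : ℕ → E} {g : ℕ → StrongDual ℂ E} {Q : ℕ → E →L[ℂ] E}
    (hF : Frame p q f g Q) (Φ : W → E →L[ℂ] E) (hc : ∀ x, Continuous fun w => Φ w x)
    (htend : ∀ (w : ℕ → W) (w0 : W), (∀ x, Tendsto (fun m => Φ (w m) x) atTop (𝓝 (Φ w0 x))) →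
      (∀ y : StrongDual ℂ E, Tendsto (fun m => y.comp (Φ (w m))) atTop (𝓝 (y.comp (Φ w0)))) →
      Tendsto w atTop (𝓝 w0))
    (hn : ∀ w, ‖Φ w‖ ≤ 1) (hTR : ∀ w, TR p (Φ w) 1)
    (hsc : ∀ w, ∀ r : ℝ, 0 ≤ r → r ≤ 1 → ∃ w', Φ w' = (r : ℂ) • Φ w)
    (hblk : ∀ w k B M, ∃ w', Φ w' = (1 - Q k) * Φ w * (1 - Q k) + blk f g k B M) :
    {w | Good (Φ w)} ∈ residual W := by
  classical
  -- the first family
  have hD1 : ∀ (x : E) (ε : ℝ), 0 < ε → {w | ∃ n, ‖(Φ w ^ n) x‖ < ε} ∈ residual W := by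
    intro x ε hε
    apply residual_of_dense_open
    · have : {w | ∃ n, ‖(Φ w ^ n) x‖ < ε} = ⋃ n, {w | ‖(Φ w ^ n) x‖ < ε} := by
        ext w; simp
      rw [this]
      exact isOpen_iUnion fun n => isOpen_lt (cont_pow Φ hc hn n x).norm continuous_const
    · apply dense_of_seq
      intro w0
      have hr : ∀ m : ℕ, (0 : ℝ) ≤ 1 - 1 / ((m : ℝ) + 1) ∧ (1 : ℝ) - 1 / ((m : ℝ) + 1) ≤ 1 ∧
          (1 : ℝ) - 1 / ((m : ℝ) + 1) < 1 := by
        intro m
        have h1 : 0 < 1 / ((m : ℝ) + 1) := by positivity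
        have h2 : 1 / ((m : ℝ) + 1) ≤ 1 := by
          rw [div_le_one (by positivity)]
          have : (0 : ℝ) ≤ m := Nat.cast_nonneg m
          linarith
        exact ⟨by linarith, by linarith, by linarith⟩
      choose w hw using fun m : ℕ => hsc w0 (1 - 1 / ((m : ℝ) + 1)) (hr m).1 (hr m).2.1
      have hlim : Tendsto (fun m : ℕ => (((1 : ℝ) - 1 / ((m : ℝ) + 1) : ℝ) : ℂ)) atTop (𝓝 1) := by
        have h1 : Tendsto (fun m : ℕ => (1 : ℝ) - 1 / ((m : ℝ) + 1)) atTop (𝓝 (1 - 0)) :=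
          tendsto_one_div_add_atTop_nhds_zero_nat.const_sub 1
        rw [sub_zero] at h1
        exact (Complex.continuous_ofReal.tendsto 1).comp h1
      refine ⟨w, htend w w0 ?_ ?_, Eventually.of_forall fun m => ?_⟩
      · intro x
        simp only [hw, _root_.smul_apply]
        simpa using hlim.smul_const (Φ w0 x)
      · intro y
        have e : ∀ m, y.comp (Φ (w m)) =
            (((1 : ℝ) - 1 / ((m : ℝ) + 1) : ℝ) : ℂ) • y.comp (Φ w0) := by
          intro m
          rw [hw]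
          ext x
          simp
        simp only [e]
        simpa using hlim.smul_const (y.comp (Φ w0))
      · obtain ⟨h1, h2, h3⟩ := hr m
        have hnorm : ‖Φ (w m)‖ ≤ 1 - 1 / ((m : ℝ) + 1) := by
          rw [hw, norm_smul, Complex.norm_real, Real.norm_of_nonneg h1]
          exact mul_le_of_le_one_right h1 (hn w0)
        have h4 : Tendsto (fun n : ℕ => (1 - 1 / ((m : ℝ) + 1)) ^ n * ‖x‖) atTop (𝓝 (0 * ‖x‖)) :=
          (tendsto_pow_atTop_nhds_zero_of_lt_one h1 h3).mul_const _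
        rw [zero_mul] at h4
        obtain ⟨n, h5⟩ := (h4.eventually (gt_mem_nhds hε)).exists
        exact ⟨n, (norm_pow_le h1 hnorm n x).trans_lt h5⟩
  -- the second family
  have hD2 : ∀ (B M K : ℕ) (ε : ℝ), 0 < ε → {w | Φ w ∈ D2 f B M K ε} ∈ residual W := by
    intro B M K ε hε
    apply residual_of_dense_open
    · have : {w | Φ w ∈ D2 f B M K ε} = ⋃ (κ : Fin B → ℕ → ℕ) (_ : (∀ b j, K ≤ κ b j) ∧
          (∀ b b', ∀ j < M, ∀ j' < M, κ b j = κ b' j' → b = b' ∧ j = j')),
          ⋂ b : Fin B, ⋂ j ∈ range M,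
          {w | ‖Φ w (f (κ b j)) - (if j + 1 < M then f (κ b (j + 1)) else 0)‖ < ε} := by
        ext w
        simp only [D2, Set.mem_ofPred_eq, Set.mem_iUnion, Set.mem_iInter, mem_range, exists_prop,
          and_assoc]
      rw [this]
      refine isOpen_iUnion fun κ => isOpen_iUnion fun _ => isOpen_iInter_of_finite fun b =>
        isOpen_biInter_finset fun j _ => ?_
      exact isOpen_lt ((hc _).sub continuous_const).norm continuous_const
    · apply dense_of_seq
      intro w0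
      choose w hw using fun k => hblk w0 k B M
      have hQ1 : ∀ x, Tendsto (fun k => (1 - Q k) x) atTop (𝓝 x) := by
        intro x
        have := (hF.hQ x).const_sub x
        rw [sub_zero] at this
        exact this
      refine ⟨w, htend w w0 ?_ ?_, ?_⟩
      · intro x
        simp only [hw, _root_.add_apply, mul_apply_eq_comp]
        have h1 : Tendsto (fun k => (1 - Q k) (Φ w0 ((1 - Q k) x))) atTop (𝓝 (Φ w0 x)) := by
          have h2 : Tendsto (fun k => Φ w0 ((1 - Q k) x)) atTop (𝓝 (Φ w0 x)) :=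
            ((Φ w0).continuous.tendsto x).comp (hQ1 x)
          have h3 : Tendsto (fun k => Q k (Φ w0 ((1 - Q k) x))) atTop (𝓝 0) := by
            rw [tendsto_zero_iff_norm_tendsto_zero]
            have h4 : Tendsto (fun k => ‖Φ w0 ((1 - Q k) x) - Φ w0 x‖ + ‖Q k (Φ w0 x)‖) atTop
                (𝓝 (0 + 0)) := by
              refine Tendsto.add (tendsto_iff_norm_sub_tendsto_zero.1 h2) ?_
              exact tendsto_zero_iff_norm_tendsto_zero.1 (hF.hQ _)
            rw [add_zero] at h4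
            refine squeeze_zero (fun k => norm_nonneg _) (fun k => ?_) h4
            have e : Q k (Φ w0 ((1 - Q k) x)) =
                Q k (Φ w0 ((1 - Q k) x) - Φ w0 x) + Q k (Φ w0 x) := by
              rw [map_sub]; abel
            rw [e]
            refine (norm_add_le _ _).trans (add_le_add ?_ le_rfl)
            exact ((Q k).le_opNorm _).trans (mul_le_of_le_one_left (norm_nonneg _) (hF.hQn k))
          have h4 := h2.sub h3
          rw [sub_zero] at h4
          exact h4
        have h2 := h1.add (hF.blk_tendsto B M x)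
        rw [add_zero] at h2
        exact h2
      · intro y
        have e : ∀ k, y.comp (Φ (w k)) = y.comp (Φ w0) -
            ((y.comp (Q k)).comp (Φ w0 * (1 - Q k)) + (y.comp (Φ w0)).comp (Q k)) +
            y.comp (blk f g k B M) := by
          intro k
          rw [hw]
          ext x
          simp only [ContinuousLinearMap.comp_apply, _root_.add_apply, _root_.sub_apply,
            mul_apply_eq_comp, one_apply_eq_self, map_add, map_sub]
          ring
        simp only [e]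
        have h1 : Tendsto (fun k => (y.comp (Q k)).comp (Φ w0 * (1 - Q k))) atTop (𝓝 0) := by
          rw [tendsto_zero_iff_norm_tendsto_zero]
          have h2 : Tendsto (fun k => ‖y.comp (Q k)‖ * 2) atTop (𝓝 (0 * 2)) :=
            (tendsto_zero_iff_norm_tendsto_zero.1 (hF.hQy y)).mul_const 2
          rw [zero_mul] at h2
          refine squeeze_zero (fun k => norm_nonneg _) (fun k => ?_) h2
          refine (ContinuousLinearMap.opNorm_comp_le _ _).trans
            (mul_le_mul_of_nonneg_left ?_ (norm_nonneg _))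
          refine (norm_mul_le _ _).trans ?_
          have h3 : ‖(1 : E →L[ℂ] E) - Q k‖ ≤ 2 := by
            refine (norm_sub_le _ _).trans ?_
            have := hF.hQn k
            have h4 : ‖(1 : E →L[ℂ] E)‖ ≤ 1 := ContinuousLinearMap.norm_id_le
            linarith
          nlinarith [hn w0, norm_nonneg (Φ w0), norm_nonneg ((1 : E →L[ℂ] E) - Q k)]
        have h2 := h1.add (hF.hQy (y.comp (Φ w0)))
        rw [add_zero] at h2
        have h3 := (h2.const_sub (y.comp (Φ w0))).add (hF.comp_blk_tendsto B M y)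
        rw [sub_zero, add_zero] at h3
        exact h3
      · filter_upwards [eventually_ge_atTop K] with k hk
        refine ⟨fun b j => pos k M b j, fun b j => ?_, ?_, ?_⟩
        · beta_reduce; unfold pos; omega
        · intro b b' j hj j' hj' hh
          obtain ⟨h1, h2⟩ := pos_inj hj hj' hh
          exact ⟨Fin.ext h1, h2⟩
        · intro b j hj
          have h1 : (1 - Q k) (f (pos k M b j)) = 0 := by
            rw [_root_.sub_apply, one_apply_eq_self, hF.hQf k _ (by unfold pos; omega), sub_self]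
          rw [hw, _root_.add_apply, mul_apply_eq_comp, h1, map_zero, zero_add,
            hF.blk_f b.2 hj, sub_self, norm_zero]
          exact hε
  -- conclusion
  have hE : Nonempty E := ⟨0⟩
  have h1 : ∀ᶠ w in residual W, ∀ k m : ℕ,
      ∃ n, ‖(Φ w ^ n) (TopologicalSpace.denseSeq E k)‖ < 1 / ((m : ℝ) + 1) := by
    rw [eventually_countable_forall]
    intro k
    rw [eventually_countable_forall]
    intro m
    exact hD1 _ _ (by positivity)
  have h2 : ∀ᶠ w in residual W, ∀ B M K m : ℕ, Φ w ∈ D2 f B M K (1 / ((m : ℝ) + 1)) := by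
    rw [eventually_countable_forall]
    intro B
    rw [eventually_countable_forall]
    intro M
    rw [eventually_countable_forall]
    intro K
    rw [eventually_countable_forall]
    intro m
    exact hD2 _ _ _ _ (by positivity)
  filter_upwards [h1, h2] with w hw1 hw2
  have hBL := BL_of_D2 hF hw2
  have hst : ∀ x, Tendsto (fun n => (Φ w ^ n) x) atTop (𝓝 0) := by
    intro x
    rw [Metric.tendsto_atTop]
    intro ε hε
    obtain ⟨k, hk⟩ : ∃ k, ‖x - TopologicalSpace.denseSeq E k‖ < ε / 2 := by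
      have := (TopologicalSpace.denseRange_denseSeq E).exists_dist_lt x
        (show (0 : ℝ) < ε / 2 by positivity)
      simpa [dist_eq_norm] using this
    obtain ⟨m, hm⟩ := exists_nat_one_div_lt (show (0 : ℝ) < ε / 2 by positivity)
    obtain ⟨N, hN⟩ := hw1 k m
    refine ⟨N, fun n hn' => ?_⟩
    rw [dist_zero_right]
    have e : (Φ w ^ n) x = (Φ w ^ n) (x - TopologicalSpace.denseSeq E k) +
        (Φ w ^ (n - N)) ((Φ w ^ N) (TopologicalSpace.denseSeq E k)) := by
      rw [← mul_apply_eq_comp, ← pow_add, Nat.sub_add_cancel hn', map_sub]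
      abel
    rw [e]
    have a1 := norm_pow_le zero_le_one (hn w) n (x - TopologicalSpace.denseSeq E k)
    have a2 := norm_pow_le zero_le_one (hn w) (n - N) ((Φ w ^ N) (TopologicalSpace.denseSeq E k))
    rw [one_pow, one_mul] at a1 a2
    have a3 := norm_add_le ((Φ w ^ n) (x - TopologicalSpace.denseSeq E k))
      ((Φ w ^ (n - N)) ((Φ w ^ N) (TopologicalSpace.denseSeq E k)))
    linarith
  intro x₀ ε hε
  obtain ⟨x1, hx1, hx1'⟩ : ∃ x1 : E, x1 ≠ 0 ∧ ‖x1 - x₀‖ < ε / 2 := by
    by_cases hx : x₀ = 0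
    · have hf0 : f 0 ≠ 0 := by
        intro h0
        have := hF.hfg 0 0
        rw [h0, map_zero, if_pos rfl] at this
        exact zero_ne_one this
      refine ⟨((ε / 4 : ℝ) : ℂ) • f 0, smul_ne_zero (by
        rw [Ne, Complex.ofReal_eq_zero]; positivity) hf0, ?_⟩
      rw [hx, sub_zero, norm_smul, Complex.norm_real, Real.norm_of_nonneg (by positivity)]
      have := hF.norm_f_le 0
      nlinarith
    · exact ⟨x₀, hx, by simpa using (by positivity : (0 : ℝ) < ε / 2)⟩
  obtain ⟨x, y, h3, h4, h5⟩ := criterion hpq zero_le_one zero_le_one (hTR w) hBL hst hx1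
    (lt_min (show (0 : ℝ) < ε / 2 by positivity) (norm_pos_iff.2 hx1))
  refine ⟨x, y, ?_, ?_, h4, h5⟩
  · intro hx0
    rw [hx0, zero_sub, norm_neg] at h3
    exact absurd (h3.trans_le (min_le_right _ _)) (lt_irrefl _)
  · have e : x - x₀ = (x - x1) + (x1 - x₀) := by abel
    rw [e]
    refine (norm_add_le _ _).trans_lt ?_
    have := h3.trans_le (min_le_left _ _)
    linarith

end typical

end Pool.Agent.Y280
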